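import Pool.Agent.Lib.MP_263cac_full.Defs
set_option autoImplicit false

/-! JOB Alg1: basic closure properties of bounded cochains.
All proofs are immediate from the structure fields (linearity in each slot, bound).
`Coch.sum_slot`: induction on the finset, using `add` and `zero_slot`.
`Coch.ext_dep`: this is `dep`. -/

namespace Pool.MP263F
variable {B : Type} [NonUnitalNormedRing B] [NormedSpace ℂ B]

theorem Coch.zero (n : ℕ) : Coch n 0 (fun (_ : ℕ → B) (_ : B) => (0 : ℂ)) where
  nonneg := le_rfl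
  dep := fun _ _ _ _ => rfl
  add := fun _ _ _ _ _ _ => by rw [add_zero]
  smul := fun _ _ _ _ _ _ => by rw [mul_zero]
  addy := fun _ _ _ => by rw [add_zero]
  smuly := fun _ _ _ => by rw [mul_zero]
  bound := fun w y => by
    rw [norm_zero, zero_mul, zero_mul]

theorem Coch.mono {n : ℕ} {C C' : ℝ} {φ : Form B} (h : Coch n C φ) (hC : C ≤ C') : Coch n C' φ where
  nonneg := h.nonneg.trans hC
  dep := h.dep
  add := h.add
  smul := h.smul
  addy := h.addy
  smuly := h.smuly
  bound := fun w y => by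
    refine (h.bound w y).trans ?_
    have h0 : 0 ≤ ∏ i ∈ Finset.range n, ‖w i‖ := Finset.prod_nonneg fun i _ => norm_nonneg _
    exact mul_le_mul_of_nonneg_right (mul_le_mul_of_nonneg_right hC h0) (norm_nonneg _)

theorem Coch.addd {n : ℕ} {C C' : ℝ} {φ φ' : Form B} (h : Coch n C φ) (h' : Coch n C' φ') :
    Coch n (C + C') (fun w y => φ w y + φ' w y) where
  nonneg := add_nonneg h.nonneg h'.nonneg
  dep := fun w w' y hw => by
    show φ w y + φ' w y = φ w' y + φ' w' y
    rw [h.dep w w' y hw, h'.dep w w' y hw]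
  add := fun i hi w a b y => by
    show φ _ y + φ' _ y = (φ _ y + φ' _ y) + (φ _ y + φ' _ y)
    rw [h.add i hi, h'.add i hi]
    ring
  smul := fun i hi w c a y => by
    show φ _ y + φ' _ y = c * (φ _ y + φ' _ y)
    rw [h.smul i hi, h'.smul i hi]
    ring
  addy := fun w a b => by
    show φ w _ + φ' w _ = (φ w a + φ' w a) + (φ w b + φ' w b)
    rw [h.addy, h'.addy]
    ring
  smuly := fun w c a => by
    show φ w _ + φ' w _ = c * (φ w a + φ' w a)
    rw [h.smuly, h'.smuly]
    ring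
  bound := fun w y => by
    refine (norm_add_le _ _).trans ((add_le_add (h.bound w y) (h'.bound w y)).trans (le_of_eq ?_))
    ring

theorem Coch.csmul {n : ℕ} {C : ℝ} {φ : Form B} (h : Coch n C φ) (c : ℂ) :
    Coch n (‖c‖ * C) (fun w y => c * φ w y) where
  nonneg := mul_nonneg (norm_nonneg c) h.nonneg
  dep := fun w w' y hw => by
    show c * φ w y = c * φ w' y
    rw [h.dep w w' y hw]
  add := fun i hi w a b y => by
    show c * φ _ y = c * φ _ y + c * φ _ y
    rw [h.add i hi]
    ring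
  smul := fun i hi w c' a y => by
    show c * φ _ y = c' * (c * φ _ y)
    rw [h.smul i hi]
    ring
  addy := fun w a b => by
    show c * φ w _ = c * φ w a + c * φ w b
    rw [h.addy]
    ring
  smuly := fun w c' a => by
    show c * φ w _ = c' * (c * φ w a)
    rw [h.smuly]
    ring
  bound := fun w y => by
    show ‖c * φ w y‖ ≤ _
    rw [norm_mul]
    refine (mul_le_mul_of_nonneg_left (h.bound w y) (norm_nonneg c)).trans (le_of_eq ?_)
    ring

theorem Coch.sum {n : ℕ} {ι : Type} (s : Finset ι) (C : ι → ℝ) (φ : ι → Form B)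
    (h : ∀ i ∈ s, Coch n (C i) (φ i)) :
    Coch n (∑ i ∈ s, C i) (fun w y => ∑ i ∈ s, φ i w y) := by
  classical
  induction s using Finset.induction_on with
  | empty =>
    simp only [Finset.sum_empty]
    exact Coch.zero n
  | insert i s hi ih =>
    simp only [Finset.sum_insert hi]
    exact (h i (Finset.mem_insert_self i s)).addd
      (ih fun l hl => h l (Finset.mem_insert_of_mem hl))

theorem Coch.avg {n : ℕ} {ι : Type} [Fintype ι] [Nonempty ι] {C : ℝ} (φ : ι → Form B)
    (h : ∀ i, Coch n C (φ i)) :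
    Coch n C (fun w y => ((Fintype.card ι : ℂ))⁻¹ * ∑ i, φ i w y) := by
  have h1 := (Coch.sum Finset.univ (fun _ => C) φ (fun i _ => h i)).csmul ((Fintype.card ι : ℂ))⁻¹
  refine h1.mono (le_of_eq ?_)
  have hc : (Fintype.card ι : ℝ) ≠ 0 := by
    exact_mod_cast Fintype.card_ne_zero
  rw [norm_inv, Complex.norm_natCast, Finset.sum_const, Finset.card_univ, nsmul_eq_mul,
    inv_mul_cancel_left₀ hc]

theorem Coch.zero_slot {n : ℕ} {C : ℝ} {φ : Form B} (h : Coch n C φ) {i : ℕ} (hi : i < n)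
    (w : ℕ → B) (y : B) (hw : w i = 0) : φ w y = 0 := by
  have h1 := h.smul i hi w 0 0 y
  rw [zero_smul, zero_mul] at h1
  rw [← h1]
  congr 1
  rw [← hw, Function.update_eq_self]

theorem Coch.zero_last {n : ℕ} {C : ℝ} {φ : Form B} (h : Coch n C φ) (w : ℕ → B) :
    φ w 0 = 0 := by
  have h1 := h.smuly w 0 0
  rwa [zero_smul, zero_mul] at h1

theorem Coch.sub_slot {n : ℕ} {C : ℝ} {φ : Form B} (h : Coch n C φ) {i : ℕ} (hi : i < n)
    (w : ℕ → B) (a b y : B) :
    φ (Function.update w i (a - b)) y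
      = φ (Function.update w i a) y - φ (Function.update w i b) y := by
  have h1 := h.add i hi w (a - b) b y
  rw [sub_add_cancel] at h1
  rw [h1, add_sub_cancel_right]

theorem Coch.suby {n : ℕ} {C : ℝ} {φ : Form B} (h : Coch n C φ)
    (w : ℕ → B) (a b : B) : φ w (a - b) = φ w a - φ w b := by
  have h1 := h.addy w (a - b) b
  rw [sub_add_cancel] at h1
  rw [h1, add_sub_cancel_right]

theorem Coch.sum_slot {n : ℕ} {C : ℝ} {φ : Form B} (h : Coch n C φ) {i : ℕ} (hi : i < n)
    {ι : Type} (s : Finset ι) (a : ι → B) (w : ℕ → B) (y : B) :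
    φ (Function.update w i (∑ k ∈ s, a k)) y
      = ∑ k ∈ s, φ (Function.update w i (a k)) y := by
  classical
  induction s using Finset.induction_on with
  | empty =>
    rw [Finset.sum_empty, Finset.sum_empty]
    exact h.zero_slot hi _ y (Function.update_self i 0 w)
  | insert k s hk ih =>
    rw [Finset.sum_insert hk, Finset.sum_insert hk, h.add i hi, ih]

theorem Coch.sum_last {n : ℕ} {C : ℝ} {φ : Form B} (h : Coch n C φ)
    {ι : Type} (s : Finset ι) (a : ι → B) (w : ℕ → B) :
    φ w (∑ k ∈ s, a k) = ∑ k ∈ s, φ w (a k) := by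
  classical
  induction s using Finset.induction_on with
  | empty =>
    rw [Finset.sum_empty, Finset.sum_empty]
    exact h.zero_last w
  | insert k s hk ih =>
    rw [Finset.sum_insert hk, Finset.sum_insert hk, h.addy, ih]

theorem IsCoch.zero (n : ℕ) : IsCoch n (fun (_ : ℕ → B) (_ : B) => (0 : ℂ)) :=
  ⟨0, Coch.zero n⟩

theorem IsCoch.addd {n : ℕ} {φ φ' : Form B} (h : IsCoch n φ) (h' : IsCoch n φ') :
    IsCoch n (fun w y => φ w y + φ' w y) := by
  obtain ⟨C, hC⟩ := h
  obtain ⟨C', hC'⟩ := h'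
  exact ⟨C + C', hC.addd hC'⟩

theorem IsCoch.csmul {n : ℕ} {φ : Form B} (h : IsCoch n φ) (c : ℂ) :
    IsCoch n (fun w y => c * φ w y) := by
  obtain ⟨C, hC⟩ := h
  exact ⟨‖c‖ * C, hC.csmul c⟩

theorem IsCoch.subb {n : ℕ} {φ φ' : Form B} (h : IsCoch n φ) (h' : IsCoch n φ') :
    IsCoch n (fun w y => φ w y - φ' w y) := by
  have h1 := h.addd (h'.csmul (-1))
  have h2 : (fun (w : ℕ → B) (y : B) => φ w y - φ' w y) =
      fun (w : ℕ → B) (y : B) => φ w y + -1 * φ' w y := by
    funext w y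
    ring
  rw [h2]
  exact h1

theorem IsCoch.sum {n : ℕ} {ι : Type} (s : Finset ι) (φ : ι → Form B)
    (h : ∀ i ∈ s, IsCoch n (φ i)) :
    IsCoch n (fun w y => ∑ i ∈ s, φ i w y) := by
  have h' : ∀ i ∈ s, ∃ C : ℝ, Coch n C (φ i) := h
  choose! C hC using h'
  exact ⟨∑ i ∈ s, C i, Coch.sum s C φ hC⟩

/-- uniform constant for finitely many cochains -/
theorem IsCoch.unif {n : ℕ} (s : Finset ℕ) (φ : ℕ → Form B) (h : ∀ i ∈ s, IsCoch n (φ i)) :
    ∃ C : ℝ, ∀ i ∈ s, Coch n C (φ i) := by
  have h' : ∀ i ∈ s, ∃ C : ℝ, Coch n C (φ i) := h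
  choose! C hC using h'
  refine ⟨∑ i ∈ s, C i, fun i hi => (hC i hi).mono ?_⟩
  exact Finset.single_le_sum (f := C) (fun k hk => (hC k hk).nonneg) hi

end Pool.MP263F
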