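import Pool.Agent.Lib.MP_263cac_full.Alg1
set_option autoImplicit false

/-! JOB Alg2: faces preserve bounded cochains; closure of `InD`, `IsInD`.
`Coch.dd`: for `k = 0` uses `‖y * w 0‖ ≤ ‖y‖‖w 0‖` and `∏_{range (n+1)} = w 0 * ∏ shift`
(`Finset.prod_range_succ'`); for `k = n+1` similarly; for `1 ≤ k ≤ n`:
`‖mrg (k-1) w (k-1)‖ ≤ ‖w (k-1)‖ ‖w k‖`.  Linearity in slot `i`: compute `mrg (k-1) (update w i a)`
as an update of `mrg (k-1) w` (slot `i` if `i<k-1`, slot `k-1` if `i = k-1` or `i = k`,
slot `i-1` if `i > k`). For `dep`, use `dep` of `ψ`. -/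

namespace Pool.MP263F
variable {B : Type} [NonUnitalNormedRing B] [NormedSpace ℂ B] [IsScalarTower ℂ B B]
  [SMulCommClass ℂ B B]

section update
variable {B : Type}

theorem alg2_shift_zero (w : ℕ → B) (a : B) : shift (Function.update w 0 a) = shift w := by
  funext j
  unfold shift
  rw [Function.update_of_ne (Nat.succ_ne_zero j)]

theorem alg2_shift_succ (w : ℕ → B) (i : ℕ) (a : B) :
    shift (Function.update w (i + 1) a) = Function.update (shift w) i a := by
  funext j
  unfold shift
  by_cases hj : j = i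
  · subst hj
    rw [Function.update_self, Function.update_self]
  · rw [Function.update_of_ne hj, Function.update_of_ne (by omega)]

theorem alg2_mrg_lt [Mul B] (w : ℕ → B) (m i : ℕ) (a : B) (h : i < m) :
    mrg m (Function.update w i a) = Function.update (mrg m w) i a := by
  funext j
  unfold mrg
  by_cases hj : j = i
  · subst hj
    rw [Function.update_self, if_pos h, Function.update_self]
  · rw [Function.update_of_ne hj, Function.update_of_ne hj, Function.update_of_ne (by omega),
      Function.update_of_ne (by omega)]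
    by_cases h1 : j < m
    · rw [if_pos h1, if_pos h1]
    · rw [if_neg h1, if_neg h1, Function.update_of_ne (by omega)]

theorem alg2_mrg_eq [Mul B] (w : ℕ → B) (m : ℕ) (a : B) :
    mrg m (Function.update w m a) = Function.update (mrg m w) m (a * w (m + 1)) := by
  funext j
  unfold mrg
  rw [Function.update_self, Function.update_of_ne (Nat.succ_ne_self m)]
  by_cases hj : j = m
  · subst hj
    rw [if_neg (lt_irrefl j), if_pos rfl, Function.update_self]
  · rw [Function.update_of_ne hj, Function.update_of_ne hj, if_neg hj, if_neg hj]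
    by_cases h1 : j < m
    · rw [if_pos h1, if_pos h1]
    · rw [if_neg h1, if_neg h1, Function.update_of_ne (by omega)]

theorem alg2_mrg_succ [Mul B] (w : ℕ → B) (m : ℕ) (a : B) :
    mrg m (Function.update w (m + 1) a) = Function.update (mrg m w) m (w m * a) := by
  funext j
  unfold mrg
  rw [Function.update_self, Function.update_of_ne (Nat.succ_ne_self m).symm]
  by_cases hj : j = m
  · subst hj
    rw [if_neg (lt_irrefl j), if_pos rfl, Function.update_self]
  · rw [Function.update_of_ne hj, if_neg hj, if_neg hj]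
    by_cases h1 : j < m
    · rw [if_pos h1, if_pos h1, Function.update_of_ne (by omega)]
    · rw [if_neg h1, if_neg h1, Function.update_of_ne (by omega)]

theorem alg2_mrg_gt [Mul B] (w : ℕ → B) (m i : ℕ) (a : B) (h : m < i) :
    mrg m (Function.update w (i + 1) a) = Function.update (mrg m w) i a := by
  funext j
  unfold mrg
  rw [Function.update_of_ne (by omega : m ≠ i + 1), Function.update_of_ne (by omega : m + 1 ≠ i + 1)]
  by_cases hj : j = i
  · subst hj
    rw [if_neg (by omega), if_neg (by omega), Function.update_self, Function.update_self]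
  · rw [Function.update_of_ne hj]
    by_cases h1 : j < m
    · rw [if_pos h1, if_pos h1, Function.update_of_ne (by omega)]
    · rw [if_neg h1, if_neg h1, Function.update_of_ne (by omega : j + 1 ≠ i + 1)]

end update

theorem alg2_prod {B : Type} [NonUnitalNormedRing B] (w : ℕ → B) (m n : ℕ) (h : m + 1 ≤ n) :
    ∏ i ∈ Finset.range n, ‖mrg m w i‖ ≤ ∏ i ∈ Finset.range (n + 1), ‖w i‖ := by
  induction n, h using Nat.le_induction with
  | base =>
    rw [Finset.prod_range_succ, Finset.prod_range_succ, Finset.prod_range_succ, mul_assoc]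
    have h1 : ∏ i ∈ Finset.range m, ‖mrg m w i‖ = ∏ i ∈ Finset.range m, ‖w i‖ := by
      refine Finset.prod_congr rfl fun i hi => ?_
      unfold mrg
      rw [if_pos (Finset.mem_range.1 hi)]
    have h2 : mrg m w m = w m * w (m + 1) := by
      unfold mrg
      rw [if_neg (lt_irrefl m), if_pos rfl]
    rw [h1, h2]
    exact mul_le_mul_of_nonneg_left (norm_mul_le _ _) (Finset.prod_nonneg fun i _ => norm_nonneg _)
  | succ n hn ih =>
    rw [Finset.prod_range_succ, Finset.prod_range_succ _ (n + 1)]
    have h2 : mrg m w n = w (n + 1) := by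
      unfold mrg
      rw [if_neg (by omega), if_neg (by omega)]
    rw [h2]
    exact mul_le_mul_of_nonneg_right ih (norm_nonneg _)

theorem alg2_first {n : ℕ} {C : ℝ} {ψ : Form B} (h : Coch n C ψ) :
    Coch (n + 1) C (fun w y => ψ (shift w) (y * w 0)) where
  nonneg := h.nonneg
  dep := by
    intro w w' y hw
    rw [hw 0 (Nat.succ_pos n)]
    exact h.dep _ _ _ fun i hi => hw (i + 1) (by omega)
  add := by
    intro i hi w a b y
    rcases i with _ | i
    · rw [alg2_shift_zero, alg2_shift_zero, alg2_shift_zero, Function.update_self,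
        Function.update_self, Function.update_self, mul_add, h.addy]
    · rw [alg2_shift_succ, alg2_shift_succ, alg2_shift_succ,
        Function.update_of_ne (Nat.succ_ne_zero i).symm,
        Function.update_of_ne (Nat.succ_ne_zero i).symm,
        Function.update_of_ne (Nat.succ_ne_zero i).symm]
      exact h.add i (by omega) _ _ _ _
  smul := by
    intro i hi w c a y
    rcases i with _ | i
    · rw [alg2_shift_zero, alg2_shift_zero, Function.update_self,
        Function.update_self, mul_smul_comm, h.smuly]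
    · rw [alg2_shift_succ, alg2_shift_succ,
        Function.update_of_ne (Nat.succ_ne_zero i).symm,
        Function.update_of_ne (Nat.succ_ne_zero i).symm]
      exact h.smul i (by omega) _ _ _ _
  addy := by
    intro w a b
    rw [add_mul, h.addy]
  smuly := by
    intro w c a
    rw [smul_mul_assoc, h.smuly]
  bound := by
    intro w y
    refine (h.bound _ _).trans ?_
    have h0 : 0 ≤ C * ∏ i ∈ Finset.range n, ‖shift w i‖ :=
      mul_nonneg h.nonneg (Finset.prod_nonneg fun i _ => norm_nonneg _)
    refine (mul_le_mul_of_nonneg_left (norm_mul_le y (w 0)) h0).trans (le_of_eq ?_)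
    rw [Finset.prod_range_succ']
    unfold shift
    ring

theorem alg2_last {n : ℕ} {C : ℝ} {ψ : Form B} (h : Coch n C ψ) :
    Coch (n + 1) C (fun w y => ψ w (w n * y)) := by
  have hd : ∀ (w : ℕ → B) (a y : B), ψ (Function.update w n a) y = ψ w y := fun w a y =>
    h.dep _ _ _ fun i hi => Function.update_of_ne hi.ne _ _
  exact
  { nonneg := h.nonneg
    dep := by
      intro w w' y hw
      rw [hw n (Nat.lt_succ_self n)]
      exact h.dep _ _ _ fun i hi => hw i (by omega)
    add := by
      intro i hi w a b y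
      by_cases hin : i = n
      · subst hin
        rw [hd, hd, hd, Function.update_self, Function.update_self, Function.update_self,
          add_mul, h.addy]
      · have hni : n ≠ i := fun e => hin e.symm
        rw [Function.update_of_ne hni, Function.update_of_ne hni, Function.update_of_ne hni]
        exact h.add i (by omega) _ _ _ _
    smul := by
      intro i hi w c a y
      by_cases hin : i = n
      · subst hin
        rw [hd, hd, Function.update_self, Function.update_self, smul_mul_assoc, h.smuly]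
      · have hni : n ≠ i := fun e => hin e.symm
        rw [Function.update_of_ne hni, Function.update_of_ne hni]
        exact h.smul i (by omega) _ _ _ _
    addy := by
      intro w a b
      rw [mul_add, h.addy]
    smuly := by
      intro w c a
      rw [mul_smul_comm, h.smuly]
    bound := by
      intro w y
      refine (h.bound _ _).trans ?_
      have h0 : 0 ≤ C * ∏ i ∈ Finset.range n, ‖w i‖ :=
        mul_nonneg h.nonneg (Finset.prod_nonneg fun i _ => norm_nonneg _)
      refine (mul_le_mul_of_nonneg_left (norm_mul_le (w n) y) h0).trans (le_of_eq ?_)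
      rw [Finset.prod_range_succ]
      ring }

theorem alg2_mid {n : ℕ} {C : ℝ} {ψ : Form B} (h : Coch n C ψ) (m : ℕ) (hm : m < n) :
    Coch (n + 1) C (fun w y => ψ (mrg m w) y) where
  nonneg := h.nonneg
  dep := by
    intro w w' y hw
    refine h.dep _ _ _ fun i hi => ?_
    unfold mrg
    rw [hw i (by omega), hw m (by omega), hw (m + 1) (by omega), hw (i + 1) (by omega)]
  add := by
    intro i hi w a b y
    rcases lt_trichotomy i m with h1 | h1 | h1
    · rw [alg2_mrg_lt _ _ _ _ h1, alg2_mrg_lt _ _ _ _ h1, alg2_mrg_lt _ _ _ _ h1]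
      exact h.add i (by omega) _ _ _ _
    · subst h1
      rw [alg2_mrg_eq, alg2_mrg_eq, alg2_mrg_eq, add_mul]
      exact h.add i hm _ _ _ _
    · obtain ⟨i', rfl⟩ : ∃ i', i = i' + 1 := ⟨i - 1, by omega⟩
      by_cases h2 : i' = m
      · subst h2
        rw [alg2_mrg_succ, alg2_mrg_succ, alg2_mrg_succ, mul_add]
        exact h.add i' hm _ _ _ _
      · have h3 : m < i' := by omega
        rw [alg2_mrg_gt _ _ _ _ h3, alg2_mrg_gt _ _ _ _ h3, alg2_mrg_gt _ _ _ _ h3]
        exact h.add i' (by omega) _ _ _ _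
  smul := by
    intro i hi w c a y
    rcases lt_trichotomy i m with h1 | h1 | h1
    · rw [alg2_mrg_lt _ _ _ _ h1, alg2_mrg_lt _ _ _ _ h1]
      exact h.smul i (by omega) _ _ _ _
    · subst h1
      rw [alg2_mrg_eq, alg2_mrg_eq, smul_mul_assoc]
      exact h.smul i hm _ _ _ _
    · obtain ⟨i', rfl⟩ : ∃ i', i = i' + 1 := ⟨i - 1, by omega⟩
      by_cases h2 : i' = m
      · subst h2
        rw [alg2_mrg_succ, alg2_mrg_succ, mul_smul_comm]
        exact h.smul i' hm _ _ _ _
      · have h3 : m < i' := by omega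
        rw [alg2_mrg_gt _ _ _ _ h3, alg2_mrg_gt _ _ _ _ h3]
        exact h.smul i' (by omega) _ _ _ _
  addy := fun w a b => h.addy _ a b
  smuly := fun w c a => h.smuly _ c a
  bound := by
    intro w y
    refine (h.bound _ _).trans ?_
    refine mul_le_mul_of_nonneg_right ?_ (norm_nonneg y)
    exact mul_le_mul_of_nonneg_left (alg2_prod w m n hm) h.nonneg

theorem Coch.dd {n : ℕ} {C : ℝ} {ψ : Form B} (h : Coch n C ψ) (k : ℕ) (hk : k ≤ n + 1) :
    Coch (n + 1) C (Pool.MP263F.dd n k ψ) := by
  by_cases h0 : k = 0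
  · have e : Pool.MP263F.dd n k ψ = fun w y => ψ (shift w) (y * w 0) := by
      funext w y
      unfold Pool.MP263F.dd
      rw [if_pos h0]
    rw [e]
    exact alg2_first h
  · by_cases h1 : k = n + 1
    · have e : Pool.MP263F.dd n k ψ = fun w y => ψ w (w n * y) := by
        funext w y
        unfold Pool.MP263F.dd
        rw [if_neg h0, if_pos h1]
      rw [e]
      exact alg2_last h
    · have e : Pool.MP263F.dd n k ψ = fun w y => ψ (mrg (k - 1) w) y := by
        funext w y
        unfold Pool.MP263F.dd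
        rw [if_neg h0, if_neg h1]
      rw [e]
      exact alg2_mid h (k - 1) (by omega)

theorem IsCoch.dd {n : ℕ} {ψ : Form B} (h : IsCoch n ψ) (k : ℕ) (hk : k ≤ n + 1) :
    IsCoch (n + 1) (Pool.MP263F.dd n k ψ) := by
  obtain ⟨C, hC⟩ := h
  exact ⟨C, hC.dd k hk⟩

theorem IsCoch.delta {n : ℕ} {ψ : Form B} (h : IsCoch n ψ) :
    IsCoch (n + 1) (Pool.MP263F.delta n ψ) := by
  refine IsCoch.sum (Finset.range (n + 2)) (fun k w y => (-1 : ℂ) ^ k * Pool.MP263F.dd n k ψ w y)
    fun k hk => (h.dd k ?_).csmul _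
  have h1 := Finset.mem_range.1 hk
  omega

theorem dd_add (n k : ℕ) (ψ ψ' : Form B) (w : ℕ → B) (y : B) :
    dd n k (fun w y => ψ w y + ψ' w y) w y = dd n k ψ w y + dd n k ψ' w y := by
  unfold dd
  split_ifs <;> rfl

theorem dd_sub (n k : ℕ) (ψ ψ' : Form B) (w : ℕ → B) (y : B) :
    dd n k (fun w y => ψ w y - ψ' w y) w y = dd n k ψ w y - dd n k ψ' w y := by
  unfold dd
  split_ifs <;> rfl

theorem dd_smul (n k : ℕ) (c : ℂ) (ψ : Form B) (w : ℕ → B) (y : B) :
    dd n k (fun w y => c * ψ w y) w y = c * dd n k ψ w y := by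
  unfold dd
  split_ifs <;> rfl

theorem dd_sum (n k : ℕ) {ι : Type} (s : Finset ι) (ψ : ι → Form B) (w : ℕ → B) (y : B) :
    dd n k (fun w y => ∑ i ∈ s, ψ i w y) w y = ∑ i ∈ s, dd n k (ψ i) w y := by
  unfold dd
  split_ifs <;> rfl

theorem dd_zero (n k : ℕ) (w : ℕ → B) (y : B) :
    dd n k (fun (_ : ℕ → B) (_ : B) => (0 : ℂ)) w y = 0 := by
  unfold dd
  split_ifs <;> rfl

theorem IsInD.isCoch {n : ℕ} {φ : Form B} (h : IsInD n φ) : IsCoch (n + 1) φ := by
  obtain ⟨K, η, hη, hφ⟩ := h
  have e : φ = fun w y => ∑ k ∈ Finset.range (n + 2), dd n k (η k) w y := by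
    funext w y
    exact hφ w y
  rw [e]
  refine IsCoch.sum (Finset.range (n + 2)) (fun k w y => dd n k (η k) w y) fun k hk => ?_
  have h1 := Finset.mem_range.1 hk
  exact ⟨K, (hη k).dd k (by omega)⟩

theorem IsInD.zero (n : ℕ) : IsInD n (fun (_ : ℕ → B) (_ : B) => (0 : ℂ)) := by
  refine ⟨0, fun _ _ _ => 0, fun _ => Coch.zero n, fun w y => ?_⟩
  exact (Finset.sum_eq_zero fun k _ => dd_zero n k w y).symm

theorem IsInD.addd {n : ℕ} {φ φ' : Form B} (h : IsInD n φ) (h' : IsInD n φ') :
    IsInD n (fun w y => φ w y + φ' w y) := by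
  obtain ⟨K, η, hη, hφ⟩ := h
  obtain ⟨K', η', hη', hφ'⟩ := h'
  refine ⟨K + K', fun k w y => η k w y + η' k w y, fun k => (hη k).addd (hη' k), fun w y => ?_⟩
  beta_reduce
  rw [hφ, hφ', ← Finset.sum_add_distrib]
  exact Finset.sum_congr rfl fun k _ => (dd_add n k (η k) (η' k) w y).symm

theorem IsInD.subb {n : ℕ} {φ φ' : Form B} (h : IsInD n φ) (h' : IsInD n φ') :
    IsInD n (fun w y => φ w y - φ' w y) := by
  obtain ⟨K, η, hη, hφ⟩ := h
  obtain ⟨K', η', hη', hφ'⟩ := h'
  refine ⟨K + ‖(-1 : ℂ)‖ * K', fun k w y => η k w y + (-1 : ℂ) * η' k w y,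
    fun k => (hη k).addd ((hη' k).csmul (-1)), fun w y => ?_⟩
  beta_reduce
  rw [hφ, hφ', ← Finset.sum_sub_distrib]
  refine Finset.sum_congr rfl fun k _ => ?_
  have h1 := dd_add n k (η k) (fun w y => (-1 : ℂ) * η' k w y) w y
  rw [dd_smul] at h1
  rw [h1]
  ring

theorem IsInD.csmul {n : ℕ} {φ : Form B} (h : IsInD n φ) (c : ℂ) :
    IsInD n (fun w y => c * φ w y) := by
  obtain ⟨K, η, hη, hφ⟩ := h
  refine ⟨‖c‖ * K, fun k w y => c * η k w y, fun k => (hη k).csmul c, fun w y => ?_⟩
  beta_reduce
  rw [hφ, Finset.mul_sum]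
  exact Finset.sum_congr rfl fun k _ => (dd_smul n k c (η k) w y).symm

theorem IsInD.sum {n : ℕ} {ι : Type} (s : Finset ι) (φ : ι → Form B)
    (h : ∀ i ∈ s, IsInD n (φ i)) :
    IsInD n (fun w y => ∑ i ∈ s, φ i w y) := by
  classical
  induction s using Finset.induction_on with
  | empty => exact IsInD.zero n
  | insert a s ha ih =>
    have h1 : (fun (w : ℕ → B) (y : B) => ∑ i ∈ insert a s, φ i w y) =
        fun w y => φ a w y + ∑ i ∈ s, φ i w y := by
      funext w y
      exact Finset.sum_insert ha
    rw [h1]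
    exact (h a (Finset.mem_insert_self a s)).addd
      (ih fun i hi => h i (Finset.mem_insert_of_mem hi))

theorem IsInD.congr {n : ℕ} {φ φ' : Form B} (h : IsInD n φ) (hφ : ∀ w y, φ' w y = φ w y) :
    IsInD n φ' := by
  obtain ⟨K, η, hη, h2⟩ := h
  exact ⟨K, η, hη, fun w y => (hφ w y).trans (h2 w y)⟩

/-- a single face is in `D` -/
theorem IsInD.of_dd {n : ℕ} {ψ : Form B} (h : IsCoch n ψ) (k : ℕ) (hk : k ≤ n + 1) :
    IsInD n (dd n k ψ) := by
  obtain ⟨C, hC⟩ := h
  refine ⟨C, fun j w y => if j = k then ψ w y else 0, fun j => ?_, fun w y => ?_⟩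
  · by_cases hj : j = k
    · simp only [if_pos hj]
      exact hC
    · simp only [if_neg hj]
      exact (Coch.zero n).mono hC.nonneg
  · rw [Finset.sum_eq_single k]
    · simp only [if_true]
    · intro j _ hj
      simp only [if_neg hj]
      exact dd_zero n j w y
    · intro hk'
      exact absurd (Finset.mem_range.2 (by omega)) hk'

theorem IsInD.of_delta {n : ℕ} {ψ : Form B} (h : IsCoch n ψ) : IsInD n (delta n ψ) := by
  refine IsInD.sum (Finset.range (n + 2)) (fun k w y => (-1 : ℂ) ^ k * dd n k ψ w y)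
    fun k hk => (IsInD.of_dd h k ?_).csmul _
  have h1 := Finset.mem_range.1 hk
  omega

end Pool.MP263F
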