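import Pool.Agent.Lib.MP_263cac_full.Alg2
set_option autoImplicit false

/-! JOB Alg3: the coface identity `d_b d_a = d_a d_{b-1}` (`a < b`) and `δ δ = 0`.
`dd_dd`: unfold; case split on `a = 0`, `b = n+2`, ... and compare the sequences with `funext` and
`omega`-splits; in the case `b = n+2, a = n+1` (and `b = n+2`, general `a`) use `dep`.
`delta_delta`: the usual cancellation: split the double sum over `(b,a)`, `a < b` against `a ≥ b`
(`Finset.sum_involution` or reindexing `(b,a) ↦ (a, b-1)`). -/

namespace Pool.MP263F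
variable {B : Type} [NonUnitalNormedRing B] [NormedSpace ℂ B] [IsScalarTower ℂ B B]
  [SMulCommClass ℂ B B]

private theorem alg3_mrg_mrg {B : Type} [NonUnitalNormedRing B] (p q : ℕ) (hpq : p ≤ q)
    (w : ℕ → B) : mrg p (mrg (q + 1) w) = mrg q (mrg p w) := by
  funext i
  unfold mrg
  rcases lt_trichotomy i p with h | h | h
  · have h1 : i < q := by omega
    have h2 : i < q + 1 := by omega
    simp only [h, h1, h2, if_true]
  · subst h
    rcases Nat.lt_or_ge i q with h1 | h1
    · have h2 : i < q + 1 := by omega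
      have h3 : i + 1 < q + 1 := by omega
      simp only [lt_irrefl, h1, h2, h3, if_true, if_false]
    · have h2 : i = q := by omega
      subst h2
      have h3 : ¬ (i + 1 < i) := by omega
      have h4 : ¬ (i + 1 = i) := by omega
      simp only [lt_irrefl, Nat.lt_succ_self, h3, h4, if_true, if_false, mul_assoc]
  · have h1 : ¬ (i < p) := by omega
    have h2 : ¬ (i = p) := by omega
    have h3 : ¬ (i + 1 < p) := by omega
    have h4 : ¬ (i + 1 = p) := by omega
    have h5 : ¬ (q + 1 < p) := by omega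
    have h6 : ¬ (q + 1 = p) := by omega
    simp only [h1, h2, h3, h4, h5, h6, if_false]
    rcases lt_trichotomy i q with h7 | h7 | h7
    · have h8 : i + 1 < q + 1 := by omega
      simp only [h7, h8, if_true]
    · subst h7
      simp only [lt_irrefl, h1, h2, if_true, if_false]
    · have h8 : ¬ (i + 1 < q + 1) := by omega
      have h9 : ¬ (i + 1 = q + 1) := by omega
      have h10 : ¬ (i < q) := by omega
      have h11 : ¬ (i = q) := by omega
      simp only [h8, h9, h10, h11, if_false]

private theorem alg3_shift_mrg {B : Type} [NonUnitalNormedRing B] (k : ℕ)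
    (w : ℕ → B) : shift (mrg (k + 1) w) = mrg k (shift w) := by
  funext i
  unfold mrg shift
  rcases lt_trichotomy i k with h | h | h
  · have h1 : i + 1 < k + 1 := by omega
    simp only [h, h1, if_true]
  · subst h
    simp only [lt_irrefl, if_true, if_false]
  · have h1 : ¬ (i + 1 < k + 1) := by omega
    have h2 : ¬ (i + 1 = k + 1) := by omega
    have h3 : ¬ (i < k) := by omega
    have h4 : ¬ (i = k) := by omega
    simp only [h1, h2, h3, h4, if_false]

private theorem alg3_shift_mrg0 {B : Type} [NonUnitalNormedRing B]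
    (w : ℕ → B) : shift (mrg 0 w) = shift (shift w) := by
  funext i
  unfold mrg shift
  have h1 : ¬ (i + 1 < 0) := by omega
  have h2 : ¬ (i + 1 = 0) := by omega
  simp only [h1, h2, if_false]

private theorem alg3_mrg_lt {B : Type} [NonUnitalNormedRing B] {k i : ℕ} (h : i < k)
    (w : ℕ → B) : mrg k w i = w i := by
  unfold mrg
  simp only [h, if_true]

private theorem alg3_mrg_eq {B : Type} [NonUnitalNormedRing B] (k : ℕ)
    (w : ℕ → B) : mrg k w k = w k * w (k + 1) := by
  unfold mrg
  simp only [lt_irrefl, if_true, if_false]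

private theorem alg3_mrg_gt {B : Type} [NonUnitalNormedRing B] {k i : ℕ} (h : k < i)
    (w : ℕ → B) : mrg k w i = w (i + 1) := by
  unfold mrg
  have h1 : ¬ (i < k) := by omega
  have h2 : ¬ (i = k) := by omega
  simp only [h1, h2, if_false]

private theorem alg3_dd0 {B : Type} [NonUnitalNormedRing B] (n : ℕ) (ψ : Form B) (w : ℕ → B)
    (y : B) : dd n 0 ψ w y = ψ (shift w) (y * w 0) := by
  unfold dd
  simp only [if_true]

private theorem alg3_ddl {B : Type} [NonUnitalNormedRing B] (n : ℕ) (ψ : Form B) (w : ℕ → B)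
    (y : B) : dd n (n + 1) ψ w y = ψ w (w n * y) := by
  unfold dd
  have h1 : ¬ (n + 1 = 0) := by omega
  simp only [h1, if_true, if_false]

private theorem alg3_ddm {B : Type} [NonUnitalNormedRing B] (n k : ℕ) (hk : k < n) (ψ : Form B)
    (w : ℕ → B) (y : B) : dd n (k + 1) ψ w y = ψ (mrg k w) y := by
  unfold dd
  have h1 : ¬ (k + 1 = 0) := by omega
  have h2 : ¬ (k + 1 = n + 1) := by omega
  simp only [h1, h2, if_false, Nat.add_sub_cancel]

theorem dd_dd {n : ℕ} {ψ : Form B} (h : IsCoch n ψ) (a b : ℕ) (hab : a < b) (hb : b ≤ n + 2)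
    (w : ℕ → B) (y : B) :
    dd (n + 1) b (dd n a ψ) w y = dd (n + 1) a (dd n (b - 1) ψ) w y := by
  obtain ⟨C, hC⟩ := h
  obtain ⟨b', rfl⟩ : ∃ b', b = b' + 1 := ⟨b - 1, by omega⟩
  rw [Nat.add_sub_cancel]
  rcases Nat.eq_zero_or_pos a with ha | ha
  · subst ha
    rcases Nat.lt_or_ge b' (n + 1) with hb' | hb'
    · rw [alg3_ddm (n + 1) b' hb', alg3_dd0, alg3_dd0]
      rcases Nat.eq_zero_or_pos b' with h0 | h0
      · subst h0
        rw [alg3_dd0, alg3_mrg_eq, alg3_shift_mrg0]
        show ψ (shift (shift w)) (y * (w 0 * w (0 + 1))) = ψ (shift (shift w)) (y * w 0 * w (0 + 1))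
        rw [mul_assoc]
      · obtain ⟨c, rfl⟩ : ∃ c, b' = c + 1 := ⟨b' - 1, by omega⟩
        rw [alg3_ddm n c (by omega), alg3_mrg_lt (by omega : 0 < c + 1), alg3_shift_mrg]
    · have hb'' : b' = n + 1 := by omega
      subst hb''
      rw [alg3_ddl, alg3_dd0, alg3_dd0, alg3_ddl]
      show ψ (shift w) (w (n + 1) * y * w 0) = ψ (shift w) (w (n + 1) * (y * w 0))
      rw [mul_assoc]
  · obtain ⟨a', rfl⟩ : ∃ a', a = a' + 1 := ⟨a - 1, by omega⟩
    rcases Nat.lt_or_ge b' (n + 1) with hb' | hb'
    · obtain ⟨c, rfl⟩ : ∃ c, b' = c + 1 := ⟨b' - 1, by omega⟩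
      rw [alg3_ddm (n + 1) (c + 1) hb', alg3_ddm n a' (by omega), alg3_ddm (n + 1) a' (by omega),
        alg3_ddm n c (by omega), alg3_mrg_mrg a' c (by omega)]
    · have hb'' : b' = n + 1 := by omega
      subst hb''
      rw [alg3_ddl, alg3_ddm (n + 1) a' (by omega), alg3_ddl]
      rcases Nat.lt_or_ge a' n with h1 | h1
      · rw [alg3_ddm n a' h1, alg3_mrg_gt h1]
      · have h2 : a' = n := by omega
        subst h2
        rw [alg3_ddl, alg3_mrg_eq, mul_assoc]
        apply hC.dep
        intro i hi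
        rw [alg3_mrg_lt hi]

theorem delta_delta {n : ℕ} {ψ : Form B} (h : IsCoch n ψ) (w : ℕ → B) (y : B) :
    delta (n + 1) (delta n ψ) w y = 0 := by
  have h1 : delta (n + 1) (delta n ψ) w y
      = ∑ b ∈ Finset.range (n + 3), ∑ a ∈ Finset.range (n + 2),
          (-1 : ℂ) ^ b * ((-1 : ℂ) ^ a * dd (n + 1) b (dd n a ψ) w y) := by
    show ∑ b ∈ Finset.range (n + 1 + 2), (-1 : ℂ) ^ b * dd (n + 1) b (delta n ψ) w y = _
    apply Finset.sum_congr rfl
    intro b _
    rw [← Finset.mul_sum]
    congr 1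
    have h2 : delta n ψ = fun w y => ∑ a ∈ Finset.range (n + 2), (-1 : ℂ) ^ a * dd n a ψ w y := rfl
    rw [h2, dd_sum (n + 1) b (Finset.range (n + 2)) (fun a w y => (-1 : ℂ) ^ a * dd n a ψ w y) w y]
    apply Finset.sum_congr rfl
    intro a _
    rw [dd_smul]
  rw [h1, ← Finset.sum_product']
  refine Finset.sum_involution
    (fun (p : ℕ × ℕ) _ => if p.2 < p.1 then (p.2, p.1 - 1) else (p.2 + 1, p.1)) ?_ ?_ ?_ ?_
  · rintro ⟨b, a⟩ hp
    rw [Finset.mem_product, Finset.mem_range, Finset.mem_range] at hp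
    obtain ⟨hb, ha⟩ := hp
    simp only at hb ha ⊢
    split_ifs with hab
    · obtain ⟨b', rfl⟩ : ∃ b', b = b' + 1 := ⟨b - 1, by omega⟩
      simp only [Nat.add_sub_cancel]
      rw [dd_dd h a (b' + 1) hab (by omega), Nat.add_sub_cancel]
      ring
    · simp only
      rw [dd_dd h b (a + 1) (by omega) (by omega), Nat.add_sub_cancel]
      ring
  · rintro ⟨b, a⟩ hp _ heq
    simp only at heq
    split_ifs at heq with hab
    · rw [Prod.mk.injEq] at heq
      omega
    · rw [Prod.mk.injEq] at heq
      omega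
  · rintro ⟨b, a⟩ hp
    rw [Finset.mem_product, Finset.mem_range, Finset.mem_range] at hp
    obtain ⟨hb, ha⟩ := hp
    simp only at hb ha ⊢
    split_ifs with hab
    · rw [Finset.mem_product, Finset.mem_range, Finset.mem_range]
      simp only
      omega
    · rw [Finset.mem_product, Finset.mem_range, Finset.mem_range]
      simp only
      omega
  · rintro ⟨b, a⟩ hp
    by_cases hab : a < b
    · have h2 : ¬ (b - 1 < a) := by omega
      have h3 : b - 1 + 1 = b := by omega
      simp only [hab, h2, h3, if_true, if_false]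
    · have h2 : b < a + 1 := by omega
      simp only [hab, h2, if_true, if_false, Nat.add_sub_cancel]

end Pool.MP263F
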