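import Pool.Agent.Lib.MP_263cac_full.Alg2
set_option autoImplicit false

/-! JOB Alg4: codegeneracies (insertion of `1`) and the mixed identities. Unital algebras. -/

namespace Pool.MP263F
variable {B : Type} [CStarAlgebra B]

section seq
variable {R : Type} [Monoid R]

private theorem Alg4_t1 (a : ℕ → R) {i j : ℕ} (hij : i ≤ j) :
    ins i 1 (ins j 1 a) = ins (j + 1) 1 (ins i 1 a) := by
  funext l
  simp only [Pool.MP263F.ins]
  split_ifs <;> first | rfl | omega

private theorem Alg4_t2 (a : ℕ → R) (j : ℕ) :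
    shift (ins (j + 1) 1 a) = ins j 1 (shift a) := by
  funext l
  simp only [Pool.MP263F.ins, shift]
  split_ifs <;> first | rfl | omega | (congr 1; omega)

private theorem Alg4_t3 (a : ℕ → R) {i j : ℕ} (hij : i < j) :
    mrg i (ins (j + 1) 1 a) = ins j 1 (mrg i a) := by
  funext l
  simp only [Pool.MP263F.ins, mrg]
  split_ifs <;> first | rfl | omega | (congr 1; omega)

private theorem Alg4_t4 (a : ℕ → R) : shift (ins 0 1 a) = a := by
  funext l
  simp [Pool.MP263F.ins, shift]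

private theorem Alg4_t5 (a : ℕ → R) (j : ℕ) : mrg j (ins (j + 1) 1 a) = a := by
  funext l
  simp only [Pool.MP263F.ins, mrg]
  split_ifs <;> first | rfl | omega | (subst_vars; simp)

private theorem Alg4_t6 (a : ℕ → R) (j : ℕ) : mrg j (ins j 1 a) = a := by
  funext l
  simp only [Pool.MP263F.ins, mrg]
  split_ifs <;> first | rfl | omega | (subst_vars; simp)

private theorem Alg4_t7 (a : ℕ → R) {i j : ℕ} (hij : j ≤ i) :
    mrg (i + 1) (ins j 1 a) = ins j 1 (mrg i a) := by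
  funext l
  simp only [Pool.MP263F.ins, mrg]
  split_ifs <;> first | rfl | omega | (congr 1; omega)

private theorem Alg4_t8 (a : ℕ → R) : ins 0 1 (shift a) = Function.update a 0 1 := by
  funext l
  rcases Nat.eq_zero_or_pos l with rfl | hl
  · rw [Function.update_self]
    simp [Pool.MP263F.ins]
  · rw [Function.update_of_ne (by omega)]
    simp only [Pool.MP263F.ins, shift]
    rw [if_neg (by omega), if_neg (by omega)]
    congr 1
    omega

private theorem Alg4_t9 (a : ℕ → R) (k : ℕ) : ins (k + 1) 1 (mrg k a) =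
    Function.update (Function.update a k (a k * a (k + 1))) (k + 1) 1 := by
  funext l
  simp only [Function.update_apply, Pool.MP263F.ins, mrg]
  split_ifs <;> first | rfl | omega | (congr 1; omega)

end seq

section upd
variable {R : Type}

private theorem Alg4_u1 (x : R) (w : ℕ → R) {i j : ℕ} (h : i < j) (a : R) :
    ins j x (Function.update w i a) = Function.update (ins j x w) i a := by
  funext l
  simp only [Function.update_apply, Pool.MP263F.ins]
  split_ifs <;> first | rfl | omega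

private theorem Alg4_u2 (x : R) (w : ℕ → R) {i j : ℕ} (h : j ≤ i) (a : R) :
    ins j x (Function.update w i a) = Function.update (ins j x w) (i + 1) a := by
  funext l
  simp only [Function.update_apply, Pool.MP263F.ins]
  split_ifs <;> first | rfl | omega

end upd

private theorem Alg4_prod (x : B) (w : ℕ → B) {j m : ℕ} (hm : j ≤ m) :
    ∏ i ∈ Finset.range (m + 1), ‖Pool.MP263F.ins j x w i‖ = ‖x‖ * ∏ i ∈ Finset.range m, ‖w i‖ := by
  induction m, hm using Nat.le_induction with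
  | base =>
    rw [Finset.prod_range_succ, mul_comm]
    have h1 : Pool.MP263F.ins j x w j = x := by simp [Pool.MP263F.ins]
    rw [h1]
    congr 1
    refine Finset.prod_congr rfl fun i hi => ?_
    simp only [Pool.MP263F.ins]
    rw [if_pos (Finset.mem_range.1 hi)]
  | succ m hm ih =>
    rw [Finset.prod_range_succ, ih, Finset.prod_range_succ]
    have h1 : Pool.MP263F.ins j x w (m + 1) = w m := by
      simp only [Pool.MP263F.ins]
      rw [if_neg (by omega), if_neg (by omega), Nat.add_sub_cancel]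
    rw [h1, mul_assoc]

/-- inserting a fixed element at position `j ≤ n` (bound multiplied by `‖x‖`) -/
theorem Coch.ins {n : ℕ} {C : ℝ} {φ : Form B} (h : Coch (n + 1) C φ) (j : ℕ) (hj : j ≤ n) (x : B) :
    Coch n (C * ‖x‖) (fun w y => φ (Pool.MP263F.ins j x w) y) := by
  refine ⟨mul_nonneg h.nonneg (norm_nonneg _), ?_, ?_, ?_, ?_, ?_, ?_⟩
  · intro w w' y hw
    refine h.dep _ _ _ fun l hl => ?_
    simp only [Pool.MP263F.ins]
    split_ifs with h1 h2
    · exact hw l (by omega)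
    · rfl
    · exact hw (l - 1) (by omega)
  · intro i hi w a b y
    rcases lt_or_ge i j with h1 | h1
    · rw [Alg4_u1 x w h1, Alg4_u1 x w h1, Alg4_u1 x w h1]
      exact h.add i (by omega) _ _ _ _
    · rw [Alg4_u2 x w h1, Alg4_u2 x w h1, Alg4_u2 x w h1]
      exact h.add (i + 1) (by omega) _ _ _ _
  · intro i hi w c a y
    rcases lt_or_ge i j with h1 | h1
    · rw [Alg4_u1 x w h1, Alg4_u1 x w h1]
      exact h.smul i (by omega) _ _ _ _
    · rw [Alg4_u2 x w h1, Alg4_u2 x w h1]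
      exact h.smul (i + 1) (by omega) _ _ _ _
  · intro w a b
    exact h.addy _ _ _
  · intro w c a
    exact h.smuly _ _ _
  · intro w y
    refine (h.bound _ _).trans (le_of_eq ?_)
    rw [Alg4_prod x w hj]
    ring

theorem IsCoch.ss {n : ℕ} {φ : Form B} (h : IsCoch (n + 1) φ) (j : ℕ) (hj : j ≤ n) :
    IsCoch n (Pool.MP263F.ss j φ) := by
  obtain ⟨C, hC⟩ := h
  exact ⟨_, hC.ins j hj 1⟩

theorem ss_ss (φ : Form B) (i j : ℕ) (hij : i ≤ j) (w : ℕ → B) (y : B) :
    ss j (ss i φ) w y = ss i (ss (j + 1) φ) w y := by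
  simp only [Pool.MP263F.ss]
  rw [Alg4_t1 w hij]

section dds
variable {R : Type} [Mul R]

private theorem Alg4_d0 (n : ℕ) (ψ : Form R) (w : ℕ → R) (y : R) :
    dd n 0 ψ w y = ψ (shift w) (y * w 0) := by
  simp [dd]

private theorem Alg4_d1 {n k : ℕ} (hk : k < n) (ψ : Form R) (w : ℕ → R) (y : R) :
    dd n (k + 1) ψ w y = ψ (mrg k w) y := by
  simp only [dd]
  rw [if_neg (by omega), if_neg (by omega), Nat.add_sub_cancel]

private theorem Alg4_d2 (n : ℕ) (ψ : Form R) (w : ℕ → R) (y : R) :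
    dd n (n + 1) ψ w y = ψ w (w n * y) := by
  simp [dd]

end dds

theorem ss_dd_lt {n : ℕ} {ψ : Form B} (h : IsCoch (n + 1) ψ) (i j : ℕ) (hij : i < j)
    (hj : j ≤ n + 1) (w : ℕ → B) (y : B) :
    ss j (dd (n + 1) i ψ) w y = dd n i (ss (j - 1) ψ) w y := by
  obtain ⟨j, rfl⟩ : ∃ k, j = k + 1 := ⟨j - 1, by omega⟩
  change dd (n + 1) i ψ (Pool.MP263F.ins (j + 1) 1 w) y = _
  rw [Nat.add_sub_cancel]
  rcases Nat.eq_zero_or_pos i with rfl | hi
  · rw [Alg4_d0, Alg4_d0, Alg4_t2]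
    have h1 : Pool.MP263F.ins (j + 1) 1 w 0 = w 0 := by simp [Pool.MP263F.ins]
    rw [h1]
    rfl
  · obtain ⟨i, rfl⟩ : ∃ k, i = k + 1 := ⟨i - 1, by omega⟩
    rw [Alg4_d1 (by omega), Alg4_d1 (by omega), Alg4_t3 w (by omega)]
    rfl

theorem ss_dd_self {n : ℕ} {ψ : Form B} (h : IsCoch n ψ) (j : ℕ) (hj : j ≤ n)
    (w : ℕ → B) (y : B) : ss j (dd n j ψ) w y = ψ w y := by
  change dd n j ψ (Pool.MP263F.ins j 1 w) y = _
  rcases Nat.eq_zero_or_pos j with rfl | hj0
  · rw [Alg4_d0, Alg4_t4]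
    have h1 : Pool.MP263F.ins 0 1 w 0 = 1 := by simp [Pool.MP263F.ins]
    rw [h1, mul_one]
  · obtain ⟨j, rfl⟩ : ∃ k, j = k + 1 := ⟨j - 1, by omega⟩
    rw [Alg4_d1 (by omega), Alg4_t5]

theorem ss_dd_succ {n : ℕ} {ψ : Form B} (h : IsCoch n ψ) (j : ℕ) (hj : j ≤ n)
    (w : ℕ → B) (y : B) : ss j (dd n (j + 1) ψ) w y = ψ w y := by
  obtain ⟨C, hC⟩ := h
  change dd n (j + 1) ψ (Pool.MP263F.ins j 1 w) y = _
  rcases lt_or_ge j n with hjn | hjn
  · rw [Alg4_d1 hjn, Alg4_t6]
  · obtain rfl : j = n := by omega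
    rw [Alg4_d2]
    have h1 : Pool.MP263F.ins j 1 w j = 1 := by simp [Pool.MP263F.ins]
    rw [h1, one_mul]
    refine hC.dep _ _ _ fun l hl => ?_
    simp only [Pool.MP263F.ins]
    rw [if_pos hl]

theorem ss_dd_gt {n : ℕ} {ψ : Form B} (h : IsCoch (n + 1) ψ) (i j : ℕ) (hij : j + 1 < i)
    (hi : i ≤ n + 2) (w : ℕ → B) (y : B) :
    ss j (dd (n + 1) i ψ) w y = dd n (i - 1) (ss j ψ) w y := by
  obtain ⟨i, rfl⟩ : ∃ k, i = k + 2 := ⟨i - 2, by omega⟩
  change dd (n + 1) (i + 1 + 1) ψ (Pool.MP263F.ins j 1 w) y = dd n (i + 1) (ss j ψ) w y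
  rcases lt_or_ge i n with hin | hin
  · rw [Alg4_d1 (by omega), Alg4_d1 hin, Alg4_t7 w (by omega)]
    rfl
  · obtain rfl : i = n := by omega
    rw [Alg4_d2, Alg4_d2]
    have h1 : Pool.MP263F.ins j 1 w (i + 1) = w i := by
      simp only [Pool.MP263F.ins]
      rw [if_neg (by omega), if_neg (by omega), Nat.add_sub_cancel]
    rw [h1]
    rfl

/-- degenerate forms are in `D`: if `Ψ` only depends on `y * x 0` -/
theorem IsInD.of_deg_zero {n : ℕ} {Ψ : Form B} (h : IsCoch (n + 1) Ψ)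
    (hd : ∀ x y, Ψ x y = Ψ (Function.update x 0 1) (y * x 0)) : IsInD n Ψ := by
  refine (IsInD.of_dd (IsCoch.ss h 0 (Nat.zero_le n)) 0 (Nat.zero_le _)).congr fun w y => ?_
  rw [Alg4_d0, hd w y, ← Alg4_t8]
  rfl

/-- if `Ψ` depends on `x (k-1)`, `x k` only through the product, `1 ≤ k ≤ n` -/
theorem IsInD.of_deg_mid {n : ℕ} {Ψ : Form B} (h : IsCoch (n + 1) Ψ) (k : ℕ) (hk1 : 1 ≤ k)
    (hk : k ≤ n)
    (hd : ∀ x y, Ψ x y = Ψ (Function.update (Function.update x (k - 1) (x (k - 1) * x k)) k 1) y) :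
    IsInD n Ψ := by
  obtain ⟨k, rfl⟩ : ∃ l, k = l + 1 := ⟨k - 1, by omega⟩
  refine (IsInD.of_dd (IsCoch.ss h (k + 1) hk) (k + 1) (by omega)).congr fun w y => ?_
  rw [Alg4_d1 (by omega), hd w y, Nat.add_sub_cancel, ← Alg4_t9]
  rfl

/-- if `Ψ` only depends on `x n * y` -/
theorem IsInD.of_deg_last {n : ℕ} {Ψ : Form B} (h : IsCoch (n + 1) Ψ)
    (hd : ∀ x y, Ψ x y = Ψ (Function.update x n 1) (x n * y)) : IsInD n Ψ := by
  refine (IsInD.of_dd (IsCoch.ss h n le_rfl) (n + 1) le_rfl).congr fun w y => ?_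
  obtain ⟨C, hC⟩ := h
  rw [Alg4_d2, hd w y]
  refine hC.dep _ _ _ fun l hl => ?_
  simp only [Function.update_apply, Pool.MP263F.ins]
  split_ifs <;> first | rfl | omega

end Pool.MP263F
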