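import Pool.Agent.Lib.MP_263cac_full.Alg3
import Pool.Agent.Lib.MP_263cac_full.Alg4
set_option autoImplicit false

/-! JOB Alg5: normalization. -/

namespace Pool.MP263F
variable {B : Type} [CStarAlgebra B]

private theorem Alg5_ss_delta (n i : ℕ) (σ : Form B) (w : ℕ → B) (y : B) :
    delta n σ (ins i 1 w) y = ∑ k ∈ Finset.range (n + 2), (-1 : ℂ) ^ k * ss i (dd n k σ) w y := rfl

private theorem Alg5_dd_zero {n k : ℕ} {σ : Form B} (h : ∀ w y, σ w y = 0) (w : ℕ → B) (y : B) :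
    dd n k σ w y = 0 := by
  have h1 : σ = fun (_ : ℕ → B) (_ : B) => (0 : ℂ) := by
    funext w y
    exact h w y
  rw [h1, dd_zero]

/-- the upper part of the coboundary of `s_j φ` vanishes -/
private theorem Alg5_delta {n : ℕ} {φ : Form B} (h : IsCoch (n + 1) φ)
    (hc : ∀ w y, delta (n + 1) φ w y = 0) (j : ℕ) (hj : j ≤ n)
    (hz : ∀ i, i < j → ∀ w y, ss i φ w y = 0) (w : ℕ → B) (y : B) :
    delta n (ss j φ) w y = ∑ k ∈ Finset.range (j + 1), (-1 : ℂ) ^ k * dd n k (ss j φ) w y := by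
  obtain ⟨r, hr⟩ : ∃ r, n + 1 = j + r := ⟨n + 1 - j, by omega⟩
  have h1 : ∑ k ∈ Finset.range (n + 1 + 2), (-1 : ℂ) ^ k * ss j (dd (n + 1) k φ) w y = 0 := by
    rw [← Alg5_ss_delta]
    exact hc _ _
  have e1 : n + 1 + 2 = (j + 2) + r := by omega
  rw [e1, Finset.sum_range_add, Finset.sum_range_succ, Finset.sum_range_succ,
    Finset.sum_eq_zero (s := Finset.range j), ss_dd_self h j (by omega),
    ss_dd_succ h j (by omega)] at h1
  · have e2 : (0 + (-1 : ℂ) ^ j * φ w y + (-1) ^ (j + 1) * φ w y) = 0 := by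
      rw [pow_succ]
      ring
    rw [e2, zero_add] at h1
    have h2 : ∑ x ∈ Finset.range r, (-1 : ℂ) ^ (j + 1 + x) * dd n (j + 1 + x) (ss j φ) w y = 0 := by
      rw [← neg_eq_zero, ← Finset.sum_neg_distrib, ← h1]
      refine Finset.sum_congr rfl fun x hx => ?_
      rw [ss_dd_gt h (j + 2 + x) j (by omega) (by have := Finset.mem_range.1 hx; omega)]
      have e3 : j + 2 + x - 1 = j + 1 + x := by omega
      have e4 : j + 2 + x = (j + 1 + x) + 1 := by omega
      rw [e3, e4, pow_succ]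
      ring
    unfold delta
    have e5 : n + 2 = (j + 1) + r := by omega
    rw [e5, Finset.sum_range_add, h2, add_zero]
  · intro k hk
    have hk' := Finset.mem_range.1 hk
    rw [ss_dd_lt h k j hk' (by omega), Alg5_dd_zero (hz (j - 1) (by omega)), mul_zero]

/-- One step. Write `φ' = φ - (-1)^j δ (s_j φ)`.  Proof.
`0 = s_j δ φ = Σ_{k<j} (-1)^k d_k s_{j-1} φ + (cancel k=j, j+1) + Σ_{k=j+2}^{n+2} (-1)^k d_{k-1} s_j φ`,
and `s_{j-1} φ = 0`, so `Σ_{k=j+1}^{n+1} (-1)^k d_k (s_j φ) = 0`, hence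
`δ (s_j φ) = Σ_{k ≤ j} (-1)^k d_k (s_j φ)`.  Then (for `n ≥ 1`)
`s_j δ (s_j φ) = Σ_{k<j} (-1)^k d_k s_{j-1} s_j φ + (-1)^j s_j φ` and `s_{j-1} s_j φ = s_{j-1} s_{j-1} φ = 0`
(`ss_ss` with `i = j-1`, `j-1`), so `s_j φ' = 0`.  For `i < j`:
`s_i δ (s_j φ) = Σ_{k<i} (-1)^k d_k s_{i-1} s_j φ + 0 + Σ_{i+1<k≤j} (-1)^k d_{k-1} s_i s_j φ`, and
`s_{i-1} s_j φ = s_{j-1} s_{i-1} φ = 0`, `s_i s_j φ = s_{j-1} s_i φ = 0` (`ss_ss`).
For `n = 0` only `j = 0` occurs: `δ(s_0 φ) = d_0 s_0 φ - d_1 s_0 φ`, `d_1 s_0 φ = 0` from the cocycle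
identity, and `s_0 d_0 = id`. -/
theorem normalize_step {n : ℕ} {φ : Form B} (h : IsCoch (n + 1) φ)
    (hc : ∀ w y, delta (n + 1) φ w y = 0) (j : ℕ) (hj : j ≤ n)
    (hz : ∀ i, i < j → ∀ w y, ss i φ w y = 0) (i : ℕ) (hi : i ≤ j) (w : ℕ → B) (y : B) :
    ss i (fun w y => φ w y - (-1 : ℂ) ^ j * delta n (ss j φ) w y) w y = 0 := by
  have hσ : IsCoch n (ss j φ) := IsCoch.ss h j hj
  have hz' : ∀ a, a < j → ∀ w y, ss a (ss j φ) w y = 0 := by
    intro a ha w y
    obtain ⟨b, rfl⟩ : ∃ b, j = b + 1 := ⟨j - 1, by omega⟩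
    rw [← ss_ss φ a b (by omega)]
    exact hz a ha _ _
  have hgoal : ss i (fun w y => φ w y - (-1 : ℂ) ^ j * delta n (ss j φ) w y) w y =
      ss i φ w y - (-1 : ℂ) ^ j * ∑ k ∈ Finset.range (j + 1),
        (-1 : ℂ) ^ k * ss i (dd n k (ss j φ)) w y := by
    change φ (ins i 1 w) y - (-1 : ℂ) ^ j * delta n (ss j φ) (ins i 1 w) y = _
    rw [Alg5_delta h hc j hj hz]
    rfl
  rw [hgoal]
  rcases Nat.eq_zero_or_pos n with hn | hn
  · subst hn
    obtain rfl : j = 0 := by omega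
    obtain rfl : i = 0 := by omega
    rw [Finset.sum_range_one, ss_dd_self hσ 0 le_rfl]
    ring
  · obtain ⟨m, rfl⟩ : ∃ m, n = m + 1 := ⟨n - 1, by omega⟩
    rcases eq_or_lt_of_le hi with hij | hij
    · subst hij
      rw [Finset.sum_range_succ, Finset.sum_eq_zero, zero_add, ss_dd_self hσ i hj, ← mul_assoc,
        ← mul_pow]
      · norm_num
      · intro k hk
        have hk' := Finset.mem_range.1 hk
        rw [ss_dd_lt hσ k i hk' (by omega), Alg5_dd_zero (hz' (i - 1) (by omega)), mul_zero]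
    · rw [hz i hij, Finset.sum_eq_add i (i + 1) (by omega), ss_dd_self hσ i (by omega),
        ss_dd_succ hσ i (by omega), pow_succ]
      · ring
      · intro k hk hki
        have hk' := Finset.mem_range.1 hk
        rcases lt_or_ge k i with h1 | h1
        · rw [ss_dd_lt hσ k i h1 (by omega), Alg5_dd_zero (hz' (i - 1) (by omega)), mul_zero]
        · rw [ss_dd_gt hσ k i (by omega) (by omega), Alg5_dd_zero (hz' i hij), mul_zero]
      · intro h1
        exact absurd (Finset.mem_range.2 (by omega)) h1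
      · intro h1
        exact absurd (Finset.mem_range.2 (by omega)) h1

private theorem Alg5_delta_add (n : ℕ) (c : ℂ) (ψ ψ' : Form B) (w : ℕ → B) (y : B) :
    delta n (fun w y => ψ w y + c * ψ' w y) w y = delta n ψ w y + c * delta n ψ' w y := by
  unfold delta
  rw [Finset.mul_sum, ← Finset.sum_add_distrib]
  refine Finset.sum_congr rfl fun k _ => ?_
  rw [dd_add n k ψ (fun w y => c * ψ' w y), dd_smul]
  ring

private theorem Alg5_delta_sub (n : ℕ) (ψ ψ' : Form B) (w : ℕ → B) (y : B) :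
    delta n (fun w y => ψ w y - ψ' w y) w y = delta n ψ w y - delta n ψ' w y := by
  unfold delta
  rw [← Finset.sum_sub_distrib]
  refine Finset.sum_congr rfl fun k _ => ?_
  rw [dd_sub n k ψ ψ']
  ring

private theorem Alg5_ind {n : ℕ} {φ : Form B} (h : IsCoch (n + 1) φ)
    (hc : ∀ w y, delta (n + 1) φ w y = 0) (m : ℕ) (hm : m ≤ n + 1) :
    ∃ ψ : Form B, IsCoch n ψ ∧
      ∀ i, i < m → ∀ w y, ss i (fun w y => φ w y - delta n ψ w y) w y = 0 := by
  induction m with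
  | zero => exact ⟨_, IsCoch.zero n, fun i hi => absurd hi (Nat.not_lt_zero i)⟩
  | succ m ih =>
    obtain ⟨ψ, hψ, hz⟩ := ih (by omega)
    have h1 : IsCoch (n + 1) (fun w y => φ w y - delta n ψ w y) := h.subb hψ.delta
    have hc1 : ∀ w y, delta (n + 1) (fun w y => φ w y - delta n ψ w y) w y = 0 := by
      intro w y
      rw [Alg5_delta_sub (n + 1) φ (delta n ψ), hc, delta_delta hψ, sub_zero]
    refine ⟨fun w y => ψ w y + (-1 : ℂ) ^ m * ss m (fun w y => φ w y - delta n ψ w y) w y,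
      hψ.addd ((IsCoch.ss h1 m (by omega)).csmul _), fun i hi w y => ?_⟩
    have key := normalize_step h1 hc1 m (by omega) hz i (by omega) w y
    rw [← key]
    change φ (ins i 1 w) y - delta n _ (ins i 1 w) y =
      φ (ins i 1 w) y - delta n ψ (ins i 1 w) y - (-1 : ℂ) ^ m * delta n _ (ins i 1 w) y
    rw [Alg5_delta_add]
    ring

/-- Induction over `j` using `normalize_step`; the new form is again a cocycle by `delta_delta`
(linearity of `delta`). -/
theorem normalize {n : ℕ} {φ : Form B} (h : IsCoch (n + 1) φ)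
    (hc : ∀ w y, delta (n + 1) φ w y = 0) :
    ∃ ψ : Form B, IsCoch n ψ ∧
      ∀ i, i ≤ n → ∀ w y, ss i (fun w y => φ w y - delta n ψ w y) w y = 0 := by
  obtain ⟨ψ, h1, h2⟩ := Alg5_ind h hc (n + 1) le_rfl
  exact ⟨ψ, h1, fun i hi => h2 i (by omega)⟩

end Pool.MP263F
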