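import Pool.Agent.Lib.MP_263cac_full.Alg3
import Pool.Agent.Lib.MP_263cac_full.Alg4
set_option autoImplicit false

/-! JOB Alg6: a normalized form in `D` is a coboundary. -/

namespace Pool.MP263F
variable {B : Type} [CStarAlgebra B]


/-- the face as a linear map -/
private noncomputable def Alg6D (n k : ℕ) : Form B →ₗ[ℂ] Form B where
  toFun := dd n k
  map_add' ψ ψ' := by
    funext w y
    exact dd_add n k ψ ψ' w y
  map_smul' c ψ := by
    funext w y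
    exact dd_smul n k c ψ w y

/-- the codegeneracy as a linear map -/
private noncomputable def Alg6S (j : ℕ) : Form B →ₗ[ℂ] Form B where
  toFun := ss j
  map_add' _ _ := rfl
  map_smul' _ _ := rfl

private theorem Alg6_stepA {n j : ℕ} (hj : j ≤ n) (φ ψ : Form B) (η : ℕ → Form B)
    (hψ : IsCoch n ψ) (hη : ∀ k, IsCoch n (η k)) (hz : ss j φ = 0)
    (hψz : ∀ i, i < j → ss i ψ = 0)
    (hφ : φ = ∑ k ∈ Finset.range (j + 1), (-1 : ℂ) ^ k • Alg6D n k ψ +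
      ∑ k ∈ Finset.Ico (j + 1) (n + 2), Alg6D n k (η k)) :
    ∃ η' : ℕ → Form B, (∀ k, IsCoch n (η' k)) ∧
      φ = ∑ k ∈ Finset.range (j + 2), (-1 : ℂ) ^ k • Alg6D n k ψ +
        ∑ k ∈ Finset.Ico (j + 2) (n + 2), Alg6D n k (η' k) := by
  obtain ⟨η', hη', hE⟩ : ∃ η' : ℕ → Form B, (∀ k, IsCoch n (η' k)) ∧
      ∀ k ∈ Finset.Ico (j + 2) (n + 2),
        Alg6D n k (η' k) = Alg6D n k (η k) - Alg6D n (j + 1) (Alg6S j (Alg6D n k (η k))) := by
    rcases n with _ | n'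
    · refine ⟨η, hη, fun k hk => ?_⟩
      rw [Finset.mem_Ico] at hk
      omega
    · by_cases hjn : j ≤ n'
      · refine ⟨fun k => η k - dd n' (j + 1) (ss j (η k)), fun k => ?_, fun k hk => ?_⟩
        · exact IsCoch.subb (hη k) (((hη k).ss j hjn).dd (j + 1) (by omega))
        · rw [Finset.mem_Ico] at hk
          rw [map_sub]
          congr 1
          funext w y
          have e2 := dd_dd ((hη k).ss j hjn) (j + 1) k (by omega) (by omega) w y
          have e3 : ss j (dd (n' + 1) k (η k)) = dd n' (k - 1) (ss j (η k)) := by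
            funext w y
            exact ss_dd_gt (hη k) k j (by omega) (by omega) w y
          change dd (n' + 1) k (dd n' (j + 1) (ss j (η k))) w y =
            dd (n' + 1) (j + 1) (ss j (dd (n' + 1) k (η k))) w y
          rw [e3, e2]
      · refine ⟨η, hη, fun k hk => ?_⟩
        rw [Finset.mem_Ico] at hk
        omega
  refine ⟨η', hη', ?_⟩
  have hA : ∀ k ∈ Finset.range j, (-1 : ℂ) ^ k • Alg6D n (j + 1) (Alg6S j (Alg6D n k ψ)) = 0 := by
    intro k hk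
    rw [Finset.mem_range] at hk
    obtain ⟨n', rfl⟩ : ∃ n', n = n' + 1 := ⟨n - 1, by omega⟩
    have e1 : Alg6S j (Alg6D (n' + 1) k ψ) = 0 := by
      funext w y
      have e2 := ss_dd_lt hψ k j hk hj w y
      have e3 : ss (j - 1) ψ = 0 := hψz (j - 1) (by omega)
      rw [e3] at e2
      exact e2.trans (dd_zero n' k w y)
    rw [e1, map_zero, smul_zero]
  have hB : Alg6S j (Alg6D n j ψ) = ψ := by
    funext w y
    exact ss_dd_self hψ j hj w y
  have hC : Alg6S j (Alg6D n (j + 1) (η (j + 1))) = η (j + 1) := by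
    funext w y
    exact ss_dd_succ (hη (j + 1)) j hj w y
  have hz' : Alg6S j φ = 0 := hz
  have h1 : φ = φ - Alg6D n (j + 1) (Alg6S j φ) := by
    rw [hz', map_zero, sub_zero]
  have h2 : Alg6D n (j + 1) (Alg6S j φ) = (-1 : ℂ) ^ j • Alg6D n (j + 1) ψ +
      (Alg6D n (j + 1) (η (j + 1)) +
        ∑ k ∈ Finset.Ico (j + 2) (n + 2), Alg6D n (j + 1) (Alg6S j (Alg6D n k (η k)))) := by
    conv_lhs => rw [hφ]
    simp only [map_add, map_sum, map_smul]
    rw [Finset.sum_range_succ, Finset.sum_eq_zero hA, zero_add, hB,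
      Finset.sum_eq_sum_Ico_succ_bot (by omega : j + 1 < n + 2), hC]
  have h3 : ∑ k ∈ Finset.Ico (j + 2) (n + 2), Alg6D n k (η' k) =
      ∑ k ∈ Finset.Ico (j + 2) (n + 2), Alg6D n k (η k) -
        ∑ k ∈ Finset.Ico (j + 2) (n + 2), Alg6D n (j + 1) (Alg6S j (Alg6D n k (η k))) := by
    rw [← Finset.sum_sub_distrib]
    exact Finset.sum_congr rfl hE
  rw [h3, Finset.sum_range_succ (n := j + 1)]
  rw [h2] at h1
  conv_lhs => rw [h1, hφ]
  rw [Finset.sum_eq_sum_Ico_succ_bot (by omega : j + 1 < n + 2), pow_succ]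
  module

private theorem Alg6_stepB {n j : ℕ} (hj : j + 1 ≤ n) (φ ψ : Form B) (η : ℕ → Form B)
    (hψ : IsCoch n ψ) (hη : ∀ k, IsCoch n (η k))
    (hψz : ∀ i, i < j → ss i ψ = 0)
    (hφ : φ = ∑ k ∈ Finset.range (j + 2), (-1 : ℂ) ^ k • Alg6D n k ψ +
      ∑ k ∈ Finset.Ico (j + 2) (n + 2), Alg6D n k (η k)) :
    ∃ (ψ' : Form B) (η' : ℕ → Form B), IsCoch n ψ' ∧ (∀ k, IsCoch n (η' k)) ∧
      (∀ i, i < j + 1 → ss i ψ' = 0) ∧
      φ = ∑ k ∈ Finset.range (j + 2), (-1 : ℂ) ^ k • Alg6D n k ψ' +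
        ∑ k ∈ Finset.Ico (j + 2) (n + 2), Alg6D n k (η' k) := by
  obtain ⟨n', rfl⟩ : ∃ n', n = n' + 1 := ⟨n - 1, by omega⟩
  have hξ : IsCoch n' (ss j ψ) := hψ.ss j (by omega)
  set ξ : Form B := ss j ψ with hξd
  set θ : Form B := fun w y => ∑ k ∈ Finset.range (j + 2), (-1 : ℂ) ^ k * dd n' k ξ w y with hθ
  have hθc : IsCoch (n' + 1) θ := by
    refine IsCoch.sum _ (fun k w y => (-1 : ℂ) ^ k * dd n' k ξ w y) (fun k hk => ?_)
    rw [Finset.mem_range] at hk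
    exact IsCoch.csmul (hξ.dd k (by omega)) _
  refine ⟨ψ - dd n' (j + 1) ξ, fun k => if k = j + 2 then η k + θ else η k, ?_, ?_, ?_, ?_⟩
  · exact IsCoch.subb hψ (hξ.dd (j + 1) (by omega))
  · intro k
    dsimp only
    split_ifs with hk
    · exact IsCoch.addd (hη k) hθc
    · exact hη k
  · intro i hi
    funext w y
    change ss i ψ w y - ss i (dd n' (j + 1) ξ) w y = 0
    rcases Nat.lt_succ_iff_lt_or_eq.1 hi with h | h
    · obtain ⟨n'', rfl⟩ : ∃ n'', n' = n'' + 1 := ⟨n' - 1, by omega⟩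
      have e1 := ss_dd_gt hξ (j + 1) i (by omega) (by omega) w y
      have e2 : ss i ξ = 0 := by
        funext w y
        have e3 := ss_ss ψ i (j - 1) (by omega) w y
        rw [Nat.sub_add_cancel (by omega : 1 ≤ j)] at e3
        rw [hξd, ← e3, hψz i h]
        rfl
      rw [e2] at e1
      rw [e1, hψz i h]
      have e4 := dd_zero (B := B) n'' (j + 1 - 1) w y
      change (0 : ℂ) - dd n'' (j + 1 - 1) (fun _ _ => (0 : ℂ)) w y = 0
      rw [e4, sub_zero]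
    · subst h
      rw [ss_dd_succ hξ i (by omega) w y, hξd, sub_self]
  · have e1 : ∑ k ∈ Finset.range (j + 2), (-1 : ℂ) ^ k • Alg6D (n' + 1) k (dd n' (j + 1) ξ) =
        Alg6D (n' + 1) (j + 2) θ := by
      have e2 : θ = ∑ k ∈ Finset.range (j + 2), (-1 : ℂ) ^ k • dd n' k ξ := by
        funext w y
        simp [hθ, Finset.sum_apply]
      rw [e2, map_sum]
      refine Finset.sum_congr rfl (fun k hk => ?_)
      rw [Finset.mem_range] at hk
      rw [map_smul]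
      congr 1
      funext w y
      have e3 := dd_dd hξ k (j + 2) (by omega) (by omega) w y
      exact e3.symm
    have e4 : ∑ k ∈ Finset.Ico (j + 3) (n' + 1 + 2),
        Alg6D (n' + 1) k (if k = j + 2 then η k + θ else η k) =
        ∑ k ∈ Finset.Ico (j + 3) (n' + 1 + 2), Alg6D (n' + 1) k (η k) := by
      refine Finset.sum_congr rfl (fun k hk => ?_)
      rw [Finset.mem_Ico] at hk
      rw [if_neg (by omega)]
    rw [Finset.sum_eq_sum_Ico_succ_bot (by omega : j + 2 < n' + 1 + 2)]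
    beta_reduce
    rw [if_pos rfl, map_add, ← e1, e4]
    simp only [map_sub, smul_sub, Finset.sum_sub_distrib]
    rw [hφ, Finset.sum_eq_sum_Ico_succ_bot (by omega : j + 2 < n' + 1 + 2)]
    abel

/-- Proof.  Claim `P(j)` (`j ≤ n`): there are `ψ`, `η k` (all `IsCoch n`) with
`φ = Σ_{k ≤ j} (-1)^k d_k ψ + Σ_{j < k ≤ n+1} d_k (η k)` and `s_i ψ = 0` for `i < j`.
`P(0)`: `ψ = η_0`.
`P(j) → P(j+1)` for `j < n` (so `n ≥ 1`; write `n = n'+1`): apply `P_j = 1 - d_{j+1} s_j` to `φ`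
(`P_j φ = φ` as `s_j φ = 0`): `P_j d_{j+1} = 0` (`ss_dd_succ`), `P_j d_j ψ = d_j ψ - d_{j+1} ψ`
(`ss_dd_self`), `P_j d_k ψ = d_k ψ - d_{j+1} d_k s_{j-1} ψ = d_k ψ` for `k < j` (`ss_dd_lt`, `s_{j-1}ψ=0`),
`P_j d_k η_k = d_k η_k - d_{j+1} d_{k-1} s_j η_k = d_k (η_k - d_{j+1} s_j η_k)` for `k > j+1`
(`ss_dd_gt`, `dd_dd`).  So `φ = Σ_{k ≤ j+1} (-1)^k d_k ψ + Σ_{k > j+1} d_k η'_k`.
Now replace `ψ` by `ψ' = ψ - d_{j+1} s_j ψ`: `s_j ψ' = 0`, and `s_i ψ' = 0` for `i < j`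
(`s_i d_{j+1} s_j ψ = d_j s_i s_j ψ = d_j s_{j-1} s_i ψ = 0`); the correction is
`Σ_{k ≤ j+1} (-1)^k d_k d_{j+1} s_j ψ = Σ_{k≤j+1} (-1)^k d_{j+2} d_k s_j ψ = d_{j+2} (...)` (`dd_dd`),
absorbed in the `k = j+2 ≤ n+1` term.
Finally from `P(n)`: applying `P_n` to `φ` gives `φ = Σ_{k ≤ n+1} (-1)^k d_k ψ = δ ψ`. -/
theorem delta_of_normalized {n : ℕ} {φ : Form B} (hD : IsInD n φ)
    (hz : ∀ i, i ≤ n → ∀ w y, ss i φ w y = 0) :
    ∃ ψ : Form B, IsCoch n ψ ∧ ∀ w y, φ w y = delta n ψ w y := by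
  obtain ⟨K, η₀, hη₀, hφ₀⟩ := hD
  have hz' : ∀ i, i ≤ n → ss i φ = 0 := fun i hi => by
    funext w y
    exact hz i hi w y
  have hP : ∀ j, j ≤ n → ∃ (ψ : Form B) (η : ℕ → Form B), IsCoch n ψ ∧ (∀ k, IsCoch n (η k)) ∧
      (∀ i, i < j → ss i ψ = 0) ∧
      φ = ∑ k ∈ Finset.range (j + 1), (-1 : ℂ) ^ k • Alg6D n k ψ +
        ∑ k ∈ Finset.Ico (j + 1) (n + 2), Alg6D n k (η k) := by
    intro j
    induction j with
    | zero =>
      intro _
      refine ⟨η₀ 0, η₀, ⟨K, hη₀ 0⟩, fun k => ⟨K, hη₀ k⟩, fun i hi => absurd hi (by omega), ?_⟩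
      have e1 : φ = ∑ k ∈ Finset.Ico 0 (n + 2), Alg6D n k (η₀ k) := by
        funext w y
        rw [hφ₀ w y, Finset.range_eq_Ico, Finset.sum_apply, Finset.sum_apply]
        rfl
      rw [Finset.sum_eq_sum_Ico_succ_bot (by omega : 0 < n + 2)] at e1
      rw [e1]
      simp
    | succ j ih =>
      intro hj
      obtain ⟨ψ, η, hψ, hη, hψz, hφ⟩ := ih (by omega)
      obtain ⟨η', hη', hφ'⟩ := Alg6_stepA (by omega) φ ψ η hψ hη (hz' j (by omega)) hψz hφ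
      exact Alg6_stepB hj φ ψ η' hψ hη' hψz hφ'
  obtain ⟨ψ, η, hψ, hη, hψz, hφ⟩ := hP n le_rfl
  obtain ⟨η', hη', hφ'⟩ := Alg6_stepA le_rfl φ ψ η hψ hη (hz' n le_rfl) hψz hφ
  refine ⟨ψ, hψ, fun w y => ?_⟩
  rw [Finset.Ico_self, Finset.sum_empty, add_zero] at hφ'
  conv_lhs => rw [hφ']
  rw [Finset.sum_apply, Finset.sum_apply]
  rfl

end Pool.MP263F
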