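import Pool.Agent.Lib.MP_263cac_full.Alg5
import Pool.Agent.Lib.MP_263cac_full.Alg6
set_option autoImplicit false

/-! JOB Alg7: a cocycle in `D` is a coboundary: combine `normalize` and `delta_of_normalized`. -/

namespace Pool.MP263F
variable {B : Type} [CStarAlgebra B]

theorem coh_of_inD {n : ℕ} {φ : Form B} (h : IsCoch (n + 1) φ)
    (hc : ∀ w y, delta (n + 1) φ w y = 0) (hD : IsInD n φ) :
    ∃ ψ : Form B, IsCoch n ψ ∧ ∀ w y, φ w y = delta n ψ w y := by
  obtain ⟨ψ₀, h₀, hz⟩ := normalize h hc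
  have hD' : IsInD n (fun w y => φ w y - delta n ψ₀ w y) := hD.subb (IsInD.of_delta h₀)
  obtain ⟨ψ₁, h₁, he⟩ := delta_of_normalized hD' hz
  refine ⟨fun w y => ψ₀ w y + ψ₁ w y, h₀.addd h₁, fun w y => ?_⟩
  have h2 := he w y
  have h3 : delta n (fun w y => ψ₀ w y + ψ₁ w y) w y = delta n ψ₀ w y + delta n ψ₁ w y := by
    unfold delta
    rw [← Finset.sum_add_distrib]
    refine Finset.sum_congr rfl fun k _ => ?_
    rw [dd_add]; ring
  rw [h3, ← h2]; ring

end Pool.MP263F
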