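import Pool.Agent.Lib.MP_263cac_full.Pri4
set_option autoImplicit false

/-! JOB Asm1: the walk form is congruent to `Φ(w; Y(1-Ē))` modulo `D`.

Proof.  Index type `I = Σ i, Ω i` with the filter `comap Sigma.fst l`.  Apply `prism` with `K = 1`... (use
`K = 1` or `2`): `κ_s = star V` for `s` even, `U` for `s` odd, `ξ_{s,t}(w) = star κ_s * w * κ_t`,
`λ_s(Y) = star κ_s * Y * (1 - e)`, `μ(Y) = Y * (1-e)`.  H1 to H4 are exact identities (`V, U` unitary), H5 is
`‖Y (1-e) w - Y w (1-e)‖ ≤ ‖Y‖ ‖e w - w e‖ → 0` (uniformly in `ω`).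
Then average over `ω ∈ Ω i`: `Tendsto` along `comap Sigma.fst l` means: for all `δ`, eventually in `i`, for all
`ω`, the quantity is `≤ δ`; so the average over `ω` tends to `0` along `l`.  The averaged `η i k` are
cochains with the same constant (`Coch.avg`), `dd` commutes with averages, and
`avg_ω Φ w (Y (1 - e ω)) = Φ w (Y (1 - avg e))` by linearity (`addy`, `smuly`; note real scalar `•`).
`Φ(ξ w; λ_{n+1}(Y) κ_0)` is exactly `walkForm`. -/

open Filter Topology

namespace Pool.MP263F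
variable {B : Type} [CStarAlgebra B]

/-- the conjugated form -/
noncomputable def walkForm (Φ : Form B) (n : ℕ) (V U e : B) : Form B := fun w Y =>
  Φ (fun s => if Even s then V * w s * U else star U * w s * star V)
    ((if Even (n + 1) then V else star U) * Y * (1 - e) * star V)

/-- the linear maps in the slots -/
private noncomputable def asm1L (P Q : B) : B →ₗ[ℂ] B where
  toFun w := P * w * Q
  map_add' a b := by rw [mul_add, add_mul]
  map_smul' c a := by rw [RingHom.id_apply, mul_smul_comm, smul_mul_assoc]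

private theorem asm1L_apply (P Q w : B) : asm1L P Q w = P * w * Q := rfl

private theorem asm1_norm (u : unitary B) : ‖(u : B)‖ ≤ 1 := by
  rcases subsingleton_or_nontrivial B with h | h
  · rw [Subsingleton.elim (u : B) 0, norm_zero]
    exact zero_le_one
  · exact (CStarRing.norm_coe_unitary u).le

private theorem asm1_norm_star (u : unitary B) : ‖star (u : B)‖ ≤ 1 := by
  rw [norm_star]
  exact asm1_norm u

private theorem asm1_mul3 {P Q w : B} (hP : ‖P‖ ≤ 1) (hQ : ‖Q‖ ≤ 1) : ‖P * w * Q‖ ≤ 1 * ‖w‖ := by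
  rw [one_mul]
  calc ‖P * w * Q‖ ≤ ‖P * w‖ * ‖Q‖ := norm_mul_le _ _
    _ ≤ ‖P * w‖ * 1 := mul_le_mul_of_nonneg_left hQ (norm_nonneg _)
    _ = ‖P * w‖ := mul_one _
    _ ≤ ‖P‖ * ‖w‖ := norm_mul_le _ _
    _ ≤ 1 * ‖w‖ := mul_le_mul_of_nonneg_right hP (norm_nonneg _)
    _ = ‖w‖ := one_mul _

/-- `κ_s` -/
private noncomputable def asm1K (V U : B) (s : ℕ) : B := if Even s then star V else U

private theorem asm1K_norm (V U : unitary B) (s : ℕ) : ‖asm1K (V : B) (U : B) s‖ ≤ 1 := by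
  unfold asm1K
  split_ifs
  · exact asm1_norm_star V
  · exact asm1_norm U

private theorem asm1K_star_norm (V U : unitary B) (s : ℕ) :
    ‖star (asm1K (V : B) (U : B) s)‖ ≤ 1 := by
  rw [norm_star]
  exact asm1K_norm V U s

private theorem asm1K_mul (V U : unitary B) (s : ℕ) :
    asm1K (V : B) (U : B) s * star (asm1K (V : B) (U : B) s) = 1 := by
  unfold asm1K
  split_ifs
  · rw [star_star]
    exact Unitary.coe_star_mul_self V
  · exact Unitary.coe_mul_star_self U

private theorem asm1K_mul' (V U : unitary B) (s : ℕ) :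
    star (asm1K (V : B) (U : B) s) * asm1K (V : B) (U : B) s = 1 := by
  unfold asm1K
  split_ifs
  · rw [star_star]
    exact Unitary.coe_mul_star_self V
  · exact Unitary.coe_star_mul_self U

private theorem asm1_walk (Φ : Form B) (n : ℕ) (V U : B) (e : B) (w : ℕ → B) (Y : B) :
    walkForm Φ n V U e w Y =
      Φ (fun s => asm1L (star (asm1K V U s)) (asm1K V U (s + 1)) (w s))
        (star (asm1K V U (n + 1)) * Y * (1 - e) * asm1K V U 0) := by
  unfold walkForm
  congr 1
  · funext s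
    rw [asm1L_apply]
    unfold asm1K
    by_cases hs : Even s
    · have h1 : ¬ Even (s + 1) := by
        rw [Nat.even_add_one]
        exact not_not.mpr hs
      rw [if_pos hs, if_pos hs, if_neg h1, star_star]
    · have h1 : Even (s + 1) := by
        rw [Nat.even_add_one]
        exact hs
      rw [if_neg hs, if_neg hs, if_pos h1]
  · have h0 : asm1K V U 0 = star V := if_pos (by decide)
    rw [h0]
    congr 3
    unfold asm1K
    by_cases hs : Even (n + 1)
    · rw [if_pos hs, if_pos hs, star_star]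
    · rw [if_neg hs, if_neg hs]

theorem walkForm_coch {n : ℕ} {C : ℝ} {Φ : Form B} (hΦ : Coch (n + 1) C Φ) (V U : unitary B) (e : B)
    (he : ‖1 - e‖ ≤ 1) : Coch (n + 1) C (walkForm Φ n (V : B) (U : B) e) := by
  have h1 := hΦ.comp 1 zero_le_one
    (fun s => asm1L (star (asm1K (V : B) (U : B) s)) (asm1K (V : B) (U : B) (s + 1)))
    (asm1L (star (asm1K (V : B) (U : B) (n + 1))) ((1 - e) * asm1K (V : B) (U : B) 0))
    (fun s _ w => asm1_mul3 (asm1K_star_norm V U s) (asm1K_norm V U (s + 1)))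
    (fun y => asm1_mul3 (asm1K_star_norm V U (n + 1)) (by
      calc ‖(1 - e) * asm1K (V : B) (U : B) 0‖ ≤ ‖1 - e‖ * ‖asm1K (V : B) (U : B) 0‖ :=
            norm_mul_le _ _
        _ ≤ 1 * 1 := mul_le_mul he (asm1K_norm V U 0) (norm_nonneg _) zero_le_one
        _ = 1 := one_mul 1))
  rw [one_pow, mul_one] at h1
  have h2 : walkForm Φ n (V : B) (U : B) e = fun w y =>
      Φ (fun s => asm1L (star (asm1K (V : B) (U : B) s)) (asm1K (V : B) (U : B) (s + 1)) (w s))
        (asm1L (star (asm1K (V : B) (U : B) (n + 1))) ((1 - e) * asm1K (V : B) (U : B) 0) y) := by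
    funext w y
    rw [asm1_walk]
    congr 1
    rw [asm1L_apply]
    simp only [mul_assoc]
  rw [h2]
  exact h1

private theorem asm1_avg {ω : Type} [Fintype ω] [Nonempty ω] (f : ω → ℂ) (δ : ℝ)
    (h : ∀ i, ‖f i‖ ≤ δ) : ‖(Fintype.card ω : ℂ)⁻¹ * ∑ i, f i‖ ≤ δ := by
  have hc : (0 : ℝ) < Fintype.card ω := Nat.cast_pos.mpr Fintype.card_pos
  rw [norm_mul, norm_inv, Complex.norm_natCast]
  have h1 : ‖∑ i, f i‖ ≤ Fintype.card ω * δ := by
    refine (norm_sum_le _ _).trans ((Finset.sum_le_sum fun i _ => h i).trans ?_)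
    rw [Finset.sum_const, Finset.card_univ, nsmul_eq_mul]
  calc (Fintype.card ω : ℝ)⁻¹ * ‖∑ i, f i‖ ≤ (Fintype.card ω : ℝ)⁻¹ * (Fintype.card ω * δ) :=
        mul_le_mul_of_nonneg_left h1 (inv_nonneg.mpr hc.le)
    _ = δ := by field_simp

theorem twalk_prism {n : ℕ} {C : ℝ} {Φ : Form B} (hΦ : Coch (n + 1) C Φ)
    (hc : ∀ w y, delta (n + 1) Φ w y = 0) {ι : Type} (l : Filter ι)
    (Ω : ι → Type) [∀ i, Fintype (Ω i)] [∀ i, Nonempty (Ω i)]
    (V U : ∀ i, Ω i → unitary B) (e : ∀ i, Ω i → B) (he : ∀ i ω, ‖1 - e i ω‖ ≤ 1)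
    (hcomm : ∀ a : B, ∀ δ : ℝ, 0 < δ → ∀ᶠ i in l, ∀ ω, ‖e i ω * a - a * e i ω‖ ≤ δ) :
    ∃ (K : ℝ) (η : ι → ℕ → Form B), (∀ i k, Coch n K (η i k)) ∧
      ∀ w Y, Tendsto (fun i =>
        (Fintype.card (Ω i) : ℂ)⁻¹ * ∑ ω, walkForm Φ n (V i ω : B) (U i ω : B) (e i ω) w Y
        - Φ w (Y * (1 - (Fintype.card (Ω i) : ℝ)⁻¹ • ∑ ω, e i ω))
        - ∑ k ∈ Finset.range (n + 2), dd n k (η i k) w Y) l (𝓝 0) := by
  classical
  set κ : (Σ i, Ω i) → ℕ → B := fun p s => asm1K (V p.1 p.2 : B) (U p.1 p.2 : B) s with hκ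
  set ξ : (Σ i, Ω i) → ℕ → ℕ → B →ₗ[ℂ] B := fun p s t => asm1L (star (κ p s)) (κ p t) with hξ
  set lam : (Σ i, Ω i) → ℕ → B →ₗ[ℂ] B :=
    fun p s => asm1L (star (κ p s)) (1 - e p.1 p.2) with hlam
  set mu : (Σ i, Ω i) → B →ₗ[ℂ] B := fun p => asm1L 1 (1 - e p.1 p.2) with hmu
  have kn : ∀ p s, ‖κ p s‖ ≤ 1 := fun p s => asm1K_norm _ _ s
  have kn' : ∀ p s, ‖star (κ p s)‖ ≤ 1 := fun p s => asm1K_star_norm _ _ s
  have k1 : ∀ p s, κ p s * star (κ p s) = 1 := fun p s => asm1K_mul _ _ s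
  have hone : ‖(1 : B)‖ ≤ 1 := by
    have := asm1_norm (1 : unitary B)
    simpa using this
  obtain ⟨K', η, hη, hlim⟩ := prism hΦ hc (comap Sigma.fst l) 1 κ ξ lam mu le_rfl kn
    (fun p s t w => asm1_mul3 (kn' p s) (kn p t))
    (fun p s w => asm1_mul3 (kn' p s) (he p.1 p.2))
    (fun p w => asm1_mul3 hone (he p.1 p.2))
    (by
      intro s _ w
      have h : ∀ p, ‖κ p s * ξ p s (s + 1) w - w * κ p (s + 1)‖ = 0 := by
        intro p
        have h1 : κ p s * ξ p s (s + 1) w = w * κ p (s + 1) := by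
          show κ p s * (star (κ p s) * w * κ p (s + 1)) = _
          rw [← mul_assoc, ← mul_assoc, k1, one_mul]
        rw [h1, sub_self, norm_zero]
      simp only [h]
      exact tendsto_const_nhds)
    (by
      intro s _ w w'
      have h : ∀ p, ‖ξ p s (s + 1) w * ξ p (s + 1) (s + 2) w' - ξ p s (s + 2) (w * w')‖ = 0 := by
        intro p
        have h1 : ξ p s (s + 1) w * ξ p (s + 1) (s + 2) w' = ξ p s (s + 2) (w * w') := by
          show star (κ p s) * w * κ p (s + 1) * (star (κ p (s + 1)) * w' * κ p (s + 2)) =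
            star (κ p s) * (w * w') * κ p (s + 2)
          calc star (κ p s) * w * κ p (s + 1) * (star (κ p (s + 1)) * w' * κ p (s + 2)) =
              star (κ p s) * w * (κ p (s + 1) * star (κ p (s + 1))) * w' * κ p (s + 2) := by
                simp only [mul_assoc]
            _ = star (κ p s) * (w * w') * κ p (s + 2) := by
                rw [k1, mul_one]
                simp only [mul_assoc]
        rw [h1, sub_self, norm_zero]
      simp only [h]
      exact tendsto_const_nhds)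
    (by
      intro w Y
      have h : ∀ p, ‖ξ p n (n + 1) w * lam p (n + 1) Y - lam p n (w * Y)‖ = 0 := by
        intro p
        have h1 : ξ p n (n + 1) w * lam p (n + 1) Y = lam p n (w * Y) := by
          show star (κ p n) * w * κ p (n + 1) * (star (κ p (n + 1)) * Y * (1 - e p.1 p.2)) =
            star (κ p n) * (w * Y) * (1 - e p.1 p.2)
          calc star (κ p n) * w * κ p (n + 1) * (star (κ p (n + 1)) * Y * (1 - e p.1 p.2)) =
              star (κ p n) * w * (κ p (n + 1) * star (κ p (n + 1))) * Y * (1 - e p.1 p.2) := by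
                simp only [mul_assoc]
            _ = star (κ p n) * (w * Y) * (1 - e p.1 p.2) := by
                rw [k1, mul_one]
                simp only [mul_assoc]
        rw [h1, sub_self, norm_zero]
      simp only [h]
      exact tendsto_const_nhds)
    (by
      intro Y
      have h : ∀ p, ‖κ p (n + 1) * lam p (n + 1) Y - mu p Y‖ = 0 := by
        intro p
        have h1 : κ p (n + 1) * lam p (n + 1) Y = mu p Y := by
          show κ p (n + 1) * (star (κ p (n + 1)) * Y * (1 - e p.1 p.2)) =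
            1 * Y * (1 - e p.1 p.2)
          rw [← mul_assoc, ← mul_assoc, k1]
        rw [h1, sub_self, norm_zero]
      simp only [h]
      exact tendsto_const_nhds)
    (by
      intro w Y
      have h : ∀ p, lam p (n + 1) Y * w - lam p (n + 1) (Y * w) =
          star (κ p (n + 1)) * Y * (w * e p.1 p.2 - e p.1 p.2 * w) := by
        intro p
        show star (κ p (n + 1)) * Y * (1 - e p.1 p.2) * w -
          star (κ p (n + 1)) * (Y * w) * (1 - e p.1 p.2) = _
        noncomm_ring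
      rw [Metric.tendsto_nhds]
      intro δ hδ
      rw [eventually_comap]
      have hpos : 0 < δ / (‖Y‖ + 1) / 2 := by positivity
      filter_upwards [hcomm w _ hpos] with i hi p hp
      subst hp
      rw [h, dist_zero_right, norm_norm]
      have h2 : ‖w * e p.1 p.2 - e p.1 p.2 * w‖ ≤ δ / (‖Y‖ + 1) / 2 := by
        rw [norm_sub_rev]
        exact hi p.2
      have hY1 : 0 < ‖Y‖ + 1 := by positivity
      calc ‖star (κ p (n + 1)) * Y * (w * e p.1 p.2 - e p.1 p.2 * w)‖
          ≤ ‖star (κ p (n + 1)) * Y‖ * ‖w * e p.1 p.2 - e p.1 p.2 * w‖ := norm_mul_le _ _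
        _ ≤ (‖star (κ p (n + 1))‖ * ‖Y‖) * ‖w * e p.1 p.2 - e p.1 p.2 * w‖ :=
            mul_le_mul_of_nonneg_right (norm_mul_le _ _) (norm_nonneg _)
        _ ≤ (1 * (‖Y‖ + 1)) * (δ / (‖Y‖ + 1) / 2) := by
            apply mul_le_mul _ h2 (norm_nonneg _) (by positivity)
            exact mul_le_mul (kn' p _) (by linarith) (norm_nonneg _) zero_le_one
        _ = δ / 2 := by field_simp
        _ < δ := by linarith)
  -- averages
  refine ⟨K', fun i k w y => (Fintype.card (Ω i) : ℂ)⁻¹ * ∑ ω, -η ⟨i, ω⟩ k w y, ?_, ?_⟩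
  · intro i k
    refine Coch.avg (fun ω w y => -η ⟨i, ω⟩ k w y) fun ω => ?_
    have h1 := (hη ⟨i, ω⟩ k).csmul (-1)
    rw [norm_neg, norm_one, one_mul] at h1
    have h2 : (fun w y => -η ⟨i, ω⟩ k w y) = fun w y => -1 * η ⟨i, ω⟩ k w y := by
      funext w y
      ring
    rw [h2]
    exact h1
  · intro w Y
    have hlim' := hlim w Y
    have hav : ∀ i, ((Fintype.card (Ω i) : ℂ)⁻¹ *
          ∑ ω, walkForm Φ n (V i ω : B) (U i ω : B) (e i ω) w Y
        - Φ w (Y * (1 - (Fintype.card (Ω i) : ℝ)⁻¹ • ∑ ω, e i ω))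
        - ∑ k ∈ Finset.range (n + 2),
          dd n k (fun w y => (Fintype.card (Ω i) : ℂ)⁻¹ * ∑ ω, -η ⟨i, ω⟩ k w y) w Y) =
        (Fintype.card (Ω i) : ℂ)⁻¹ * ∑ ω : Ω i, -(Φ w (mu ⟨i, ω⟩ Y)
        - Φ (fun s => ξ ⟨i, ω⟩ s (s + 1) (w s)) (lam ⟨i, ω⟩ (n + 1) Y * κ ⟨i, ω⟩ 0)
        - ∑ k ∈ Finset.range (n + 2), dd n k (η ⟨i, ω⟩ k) w Y) := by
      intro i
      have hcard : (Fintype.card (Ω i) : ℂ) ≠ 0 := Nat.cast_ne_zero.mpr Fintype.card_ne_zero
      have h1 : Φ w (Y * (1 - (Fintype.card (Ω i) : ℝ)⁻¹ • ∑ ω, e i ω)) =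
          (Fintype.card (Ω i) : ℂ)⁻¹ * ∑ ω, Φ w (mu ⟨i, ω⟩ Y) := by
        rw [← hΦ.sum_last, ← hΦ.smuly]
        congr 1
        have h2 : ∀ ω, mu ⟨i, ω⟩ Y = Y * (1 - e i ω) := fun ω => by
          show 1 * Y * (1 - e i ω) = _
          rw [one_mul]
        simp only [h2]
        rw [← Finset.mul_sum, Finset.sum_sub_distrib, Finset.sum_const, Finset.card_univ,
          ← mul_smul_comm, smul_sub]
        congr 2
        · rw [← Nat.cast_smul_eq_nsmul ℂ, smul_smul, inv_mul_cancel₀ hcard, one_smul]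
        · rw [← Complex.coe_smul]
          push_cast
          rfl
      have h3 : ∀ k, dd n k (fun w y => (Fintype.card (Ω i) : ℂ)⁻¹ * ∑ ω, -η ⟨i, ω⟩ k w y) w Y =
          (Fintype.card (Ω i) : ℂ)⁻¹ * ∑ ω, -dd n k (η ⟨i, ω⟩ k) w Y := by
        intro k
        rw [dd_smul, dd_sum]
        congr 1
        refine Finset.sum_congr rfl fun ω _ => ?_
        have h4 : (fun w y => -η ⟨i, ω⟩ k w y) = fun w y => -1 * η ⟨i, ω⟩ k w y := by
          funext w y
          ring
        rw [h4, dd_smul]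
        ring
      have h5 : ∀ ω, walkForm Φ n (V i ω : B) (U i ω : B) (e i ω) w Y =
          Φ (fun s => ξ ⟨i, ω⟩ s (s + 1) (w s)) (lam ⟨i, ω⟩ (n + 1) Y * κ ⟨i, ω⟩ 0) := fun ω =>
        asm1_walk Φ n (V i ω : B) (U i ω : B) (e i ω) w Y
      simp only [h3, h5, h1]
      rw [← Finset.mul_sum, Finset.sum_comm, ← mul_sub, ← mul_sub, ← Finset.sum_sub_distrib,
        ← Finset.sum_sub_distrib]
      congr 1
      refine Finset.sum_congr rfl fun ω _ => ?_
      rw [Finset.sum_neg_distrib]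
      ring
    simp only [hav]
    rw [Metric.tendsto_nhds] at hlim' ⊢
    intro δ hδ
    have h6 := hlim' (δ / 2) (by positivity)
    rw [eventually_comap] at h6
    filter_upwards [h6] with i hi
    rw [dist_zero_right]
    refine lt_of_le_of_lt (asm1_avg _ (δ / 2) fun ω => ?_) (by linarith)
    have h7 := hi ⟨i, ω⟩ rfl
    rw [dist_zero_right] at h7
    rw [norm_neg]
    exact h7.le

end Pool.MP263F
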