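import Mathlib
set_option autoImplicit false

/-! JOB Asm2: norm bounds for almost orthogonal rows.

Proof of `row_bound`.  `P = Σ_a y_a y_a^*`, `P² = Σ_{a,b} y_a (y_a^* y_b) y_b^*
= Σ_a y_a g y_a^* + Σ_{a,b} y_a E_{ab} y_b^*`, `‖E_{ab}‖ ≤ ε`, so `‖P‖² ≤ ‖P‖ + 4 m² ε ≤ ‖P‖ + 4`, hence
`‖P‖ ≤ 3`.  For self-adjoint `z`: `-‖z‖ P ≤ Σ y_a z y_a^* ≤ ‖z‖ P`, so the norm is `≤ 3 ‖z‖`; in general split
into real and imaginary part: `≤ 6 ‖z‖`. -/

namespace Pool.MP263F
variable {B : Type} [CStarAlgebra B] [PartialOrder B] [StarOrderedRing B]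

private theorem asm2_norm_le {t : B} (ht : IsSelfAdjoint t) {r : ℝ} (hr : 0 ≤ r)
    (h1 : t ≤ algebraMap ℝ B r) (h2 : algebraMap ℝ B (-r) ≤ t) : ‖t‖ ≤ r := by
  rcases subsingleton_or_nontrivial B with h | h
  · have : t = 0 := Subsingleton.elim _ _
    rw [this, norm_zero]; exact hr
  · have h1' := (le_algebraMap_iff_spectrum_le ht).1 h1
    have h2' := (algebraMap_le_iff_le_spectrum ht).1 h2
    rcases CStarAlgebra.norm_or_neg_norm_mem_spectrum ht with h | h
    · exact h1' _ h
    · have := h2' _ h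
      linarith

theorem row_bound {m : ℕ} (y : Fin m → B) (g : B) (ε : ℝ) (hε : 0 ≤ ε) (hme : (m : ℝ) ^ 2 * ε ≤ 1)
    (hg : 0 ≤ g ∧ g ≤ 1) (hy : ∀ a, ‖y a‖ ≤ 2)
    (h : ∀ a b, ‖star (y a) * y b - (if a = b then g else 0)‖ ≤ ε) (z : B) :
    ‖∑ a, y a * z * star (y a)‖ ≤ 6 * ‖z‖ := by
  classical
  set P : B := ∑ a, y a * star (y a) with hP
  have hP0 : 0 ≤ P := Finset.sum_nonneg fun a _ => mul_star_self_nonneg (y a)
  have hPsa : IsSelfAdjoint P := IsSelfAdjoint.of_nonneg hP0
  -- the square of P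
  have hsq : P * P = ∑ a, y a * g * star (y a)
      + ∑ a, ∑ b, y a * (star (y a) * y b - (if a = b then g else 0)) * star (y b) := by
    have e1 : ∀ a, y a * g * star (y a) = ∑ b, y a * (if a = b then g else 0) * star (y b) := by
      intro a
      rw [Finset.sum_eq_single a]
      · rw [if_pos rfl]
      · intro b _ hb
        rw [if_neg (Ne.symm hb), mul_zero, zero_mul]
      · intro h; exact absurd (Finset.mem_univ a) h
    rw [Finset.sum_congr rfl (fun a _ => e1 a), ← Finset.sum_add_distrib, hP, Finset.sum_mul_sum]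
    refine Finset.sum_congr rfl fun a _ => ?_
    rw [← Finset.sum_add_distrib]
    refine Finset.sum_congr rfl fun b _ => ?_
    rw [← add_mul, ← mul_add]
    have : (if a = b then g else 0) + (star (y a) * y b - (if a = b then g else 0))
        = star (y a) * y b := by abel
    rw [this]
    simp only [mul_assoc]
  have hg1 : ‖∑ a, y a * g * star (y a)‖ ≤ ‖P‖ := by
    refine CStarAlgebra.norm_le_norm_of_nonneg_of_le ?_ ?_
    · exact Finset.sum_nonneg fun a _ => star_right_conjugate_nonneg hg.1 (y a)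
    · refine Finset.sum_le_sum fun a _ => ?_
      have := star_right_conjugate_le_conjugate hg.2 (y a)
      rwa [mul_one] at this
  have hE : ‖∑ a, ∑ b, y a * (star (y a) * y b - (if a = b then g else 0)) * star (y b)‖ ≤ 4 := by
    calc ‖∑ a, ∑ b, y a * (star (y a) * y b - (if a = b then g else 0)) * star (y b)‖
        ≤ ∑ a : Fin m, ∑ b : Fin m, 4 * ε := by
          refine (norm_sum_le _ _).trans (Finset.sum_le_sum fun a _ => ?_)
          refine (norm_sum_le _ _).trans (Finset.sum_le_sum fun b _ => ?_)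
          calc ‖y a * (star (y a) * y b - (if a = b then g else 0)) * star (y b)‖
              ≤ ‖y a‖ * ‖star (y a) * y b - (if a = b then g else 0)‖ * ‖star (y b)‖ :=
                norm_mul₃_le
            _ ≤ 2 * ε * 2 := by
                rw [norm_star]
                have h1 := hy a
                have h2 := hy b
                have h3 := h a b
                gcongr
            _ = 4 * ε := by ring
      _ = 4 * ((m : ℝ) ^ 2 * ε) := by
          simp only [Finset.sum_const, Finset.card_univ, Fintype.card_fin, nsmul_eq_mul]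
          ring
      _ ≤ 4 := by linarith
  have hPn : ‖P‖ ≤ 3 := by
    have h1 : ‖P * P‖ = ‖P‖ * ‖P‖ := by
      have := CStarRing.norm_star_mul_self (x := P)
      rwa [hPsa.star_eq] at this
    have h2 : ‖P‖ * ‖P‖ ≤ ‖P‖ + 4 := by
      rw [← h1, hsq]
      exact (norm_add_le _ _).trans (add_le_add hg1 hE)
    nlinarith [norm_nonneg P]
  -- self-adjoint elements
  have hsa : ∀ t : B, IsSelfAdjoint t → ‖∑ a, y a * t * star (y a)‖ ≤ 3 * ‖t‖ := by
    intro t ht
    have hr : 0 ≤ 3 * ‖t‖ := by positivity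
    have hsum : IsSelfAdjoint (∑ a, y a * t * star (y a)) := by
      refine isSelfAdjoint_sum _ fun a _ => ?_
      exact IsSelfAdjoint.conjugate ht (y a)
    have hP3 : P ≤ algebraMap ℝ B 3 :=
      (CStarAlgebra.norm_le_iff_le_algebraMap P (by norm_num) hP0).1 hPn
    have e1 : ∀ r : ℝ, ∑ a, y a * algebraMap ℝ B r * star (y a) = r • P := by
      intro r
      rw [hP, Finset.smul_sum]
      refine Finset.sum_congr rfl fun a _ => ?_
      rw [← Algebra.commutes, mul_assoc, ← Algebra.smul_def]
    have e2 : ∀ r : ℝ, 0 ≤ r → r • P ≤ algebraMap ℝ B (3 * r) := by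
      intro r hr
      have := smul_le_smul_of_nonneg_left hP3 hr
      refine this.trans (le_of_eq ?_)
      rw [Algebra.smul_def, ← map_mul, mul_comm]
    refine asm2_norm_le hsum hr ?_ ?_
    · calc ∑ a, y a * t * star (y a) ≤ ∑ a, y a * algebraMap ℝ B ‖t‖ * star (y a) :=
            Finset.sum_le_sum fun a _ =>
              star_right_conjugate_le_conjugate ht.le_algebraMap_norm_self (y a)
        _ = ‖t‖ • P := e1 _
        _ ≤ algebraMap ℝ B (3 * ‖t‖) := e2 _ (norm_nonneg t)
    · calc algebraMap ℝ B (-(3 * ‖t‖)) ≤ -(‖t‖ • P) := by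
            rw [map_neg]
            exact neg_le_neg (e2 _ (norm_nonneg t))
        _ = ∑ a, y a * (-algebraMap ℝ B ‖t‖) * star (y a) := by
            rw [← e1]
            simp only [mul_neg, neg_mul, Finset.sum_neg_distrib]
        _ ≤ ∑ a, y a * t * star (y a) :=
            Finset.sum_le_sum fun a _ =>
              star_right_conjugate_le_conjugate ht.neg_algebraMap_norm_le_self (y a)
  -- general elements
  have hz := realPart_add_I_smul_imaginaryPart z
  have e3 : ∑ a, y a * z * star (y a) = ∑ a, y a * (realPart z : B) * star (y a)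
      + Complex.I • ∑ a, y a * (imaginaryPart z : B) * star (y a) := by
    rw [Finset.smul_sum, ← Finset.sum_add_distrib]
    refine Finset.sum_congr rfl fun a _ => ?_
    conv_lhs => rw [← hz]
    rw [mul_add, add_mul, mul_smul_comm, smul_mul_assoc]
  rw [e3]
  have h1 := hsa _ (realPart z).2
  have h2 := hsa _ (imaginaryPart z).2
  have h3 : ‖(realPart z : B)‖ ≤ ‖z‖ := realPart.norm_le z
  have h4 : ‖(imaginaryPart z : B)‖ ≤ ‖z‖ := imaginaryPart.norm_le z
  calc _ ≤ ‖∑ a, y a * (realPart z : B) * star (y a)‖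
        + ‖Complex.I • ∑ a, y a * (imaginaryPart z : B) * star (y a)‖ := norm_add_le _ _
    _ ≤ 3 * ‖z‖ + 3 * ‖z‖ := by
        rw [norm_smul, Complex.norm_I, one_mul]
        exact add_le_add (h1.trans (by linarith)) (h2.trans (by linarith))
    _ = 6 * ‖z‖ := by ring

end Pool.MP263F
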