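import Pool.Agent.Lib.MP_263cac_full.SE
set_option autoImplicit false

/-! JOB SW1: the swindle data.

Proof.  Choose `r₀ > 0` small (`r₀ ≤ ε/4`), `L_q, L_{q-1}, ..., L_0, L_{-1}` (in this order, `L_q ≥ 1`) with
`L_t/(L_s+1) ≤ r₀` for `s < t` (also with `L_{q+1} := 1`, so `1/(L_s + 1) ≤ r₀`), then
`N_0 < N_1 < ... < N_{q+1}` with `(N_s + 2)/(N_t + 1) ≤ r₀` for `s < t`; then `ε₁ > 0` tiny, apply
`swindle_elements` with `L = L_{-1}`, `m`, `ε₁`, `𝓕`; `δ = min η ε₁`.  Put `χ_s = 1-(1-e)^{L_s}`,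
`r s = χ_s x^{N_s}` (for `s ≤ q`; `0` otherwise), `q₀ = 1 - (1-e)^{L_{-1}}`, `g = x q₀ x`,
`c = e x^{N_{q+1}}`.
Basic inequality (functional calculus): `0 ≤ z ≤ 1` implies `‖z^M - z^{M+k}‖ ≤ k/(M+1)`.
So (z = 1-e) `‖χ_t (1-χ_s)‖ ≤ L_t/(L_s+1)`, `‖χ_t(1-q₀)‖ ≤ L_t/(L_{-1}+1)`, `‖e(1-χ_s)‖ ≤ 1/(L_s+1)`, and
(z = x) `‖x^{N_t}(1-x^{N_s+2})‖ ≤ (N_s+2)/(N_t+1)`.
All other errors are commutators: `‖[x^N, z]‖ ≤ N ‖[x,z]‖`, `‖[(1-e)^L, z]‖ ≤ L ‖[e,z]‖` (contractions), with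
`‖[x,e]‖, ‖[x,w]‖, ‖[e,w]‖ ≤ ε₁`.
* `r_s g r_t = χ_s x^{N_s} x q₀ x χ_t x^{N_t} ≈ χ_s q₀ χ_t x^{N_s+2+N_t} ≈ χ_t x^{N_t}`.
* `r_q g c ≈ χ_q q₀ e x^{N_q + 2 + N_{q+1}} ≈ e x^{N_{q+1}}`.
* `‖[r_s g, w]‖ ≤ (L_s + N_s + 2 + L_{-1}) ε₁`-ish, `‖[c,w]‖ ≤ (1+N_{q+1}) ε₁`.
* `avg c - e = -e avg (1 - x^N)`, `0 ≤ 1 - x^N ≤ N (1-x)`.
* `‖y a‖² = ‖y_a* y_a‖ ≤ ‖g‖ + ε₁ ≤ 4`. -/

namespace Pool.MP263F
variable {B : Type} [CStarAlgebra B] [PartialOrder B] [StarOrderedRing B]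

theorem SW1_norm {x : B} (h0 : 0 ≤ x) (h1 : x ≤ 1) : ‖x‖ ≤ 1 :=
  (CStarAlgebra.norm_le_one_iff_of_nonneg x h0).2 h1

theorem SW1_spec {x : B} (h0 : 0 ≤ x) (h1 : x ≤ 1) {t : ℝ} (ht : t ∈ spectrum ℝ x) :
    0 ≤ t ∧ t ≤ 1 := by
  refine ⟨spectrum_nonneg_of_nonneg h0 ht, ?_⟩
  have hsa : IsSelfAdjoint x := IsSelfAdjoint.of_nonneg h0
  have h2 : x ≤ algebraMap ℝ B 1 := by rw [map_one]; exact h1
  exact (le_algebraMap_iff_spectrum_le (r := 1) (a := x) hsa).1 h2 t ht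

theorem SW1_pow {z : B} (h0 : 0 ≤ z) (h1 : z ≤ 1) (n : ℕ) : 0 ≤ z ^ n ∧ z ^ n ≤ 1 := by
  refine ⟨CStarAlgebra.pow_nonneg h0 n, ?_⟩
  have hsa : IsSelfAdjoint z := IsSelfAdjoint.of_nonneg h0
  have h3 : z ^ n = cfc (fun t : ℝ => t ^ n) z := (cfc_pow_id (R := ℝ) z n).symm
  rw [h3]
  exact cfc_le_one (R := ℝ) (fun t : ℝ => t ^ n) z (fun t ht => by
    obtain ⟨h4, h5⟩ := SW1_spec h0 h1 ht
    exact pow_le_one₀ h4 h5)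

theorem SW1_real_a (t : ℝ) (h0 : 0 ≤ t) (h1 : t ≤ 1) (M : ℕ) :
    t ^ M * (1 - t) * ((M : ℝ) + 1) ≤ 1 := by
  have h2 : ∀ n : ℕ, t ^ n * ((n : ℝ)) * (1 - t) ≤ 1 - t ^ n := by
    intro n
    induction n with
    | zero => simp
    | succ n ih =>
      push_cast
      have h3 : 0 ≤ t ^ n := pow_nonneg h0 n
      have h4 : 0 ≤ t ^ n * (n : ℝ) * (1 - t) :=
        mul_nonneg (mul_nonneg h3 (Nat.cast_nonneg n)) (by linarith)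
      have h5 : t ^ (n + 1) * ((n : ℝ) + 1) * (1 - t)
          = t * (t ^ n * (n : ℝ) * (1 - t)) + t ^ n * (1 - t) - t ^ n * (1 - t) ^ 2 := by ring
      have h6 : t * (t ^ n * (n : ℝ) * (1 - t)) ≤ 1 * (t ^ n * (n : ℝ) * (1 - t)) :=
        mul_le_mul_of_nonneg_right h1 h4
      have h7 : 0 ≤ t ^ n * (1 - t) ^ 2 := mul_nonneg h3 (sq_nonneg _)
      have h8 : t ^ (n + 1) = t ^ n * t := pow_succ _ _
      nlinarith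
  have h3 := h2 (M + 1)
  have h4 : 0 ≤ t ^ M := pow_nonneg h0 M
  have h5 : 0 ≤ t ^ M * (1 - t) ^ 2 * ((M : ℝ) + 1) :=
    mul_nonneg (mul_nonneg h4 (sq_nonneg _)) (by positivity)
  push_cast at h3
  have h6 : t ^ (M + 1) = t ^ M * t := pow_succ _ _
  have h7 : 0 ≤ t ^ (M + 1) := pow_nonneg h0 _
  rw [h6] at h3 h7
  have h8 : ∀ n : ℕ, t ^ n * (n : ℝ) * (1 - t) + t ^ n ≤ 1 := by
    intro n
    have := h2 n
    linarith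
  have h9 : ∀ n : ℕ, t ^ n * (1 - t) * ((n : ℝ) + 1) ≤ 1 := by
    intro n
    have h10 := h8 n
    have h11 : t ^ n * (1 - t) ≤ t ^ n := by
      have h12 : 0 ≤ t ^ n := pow_nonneg h0 n
      nlinarith
    nlinarith
  exact h9 M

theorem SW1_real_b (t : ℝ) (h0 : 0 ≤ t) (h1 : t ≤ 1) (M k : ℕ) :
    0 ≤ t ^ M - t ^ (M + k) ∧ t ^ M - t ^ (M + k) ≤ (k : ℝ) / ((M : ℝ) + 1) := by
  have h4 : 0 ≤ t ^ M := pow_nonneg h0 M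
  have hk1 : t ^ k ≤ 1 := pow_le_one₀ h0 h1
  have e1 : t ^ M - t ^ (M + k) = t ^ M * (1 - t ^ k) := by rw [pow_add]; ring
  have hb : 1 - t ^ k ≤ k * (1 - t) := by
    have := one_add_mul_le_pow (a := t - 1) (by linarith) k
    have h5 : (1 + (t - 1)) = t := by ring
    rw [h5] at this
    linarith
  refine ⟨by rw [e1]; exact mul_nonneg h4 (by linarith), ?_⟩
  have hM : (0 : ℝ) < (M : ℝ) + 1 := by positivity
  rw [le_div_iff₀ hM, e1]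
  have h6 := SW1_real_a t h0 h1 M
  have h7 : t ^ M * (1 - t ^ k) * ((M : ℝ) + 1) ≤ t ^ M * (k * (1 - t)) * ((M : ℝ) + 1) :=
    mul_le_mul_of_nonneg_right (mul_le_mul_of_nonneg_left hb h4) hM.le
  have h8 : (0 : ℝ) ≤ k := Nat.cast_nonneg k
  nlinarith

theorem SW1_basic {z : B} (h0 : 0 ≤ z) (h1 : z ≤ 1) (M k : ℕ) :
    ‖z ^ M - z ^ (M + k)‖ ≤ (k : ℝ) / ((M : ℝ) + 1) := by
  have hsa : IsSelfAdjoint z := IsSelfAdjoint.of_nonneg h0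
  have e1 : z ^ M - z ^ (M + k) = cfc (fun t : ℝ => t ^ M - t ^ (M + k)) z := by
    rw [cfc_sub (R := ℝ) (fun t : ℝ => t ^ M) (fun t : ℝ => t ^ (M + k)) z]
    rw [cfc_pow_id (R := ℝ) z M, cfc_pow_id (R := ℝ) z (M + k)]
  rw [e1]
  refine norm_cfc_le (by positivity) (fun t ht => ?_)
  obtain ⟨h2, h3⟩ := SW1_spec h0 h1 ht
  obtain ⟨h4, h5⟩ := SW1_real_b t h2 h3 M k
  rw [Real.norm_eq_abs, abs_of_nonneg h4]
  exact h5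

theorem SW1_bern {x : B} (h0 : 0 ≤ x) (h1 : x ≤ 1) (n : ℕ) :
    0 ≤ 1 - x ^ n ∧ 1 - x ^ n ≤ (n : ℝ) • (1 - x) := by
  refine ⟨sub_nonneg.2 (SW1_pow h0 h1 n).2, ?_⟩
  have hsa : IsSelfAdjoint x := IsSelfAdjoint.of_nonneg h0
  induction n with
  | zero => simp
  | succ n ih =>
    have e1 : ((n + 1 : ℕ) : ℝ) • (1 - x) - (1 - x ^ (n + 1))
        = ((n : ℝ) • (1 - x) - (1 - x ^ n)) + (1 - x ^ n) * (1 - x) := by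
      rw [pow_succ]
      push_cast
      rw [add_smul, one_smul]
      noncomm_ring
    have e2 : (1 - x ^ n) * (1 - x) = cfc (fun t : ℝ => (1 - t ^ n) * (1 - t)) x := by
      rw [cfc_mul (R := ℝ) (fun t : ℝ => 1 - t ^ n) (fun t : ℝ => 1 - t) x]
      rw [cfc_sub (R := ℝ) (fun _ : ℝ => 1) (fun t : ℝ => t ^ n) x]
      rw [cfc_sub (R := ℝ) (fun _ : ℝ => 1) (fun t : ℝ => t) x]
      rw [cfc_pow_id (R := ℝ) x n, cfc_const_one ℝ x, cfc_id' ℝ x]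
    have h2 : 0 ≤ (1 - x ^ n) * (1 - x) := by
      rw [e2]
      refine cfc_nonneg (fun t ht => ?_)
      obtain ⟨h3, h4⟩ := SW1_spec h0 h1 ht
      exact mul_nonneg (by linarith [pow_le_one₀ h3 h4 (n := n)]) (by linarith)
    rw [← sub_nonneg, e1]
    exact add_nonneg (sub_nonneg.2 ih) h2

theorem SW1_comm_mul {a b w : B} (ha : ‖a‖ ≤ 1) (hb : ‖b‖ ≤ 1) {α β : ℝ}
    (h1 : ‖a * w - w * a‖ ≤ α) (h2 : ‖b * w - w * b‖ ≤ β) :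
    ‖(a * b) * w - w * (a * b)‖ ≤ α + β := by
  have e1 : (a * b) * w - w * (a * b) = (a * w - w * a) * b + a * (b * w - w * b) := by
    noncomm_ring
  rw [e1]
  refine (norm_add_le _ _).trans (add_le_add ?_ ?_)
  · refine (norm_mul_le _ _).trans ?_
    calc ‖a * w - w * a‖ * ‖b‖ ≤ ‖a * w - w * a‖ * 1 :=
          mul_le_mul_of_nonneg_left hb (norm_nonneg _)
      _ ≤ α := by rw [mul_one]; exact h1
  · refine (norm_mul_le _ _).trans ?_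
    calc ‖a‖ * ‖b * w - w * b‖ ≤ 1 * ‖b * w - w * b‖ :=
          mul_le_mul_of_nonneg_right ha (norm_nonneg _)
      _ ≤ β := by rw [one_mul]; exact h2

theorem SW1_norm_pow {x : B} (hx : ‖x‖ ≤ 1) (n : ℕ) : ‖x ^ n‖ ≤ 1 := by
  induction n with
  | zero =>
    rw [pow_zero]
    rcases subsingleton_or_nontrivial B with h | h
    · rw [Subsingleton.elim (1 : B) 0, norm_zero]; exact zero_le_one
    · exact (CStarRing.norm_one (E := B)).le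
  | succ n ih =>
    rw [pow_succ]
    refine (norm_mul_le _ _).trans ?_
    calc ‖x ^ n‖ * ‖x‖ ≤ 1 * 1 := mul_le_mul ih hx (norm_nonneg _) zero_le_one
      _ = 1 := one_mul 1

theorem SW1_comm_pow {x w : B} (hx : ‖x‖ ≤ 1) (n : ℕ) {α : ℝ}
    (h : ‖x * w - w * x‖ ≤ α) : ‖x ^ n * w - w * x ^ n‖ ≤ n * α := by
  induction n with
  | zero => simp
  | succ n ih =>
    rw [pow_succ]
    refine (SW1_comm_mul (SW1_norm_pow hx n) hx ih h).trans ?_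
    push_cast
    linarith

theorem SW1_comm_one_sub {a w : B} {α : ℝ} (h : ‖a * w - w * a‖ ≤ α) :
    ‖(1 - a) * w - w * (1 - a)‖ ≤ α := by
  have e1 : (1 - a) * w - w * (1 - a) = -(a * w - w * a) := by noncomm_ring
  rw [e1, norm_neg]
  exact h

theorem SW1_comm_symm {a w : B} {α : ℝ} (h : ‖a * w - w * a‖ ≤ α) :
    ‖w * a - a * w‖ ≤ α := by
  rw [norm_sub_rev]
  exact h

theorem SW1_n3 {a b c : B} {δ : ℝ} (ha : ‖a‖ ≤ 1) (hb : ‖b‖ ≤ δ) (hc : ‖c‖ ≤ 1) :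
    ‖a * b * c‖ ≤ δ := by
  have hδ : 0 ≤ δ := (norm_nonneg _).trans hb
  refine (norm_mul_le _ _).trans ?_
  have h1 : ‖a * b‖ ≤ δ := by
    refine (norm_mul_le _ _).trans ?_
    calc ‖a‖ * ‖b‖ ≤ 1 * δ := mul_le_mul ha hb (norm_nonneg _) zero_le_one
      _ = δ := one_mul δ
  calc ‖a * b‖ * ‖c‖ ≤ δ * 1 := mul_le_mul h1 hc (norm_nonneg _) hδ
    _ = δ := mul_one δ

theorem SW1_n2 {a b : B} (ha : ‖a‖ ≤ 1) (hb : ‖b‖ ≤ 1) : ‖a * b‖ ≤ 1 := by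
  refine (norm_mul_le _ _).trans ?_
  calc ‖a‖ * ‖b‖ ≤ 1 * 1 := mul_le_mul ha hb (norm_nonneg _) zero_le_one
    _ = 1 := one_mul 1

theorem SW1_one : ‖(1 : B)‖ ≤ 1 := by
  have h := SW1_norm_pow (x := (0 : B)) (by rw [norm_zero]; exact zero_le_one) 0
  rwa [pow_zero] at h

theorem SW1_chi {z : B} (h0 : 0 ≤ z) (h1 : z ≤ 1) (n : ℕ) :
    0 ≤ 1 - z ^ n ∧ 1 - z ^ n ≤ 1 ∧ ‖1 - z ^ n‖ ≤ 1 := by
  obtain ⟨h2, h3⟩ := SW1_pow h0 h1 n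
  have h4 : 0 ≤ 1 - z ^ n := sub_nonneg.2 h3
  have h5 : 1 - z ^ n ≤ 1 := sub_le_self 1 h2
  exact ⟨h4, h5, SW1_norm h4 h5⟩

theorem SW1_alg (s q t X x Y : B) :
    (s * X) * (x * q * x) * (t * Y) - t * Y
      = s * ((X * x) * q - q * (X * x)) * (x * (t * Y))
        + (s * q) * ((X * x * x) * t - t * (X * x * x)) * Y
        + s * ((q - 1) * t) * ((X * x * x) * Y)
        + 1 * ((s - 1) * t) * ((X * x * x) * Y)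
        + t * ((X * x * x) * Y - Y) * 1 := by
  noncomm_ring

theorem SW1_chi2 {z : B} (h0 : 0 ≤ z) (h1 : z ≤ 1) (M k : ℕ) :
    ‖((1 - z ^ M) - 1) * (1 - z ^ k)‖ ≤ (k : ℝ) / ((M : ℝ) + 1) := by
  have e1 : ((1 - z ^ M) - 1) * (1 - z ^ k) = -(z ^ M - z ^ (M + k)) := by
    rw [pow_add]; noncomm_ring
  rw [e1, norm_neg]
  exact SW1_basic h0 h1 M k

theorem SW1_rgr {x z : B} (hx0 : 0 ≤ x) (hx1 : x ≤ 1) (hz0 : 0 ≤ z) (hz1 : z ≤ 1) {α : ℝ}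
    (hxz : ‖x * z - z * x‖ ≤ α) (Ls Lt L' Ns Nt : ℕ) (r : ℝ)
    (h1 : (Lt : ℝ) / ((Ls : ℝ) + 1) ≤ r) (h2 : (Lt : ℝ) / ((L' : ℝ) + 1) ≤ r)
    (h3 : ((Ns : ℝ) + 2) / ((Nt : ℝ) + 1) ≤ r) :
    ‖((1 - z ^ Ls) * x ^ Ns) * (x * (1 - z ^ L') * x) * ((1 - z ^ Lt) * x ^ Nt)
      - (1 - z ^ Lt) * x ^ Nt‖
      ≤ 3 * r + ((Ns : ℝ) + 1) * ((L' : ℝ) * α) + ((Ns : ℝ) + 2) * ((Lt : ℝ) * α) := by
  have hxn : ‖x‖ ≤ 1 := SW1_norm hx0 hx1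
  have hzn : ‖z‖ ≤ 1 := SW1_norm hz0 hz1
  rw [SW1_alg]
  have e1 : x ^ Ns * x = x ^ (Ns + 1) := (pow_succ x Ns).symm
  have e2 : x ^ Ns * x * x = x ^ (Ns + 2) := by
    rw [← pow_succ, ← pow_succ]
  rw [e2, e1]
  have hc : ∀ L N : ℕ, ‖x ^ N * (1 - z ^ L) - (1 - z ^ L) * x ^ N‖ ≤ (N : ℝ) * ((L : ℝ) * α) := by
    intro L N
    refine SW1_comm_pow hxn N ?_
    refine SW1_comm_symm (SW1_comm_one_sub ?_)
    exact SW1_comm_pow hzn L (SW1_comm_symm hxz)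
  have n1 : ∀ N : ℕ, ‖x ^ N‖ ≤ 1 := fun N => SW1_norm_pow hxn N
  have n2 : ∀ L : ℕ, ‖1 - z ^ L‖ ≤ 1 := fun L => (SW1_chi hz0 hz1 L).2.2
  have t1 := SW1_n3 (n2 Ls) (hc L' (Ns + 1)) (SW1_n2 hxn (SW1_n2 (n2 Lt) (n1 Nt)))
  have t2 := SW1_n3 (SW1_n2 (n2 Ls) (n2 L')) (hc Lt (Ns + 2)) (n1 Nt)
  have t3 := SW1_n3 (n2 Ls) ((SW1_chi2 hz0 hz1 L' Lt).trans h2)
    (SW1_n2 (n1 (Ns + 2)) (n1 Nt))
  have t4 := SW1_n3 (SW1_one (B := B)) ((SW1_chi2 hz0 hz1 Ls Lt).trans h1)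
    (SW1_n2 (n1 (Ns + 2)) (n1 Nt))
  have e3 : x ^ (Ns + 2) * x ^ Nt - x ^ Nt = -(x ^ Nt - x ^ (Nt + (Ns + 2))) := by
    rw [neg_sub, pow_add x Nt (Ns + 2), ← pow_add, ← pow_add, add_comm]
  have h5 : ‖x ^ (Ns + 2) * x ^ Nt - x ^ Nt‖ ≤ r := by
    rw [e3, norm_neg]
    refine (SW1_basic hx0 hx1 Nt (Ns + 2)).trans ?_
    push_cast
    exact h3
  have t5 := SW1_n3 (n2 Lt) h5 (SW1_one (B := B))
  push_cast at t1 t2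
  refine (norm_add_le _ _).trans ?_
  refine (add_le_add (norm_add_le _ _) t5).trans ?_
  refine (add_le_add_left (add_le_add (norm_add_le _ _) t4) _).trans ?_
  refine (add_le_add_left (add_le_add_left (add_le_add (norm_add_le _ _) t3) _) _).trans ?_
  linarith

theorem SW1_g {x z : B} (hx0 : 0 ≤ x) (hx1 : x ≤ 1) (hz0 : 0 ≤ z) (hz1 : z ≤ 1) (L : ℕ) :
    0 ≤ x * (1 - z ^ L) * x ∧ x * (1 - z ^ L) * x ≤ 1 := by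
  have hsa : star x = x := (IsSelfAdjoint.of_nonneg hx0)
  obtain ⟨h1, h2, _⟩ := SW1_chi hz0 hz1 L
  have h3 := star_left_conjugate_nonneg h1 x
  have h4 := star_left_conjugate_le_conjugate h2 x
  rw [hsa] at h3 h4
  refine ⟨h3, h4.trans ?_⟩
  rw [mul_one, ← sq]
  exact (SW1_pow hx0 hx1 2).2

theorem SW1_comm_g {x z w : B} (hx0 : 0 ≤ x) (hx1 : x ≤ 1) (hz0 : 0 ≤ z) (hz1 : z ≤ 1) {α : ℝ}
    (hx : ‖x * w - w * x‖ ≤ α) (hz : ‖z * w - w * z‖ ≤ α) (Ls L' Ns : ℕ) :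
    ‖(((1 - z ^ Ls) * x ^ Ns) * (x * (1 - z ^ L') * x)) * w
      - w * (((1 - z ^ Ls) * x ^ Ns) * (x * (1 - z ^ L') * x))‖
      ≤ ((Ls : ℝ) + Ns + 2 + L') * α := by
  have hxn : ‖x‖ ≤ 1 := SW1_norm hx0 hx1
  have hzn : ‖z‖ ≤ 1 := SW1_norm hz0 hz1
  have n1 : ∀ N : ℕ, ‖x ^ N‖ ≤ 1 := fun N => SW1_norm_pow hxn N
  have n2 : ∀ L : ℕ, ‖1 - z ^ L‖ ≤ 1 := fun L => (SW1_chi hz0 hz1 L).2.2
  have c1 : ∀ L : ℕ, ‖(1 - z ^ L) * w - w * (1 - z ^ L)‖ ≤ (L : ℝ) * α :=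
    fun L => SW1_comm_one_sub (SW1_comm_pow hzn L hz)
  have c2 : ∀ N : ℕ, ‖x ^ N * w - w * x ^ N‖ ≤ (N : ℝ) * α := fun N => SW1_comm_pow hxn N hx
  have t1 := SW1_comm_mul (SW1_n2 (n2 Ls) (n1 Ns)) (SW1_n2 (SW1_n2 hxn (n2 L')) hxn)
    (SW1_comm_mul (n2 Ls) (n1 Ns) (c1 Ls) (c2 Ns))
    (SW1_comm_mul (SW1_n2 hxn (n2 L')) hxn (SW1_comm_mul hxn (n2 L') hx (c1 L')) hx)
  refine t1.trans (le_of_eq ?_)
  ring

theorem SW1_avg {Θ : Type} [Fintype Θ] [Nonempty Θ] (x : Θ → B) (e : B) (he0 : 0 ≤ e)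
    (he1 : e ≤ 1) (hx : ∀ θ, 0 ≤ x θ ∧ x θ ≤ 1) {α : ℝ}
    (h : ‖(Fintype.card Θ : ℝ)⁻¹ • ∑ θ, (1 - x θ)‖ ≤ α) (N : ℕ) :
    ‖(Fintype.card Θ : ℝ)⁻¹ • ∑ θ, e * x θ ^ N - e‖ ≤ (N : ℝ) * α := by
  have hc : (0 : ℝ) < (Fintype.card Θ : ℝ) := by exact_mod_cast Fintype.card_pos
  have e1 : (Fintype.card Θ : ℝ)⁻¹ • ∑ θ, e * x θ ^ N - e
      = -(e * ((Fintype.card Θ : ℝ)⁻¹ • ∑ θ, (1 - x θ ^ N))) := by
    rw [mul_smul_comm, Finset.mul_sum]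
    have e2 : ∀ θ, e * (1 - x θ ^ N) = e - e * x θ ^ N := fun θ => by rw [mul_sub, mul_one]
    rw [Finset.sum_congr rfl (fun θ _ => e2 θ), Finset.sum_sub_distrib, Finset.sum_const,
      Finset.card_univ, smul_sub, ← Nat.cast_smul_eq_nsmul ℝ, smul_smul, inv_mul_cancel₀ hc.ne',
      one_smul]
    abel
  rw [e1, norm_neg]
  have hen : ‖e‖ ≤ 1 := SW1_norm he0 he1
  have h2 : ‖(Fintype.card Θ : ℝ)⁻¹ • ∑ θ, (1 - x θ ^ N)‖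
      ≤ ‖(N : ℝ) • ((Fintype.card Θ : ℝ)⁻¹ • ∑ θ, (1 - x θ))‖ := by
    refine CStarAlgebra.norm_le_norm_of_nonneg_of_le ?_ ?_
    · exact smul_nonneg (inv_nonneg.2 hc.le)
        (Finset.sum_nonneg (fun θ _ => (SW1_bern (hx θ).1 (hx θ).2 N).1))
    · rw [smul_comm (N : ℝ), Finset.smul_sum (r := (N : ℝ))]
      exact smul_le_smul_of_nonneg_left
        (Finset.sum_le_sum (fun θ _ => (SW1_bern (hx θ).1 (hx θ).2 N).2)) (inv_nonneg.2 hc.le)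
  have hN : (0 : ℝ) ≤ (N : ℝ) := Nat.cast_nonneg N
  have h3 : ‖(N : ℝ) • ((Fintype.card Θ : ℝ)⁻¹ • ∑ θ, (1 - x θ))‖ ≤ (N : ℝ) * α := by
    rw [norm_smul, Real.norm_eq_abs, abs_of_nonneg hN]
    exact mul_le_mul_of_nonneg_left h hN
  refine (norm_mul_le _ _).trans ?_
  calc ‖e‖ * ‖(Fintype.card Θ : ℝ)⁻¹ • ∑ θ, (1 - x θ ^ N)‖
      ≤ 1 * ‖(Fintype.card Θ : ℝ)⁻¹ • ∑ θ, (1 - x θ ^ N)‖ :=
        mul_le_mul_of_nonneg_right hen (norm_nonneg _)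
    _ ≤ (N : ℝ) * α := by rw [one_mul]; exact h2.trans h3

theorem SW1_L (k q s t : ℕ) (hk : 1 ≤ k) (hst : s < t) (ht : t ≤ q) :
    ((k ^ (q - t) : ℕ) : ℝ) / (((k ^ (q - s) : ℕ) : ℝ) + 1) ≤ 1 / (k : ℝ) := by
  have hk0 : (0 : ℝ) < k := by exact_mod_cast hk
  rw [div_le_div_iff₀ (by positivity) hk0]
  have h1 : k ^ (q - t) * k ≤ k ^ (q - s) := by
    rw [← pow_succ]
    exact Nat.pow_le_pow_right hk (by omega)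
  have h2 : ((k ^ (q - t) : ℕ) : ℝ) * (k : ℝ) ≤ ((k ^ (q - s) : ℕ) : ℝ) := by exact_mod_cast h1
  linarith

theorem SW1_N (k s t : ℕ) (hk : 1 ≤ k) (hst : s < t) :
    (((((3 * k) ^ s : ℕ) : ℝ)) + 2) / ((((3 * k) ^ t : ℕ) : ℝ) + 1) ≤ 1 / (k : ℝ) := by
  have hk0 : (0 : ℝ) < k := by exact_mod_cast hk
  rw [div_le_div_iff₀ (by positivity) hk0]
  have h1 : (3 * k) ^ s * (3 * k) ≤ (3 * k) ^ t := by
    rw [← pow_succ]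
    exact Nat.pow_le_pow_right (by omega) (by omega)
  have h3 : 1 ≤ (3 * k) ^ s := Nat.one_le_pow _ _ (by omega)
  have h4 : ((3 * k) ^ s + 2) * k ≤ (3 * k) ^ t := by nlinarith
  have h2 : (((((3 * k) ^ s : ℕ) : ℝ)) + 2) * (k : ℝ) ≤ (((3 * k) ^ t : ℕ) : ℝ) := by
    exact_mod_cast h4
  linarith

theorem SW1_num (N M L L' P T α ε k : ℝ) (hN : 0 ≤ N) (hM : 0 ≤ M) (hL : 0 ≤ L) (hLL : L ≤ P)
    (hL' : L' = P) (hNM : N ≤ M) (hT : T = (M + 2) * (P + 1)) (hα : 0 ≤ α)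
    (hTα : T * α ≤ ε / 8) (hk : 1 / k ≤ ε / 8) (hε : 0 < ε) :
    3 * (1 / k) + (N + 1) * (L' * α) + (N + 2) * (L * α) ≤ ε := by
  have hP : 0 ≤ P := hL.trans hLL
  have h1 : (N + 1) * (L' * α) ≤ T * α := by
    rw [hT, hL', ← mul_assoc]
    refine mul_le_mul_of_nonneg_right ?_ hα
    exact mul_le_mul (by linarith) (by linarith) hP (by linarith)
  have h2 : (N + 2) * (L * α) ≤ T * α := by
    rw [hT, ← mul_assoc]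
    refine mul_le_mul_of_nonneg_right ?_ hα
    exact mul_le_mul (by linarith) (by linarith) hL (by linarith)
  linarith

theorem SW1_num2 (N M L L' P T α ε : ℝ) (hN : 0 ≤ N) (hM : 0 ≤ M) (hL : 0 ≤ L) (hLL : L ≤ P)
    (hL' : L' = P) (hNM : N ≤ M) (hT : T = (M + 2) * (P + 1)) (hα : 0 ≤ α)
    (hTα : T * α ≤ ε / 8) (hε : 0 < ε) :
    (L + N + 2 + L') * α ≤ ε := by
  have hP : 0 ≤ P := hL.trans hLL
  have h1 : (L + N + 2 + L') * α ≤ T * α := by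
    refine mul_le_mul_of_nonneg_right ?_ hα
    rw [hT, hL']
    nlinarith
  linarith

theorem SW1_num3 (a M P T α ε : ℝ) (ha : a ≤ M + 2) (hM : 0 ≤ M) (hP : 0 ≤ P)
    (hT : T = (M + 2) * (P + 1)) (hα : 0 ≤ α)
    (hTα : T * α ≤ ε / 8) (hε : 0 < ε) : a * α ≤ ε := by
  have h1 : a * α ≤ T * α := by
    refine mul_le_mul_of_nonneg_right ?_ hα
    rw [hT]
    nlinarith
  linarith

/-- the data used in the swindle -/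
def SwData (q m : ℕ) (ε : ℝ) (𝓕 : Finset B) (e : B) : Prop :=
  ∃ (Θ : Type) (_ : Fintype Θ) (_ : Nonempty Θ) (r : Θ → ℕ → B) (g c : Θ → B) (y : Θ → Fin m → B),
    (∀ θ s, ‖r θ s‖ ≤ 1) ∧ (∀ θ, 0 ≤ g θ ∧ g θ ≤ 1) ∧ (∀ θ, ‖c θ‖ ≤ 1) ∧ (∀ θ a, ‖y θ a‖ ≤ 2) ∧
    (∀ θ a b, ‖star (y θ a) * y θ b - (if a = b then g θ else 0)‖ ≤ ε) ∧
    (∀ θ s t, s < t → t ≤ q → ‖r θ s * g θ * r θ t - r θ t‖ ≤ ε) ∧
    (∀ θ, ‖r θ q * g θ * c θ - c θ‖ ≤ ε) ∧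
    (∀ θ s, s ≤ q → ∀ w ∈ 𝓕, ‖(r θ s * g θ) * w - w * (r θ s * g θ)‖ ≤ ε) ∧
    (∀ θ, ∀ w ∈ 𝓕, ‖c θ * w - w * c θ‖ ≤ ε) ∧
    ‖(Fintype.card Θ : ℝ)⁻¹ • ∑ θ, c θ - e‖ ≤ ε

theorem sw1 (q m : ℕ) (ε : ℝ) (hε : 0 < ε) (𝓕 : Finset B) :
    ∃ δ : ℝ, 0 < δ ∧ ∀ e : B, 0 ≤ e → e ≤ 1 → (∀ a ∈ 𝓕, ‖e * a - a * e‖ ≤ δ) →
      (∀ ρ : B →ₗ[ℝ] ℝ, TrF ρ → ρ e ≤ δ) → SwData q m ε 𝓕 e := by
  obtain ⟨k, hk1, hk⟩ : ∃ k : ℕ, 1 ≤ k ∧ 1 / (k : ℝ) ≤ ε / 8 := by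
    obtain ⟨k, hk⟩ := exists_nat_gt (8 / ε)
    have h8 : 0 < 8 / ε := by positivity
    have hk0 : (0 : ℝ) < k := h8.trans hk
    refine ⟨k, by exact_mod_cast hk0, ?_⟩
    rw [div_le_div_iff₀ hk0 (by norm_num)]
    rw [div_lt_iff₀ hε] at hk
    linarith
  set N : ℕ → ℕ := fun s => (3 * k) ^ s with hNdef
  set L : ℕ → ℕ := fun s => k ^ (q + 2 - (s + 1)) with hLdef
  set P : ℕ := k ^ (q + 2 - 0) with hPdef
  have hNle : ∀ s, s ≤ q + 1 → (N s : ℝ) ≤ (N (q + 1) : ℝ) := by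
    intro s hs
    exact_mod_cast Nat.pow_le_pow_right (by omega) hs
  have hLle : ∀ s, (L s : ℝ) ≤ (P : ℝ) := by
    intro s
    exact_mod_cast Nat.pow_le_pow_right hk1 (by omega)
  have hL0 : ∀ s, (0 : ℝ) ≤ (L s : ℝ) := fun s => Nat.cast_nonneg _
  have hN0 : ∀ s, (0 : ℝ) ≤ (N s : ℝ) := fun s => Nat.cast_nonneg _
  have hP0 : (0 : ℝ) ≤ (P : ℝ) := Nat.cast_nonneg _
  obtain ⟨T, hT⟩ : ∃ T : ℝ, T = ((N (q + 1) : ℝ) + 2) * ((P : ℝ) + 1) := ⟨_, rfl⟩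
  have hT1 : 0 < T := by rw [hT]; positivity
  obtain ⟨α, hα⟩ : ∃ α : ℝ, α = min (min 1 ε) (ε / (8 * T)) := ⟨_, rfl⟩
  have hα0 : 0 < α := by rw [hα]; exact lt_min (lt_min one_pos hε) (by positivity)
  have hα1 : α ≤ 1 := by rw [hα]; exact (min_le_left _ _).trans (min_le_left _ _)
  have hαε : α ≤ ε := by rw [hα]; exact (min_le_left _ _).trans (min_le_right _ _)
  have hTα : T * α ≤ ε / 8 := by
    have h1 : α ≤ ε / (8 * T) := by rw [hα]; exact min_le_right _ _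
    have h2 : T * α ≤ T * (ε / (8 * T)) := mul_le_mul_of_nonneg_left h1 hT1.le
    have h3 : T * (ε / (8 * T)) = ε / 8 := by field_simp
    linarith
  obtain ⟨η, hη, H⟩ := swindle_elements (B := B) P m α hα0 𝓕
  refine ⟨min η α, lt_min hη hα0, ?_⟩
  intro e he0 he1 hcomm htr
  obtain ⟨Θ, i1, i2, x, y, hx, hy, hxw, hxe, havg⟩ := H e he0 he1
    (fun ρ hρ => (htr ρ hρ).trans (min_le_left _ _))
  have hz0 : 0 ≤ 1 - e := sub_nonneg.2 he1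
  have hz1 : 1 - e ≤ 1 := sub_le_self 1 he0
  have hxz : ∀ θ, ‖x θ * (1 - e) - (1 - e) * x θ‖ ≤ α :=
    fun θ => SW1_comm_symm (SW1_comm_one_sub (SW1_comm_symm (hxe θ)))
  have hL1 : L (q + 1) = 1 := by
    rw [hLdef]
    simp
  have hes : (1 - (1 - e) ^ (L (q + 1))) = e := by rw [hL1, pow_one, sub_sub_cancel]
  have hzw : ∀ w ∈ 𝓕, ‖(1 - e) * w - w * (1 - e)‖ ≤ α :=
    fun w hw => SW1_comm_one_sub ((hcomm w hw).trans (min_le_right _ _))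
  have hRgR : ∀ θ s t, s < t → t ≤ q + 1 →
      ‖((1 - (1 - e) ^ (L s)) * x θ ^ (N s)) * (x θ * (1 - (1 - e) ^ P) * x θ)
        * ((1 - (1 - e) ^ (L t)) * x θ ^ (N t)) - (1 - (1 - e) ^ (L t)) * x θ ^ (N t)‖ ≤ ε := by
    intro θ s t hst ht
    refine (SW1_rgr (hx θ).1 (hx θ).2 hz0 hz1 (hxz θ) (L s) (L t) P (N s) (N t) (1 / (k : ℝ))
      ?_ ?_ ?_).trans ?_
    · exact SW1_L k (q + 2) (s + 1) (t + 1) hk1 (by omega) (by omega)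
    · exact SW1_L k (q + 2) 0 (t + 1) hk1 (by omega) (by omega)
    · exact SW1_N k s t hk1 hst
    · exact SW1_num (N s) (N (q + 1)) (L t) P P T α ε k (hN0 s) (hN0 _) (hL0 t) (hLle t) rfl
        (hNle s (by omega)) hT hα0.le hTα hk hε
  refine ⟨Θ, i1, i2, fun θ s => (1 - (1 - e) ^ (L s)) * x θ ^ (N s),
    fun θ => x θ * (1 - (1 - e) ^ P) * x θ,
    fun θ => (1 - (1 - e) ^ (L (q + 1))) * x θ ^ (N (q + 1)), y, ?_, ?_, ?_, ?_, ?_, ?_, ?_, ?_, ?_, ?_⟩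
  · intro θ s
    exact SW1_n2 (SW1_chi hz0 hz1 _).2.2 (SW1_norm_pow (SW1_norm (hx θ).1 (hx θ).2) _)
  · intro θ
    exact SW1_g (hx θ).1 (hx θ).2 hz0 hz1 P
  · intro θ
    exact SW1_n2 (SW1_chi hz0 hz1 _).2.2 (SW1_norm_pow (SW1_norm (hx θ).1 (hx θ).2) _)
  · intro θ a
    have h1 := hy θ a a
    rw [if_pos rfl] at h1
    have hg := SW1_g (hx θ).1 (hx θ).2 hz0 hz1 P
    have hgn : ‖x θ * (1 - (1 - e) ^ P) * x θ‖ ≤ 1 := SW1_norm hg.1 hg.2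
    have h2 : ‖star (y θ a) * y θ a‖ ≤ 2 := by
      have e1 : star (y θ a) * y θ a = (star (y θ a) * y θ a - x θ * (1 - (1 - e) ^ P) * x θ)
          + x θ * (1 - (1 - e) ^ P) * x θ := by abel
      rw [e1]
      refine (norm_add_le _ _).trans ?_
      linarith
    rw [CStarRing.norm_star_mul_self] at h2
    nlinarith [norm_nonneg (y θ a)]
  · intro θ a b
    exact (hy θ a b).trans hαε
  · intro θ s t hst ht
    exact hRgR θ s t hst (by omega)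
  · intro θ
    exact hRgR θ q (q + 1) (by omega) le_rfl
  · intro θ s hs w hw
    refine (SW1_comm_g (hx θ).1 (hx θ).2 hz0 hz1 (hxw θ w hw) (hzw w hw) (L s) P (N s)).trans ?_
    exact SW1_num2 (N s) (N (q + 1)) (L s) P P T α ε (hN0 s) (hN0 _) (hL0 s) (hLle s) rfl
      (hNle s (by omega)) hT hα0.le hTα hε
  · intro θ w hw
    have h1 := SW1_comm_mul (SW1_chi hz0 hz1 (L (q + 1))).2.2
      (SW1_norm_pow (SW1_norm (hx θ).1 (hx θ).2) (N (q + 1)))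
      (SW1_comm_one_sub (SW1_comm_pow (SW1_norm hz0 hz1) (L (q + 1)) (hzw w hw)))
      (SW1_comm_pow (SW1_norm (hx θ).1 (hx θ).2) (N (q + 1)) (hxw θ w hw))
    refine h1.trans ?_
    rw [hL1]
    push_cast
    have h2 := SW1_num3 ((N (q + 1) : ℝ) + 1) (N (q + 1)) P T α ε (by linarith) (hN0 _) hP0 hT
      hα0.le hTα hε
    linarith
  · show ‖(Fintype.card Θ : ℝ)⁻¹ • ∑ θ, (1 - (1 - e) ^ (L (q + 1))) * x θ ^ (N (q + 1)) - e‖ ≤ ε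
    rw [hes]
    refine (SW1_avg x e he0 he1 hx havg (N (q + 1))).trans ?_
    exact SW1_num3 (N (q + 1)) (N (q + 1)) P T α ε (by linarith) (hN0 _) hP0 hT hα0.le hTα hε

end Pool.MP263F
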