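import Pool.Agent.Lib.MP_263cac_full.Pri4
import Pool.Agent.Lib.MP_263cac_full.SW1
import Pool.Agent.Lib.MP_263cac_full.Asm2
set_option autoImplicit false

/-! JOB Asm3: the swindle.

Proof.  Choose the data `Θ i, r, g, c, y` from `hS i`.  Index type `I = Σ i, Fin (m i) × Θ i` with filter
`comap Sigma.fst l`.  Apply `prism` with `K = 12` (say):
`κ_s = r_s * y_a^*`, `ξ_{s,t}(w) = Σ_b y_b * (w * r_t) * y_b^*`, `λ_s(Y) = y_a * (Y * c)`, `μ(Y) = Y * c`.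
(For `s > n+1` one may put `κ_s = 0`, or just use `‖r θ s‖ ≤ 1` for all `s`.)
Errors (all `→ 0` uniformly in `(a, θ)`, once `w, w', Y ∈ 𝓕 i`):
H1 `κ_s ξ_{s,t}(w) = r_s Σ_b (y_a^* y_b) w r_t y_b^* ≈ r_s g w r_t y_a^*` (error `≤ m ε ‖w‖·2`)
  `≈ w r_s g r_t y_a^* ≈ w r_t y_a^* = w κ_t`.
H2 `ξ_{s,t}(w) ξ_{t,u}(w') = Σ_{b,b'} y_b w r_t (y_b^* y_{b'}) w' r_u y_{b'}^* ≈ Σ_b y_b w r_t g w' r_u y_b^*`
  (error `≤ m² ε · 4 ‖w‖‖w'‖`) `≈ Σ_b y_b w w' r_t g r_u y_b^* ≈ Σ_b y_b w w' r_u y_b^*` (by `row_bound`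
  or crude bounds `m·4·ε`).
H3 `ξ_{n,n+1}(w) λ_{n+1}(Y) = Σ_b y_b w r (y_b^* y_a) Y c ≈ y_a w r g Y c ≈ y_a w Y r g c ≈ y_a w Y c`.
H4 `κ λ(Y) = r y_a^* y_a Y c ≈ r g Y c ≈ Y r g c ≈ Y c`.   H5 `y_a Y c w ≈ y_a Y w c`.
Average over `(a, θ)`: `avg Φ(w; Y c θ) = Φ(w; Y avg c)` and `‖avg c - e i‖ ≤ ε i`, so it is
`≈ Φ(w; Y e i)`; and `avg_a Φ(ξ w; y_a Y c r_0 y_a^*) = (1/m) Φ(ξ w; Σ_a y_a (Y c r_0) y_a^*)` is
`≤ (1/m) C (6‖w‖..)^{n+1} 6 ‖Y‖ → 0` (`ξ` does not depend on `a`). -/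

open Filter Topology

namespace Pool.MP263F
variable {B : Type} [CStarAlgebra B] [PartialOrder B] [StarOrderedRing B]

section Asm3aux

omit [PartialOrder B] [StarOrderedRing B]

private theorem Asm3_D1 {m : ℕ} (y : Fin m → B) (g : B) (ε Z : ℝ)
    (h : ∀ a b, ‖star (y a) * y b - (if a = b then g else 0)‖ ≤ ε) (hε : 0 ≤ ε) (a : Fin m)
    (z : Fin m → B) (hz : ∀ b, ‖z b‖ ≤ Z) :
    ‖∑ b, (star (y a) * y b) * z b - g * z a‖ ≤ m * (ε * Z) := by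
  have e1 : ∑ b, (star (y a) * y b) * z b - g * z a
      = ∑ b, (star (y a) * y b - (if a = b then g else 0)) * z b := by
    have : ∑ b, (if a = b then g else 0) * z b = g * z a := by
      simp [ite_mul, Finset.sum_ite_eq]
    rw [← this, ← Finset.sum_sub_distrib]
    refine Finset.sum_congr rfl fun b _ => ?_
    rw [sub_mul]
  rw [e1]
  refine (norm_sum_le _ _).trans ?_
  have : ∀ b ∈ (Finset.univ : Finset (Fin m)),
      ‖(star (y a) * y b - (if a = b then g else 0)) * z b‖ ≤ ε * Z := fun b _ =>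
    (norm_mul_le _ _).trans (mul_le_mul (h a b) (hz b) (norm_nonneg _) hε)
  refine (Finset.sum_le_sum this).trans ?_
  simp

private theorem Asm3_D2 {m : ℕ} (y : Fin m → B) (g : B) (ε Z : ℝ)
    (h : ∀ a b, ‖star (y a) * y b - (if a = b then g else 0)‖ ≤ ε) (hZ : 0 ≤ Z) (a : Fin m)
    (z : Fin m → B) (hz : ∀ b, ‖z b‖ ≤ Z) :
    ‖∑ b, z b * (star (y b) * y a) - z a * g‖ ≤ m * (Z * ε) := by
  have e1 : ∑ b, z b * (star (y b) * y a) - z a * g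
      = ∑ b, z b * (star (y b) * y a - (if b = a then g else 0)) := by
    have : ∑ b, z b * (if b = a then g else 0) = z a * g := by
      simp [mul_ite]
    rw [← this, ← Finset.sum_sub_distrib]
    refine Finset.sum_congr rfl fun b _ => ?_
    rw [mul_sub]
  rw [e1]
  refine (norm_sum_le _ _).trans ?_
  have : ∀ b ∈ (Finset.univ : Finset (Fin m)),
      ‖z b * (star (y b) * y a - (if b = a then g else 0))‖ ≤ Z * ε := fun b _ =>
    (norm_mul_le _ _).trans (mul_le_mul (hz b) (h b a) (norm_nonneg _) hZ)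
  refine (Finset.sum_le_sum this).trans ?_
  simp

private theorem Asm3_n3 (x z t : B) (X Z T : ℝ) (hx : ‖x‖ ≤ X) (hz : ‖z‖ ≤ Z) (ht : ‖t‖ ≤ T) :
    ‖x * z * t‖ ≤ X * Z * T := by
  have hX : 0 ≤ X := (norm_nonneg _).trans hx
  have hZ : 0 ≤ Z := (norm_nonneg _).trans hz
  refine (norm_mul_le _ _).trans (mul_le_mul ((norm_mul_le _ _).trans
    (mul_le_mul hx hz (norm_nonneg _) hX)) ht (norm_nonneg _) (mul_nonneg hX hZ))

private theorem Asm3_n4 (x z t s : B) (X Z T S : ℝ) (hx : ‖x‖ ≤ X) (hz : ‖z‖ ≤ Z) (ht : ‖t‖ ≤ T)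
    (hs : ‖s‖ ≤ S) : ‖x * z * t * s‖ ≤ X * Z * T * S := by
  have hX : 0 ≤ X := (norm_nonneg _).trans hx
  have hZ : 0 ≤ Z := (norm_nonneg _).trans hz
  have hT : 0 ≤ T := (norm_nonneg _).trans ht
  refine (norm_mul_le _ _).trans (mul_le_mul (Asm3_n3 x z t X Z T hx hz ht) hs (norm_nonneg _)
    (mul_nonneg (mul_nonneg hX hZ) hT))

private theorem Asm3_H1 {m : ℕ} (y : Fin m → B) (g rs rt w : B) (ε : ℝ) (hε : 0 ≤ ε)
    (hm : 1 ≤ m)
    (h : ∀ a b, ‖star (y a) * y b - (if a = b then g else 0)‖ ≤ ε) (hy : ∀ a, ‖y a‖ ≤ 2)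
    (hrs : ‖rs‖ ≤ 1) (hrt : ‖rt‖ ≤ 1) (h6 : ‖rs * g * rt - rt‖ ≤ ε)
    (h8 : ‖(rs * g) * w - w * (rs * g)‖ ≤ ε) (a : Fin m) :
    ‖(rs * star (y a)) * (∑ b, y b * (w * rt) * star (y b)) - w * (rt * star (y a))‖
      ≤ (4 * ‖w‖ + 2) * ((m : ℝ) ^ 2 * ε) := by
  have hD := Asm3_D1 y g ε (‖w‖ * 1 * 2) h hε a (fun b => w * rt * star (y b)) (fun b =>
    Asm3_n3 w rt (star (y b)) _ _ _ le_rfl hrt (by rw [norm_star]; exact hy b))
  have e : (rs * star (y a)) * (∑ b, y b * (w * rt) * star (y b)) - w * (rt * star (y a))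
      = rs * (∑ b, (star (y a) * y b) * (w * rt * star (y b)) - g * (w * rt * star (y a)))
        + ((rs * g) * w - w * (rs * g)) * rt * star (y a)
        + w * (rs * g * rt - rt) * star (y a) := by
    rw [Finset.mul_sum, mul_sub, Finset.mul_sum]
    have : ∀ b ∈ (Finset.univ : Finset (Fin m)),
        rs * star (y a) * (y b * (w * rt) * star (y b))
          = rs * (star (y a) * y b * (w * rt * star (y b))) := fun b _ => by
      simp only [mul_assoc]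
    rw [Finset.sum_congr rfl this]
    noncomm_ring
  rw [e]
  have hstar : ‖star (y a)‖ ≤ 2 := by rw [norm_star]; exact hy a
  have b1 : ‖rs * (∑ b, (star (y a) * y b) * (w * rt * star (y b)) - g * (w * rt * star (y a)))‖
      ≤ 1 * (m * (ε * (‖w‖ * 1 * 2))) :=
    (norm_mul_le _ _).trans (mul_le_mul hrs hD (norm_nonneg _) zero_le_one)
  have b2 : ‖((rs * g) * w - w * (rs * g)) * rt * star (y a)‖ ≤ ε * 1 * 2 :=
    Asm3_n3 _ _ _ _ _ _ h8 hrt hstar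
  have b3 : ‖w * (rs * g * rt - rt) * star (y a)‖ ≤ ‖w‖ * ε * 2 :=
    Asm3_n3 _ _ _ _ _ _ le_rfl h6 hstar
  have hm' : (1 : ℝ) ≤ m := by exact_mod_cast hm
  have hw := norm_nonneg w
  have hmm : (m : ℝ) ≤ (m : ℝ) ^ 2 := by nlinarith
  have h1m : (1 : ℝ) ≤ (m : ℝ) ^ 2 := by nlinarith
  have k1 : (m : ℝ) * (ε * ‖w‖) ≤ (m : ℝ) ^ 2 * (ε * ‖w‖) :=
    mul_le_mul_of_nonneg_right hmm (mul_nonneg hε hw)
  have k2 : 1 * (ε * ‖w‖) ≤ (m : ℝ) ^ 2 * (ε * ‖w‖) :=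
    mul_le_mul_of_nonneg_right h1m (mul_nonneg hε hw)
  have k3 : 1 * ε ≤ (m : ℝ) ^ 2 * ε := mul_le_mul_of_nonneg_right h1m hε
  refine (norm_add₃_le).trans ?_
  nlinarith

private theorem Asm3_H3 {m : ℕ} (y : Fin m → B) (g r c w Y : B) (ε : ℝ) (hε : 0 ≤ ε)
    (hm : 1 ≤ m)
    (h : ∀ a b, ‖star (y a) * y b - (if a = b then g else 0)‖ ≤ ε) (hy : ∀ a, ‖y a‖ ≤ 2)
    (hr : ‖r‖ ≤ 1) (hc : ‖c‖ ≤ 1) (h7 : ‖r * g * c - c‖ ≤ ε)
    (h8 : ‖(r * g) * Y - Y * (r * g)‖ ≤ ε) (a : Fin m) :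
    ‖(∑ b, y b * (w * r) * star (y b)) * (y a * (Y * c)) - y a * (w * Y * c)‖
      ≤ (4 * ‖w‖ * ‖Y‖ + 2 * ‖w‖) * ((m : ℝ) ^ 2 * ε) := by
  have hw := norm_nonneg w
  have hY := norm_nonneg Y
  have hD := Asm3_D2 y g ε (2 * ‖w‖ * 1) h (by positivity) a (fun b => y b * w * r) (fun b =>
    Asm3_n3 (y b) w r _ _ _ (hy b) le_rfl hr)
  have e : (∑ b, y b * (w * r) * star (y b)) * (y a * (Y * c)) - y a * (w * Y * c)
      = (∑ b, (y b * w * r) * (star (y b) * y a) - (y a * w * r) * g) * Y * c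
        + y a * w * ((r * g) * Y - Y * (r * g)) * c
        + y a * w * Y * (r * g * c - c) := by
    rw [Finset.sum_mul, sub_mul, sub_mul, Finset.sum_mul, Finset.sum_mul]
    have : ∀ b ∈ (Finset.univ : Finset (Fin m)),
        y b * (w * r) * star (y b) * (y a * (Y * c))
          = y b * w * r * (star (y b) * y a) * Y * c := fun b _ => by
      simp only [mul_assoc]
    rw [Finset.sum_congr rfl this]
    noncomm_ring
  rw [e]
  have b1 := Asm3_n3 _ Y c _ _ _ hD le_rfl hc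
  have b2 := Asm3_n4 (y a) w ((r * g) * Y - Y * (r * g)) c _ _ _ _ (hy a) le_rfl h8 hc
  have b3 := Asm3_n4 (y a) w Y (r * g * c - c) _ _ _ _ (hy a) le_rfl le_rfl h7
  have hm' : (1 : ℝ) ≤ m := by exact_mod_cast hm
  have hmm : (m : ℝ) ≤ (m : ℝ) ^ 2 := by nlinarith
  have h1m : (1 : ℝ) ≤ (m : ℝ) ^ 2 := by nlinarith
  have hwY : 0 ≤ ‖w‖ * ‖Y‖ := mul_nonneg hw hY
  have k1 : (m : ℝ) * (ε * (‖w‖ * ‖Y‖)) ≤ (m : ℝ) ^ 2 * (ε * (‖w‖ * ‖Y‖)) :=
    mul_le_mul_of_nonneg_right hmm (mul_nonneg hε hwY)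
  have k2 : 1 * (ε * (‖w‖ * ‖Y‖)) ≤ (m : ℝ) ^ 2 * (ε * (‖w‖ * ‖Y‖)) :=
    mul_le_mul_of_nonneg_right h1m (mul_nonneg hε hwY)
  have k3 : 1 * (ε * ‖w‖) ≤ (m : ℝ) ^ 2 * (ε * ‖w‖) :=
    mul_le_mul_of_nonneg_right h1m (mul_nonneg hε hw)
  refine (norm_add₃_le).trans ?_
  nlinarith

private theorem Asm3_H4 {m : ℕ} (y : Fin m → B) (g r c Y : B) (ε : ℝ) (hε : 0 ≤ ε)
    (hm : 1 ≤ m)
    (h : ∀ a b, ‖star (y a) * y b - (if a = b then g else 0)‖ ≤ ε)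
    (hr : ‖r‖ ≤ 1) (hc : ‖c‖ ≤ 1) (h7 : ‖r * g * c - c‖ ≤ ε)
    (h8 : ‖(r * g) * Y - Y * (r * g)‖ ≤ ε) (a : Fin m) :
    ‖(r * star (y a)) * (y a * (Y * c)) - Y * c‖ ≤ (2 * ‖Y‖ + 1) * ((m : ℝ) ^ 2 * ε) := by
  have hY := norm_nonneg Y
  have haa := h a a
  rw [if_pos rfl] at haa
  have e : (r * star (y a)) * (y a * (Y * c)) - Y * c
      = r * (star (y a) * y a - g) * Y * c
        + ((r * g) * Y - Y * (r * g)) * c + Y * (r * g * c - c) := by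
    noncomm_ring
  rw [e]
  have b1 := Asm3_n4 r (star (y a) * y a - g) Y c _ _ _ _ hr haa le_rfl hc
  have b2 : ‖((r * g) * Y - Y * (r * g)) * c‖ ≤ ε * 1 :=
    (norm_mul_le _ _).trans (mul_le_mul h8 hc (norm_nonneg _) hε)
  have b3 : ‖Y * (r * g * c - c)‖ ≤ ‖Y‖ * ε :=
    (norm_mul_le _ _).trans (mul_le_mul_of_nonneg_left h7 hY)
  have hm' : (1 : ℝ) ≤ m := by exact_mod_cast hm
  have h1m : (1 : ℝ) ≤ (m : ℝ) ^ 2 := by nlinarith
  have k2 : 1 * (ε * ‖Y‖) ≤ (m : ℝ) ^ 2 * (ε * ‖Y‖) :=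
    mul_le_mul_of_nonneg_right h1m (mul_nonneg hε hY)
  have k3 : 1 * ε ≤ (m : ℝ) ^ 2 * ε := mul_le_mul_of_nonneg_right h1m hε
  refine (norm_add₃_le).trans ?_
  nlinarith

end Asm3aux

private theorem Asm3_H2 {m : ℕ} (y : Fin m → B) (g rt ru w w' : B) (ε : ℝ) (hε : 0 ≤ ε)
    (hm : 1 ≤ m) (hme : (m : ℝ) ^ 2 * ε ≤ 1) (hg : 0 ≤ g ∧ g ≤ 1)
    (h : ∀ a b, ‖star (y a) * y b - (if a = b then g else 0)‖ ≤ ε) (hy : ∀ a, ‖y a‖ ≤ 2)
    (hrt : ‖rt‖ ≤ 1) (hru : ‖ru‖ ≤ 1) (h6 : ‖rt * g * ru - ru‖ ≤ ε)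
    (h8 : ‖(rt * g) * w' - w' * (rt * g)‖ ≤ ε) :
    ‖(∑ b, y b * (w * rt) * star (y b)) * (∑ b, y b * (w' * ru) * star (y b))
        - ∑ b, y b * (w * w' * ru) * star (y b)‖
      ≤ (10 * ‖w‖ * ‖w'‖ + 6 * ‖w‖) * ((m : ℝ) ^ 2 * ε) := by
  have hw := norm_nonneg w
  have hw' := norm_nonneg w'
  set err : Fin m → B := fun a =>
    ∑ b, (star (y a) * y b) * (w' * ru * star (y b)) - g * (w' * ru * star (y a)) with herr
  have hD : ∀ a, ‖err a‖ ≤ m * (ε * (‖w'‖ * 1 * 2)) := fun a =>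
    Asm3_D1 y g ε (‖w'‖ * 1 * 2) h hε a (fun b => w' * ru * star (y b)) (fun b =>
    Asm3_n3 w' ru (star (y b)) _ _ _ le_rfl hru (by rw [norm_star]; exact hy b))
  set X : B := w * ((rt * g) * w' - w' * (rt * g)) * ru + w * w' * (rt * g * ru - ru) with hX
  have e : (∑ b, y b * (w * rt) * star (y b)) * (∑ b, y b * (w' * ru) * star (y b))
        - ∑ b, y b * (w * w' * ru) * star (y b)
      = ∑ a, y a * (w * rt) * err a + ∑ a, y a * X * star (y a) := by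
    rw [Finset.sum_mul, ← Finset.sum_sub_distrib, ← Finset.sum_add_distrib]
    refine Finset.sum_congr rfl fun a _ => ?_
    rw [herr, hX]
    have e2 : y a * (w * rt) * star (y a) * (∑ b, y b * (w' * ru) * star (y b))
        = y a * (w * rt) * ∑ b, (star (y a) * y b) * (w' * ru * star (y b)) := by
      rw [Finset.mul_sum, Finset.mul_sum]
      refine Finset.sum_congr rfl fun b _ => ?_
      simp only [mul_assoc]
    rw [e2]
    noncomm_ring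
  rw [e]
  have b1 : ‖∑ a, y a * (w * rt) * err a‖ ≤ m * (2 * (‖w‖ * 1) * (m * (ε * (‖w'‖ * 1 * 2)))) := by
    refine (norm_sum_le _ _).trans ?_
    have : ∀ a ∈ (Finset.univ : Finset (Fin m)), ‖y a * (w * rt) * err a‖
        ≤ 2 * (‖w‖ * 1) * (m * (ε * (‖w'‖ * 1 * 2))) := fun a _ =>
      Asm3_n3 _ _ _ _ _ _ (hy a)
        ((norm_mul_le _ _).trans (mul_le_mul_of_nonneg_left hrt hw)) (hD a)
    refine (Finset.sum_le_sum this).trans ?_
    simp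
  have b2 : ‖∑ a, y a * X * star (y a)‖ ≤ 6 * ‖X‖ := row_bound y g ε hε hme hg hy h X
  have b3 : ‖X‖ ≤ ‖w‖ * ε + ‖w‖ * ‖w'‖ * ε := by
    rw [hX]
    refine (norm_add_le _ _).trans (add_le_add ?_ ?_)
    · have := Asm3_n3 w ((rt * g) * w' - w' * (rt * g)) ru _ _ _ le_rfl h8 hru
      linarith
    · exact Asm3_n3 w w' (rt * g * ru - ru) _ _ _ le_rfl le_rfl h6
  have hm' : (1 : ℝ) ≤ m := by exact_mod_cast hm
  have h1m : (1 : ℝ) ≤ (m : ℝ) ^ 2 := by nlinarith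
  have hww : 0 ≤ ‖w‖ * ‖w'‖ := mul_nonneg hw hw'
  have k2 : 1 * (ε * (‖w‖ * ‖w'‖)) ≤ (m : ℝ) ^ 2 * (ε * (‖w‖ * ‖w'‖)) :=
    mul_le_mul_of_nonneg_right h1m (mul_nonneg hε hww)
  have k3 : 1 * (ε * ‖w‖) ≤ (m : ℝ) ^ 2 * (ε * ‖w‖) :=
    mul_le_mul_of_nonneg_right h1m (mul_nonneg hε hw)
  refine (norm_add_le _ _).trans ?_
  nlinarith

/-- the linear map `w ↦ Σ_b y_b (w r) y_b^*` -/
private noncomputable def Asm3_xi {m : ℕ} (y : Fin m → B) (r : B) : B →ₗ[ℂ] B where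
  toFun w := ∑ b, y b * (w * r) * star (y b)
  map_add' w w' := by
    rw [← Finset.sum_add_distrib]
    refine Finset.sum_congr rfl fun b _ => ?_
    rw [add_mul, mul_add, add_mul]
  map_smul' c w := by
    rw [RingHom.id_apply, Finset.smul_sum]
    refine Finset.sum_congr rfl fun b _ => ?_
    rw [smul_mul_assoc, mul_smul_comm, smul_mul_assoc]

/-- the linear map `Y ↦ a (Y c)` -/
private noncomputable def Asm3_lam (a c : B) : B →ₗ[ℂ] B where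
  toFun Y := a * (Y * c)
  map_add' Y Y' := by rw [add_mul, mul_add]
  map_smul' z Y := by rw [RingHom.id_apply, smul_mul_assoc, mul_smul_comm]

/-- the linear map `Y ↦ Y c` -/
private noncomputable def Asm3_mu (c : B) : B →ₗ[ℂ] B where
  toFun Y := Y * c
  map_add' Y Y' := by rw [add_mul]
  map_smul' z Y := by rw [RingHom.id_apply, smul_mul_assoc]

private theorem Asm3_avg_le {X : Type} [Fintype X] [Nonempty X] (F : X → ℂ) (d : ℝ)
    (h : ∀ a, ‖F a‖ ≤ d) : ‖((Fintype.card X : ℂ))⁻¹ * ∑ a, F a‖ ≤ d := by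
  have hc : (0 : ℝ) < Fintype.card X := by exact_mod_cast Fintype.card_pos
  rw [norm_mul, norm_inv, Complex.norm_natCast]
  have h1 : ‖∑ a, F a‖ ≤ Fintype.card X * d := by
    refine (norm_sum_le _ _).trans ((Finset.sum_le_sum fun a _ => h a).trans ?_)
    simp
  calc ((Fintype.card X : ℝ))⁻¹ * ‖∑ a, F a‖ ≤ ((Fintype.card X : ℝ))⁻¹ * (Fintype.card X * d) :=
        mul_le_mul_of_nonneg_left h1 (by positivity)
    _ = d := by field_simp

omit [PartialOrder B] [StarOrderedRing B] in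
private theorem Asm3_avg_last {n : ℕ} {C : ℝ} {Φ : Form B} (hΦ : Coch n C Φ) {X : Type}
    [Fintype X] (w : ℕ → B) (Y : B) (c : X → B) :
    Φ w (Y * ((Fintype.card X : ℝ)⁻¹ • ∑ t, c t))
      = ((Fintype.card X : ℂ))⁻¹ * ∑ t, Φ w (Y * c t) := by
  have e1 : Y * ((Fintype.card X : ℝ)⁻¹ • ∑ t, c t)
      = ((Fintype.card X : ℂ))⁻¹ • ∑ t, Y * c t := by
    rw [← Finset.mul_sum]
    have : ((Fintype.card X : ℝ)⁻¹ • ∑ t, c t) = ((Fintype.card X : ℂ))⁻¹ • ∑ t, c t := by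
      have h2 : (((Fintype.card X : ℝ)⁻¹ : ℝ) : ℂ) = ((Fintype.card X : ℂ))⁻¹ := by
        push_cast; rfl
      rw [← h2]
      exact (Complex.coe_smul _ _).symm
    rw [this, mul_smul_comm]
  rw [e1, hΦ.smuly, hΦ.sum_last]

omit [PartialOrder B] [StarOrderedRing B] in
private theorem Asm3_tail {n : ℕ} {C : ℝ} {Φ : Form B} (hΦ : Coch n C Φ) {m : ℕ} (hm : 1 ≤ m)
    {X : Type} [Fintype X] [Nonempty X] (W : X → ℕ → B) (y : X → Fin m → B) (z : X → B)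
    (w : ℕ → B) (Y : B)
    (hW : ∀ t s, ‖W t s‖ ≤ 6 * ‖w s‖) (hz : ∀ t, ‖∑ a, y t a * z t * star (y t a)‖ ≤ 6 * ‖Y‖) :
    ‖((Fintype.card (Fin m × X) : ℂ))⁻¹ * ∑ a : Fin m × X, Φ (W a.2)
        (y a.2 a.1 * z a.2 * star (y a.2 a.1))‖
      ≤ (C * (∏ i ∈ Finset.range n, (6 * ‖w i‖)) * (6 * ‖Y‖)) * ((m : ℝ))⁻¹ := by
  have hm' : (0 : ℝ) < m := by exact_mod_cast hm
  have e1 : ((Fintype.card (Fin m × X) : ℂ))⁻¹ * ∑ a : Fin m × X, Φ (W a.2)
        (y a.2 a.1 * z a.2 * star (y a.2 a.1))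
      = ((m : ℂ))⁻¹ * (((Fintype.card X : ℂ))⁻¹ * ∑ t, Φ (W t)
        (∑ a, y t a * z t * star (y t a))) := by
    rw [Fintype.card_prod, Fintype.card_fin, Fintype.sum_prod_type, Finset.sum_comm]
    push_cast
    rw [mul_inv, mul_assoc]
    congr 2
    refine Finset.sum_congr rfl fun t _ => ?_
    rw [hΦ.sum_last]
  rw [e1, norm_mul, norm_inv, Complex.norm_natCast, mul_comm]
  refine mul_le_mul_of_nonneg_right (Asm3_avg_le _ _ fun t => ?_) (by positivity)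
  refine (hΦ.bound _ _).trans ?_
  refine mul_le_mul (mul_le_mul_of_nonneg_left ?_ hΦ.nonneg) (hz t) (norm_nonneg _) ?_
  · exact Finset.prod_le_prod (fun _ _ => norm_nonneg _) (fun i _ => hW t i)
  · exact mul_nonneg hΦ.nonneg (Finset.prod_nonneg fun _ _ => by positivity)

theorem swindle {n : ℕ} {C : ℝ} {Φ : Form B} (hΦ : Coch (n + 1) C Φ)
    (hc : ∀ w y, delta (n + 1) Φ w y = 0) {ι : Type} (l : Filter ι)
    (m : ι → ℕ) (hm1 : ∀ i, 1 ≤ m i) (hm : Tendsto m l atTop)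
    (ε : ι → ℝ) (hε0 : ∀ i, 0 ≤ ε i) (hme : ∀ i, (m i : ℝ) ^ 2 * ε i ≤ 1)
    (hme' : Tendsto (fun i => (m i : ℝ) ^ 2 * ε i) l (𝓝 0))
    (𝓕 : ι → Finset B) (h𝓕 : ∀ w : B, ∀ᶠ i in l, w ∈ 𝓕 i) (e : ι → B)
    (hS : ∀ i, SwData (n + 1) (m i) (ε i) (𝓕 i) (e i)) :
    ∃ (K : ℝ) (η : ι → ℕ → Form B), (∀ i k, Coch n K (η i k)) ∧
      ∀ w Y, Tendsto (fun i => Φ w (Y * e i)
        - ∑ k ∈ Finset.range (n + 2), dd n k (η i k) w Y) l (𝓝 0) := by
  unfold SwData at hS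
  choose Θ fΘ nΘ r g c y hr hg hcn hy hyy h6 h7 h8 h9 h10 using hS
  have hm0 : ∀ i, Nonempty (Fin (m i)) := fun i => ⟨⟨0, hm1 i⟩⟩
  have hmr : ∀ i, (1 : ℝ) ≤ m i := fun i => by exact_mod_cast hm1 i
  have hεle : ∀ i, ε i ≤ (m i : ℝ) ^ 2 * ε i := fun i => by
    have h1 := hmr i
    have h2 := hε0 i
    nlinarith [mul_nonneg (show (0 : ℝ) ≤ (m i : ℝ) ^ 2 - 1 by nlinarith) h2]
  have hε' : Tendsto ε l (𝓝 0) := squeeze_zero hε0 hεle hme'
  -- the index type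
  let I : Type := Σ i, Fin (m i) × Θ i
  let L : Filter I := Filter.comap Sigma.fst l
  have hL : Tendsto (Sigma.fst : I → ι) L l := tendsto_comap
  have hsmall : ∀ K : ℝ, Tendsto (fun p : I => K * ((m p.1 : ℝ) ^ 2 * ε p.1)) L (𝓝 0) := fun K => by
    have := (hme'.comp hL).const_mul K
    simpa using this
  have hev : ∀ w : B, ∀ᶠ p : I in L, w ∈ 𝓕 p.1 := fun w => hL.eventually (h𝓕 w)
  obtain ⟨K', η, hη, hlim⟩ := prism hΦ hc (ι := I) L 12
    (fun p s => r p.1 p.2.2 s * star (y p.1 p.2.2 p.2.1))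
    (fun p _ t => Asm3_xi (y p.1 p.2.2) (r p.1 p.2.2 t))
    (fun p _ => Asm3_lam (y p.1 p.2.2 p.2.1) (c p.1 p.2.2))
    (fun p => Asm3_mu (c p.1 p.2.2))
    (by norm_num)
    (by
      intro p s
      refine (norm_mul_le _ _).trans ?_
      rw [norm_star]
      have h1 := hr p.1 p.2.2 s
      have h2 := hy p.1 p.2.2 p.2.1
      have h3 := norm_nonneg (r p.1 p.2.2 s)
      have h4 := norm_nonneg (y p.1 p.2.2 p.2.1)
      nlinarith)
    (by
      intro p s t w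
      have h1 := row_bound (y p.1 p.2.2) (g p.1 p.2.2) (ε p.1) (hε0 p.1) (hme p.1)
        (hg p.1 p.2.2) (hy p.1 p.2.2) (hyy p.1 p.2.2) (w * r p.1 p.2.2 t)
      have h2 : ‖w * r p.1 p.2.2 t‖ ≤ ‖w‖ * 1 :=
        (norm_mul_le _ _).trans (mul_le_mul_of_nonneg_left (hr _ _ _) (norm_nonneg _))
      have h3 := norm_nonneg w
      change ‖∑ b, y p.1 p.2.2 b * (w * r p.1 p.2.2 t) * star (y p.1 p.2.2 b)‖ ≤ 12 * ‖w‖
      linarith)
    (by
      intro p s w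
      have h2 : ‖w * c p.1 p.2.2‖ ≤ ‖w‖ * 1 :=
        (norm_mul_le _ _).trans (mul_le_mul_of_nonneg_left (hcn _ _) (norm_nonneg _))
      have h3 : ‖y p.1 p.2.2 p.2.1 * (w * c p.1 p.2.2)‖ ≤ 2 * (‖w‖ * 1) :=
        (norm_mul_le _ _).trans (mul_le_mul (hy _ _ _) h2 (norm_nonneg _) (by norm_num))
      have h4 := norm_nonneg w
      change ‖y p.1 p.2.2 p.2.1 * (w * c p.1 p.2.2)‖ ≤ 12 * ‖w‖
      linarith)
    (by
      intro p w
      have h2 : ‖w * c p.1 p.2.2‖ ≤ ‖w‖ * 1 :=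
        (norm_mul_le _ _).trans (mul_le_mul_of_nonneg_left (hcn _ _) (norm_nonneg _))
      have h4 := norm_nonneg w
      change ‖w * c p.1 p.2.2‖ ≤ 12 * ‖w‖
      linarith)
    (by
      intro s hs w
      refine squeeze_zero' (Eventually.of_forall fun p => norm_nonneg _) ?_
        (hsmall (4 * ‖w‖ + 2))
      filter_upwards [hev w] with p hp
      exact Asm3_H1 (y p.1 p.2.2) (g p.1 p.2.2) (r p.1 p.2.2 s) (r p.1 p.2.2 (s + 1)) w (ε p.1)
        (hε0 _) (hm1 _) (hyy _ _) (hy _ _) (hr _ _ _) (hr _ _ _)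
        (h6 _ _ _ _ (by omega) (by omega)) (h8 _ _ _ (by omega) _ hp) p.2.1)
    (by
      intro s hs w w'
      refine squeeze_zero' (Eventually.of_forall fun p => norm_nonneg _) ?_
        (hsmall (10 * ‖w‖ * ‖w'‖ + 6 * ‖w‖))
      filter_upwards [hev w'] with p hp
      exact Asm3_H2 (y p.1 p.2.2) (g p.1 p.2.2) (r p.1 p.2.2 (s + 1)) (r p.1 p.2.2 (s + 2)) w w'
        (ε p.1) (hε0 _) (hm1 _) (hme _) (hg _ _) (hyy _ _) (hy _ _) (hr _ _ _) (hr _ _ _)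
        (h6 _ _ _ _ (by omega) (by omega)) (h8 _ _ _ (by omega) _ hp))
    (by
      intro w Y
      refine squeeze_zero' (Eventually.of_forall fun p => norm_nonneg _) ?_
        (hsmall (4 * ‖w‖ * ‖Y‖ + 2 * ‖w‖))
      filter_upwards [hev Y] with p hp
      exact Asm3_H3 (y p.1 p.2.2) (g p.1 p.2.2) (r p.1 p.2.2 (n + 1)) (c p.1 p.2.2) w Y (ε p.1)
        (hε0 _) (hm1 _) (hyy _ _) (hy _ _) (hr _ _ _) (hcn _ _) (h7 _ _)
        (h8 _ _ _ le_rfl _ hp) p.2.1)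
    (by
      intro Y
      refine squeeze_zero' (Eventually.of_forall fun p => norm_nonneg _) ?_
        (hsmall (2 * ‖Y‖ + 1))
      filter_upwards [hev Y] with p hp
      exact Asm3_H4 (y p.1 p.2.2) (g p.1 p.2.2) (r p.1 p.2.2 (n + 1)) (c p.1 p.2.2) Y (ε p.1)
        (hε0 _) (hm1 _) (hyy _ _) (hr _ _ _) (hcn _ _) (h7 _ _)
        (h8 _ _ _ le_rfl _ hp) p.2.1)
    (by
      intro w Y
      refine squeeze_zero' (Eventually.of_forall fun p => norm_nonneg _) ?_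
        (hsmall (2 * ‖Y‖))
      filter_upwards [hev w] with p hp
      have h11 := h9 p.1 p.2.2 w hp
      change ‖y p.1 p.2.2 p.2.1 * (Y * c p.1 p.2.2) * w
        - y p.1 p.2.2 p.2.1 * (Y * w * c p.1 p.2.2)‖ ≤ _
      have e1 : y p.1 p.2.2 p.2.1 * (Y * c p.1 p.2.2) * w
        - y p.1 p.2.2 p.2.1 * (Y * w * c p.1 p.2.2)
        = y p.1 p.2.2 p.2.1 * Y * (c p.1 p.2.2 * w - w * c p.1 p.2.2) := by
        noncomm_ring
      rw [e1]
      have h12 := Asm3_n3 _ Y _ _ _ _ (hy p.1 p.2.2 p.2.1) le_rfl h11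
      have h13 := hεle p.1
      have h14 := norm_nonneg Y
      nlinarith)
  -- averages over the fibres
  refine ⟨K', fun i k => fun w Y =>
    ((Fintype.card (Fin (m i) × Θ i) : ℂ))⁻¹ * ∑ a : Fin (m i) × Θ i, η ⟨i, a⟩ k w Y, ?_, ?_⟩
  · intro i k
    have := hm0 i
    have := nΘ i
    exact Coch.avg (fun a => η ⟨i, a⟩ k) (fun a => hη _ k)
  · intro w Y
    have hCn := hΦ.nonneg
    -- the three parts
    have hA : Tendsto (fun i => ((Fintype.card (Fin (m i) × Θ i) : ℂ))⁻¹ *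
        ∑ a : Fin (m i) × Θ i, (Φ w (Y * c i a.2)
          - Φ (fun s => Asm3_xi (y i a.2) (r i a.2 (s + 1)) (w s))
            (y i a.2 a.1 * (Y * c i a.2) * (r i a.2 0 * star (y i a.2 a.1)))
          - ∑ k ∈ Finset.range (n + 2), dd n k (η ⟨i, a⟩ k) w Y)) l (𝓝 0) := by
      rw [Metric.tendsto_nhds]
      intro δ hδ
      have h1 := (Metric.tendsto_nhds.1 (hlim w Y)) (δ / 2) (half_pos hδ)
      rw [eventually_comap] at h1
      filter_upwards [h1] with i hi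
      have := hm0 i
      have := nΘ i
      rw [dist_zero_right]
      refine lt_of_le_of_lt (Asm3_avg_le _ (δ / 2) fun a => ?_) (half_lt_self hδ)
      have h2 := hi ⟨i, a⟩ rfl
      rw [dist_zero_right] at h2
      exact h2.le
    have hB : Tendsto (fun i => Φ w (Y * e i) - ((Fintype.card (Fin (m i) × Θ i) : ℂ))⁻¹ *
        ∑ a : Fin (m i) × Θ i, Φ w (Y * c i a.2)) l (𝓝 0) := by
      have hG : Tendsto (fun i => (C * (∏ s ∈ Finset.range (n + 1), ‖w s‖) * ‖Y‖) * ε i) l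
          (𝓝 0) := by
        have := hε'.const_mul (C * (∏ s ∈ Finset.range (n + 1), ‖w s‖) * ‖Y‖)
        simpa using this
      refine squeeze_zero_norm (fun i => ?_) hG
      have hmi : (m i : ℂ) ≠ 0 := by
        have := hm1 i
        exact_mod_cast (by omega : m i ≠ 0)
      have e1 : ((Fintype.card (Fin (m i) × Θ i) : ℂ))⁻¹ *
          ∑ a : Fin (m i) × Θ i, Φ w (Y * c i a.2)
          = Φ w (Y * ((Fintype.card (Θ i) : ℝ)⁻¹ • ∑ t, c i t)) := by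
        rw [Asm3_avg_last hΦ, Fintype.card_prod, Fintype.card_fin, Fintype.sum_prod_type]
        simp only [Finset.sum_const, Finset.card_univ, Fintype.card_fin, nsmul_eq_mul]
        push_cast
        rw [mul_inv, mul_assoc, mul_left_comm ((Fintype.card (Θ i) : ℂ))⁻¹, ← mul_assoc,
          inv_mul_cancel₀ hmi, one_mul]
      rw [e1, ← hΦ.suby, ← mul_sub]
      refine (hΦ.bound _ _).trans ?_
      have h2 : ‖Y * (e i - (Fintype.card (Θ i) : ℝ)⁻¹ • ∑ t, c i t)‖ ≤ ‖Y‖ * ε i := by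
        refine (norm_mul_le _ _).trans (mul_le_mul_of_nonneg_left ?_ (norm_nonneg _))
        rw [norm_sub_rev]
        exact h10 i
      calc C * (∏ s ∈ Finset.range (n + 1), ‖w s‖)
            * ‖Y * (e i - (Fintype.card (Θ i) : ℝ)⁻¹ • ∑ t, c i t)‖
          ≤ C * (∏ s ∈ Finset.range (n + 1), ‖w s‖) * (‖Y‖ * ε i) :=
            mul_le_mul_of_nonneg_left h2 (mul_nonneg hCn (Finset.prod_nonneg fun _ _ =>
              norm_nonneg _))
        _ = _ := by ring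
    have hD : Tendsto (fun i => ((Fintype.card (Fin (m i) × Θ i) : ℂ))⁻¹ *
        ∑ a : Fin (m i) × Θ i, Φ (fun s => Asm3_xi (y i a.2) (r i a.2 (s + 1)) (w s))
            (y i a.2 a.1 * (Y * c i a.2) * (r i a.2 0 * star (y i a.2 a.1)))) l (𝓝 0) := by
      have hG : Tendsto (fun i => (C * (∏ s ∈ Finset.range (n + 1), (6 * ‖w s‖)) * (6 * ‖Y‖))
          * ((m i : ℝ))⁻¹) l (𝓝 0) := by
        have h1 : Tendsto (fun i => ((m i : ℝ))⁻¹) l (𝓝 0) :=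
          tendsto_inv_atTop_zero.comp (tendsto_natCast_atTop_atTop.comp hm)
        have := h1.const_mul (C * (∏ s ∈ Finset.range (n + 1), (6 * ‖w s‖)) * (6 * ‖Y‖))
        simpa using this
      refine squeeze_zero_norm (fun i => ?_) hG
      have := nΘ i
      have e1 : ∀ a : Fin (m i) × Θ i, y i a.2 a.1 * (Y * c i a.2) * (r i a.2 0 * star (y i a.2 a.1))
          = y i a.2 a.1 * (Y * c i a.2 * r i a.2 0) * star (y i a.2 a.1) := fun a => by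
        simp only [mul_assoc]
      simp only [e1]
      refine Asm3_tail hΦ (hm1 i)
        (fun t s => Asm3_xi (y i t) (r i t (s + 1)) (w s)) (fun t a => y i t a)
        (fun t => Y * c i t * r i t 0) w Y (fun t s => ?_) (fun t => ?_)
      · have h1 := row_bound (y i t) (g i t) (ε i) (hε0 i) (hme i)
          (hg i t) (hy i t) (hyy i t) (w s * r i t (s + 1))
        have h2 : ‖w s * r i t (s + 1)‖ ≤ ‖w s‖ * 1 :=
          (norm_mul_le _ _).trans (mul_le_mul_of_nonneg_left (hr _ _ _) (norm_nonneg _))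
        change ‖∑ b, y i t b * (w s * r i t (s + 1)) * star (y i t b)‖ ≤ 6 * ‖w s‖
        linarith
      · have h1 := row_bound (y i t) (g i t) (ε i) (hε0 i) (hme i)
          (hg i t) (hy i t) (hyy i t) (Y * c i t * r i t 0)
        have h2 : ‖Y * c i t * r i t 0‖ ≤ ‖Y‖ * 1 * 1 :=
          Asm3_n3 _ _ _ _ _ _ le_rfl (hcn _ _) (hr _ _ _)
        linarith
    have hsum := (hA.add hB).add hD
    simp only [add_zero] at hsum
    refine hsum.congr fun i => ?_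
    have hdd : ∑ k ∈ Finset.range (n + 2), dd n k (fun w Y =>
        ((Fintype.card (Fin (m i) × Θ i) : ℂ))⁻¹ * ∑ a : Fin (m i) × Θ i, η ⟨i, a⟩ k w Y) w Y
        = ((Fintype.card (Fin (m i) × Θ i) : ℂ))⁻¹ * ∑ a : Fin (m i) × Θ i,
          ∑ k ∈ Finset.range (n + 2), dd n k (η ⟨i, a⟩ k) w Y := by
      rw [Finset.sum_comm, Finset.mul_sum]
      refine Finset.sum_congr rfl fun k _ => ?_
      rw [dd_smul n k, dd_sum n k]
    rw [hdd, Finset.sum_sub_distrib, Finset.sum_sub_distrib]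
    ring

end Pool.MP263F
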