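import Pool.Agent.Lib.MP_263cac_full.Alg2
set_option autoImplicit false

/-! JOB Ult: closedness of `D` under pointwise ultralimits with uniform bounds.
Take an ultrafilter `𝒰 ≤ l` (`Ultrafilter.of l`) and define
`F' w y = lim_𝒰 F i w y`, `η' k w y = lim_𝒰 η i k w y` (bounded in `ℂ`, so limits exist:
`IsCompact.ultrafilter_le_nhds` on a closed ball; `Filter.limUnder` or choose).  All the linear
identities and bounds pass to the limit. -/

open Filter Topology

namespace Pool.MP263F
variable {B : Type} [NonUnitalNormedRing B] [NormedSpace ℂ B] [IsScalarTower ℂ B B]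
  [SMulCommClass ℂ B B]

/-- ultralimit of a bounded family of cochains -/
theorem Coch.exists_ultralimit {n : ℕ} {C : ℝ} {ι : Type} (U : Ultrafilter ι) (F : ι → Form B)
    (hF : ∀ i, Coch n C (F i)) :
    ∃ F' : Form B, Coch n C F' ∧ ∀ w y, Tendsto (fun i => F i w y) U (𝓝 (F' w y)) := by
  have hC : 0 ≤ C := by
    obtain ⟨i, _⟩ := U.nonempty_of_mem (Filter.univ_mem : Set.univ ∈ (U : Filter ι))
    exact (hF i).nonneg
  have hlim : ∀ (w : ℕ → B) (y : B), ∃ z : ℂ, Tendsto (fun i => F i w y) U (𝓝 z) := by
    intro w y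
    have h5 : Tendsto (fun i => F i w y) U (Filter.principal (Metric.closedBall (0 : ℂ)
        (C * (∏ i ∈ Finset.range n, ‖w i‖) * ‖y‖))) := by
      refine Filter.tendsto_principal.2 (Filter.Eventually.of_forall fun i => ?_)
      rw [mem_closedBall_zero_iff]
      exact (hF i).bound w y
    obtain ⟨z, _, hz⟩ := (isCompact_closedBall (0 : ℂ)
      (C * (∏ i ∈ Finset.range n, ‖w i‖) * ‖y‖)).ultrafilter_le_nhds
      (U.map (fun i => F i w y)) h5
    exact ⟨z, hz⟩
  choose ζ hζ using hlim
  refine ⟨ζ, ?_, hζ⟩
  refine ⟨hC, ?_, ?_, ?_, ?_, ?_, ?_⟩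
  · intro a b y hab
    refine tendsto_nhds_unique (hζ a y) ?_
    have : (fun i => F i a y) = fun i => F i b y := by
      funext i; exact (hF i).dep a b y hab
    rw [this]; exact hζ b y
  · intro i hi w a b y
    refine tendsto_nhds_unique (hζ _ y) ?_
    have : (fun j => F j (Function.update w i (a + b)) y)
        = fun j => F j (Function.update w i a) y + F j (Function.update w i b) y := by
      funext j; exact (hF j).add i hi w a b y
    rw [this]; exact (hζ _ y).add (hζ _ y)
  · intro i hi w c a y
    refine tendsto_nhds_unique (hζ _ y) ?_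
    have : (fun j => F j (Function.update w i (c • a)) y)
        = fun j => c * F j (Function.update w i a) y := by
      funext j; exact (hF j).smul i hi w c a y
    rw [this]; exact (hζ _ y).const_mul c
  · intro w a b
    refine tendsto_nhds_unique (hζ _ _) ?_
    have : (fun j => F j w (a + b)) = fun j => F j w a + F j w b := by
      funext j; exact (hF j).addy w a b
    rw [this]; exact (hζ _ a).add (hζ _ b)
  · intro w c a
    refine tendsto_nhds_unique (hζ _ _) ?_
    have : (fun j => F j w (c • a)) = fun j => c * F j w a := by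
      funext j; exact (hF j).smuly w c a
    rw [this]; exact (hζ _ a).const_mul c
  · intro w y
    exact le_of_tendsto (hζ w y).norm (Filter.Eventually.of_forall fun i => (hF i).bound w y)

theorem ultra_close {n : ℕ} {C K : ℝ} {ι : Type} (l : Filter ι) [l.NeBot]
    (F : ι → Form B) (hF : ∀ i, Coch (n + 1) C (F i))
    (η : ι → ℕ → Form B) (hη : ∀ i k, Coch n K (η i k)) (Φ : Form B)
    (h : ∀ w y, Tendsto (fun i => F i w y - Φ w y
      - ∑ k ∈ Finset.range (n + 2), dd n k (η i k) w y) l (𝓝 0)) :
    ∃ F' : Form B, Coch (n + 1) C F' ∧ InD n K (fun w y => F' w y - Φ w y) ∧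
      ∀ w y a, Tendsto (fun i => F i w y) l (𝓝 a) → F' w y = a := by
  let U : Ultrafilter ι := Ultrafilter.of l
  have hU : (U : Filter ι) ≤ l := Ultrafilter.of_le l
  obtain ⟨F', hF', hlim⟩ := Coch.exists_ultralimit U F hF
  have hk : ∀ k : ℕ, ∃ η' : Form B, Coch n K η' ∧
      ∀ w y, Tendsto (fun i => η i k w y) U (𝓝 (η' w y)) :=
    fun k => Coch.exists_ultralimit U (fun i => η i k) (fun i => hη i k)
  choose η' hη' hlim' using hk
  refine ⟨F', hF', ⟨η', hη', ?_⟩, ?_⟩
  · intro w y
    have h1 : Tendsto (fun i => F i w y - Φ w y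
        - ∑ k ∈ Finset.range (n + 2), dd n k (η i k) w y) U
        (𝓝 (F' w y - Φ w y - ∑ k ∈ Finset.range (n + 2), dd n k (η' k) w y)) := by
      refine ((hlim w y).sub tendsto_const_nhds).sub (tendsto_finsetSum _ fun k _ => ?_)
      unfold dd
      split_ifs
      · exact hlim' k _ _
      · exact hlim' k _ _
      · exact hlim' k _ _
    have h2 := tendsto_nhds_unique h1 ((h w y).mono_left hU)
    exact sub_eq_zero.1 h2
  · intro w y a ha
    exact tendsto_nhds_unique (hlim w y) (ha.mono_left hU)

end Pool.MP263F
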