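import Pool.Agent.Lib.MP_263cac_full.Walk3
set_option autoImplicit false

/-! JOB Walk4: the walk family for a finite set of elements.

Proof.  `Λ₁ = {g // g ∈ G}`, `Λ₂ = {W // W ∈ 𝒲}` where `𝒲` = the unitaries in `𝓕` together with `1`
(as a `Finset (unitary B)`), `a` = all unitaries occurring in four-unitary decompositions
(`CStarAlgebra.exists_sum_four_unitary`) of the elements of `𝓕`, and their adjoints,
`κM = {M // M ∈ 𝓕, Σ_g g M g^* = 0} × Bool`, `M_{(M,true)} = (‖M‖+1)⁻¹ • Re M`,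
`M_{(M,false)} = (‖M‖+1)⁻¹ • Im M` (both satisfy `Σ_g g · g^* = 0`).  Choose the `ε` of `walk_family`
small: `ε₁ = ε / (2 (R+1))` with `R ≥ ‖w‖` for all `w ∈ 𝓕`: commutator with `w = Σ c_i u_i` at most
`4 (‖w‖/2) ε₁`, killing `≤ 2 (‖M‖+1) ε₁`. -/

namespace Pool.MP263F
variable {B : Type} [CStarAlgebra B] [PartialOrder B] [StarOrderedRing B]

/-- scaled real and imaginary parts -/
private noncomputable def Walk4_P (M : B) (b : Bool) : B :=
  if b then (((2 * (‖M‖ + 1))⁻¹ : ℝ) : ℂ) • (M + star M)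
  else ((((2 * (‖M‖ + 1))⁻¹ : ℝ) : ℂ) * -Complex.I) • (M - star M)

omit [PartialOrder B] [StarOrderedRing B] in
private theorem Walk4_sa (M : B) (b : Bool) : IsSelfAdjoint (Walk4_P M b) := by
  unfold Walk4_P IsSelfAdjoint
  cases b
  · simp only [Bool.false_eq_true, if_false]
    rw [star_smul, star_sub, star_star]
    simp only [Complex.star_def, map_mul, map_neg, Complex.conj_I, Complex.conj_ofReal, neg_neg]
    rw [← neg_sub M (star M), smul_neg, ← neg_smul, mul_neg]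
  · simp only [if_true]
    rw [star_smul, star_add, star_star]
    simp only [Complex.star_def, Complex.conj_ofReal]
    rw [add_comm (star M) M]

omit [PartialOrder B] [StarOrderedRing B] in
private theorem Walk4_norm (M : B) (b : Bool) : ‖Walk4_P M b‖ ≤ 1 := by
  have h0 : 0 ≤ ‖M‖ := norm_nonneg M
  have hc : ‖(((2 * (‖M‖ + 1))⁻¹ : ℝ) : ℂ)‖ = (2 * (‖M‖ + 1))⁻¹ := by
    rw [Complex.norm_real, Real.norm_eq_abs, abs_of_nonneg (by positivity)]
  have h1 : ‖M + star M‖ ≤ 2 * ‖M‖ := by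
    refine (norm_add_le _ _).trans ?_
    rw [norm_star]
    linarith
  have h2 : ‖M - star M‖ ≤ 2 * ‖M‖ := by
    refine (norm_sub_le _ _).trans ?_
    rw [norm_star]
    linarith
  have h3 : (2 * (‖M‖ + 1))⁻¹ * (2 * ‖M‖) ≤ 1 := by
    rw [inv_mul_le_iff₀ (by positivity)]
    linarith
  unfold Walk4_P
  cases b
  · simp only [Bool.false_eq_true, if_false]
    rw [norm_smul, norm_mul, hc, norm_neg, Complex.norm_I, mul_one]
    exact (mul_le_mul_of_nonneg_left h2 (by positivity)).trans h3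
  · simp only [if_true]
    rw [norm_smul, hc]
    exact (mul_le_mul_of_nonneg_left h1 (by positivity)).trans h3

omit [PartialOrder B] [StarOrderedRing B] in
private theorem Walk4_sum (G : Finset (unitary B)) (M : B)
    (hM : ∑ g ∈ G, (g : B) * M * star (g : B) = 0) (b : Bool) :
    ∑ g ∈ G, (g : B) * Walk4_P M b * star (g : B) = 0 := by
  have hS : ∑ g ∈ G, (g : B) * star M * star (g : B) = 0 := by
    have h1 := congrArg star hM
    rw [star_zero, star_sum] at h1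
    rw [← h1]
    refine Finset.sum_congr rfl fun g _ => ?_
    rw [star_mul, star_mul, star_star, mul_assoc]
  unfold Walk4_P
  cases b
  · simp only [Bool.false_eq_true, if_false]
    have h1 : ∀ g ∈ G, (g : B) * (((((2 * (‖M‖ + 1))⁻¹ : ℝ) : ℂ) * -Complex.I) • (M - star M)) *
        star (g : B) = ((((2 * (‖M‖ + 1))⁻¹ : ℝ) : ℂ) * -Complex.I) •
        ((g : B) * M * star (g : B) - (g : B) * star M * star (g : B)) := by
      intro g _
      rw [mul_smul_comm, smul_mul_assoc, mul_sub, sub_mul]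
    rw [Finset.sum_congr rfl h1, ← Finset.smul_sum, Finset.sum_sub_distrib, hM, hS, sub_zero,
      smul_zero]
  · simp only [if_true]
    have h1 : ∀ g ∈ G, (g : B) * ((((2 * (‖M‖ + 1))⁻¹ : ℝ) : ℂ) • (M + star M)) *
        star (g : B) = (((2 * (‖M‖ + 1))⁻¹ : ℝ) : ℂ) •
        ((g : B) * M * star (g : B) + (g : B) * star M * star (g : B)) := by
      intro g _
      rw [mul_smul_comm, smul_mul_assoc, mul_add (g : B) M (star M), add_mul ((g : B) * M)]
    rw [Finset.sum_congr rfl h1, ← Finset.smul_sum, Finset.sum_add_distrib, hM, hS, add_zero,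
      smul_zero]

omit [PartialOrder B] [StarOrderedRing B] in
private theorem Walk4_eq (M : B) :
    M = ((‖M‖ + 1 : ℝ) : ℂ) • (Walk4_P M true + Complex.I • Walk4_P M false) := by
  have h0 : (0 : ℝ) < ‖M‖ + 1 := by
    have := norm_nonneg M
    linarith
  unfold Walk4_P
  simp only [Bool.false_eq_true, if_false, if_true]
  have h1 : Complex.I * ((((2 * (‖M‖ + 1))⁻¹ : ℝ) : ℂ) * -Complex.I) =
      (((2 * (‖M‖ + 1))⁻¹ : ℝ) : ℂ) := by
    have := Complex.I_mul_I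
    linear_combination -(((2 * (‖M‖ + 1))⁻¹ : ℝ) : ℂ) * this
  rw [smul_smul Complex.I, h1, ← smul_add, add_add_sub_cancel, ← two_smul ℂ M, smul_smul, smul_smul]
  have h2 : ((‖M‖ + 1 : ℝ) : ℂ) * (((2 * (‖M‖ + 1))⁻¹ : ℝ) : ℂ) * 2 = 1 := by
    rw [← Complex.ofReal_mul, ← Complex.ofReal_ofNat, ← Complex.ofReal_mul, ← Complex.ofReal_one]
    congr 1
    field_simp
  rw [h2, one_smul]

omit [PartialOrder B] [StarOrderedRing B] in
/-- commutators with linear combinations of four unitaries -/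
private theorem Walk4_comm {w E : B} {δ : ℝ} (u : Fin 4 → unitary B) (c : Fin 4 → ℂ)
    (hw : w = ∑ i, c i • (u i : B)) (hc : ∀ i, ‖c i‖ ≤ ‖w‖ / 2)
    (h : ∀ i, ‖E * (u i : B) - (u i : B) * E‖ ≤ δ) : ‖E * w - w * E‖ ≤ 2 * ‖w‖ * δ := by
  have h1 : E * w - w * E = ∑ i, c i • (E * (u i : B) - (u i : B) * E) := by
    conv_lhs => rw [hw]
    rw [Finset.mul_sum, Finset.sum_mul, ← Finset.sum_sub_distrib]
    refine Finset.sum_congr rfl fun i _ => ?_
    rw [mul_smul_comm, smul_mul_assoc, smul_sub]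
  rw [h1]
  refine (norm_sum_le _ _).trans ?_
  have h2 : ∀ i ∈ (Finset.univ : Finset (Fin 4)), ‖c i • (E * (u i : B) - (u i : B) * E)‖ ≤
      ‖w‖ / 2 * δ := by
    intro i _
    rw [norm_smul]
    exact mul_le_mul (hc i) (h i) (norm_nonneg _) (by positivity)
  refine (Finset.sum_le_sum h2).trans (le_of_eq ?_)
  rw [Finset.sum_const, Finset.card_univ, Fintype.card_fin, nsmul_eq_mul]
  push_cast
  ring

theorem walk_final (G : Finset (unitary B)) (hG : G.Nonempty) (𝓕 : Finset B) (ε : ℝ)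
    (hε : 0 < ε) :
    ∃ (Ω : Type) (_ : Fintype Ω) (_ : Nonempty Ω) (V U : Ω → unitary B) (e : Ω → B),
      (∀ ω, 0 ≤ e ω ∧ e ω ≤ 1) ∧
      (∀ ω, ∀ w ∈ 𝓕, ‖e ω * w - w * e ω‖ ≤ ε) ∧
      (∀ ρ : B →ₗ[ℝ] ℝ, TrF ρ → ρ ((Fintype.card Ω : ℝ)⁻¹ • ∑ ω, e ω) ≤ ε) ∧
      (∀ ψ : B → (B →ₗ[ℂ] ℂ), (∀ T ∈ unitary B, ∀ z, ‖ψ T z‖ ≤ ‖z‖) →
        ∀ W ∈ 𝓕, W ∈ unitary B → ∀ M ∈ 𝓕, (∑ g ∈ G, (g : B) * M * star (g : B) = 0) →
        ‖(Fintype.card Ω : ℂ)⁻¹ * ∑ ω, ψ ((V ω : B) * W * (U ω : B))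
          ((V ω : B) * M * (1 - e ω) * star (V ω : B))‖ ≤ ε) := by
  classical
  have hF4 : ∀ x : B, ∃ (u : Fin 4 → unitary B) (c : Fin 4 → ℂ), x = ∑ i, c i • (u i : B) ∧
      ∀ i, ‖c i‖ ≤ ‖x‖ / 2 := CStarAlgebra.exists_sum_four_unitary
  choose u4 c4 hu4 hc4 using hF4
  set R : ℝ := ∑ w ∈ 𝓕, ‖w‖ with hR
  have hR0 : 0 ≤ R := Finset.sum_nonneg fun w _ => norm_nonneg w
  have hRle : ∀ w ∈ 𝓕, ‖w‖ ≤ R := fun w hw =>
    Finset.single_le_sum (f := fun w => ‖w‖) (fun _ _ => norm_nonneg _) hw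
  set ε₁ : ℝ := ε / (2 * (R + 1)) with hε₁
  have hR1 : 0 < 2 * (R + 1) := by linarith
  have hε₁0 : 0 < ε₁ := div_pos hε hR1
  have hε₁e : 2 * (R + 1) * ε₁ = ε := by
    rw [hε₁]
    field_simp
  have hΛ1 : Nonempty {g // g ∈ G} := hG.coe_sort
  obtain ⟨Ω, iΩ, nΩ, V, U, e, h1, h2, h3, h4⟩ := walk_family
    (Λ₁ := {g // g ∈ G}) (Λ₂ := Option {w // w ∈ 𝓕.filter (fun w => w ∈ unitary B)})
    (κA := {w // w ∈ 𝓕} × Fin 4 × Bool)
    (κM := {M // M ∈ 𝓕.filter (fun M => ∑ g ∈ G, (g : B) * M * star (g : B) = 0)} × Bool)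
    (fun g => g.1)
    (fun w => match w with
      | none => 1
      | some w => ⟨w.1, (Finset.mem_filter.1 w.2).2⟩)
    (fun α => if α.2.2 then u4 α.1.1 α.2.1 else star (u4 α.1.1 α.2.1))
    (by
      rintro ⟨w, i, b⟩
      refine ⟨⟨w, i, !b⟩, ?_⟩
      cases b <;> simp)
    (fun μ => Walk4_P μ.1.1 μ.2)
    (by
      rintro ⟨M, b⟩
      refine ⟨Walk4_sa _ _, Walk4_norm _ _, ?_⟩
      rw [Finset.sum_coe_sort G (fun g : unitary B => (g : B) * Walk4_P M.1 b * star (g : B))]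
      exact Walk4_sum G M.1 (Finset.mem_filter.1 M.2).2 b)
    ε₁ hε₁0
  refine ⟨Ω, iΩ, nΩ, V, U, e, h1, ?_, ?_, ?_⟩
  · intro ω w hw
    have h5 := Walk4_comm (E := e ω) (u4 w) (c4 w) (hu4 w) (hc4 w) (fun i => by
      have := h2 ω (⟨w, hw⟩, i, true)
      simpa using this)
    refine h5.trans ?_
    rw [← hε₁e]
    have h6 := hRle w hw
    have h7 : 2 * ‖w‖ ≤ 2 * (R + 1) := by linarith
    exact mul_le_mul_of_nonneg_right h7 hε₁0.le
  · intro ρ hρ
    refine (h3 ρ hρ).trans ?_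
    rw [← hε₁e]
    have : 1 ≤ 2 * (R + 1) := by linarith
    nlinarith
  · intro ψ hψ W hW hWu M hM hMs
    have hWm : W ∈ 𝓕.filter (fun w => w ∈ unitary B) := Finset.mem_filter.2 ⟨hW, hWu⟩
    have hMm : M ∈ 𝓕.filter (fun M => ∑ g ∈ G, (g : B) * M * star (g : B) = 0) :=
      Finset.mem_filter.2 ⟨hM, hMs⟩
    have k1 := h4 ψ hψ (some ⟨W, hWm⟩) (⟨M, hMm⟩, true)
    have k2 := h4 ψ hψ (some ⟨W, hWm⟩) (⟨M, hMm⟩, false)
    simp only at k1 k2
    set A1 : ℂ := (Fintype.card Ω : ℂ)⁻¹ * ∑ ω, ψ ((V ω : B) * W * (U ω : B))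
          ((V ω : B) * Walk4_P M true * (1 - e ω) * star (V ω : B)) with hA1
    set A2 : ℂ := (Fintype.card Ω : ℂ)⁻¹ * ∑ ω, ψ ((V ω : B) * W * (U ω : B))
          ((V ω : B) * Walk4_P M false * (1 - e ω) * star (V ω : B)) with hA2
    have key : (Fintype.card Ω : ℂ)⁻¹ * ∑ ω, ψ ((V ω : B) * W * (U ω : B))
          ((V ω : B) * M * (1 - e ω) * star (V ω : B)) =
          ((‖M‖ + 1 : ℝ) : ℂ) * (A1 + Complex.I * A2) := by
      have h5 : ∀ ω ∈ (Finset.univ : Finset Ω), ψ ((V ω : B) * W * (U ω : B))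
          ((V ω : B) * M * (1 - e ω) * star (V ω : B)) =
          ((‖M‖ + 1 : ℝ) : ℂ) * (ψ ((V ω : B) * W * (U ω : B))
          ((V ω : B) * Walk4_P M true * (1 - e ω) * star (V ω : B)) +
          Complex.I * ψ ((V ω : B) * W * (U ω : B))
          ((V ω : B) * Walk4_P M false * (1 - e ω) * star (V ω : B))) := by
        intro ω _
        have h6 : (V ω : B) * M * (1 - e ω) * star (V ω : B) = ((‖M‖ + 1 : ℝ) : ℂ) •
            ((V ω : B) * Walk4_P M true * (1 - e ω) * star (V ω : B) + Complex.I •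
              ((V ω : B) * Walk4_P M false * (1 - e ω) * star (V ω : B))) := by
          conv_lhs => rw [Walk4_eq M]
          simp only [mul_add, add_mul, mul_smul_comm, smul_mul_assoc, smul_add]
        rw [h6, map_smul, map_add, map_smul, smul_eq_mul, smul_eq_mul]
      rw [Finset.sum_congr rfl h5, ← Finset.mul_sum, Finset.sum_add_distrib, ← Finset.mul_sum,
        hA1, hA2]
      ring
    rw [key, norm_mul]
    have h0 := norm_nonneg M
    have h5 : ‖((‖M‖ + 1 : ℝ) : ℂ)‖ = ‖M‖ + 1 := by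
      rw [Complex.norm_real, Real.norm_eq_abs, abs_of_nonneg (by linarith)]
    have h6 : ‖A1 + Complex.I * A2‖ ≤ ε₁ + ε₁ := by
      refine (norm_add_le _ _).trans (add_le_add k1 ?_)
      rw [norm_mul, Complex.norm_I, one_mul]
      exact k2
    rw [h5, ← hε₁e]
    have h7 := hRle M hM
    calc (‖M‖ + 1) * ‖A1 + Complex.I * A2‖ ≤ (R + 1) * (ε₁ + ε₁) :=
          mul_le_mul (by linarith) h6 (norm_nonneg _) (by linarith)
      _ = 2 * (R + 1) * ε₁ := by ring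

end Pool.MP263F
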