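import Pool.Agent.Lib.MP_263cac_full.Asm1
import Pool.Agent.Lib.MP_263cac_full.Asm3
import Pool.Agent.Lib.MP_263cac_full.Walk4
import Pool.Agent.Lib.MP_263cac_full.Ult
set_option autoImplicit false

/-! JOB Asm4: Theorem B.

Proof.  `ι = Finset B × ℕ`, `l = atTop` (NeBot).  For `i = (𝓕, k)`: `m i = k+1`, `ε i = 1/(k+1)^3`,
`δ i` from `sw1 (n+1) (m i) (ε i) 𝓕`, and the walk family from `walk_final G hG 𝓕 (min (δ i) (1/(k+1)))`.
`Ē i = avg e`, it satisfies `0 ≤ Ē ≤ 1`, commutators `≤ δ i`, traces `≤ δ i`, so `SwData` holds.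
`F i = avg_ω walkForm` is `Coch (n+1) C`.  `twalk_prism` and `swindle` give (adding, with
`η = η₁ - η₂`) `F i w Y - Φ w Y - Σ dd n k (η i k) w Y → 0`
(`Φ w (Y (1-Ē)) + Φ w (Y Ē) = Φ w Y`).  `ultra_close` gives `F'`.
Killing: `W` unitary, `M` with `Σ g M g^* = 0`: eventually `W, M ∈ 𝓕`, and
`walkForm Φ n V U e (alt W) (if Even (n+1) then M else star W * M)
  = ψ (V W U) (V M (1-e) V^*)` with `ψ T z = Φ (alt T) (if Even (n+1) then z else star T * z)`
(`star U * star W * M ... = star (V W U) * V * M ...`), `|ψ T z| ≤ C ‖z‖` for `T` unitary (apply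
`walk_final` to `ψ/(C+1)`), so `F i (alt W) (..) → 0`. -/

open Filter Topology

namespace Pool.MP263F
variable {B : Type} [CStarAlgebra B]

private theorem asm4_norm {u : B} (hu : u ∈ unitary B) : ‖u‖ ≤ 1 := by
  rcases subsingleton_or_nontrivial B with h | h
  · rw [Subsingleton.elim u 0, norm_zero]
    exact zero_le_one
  · exact (CStarRing.norm_of_mem_unitary hu).le

/-- the form in the killing estimate -/
private noncomputable def asm4psi {C : ℝ} {n : ℕ} {Φ : Form B} (hΦ : Coch (n + 1) C Φ) (T : B) :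
    B →ₗ[ℂ] ℂ where
  toFun z := ((C : ℂ) + 1)⁻¹ * Φ (alt T) (if Even (n + 1) then z else star T * z)
  map_add' a b := by
    split_ifs
    · rw [hΦ.addy]; ring
    · rw [mul_add, hΦ.addy]; ring
  map_smul' c a := by
    rw [RingHom.id_apply, smul_eq_mul]
    split_ifs
    · rw [hΦ.smuly]; ring
    · rw [mul_smul_comm, hΦ.smuly]; ring

private theorem asm4psi_apply {C : ℝ} {n : ℕ} {Φ : Form B} (hΦ : Coch (n + 1) C Φ) (T z : B) :
    asm4psi hΦ T z = ((C : ℂ) + 1)⁻¹ * Φ (alt T) (if Even (n + 1) then z else star T * z) := rfl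

private theorem asm4_Cpos {C : ℝ} {n : ℕ} {Φ : Form B} (hΦ : Coch (n + 1) C Φ) :
    ‖((C : ℂ) + 1)‖ = C + 1 := by
  have h1 : ((C : ℂ) + 1) = ((C + 1 : ℝ) : ℂ) := by push_cast; ring
  rw [h1, Complex.norm_real, Real.norm_of_nonneg (by linarith [hΦ.nonneg])]

private theorem asm4psi_bound {C : ℝ} {n : ℕ} {Φ : Form B} (hΦ : Coch (n + 1) C Φ) (T : B)
    (hT : T ∈ unitary B) (z : B) : ‖asm4psi hΦ T z‖ ≤ ‖z‖ := by
  have hC := hΦ.nonneg
  have hTn : ‖T‖ ≤ 1 := asm4_norm hT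
  have hTs : ‖star T‖ ≤ 1 := by rw [norm_star]; exact hTn
  have h1 : ‖(if Even (n + 1) then z else star T * z)‖ ≤ ‖z‖ := by
    split_ifs
    · exact le_rfl
    · calc ‖star T * z‖ ≤ ‖star T‖ * ‖z‖ := norm_mul_le _ _
        _ ≤ 1 * ‖z‖ := mul_le_mul_of_nonneg_right hTs (norm_nonneg _)
        _ = ‖z‖ := one_mul _
  have h2 : ∏ i ∈ Finset.range (n + 1), ‖alt T i‖ ≤ 1 := by
    refine Finset.prod_le_one (fun i _ => norm_nonneg _) fun i _ => ?_
    unfold alt
    split_ifs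
    · exact hTn
    · exact hTs
  have h3 := hΦ.bound (alt T) (if Even (n + 1) then z else star T * z)
  have h4 : ‖Φ (alt T) (if Even (n + 1) then z else star T * z)‖ ≤ C * ‖z‖ := by
    refine h3.trans ?_
    calc C * (∏ i ∈ Finset.range (n + 1), ‖alt T i‖) * ‖(if Even (n + 1) then z else star T * z)‖
        ≤ C * 1 * ‖z‖ := by
          apply mul_le_mul _ h1 (norm_nonneg _) (by linarith)
          exact mul_le_mul_of_nonneg_left h2 hC
      _ = C * ‖z‖ := by rw [mul_one]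
  rw [asm4psi_apply, norm_mul, norm_inv, asm4_Cpos hΦ]
  have hC1 : 0 < C + 1 := by linarith
  rw [inv_mul_le_iff₀ hC1]
  have := norm_nonneg z
  nlinarith

private theorem asm4_walk {C : ℝ} {n : ℕ} {Φ : Form B} (hΦ : Coch (n + 1) C Φ) (V U : unitary B)
    (e W M : B) :
    walkForm Φ n (V : B) (U : B) e (alt W) (if Even (n + 1) then M else star W * M) =
      ((C : ℂ) + 1) * asm4psi hΦ ((V : B) * W * (U : B)) ((V : B) * M * (1 - e) * star (V : B)) := by
  have hC : ((C : ℂ) + 1) ≠ 0 := by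
    rw [← norm_pos_iff, asm4_Cpos hΦ]
    linarith [hΦ.nonneg]
  rw [asm4psi_apply, ← mul_assoc, mul_inv_cancel₀ hC, one_mul]
  unfold walkForm
  have h1 : (fun s => if Even s then (V : B) * alt W s * (U : B)
      else star (U : B) * alt W s * star (V : B)) = alt ((V : B) * W * (U : B)) := by
    funext s
    unfold alt
    by_cases hs : Even s
    · simp only [if_pos hs]
    · simp only [if_neg hs]
      rw [star_mul, star_mul]
      simp only [mul_assoc]
  rw [h1]
  congr 1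
  by_cases hs : Even (n + 1)
  · simp only [if_pos hs]
  · simp only [if_neg hs]
    rw [star_mul, star_mul]
    have h2 : star (V : B) * (V : B) = 1 := Unitary.coe_star_mul_self V
    calc star (U : B) * (star W * M) * (1 - e) * star (V : B) =
        star (U : B) * star W * 1 * M * (1 - e) * star (V : B) := by
          rw [mul_one]
          simp only [mul_assoc]
      _ = _ := by
          rw [← h2]
          simp only [mul_assoc]

theorem theoremB {n : ℕ} {Φ : Form B} (hΦ : IsCoch (n + 1) Φ)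
    (hc : ∀ w y, delta (n + 1) Φ w y = 0) (G : Finset (unitary B)) (hG : G.Nonempty) :
    ∃ F : Form B, IsCoch (n + 1) F ∧ IsInD n (fun w y => F w y - Φ w y) ∧
      ∀ W ∈ unitary B, ∀ M : B, (∑ g ∈ G, (g : B) * M * star (g : B) = 0) →
        F (alt W) (if Even (n + 1) then M else star W * M) = 0 := by
  classical
  letI : PartialOrder B := CStarAlgebra.spectralOrder B
  letI : StarOrderedRing B := CStarAlgebra.spectralOrderedRing B
  obtain ⟨C, hΦ⟩ := hΦ
  -- the constants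
  have hεpos : ∀ k : ℕ, 0 < 1 / ((k : ℝ) + 1) ^ 3 := fun k => by positivity
  have hpos1 : ∀ k : ℕ, 0 < 1 / ((k : ℝ) + 1) := fun k => by positivity
  choose δ hδ hsw using fun i : Finset B × ℕ =>
    sw1 (n + 1) (i.2 + 1) (1 / ((i.2 : ℝ) + 1) ^ 3) (hεpos i.2) i.1
  choose Ω iF iN V U e he hcomm htr hkill using fun i : Finset B × ℕ =>
    walk_final G hG i.1 (min (δ i) (1 / ((i.2 : ℝ) + 1))) (lt_min (hδ i) (hpos1 i.2))
  set Eb : Finset B × ℕ → B := fun i => (Fintype.card (Ω i) : ℝ)⁻¹ • ∑ ω, e i ω with hEb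
  set l : Filter (Finset B × ℕ) := atTop with hl
  have hlF : ∀ w : B, ∀ᶠ i in l, w ∈ i.1 := by
    intro w
    filter_upwards [eventually_ge_atTop (({w} : Finset B), 0)] with i hi
    exact hi.1 (Finset.mem_singleton_self w)
  have hlk : Tendsto (fun i : Finset B × ℕ => i.2) l atTop := by
    rw [tendsto_atTop]
    intro k
    filter_upwards [eventually_ge_atTop ((∅ : Finset B), k)] with i hi
    exact hi.2
  have hl1 : Tendsto (fun i : Finset B × ℕ => 1 / ((i.2 : ℝ) + 1)) l (𝓝 0) :=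
    tendsto_one_div_add_atTop_nhds_zero_nat.comp hlk
  have hne : ∀ i ω, ‖1 - e i ω‖ ≤ 1 := by
    intro i ω
    obtain ⟨h1, h2⟩ := he i ω
    have h3 : 0 ≤ 1 - e i ω := sub_nonneg.mpr h2
    have h4 : 1 - e i ω ≤ 1 := sub_le_self 1 h1
    exact (CStarAlgebra.norm_le_one_iff_of_nonneg _ h3).mpr h4
  -- the average
  have hcardpos : ∀ i, (0 : ℝ) < Fintype.card (Ω i) := fun i =>
    Nat.cast_pos.mpr Fintype.card_pos
  have hEb0 : ∀ i, 0 ≤ Eb i := fun i =>
    smul_nonneg (inv_nonneg.mpr (hcardpos i).le) (Finset.sum_nonneg fun ω _ => (he i ω).1)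
  have hEb1 : ∀ i, Eb i ≤ 1 := by
    intro i
    have h1 : ∑ ω, e i ω ≤ ∑ _ω : Ω i, (1 : B) := Finset.sum_le_sum fun ω _ => (he i ω).2
    have h2 := smul_le_smul_of_nonneg_left h1 (inv_nonneg.mpr (hcardpos i).le)
    refine h2.trans (le_of_eq ?_)
    rw [Finset.sum_const, Finset.card_univ, ← Nat.cast_smul_eq_nsmul ℝ, smul_smul,
      inv_mul_cancel₀ (hcardpos i).ne', one_smul]
  have hEbc : ∀ i, ∀ a ∈ i.1, ‖Eb i * a - a * Eb i‖ ≤ min (δ i) (1 / ((i.2 : ℝ) + 1)) := by
    intro i a ha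
    have h1 : Eb i * a - a * Eb i =
        (Fintype.card (Ω i) : ℝ)⁻¹ • ∑ ω, (e i ω * a - a * e i ω) := by
      rw [hEb, Finset.sum_sub_distrib, ← Finset.sum_mul, ← Finset.mul_sum, smul_sub,
        smul_mul_assoc, mul_smul_comm]
    rw [h1, norm_smul, norm_inv, Real.norm_of_nonneg (hcardpos i).le]
    rw [inv_mul_le_iff₀ (hcardpos i)]
    refine (norm_sum_le _ _).trans ((Finset.sum_le_sum fun ω _ => hcomm i ω a ha).trans ?_)
    rw [Finset.sum_const, Finset.card_univ, nsmul_eq_mul]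
  have hSw : ∀ i, SwData (n + 1) (i.2 + 1) (1 / ((i.2 : ℝ) + 1) ^ 3) i.1 (Eb i) := by
    intro i
    refine hsw i (Eb i) (hEb0 i) (hEb1 i) (fun a ha => (hEbc i a ha).trans (min_le_left _ _)) ?_
    intro ρ hρ
    exact (htr i ρ hρ).trans (min_le_left _ _)
  -- the walk forms
  obtain ⟨K₁, η₁, hη₁, hlim₁⟩ := twalk_prism hΦ hc l Ω V U e hne (by
    intro a δ' hδ'
    filter_upwards [hlF a, (tendsto_order.mp hl1).2 δ' hδ'] with i hi hi' ω
    exact (hcomm i ω a hi).trans ((min_le_right _ _).trans hi'.le))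
  have hmm : ∀ k : ℕ, (((k + 1 : ℕ) : ℝ)) ^ 2 * (1 / ((k : ℝ) + 1) ^ 3) = 1 / ((k : ℝ) + 1) := by
    intro k
    have : (k : ℝ) + 1 ≠ 0 := by positivity
    push_cast
    field_simp
  obtain ⟨K₂, η₂, hη₂, hlim₂⟩ := swindle hΦ hc l (fun i => i.2 + 1) (fun i => by omega)
    ((tendsto_add_atTop_nat 1).comp hlk) (fun i => 1 / ((i.2 : ℝ) + 1) ^ 3)
    (fun i => (hεpos i.2).le) (fun i => by
      rw [hmm]
      rw [div_le_one (by positivity)]
      have : (0 : ℝ) ≤ i.2 := Nat.cast_nonneg _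
      linarith) (by
      refine hl1.congr fun i => ?_
      rw [hmm]) (fun i => i.1) hlF Eb hSw
  set Fi : Finset B × ℕ → Form B := fun i w y => (Fintype.card (Ω i) : ℂ)⁻¹ *
    ∑ ω, walkForm Φ n (V i ω : B) (U i ω : B) (e i ω) w y with hFi
  have hFic : ∀ i, Coch (n + 1) C (Fi i) := fun i =>
    Coch.avg (fun ω w y => walkForm Φ n (V i ω : B) (U i ω : B) (e i ω) w y) fun ω =>
      walkForm_coch hΦ (V i ω) (U i ω) (e i ω) (hne i ω)
  obtain ⟨F', hF', hD, hval⟩ := ultra_close l Fi hFic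
    (fun i k w y => η₁ i k w y + -1 * η₂ i k w y) (K := K₁ + K₂) (by
      intro i k
      have h1 := (hη₂ i k).csmul (-1)
      rw [norm_neg, norm_one, one_mul] at h1
      exact (hη₁ i k).addd h1) Φ (by
      intro w y
      have h1 := (hlim₁ w y).sub (hlim₂ w y)
      rw [sub_zero] at h1
      refine h1.congr fun i => ?_
      have h2 : Φ w (y * (1 - Eb i)) + Φ w (y * Eb i) = Φ w y := by
        rw [← hΦ.addy, ← mul_add, sub_add_cancel, mul_one]
      have h3 : ∀ k, dd n k (fun w y => η₁ i k w y + -1 * η₂ i k w y) w y =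
          dd n k (η₁ i k) w y - dd n k (η₂ i k) w y := by
        intro k
        rw [dd_add n k (η₁ i k) (fun w y => -1 * η₂ i k w y), dd_smul]
        ring
      simp only [h3]
      rw [Finset.sum_sub_distrib]
      linear_combination -h2)
  refine ⟨F', ⟨C, hF'⟩, ⟨_, hD⟩, ?_⟩
  intro W hW M hM
  refine hval _ _ 0 ?_
  rw [Metric.tendsto_nhds]
  intro ε' hε'
  have hC1 : 0 < C + 1 := by linarith [hΦ.nonneg]
  have h1 := (tendsto_order.mp hl1).2 (ε' / (C + 1)) (by positivity)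
  filter_upwards [hlF W, hlF M, h1] with i hWi hMi hi
  rw [dist_zero_right]
  have h2 := hkill i (asm4psi hΦ) (asm4psi_bound hΦ) W hWi hW M hMi hM
  have h3 : Fi i (alt W) (if Even (n + 1) then M else star W * M) =
      ((C : ℂ) + 1) * ((Fintype.card (Ω i) : ℂ)⁻¹ * ∑ ω, asm4psi hΦ ((V i ω : B) * W * (U i ω : B))
          ((V i ω : B) * M * (1 - e i ω) * star (V i ω : B))) := by
    show (Fintype.card (Ω i) : ℂ)⁻¹ * ∑ ω, walkForm Φ n (V i ω : B) (U i ω : B) (e i ω) (alt W)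
      (if Even (n + 1) then M else star W * M) = _
    simp only [asm4_walk hΦ]
    rw [← Finset.mul_sum]
    ring
  rw [h3, norm_mul, asm4_Cpos hΦ]
  calc (C + 1) * _ ≤ (C + 1) * (1 / ((i.2 : ℝ) + 1)) :=
        mul_le_mul_of_nonneg_left (h2.trans (min_le_right _ _)) hC1.le
    _ < (C + 1) * (ε' / (C + 1)) := mul_lt_mul_of_pos_left hi hC1
    _ = ε' := by field_simp

end Pool.MP263F
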