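import Pool.Agent.Lib.MP_263cac_full.Tr
set_option autoImplicit false

/-! CP1: Hahn–Banach part of the Cuntz–Pedersen comparison lemma.

Proof.  View `B` as a real normed space.  `O = {z | ∃ s < δ', (1/2)(z + z*) ≤ s • 1}` is open and convex,
`K = {Σ u_i u_i* | c ≤ Σ u_i* u_i}` is convex (scale the two families by `√t`, `√(1-t)` and take the
disjoint union), nonempty (`u = √‖c‖ • 1`), and disjoint from `O` by `hno`.  `geometric_hahn_banach_open`
gives a continuous real functional `f` and `γ` with `f < γ` on `O` and `γ ≤ f` on `K`.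
For `p ≥ 0`, `-t p ∈ O` for all `t ≥ 0` so `f p ≥ 0`; for skew-adjoint `k`, `t k ∈ O` for all real `t`, so
`f k = 0`, so `f (star x) = f x`.  `0 ∈ O` so `γ > 0`, hence `f ≠ 0`, and `f x ≤ ‖x‖ f 1` for `x ≥ 0` gives
`f 1 > 0`.  `s • 1 ∈ O` for `s < δ'` gives `δ' f 1 ≤ γ`.  Divide `f` by `f 1`. -/

namespace Pool.MP263F
variable {B : Type} [CStarAlgebra B] [PartialOrder B] [StarOrderedRing B]

/-- the open convex set -/
private def CP1_O (B : Type) [CStarAlgebra B] [PartialOrder B] (δ' : ℝ) : Set B :=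
  {z | ∃ s : ℝ, s < δ' ∧ (1 / 2 : ℝ) • (z + star z) ≤ s • (1 : B)}

/-- the convex set of the sums `Σ u u*` -/
private def CP1_K (c : B) : Set B :=
  {z | ∃ (ι : Type) (_ : Fintype ι) (u : ι → B), c ≤ ∑ i, star (u i) * u i ∧
    z = ∑ i, u i * star (u i)}

private theorem CP1_one_nonneg : (0 : B) ≤ 1 := by
  simp

private theorem CP1_smul_mono {p : B} (hp : 0 ≤ p) {s t : ℝ} (h : s ≤ t) : s • p ≤ t • p := by
  rw [← sub_nonneg, ← sub_smul]
  exact smul_nonneg (sub_nonneg.2 h) hp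

private theorem CP1_le_norm {x : B} (hx : IsSelfAdjoint x) : x ≤ ‖x‖ • (1 : B) := by
  have := hx.le_algebraMap_norm_self
  rwa [Algebra.algebraMap_eq_smul_one] at this

private theorem CP1_O_convex (δ' : ℝ) : Convex ℝ (CP1_O B δ') := by
  rintro z ⟨s, hs, hz⟩ z' ⟨s', hs', hz'⟩ a b ha hb hab
  refine ⟨max s s', max_lt hs hs', ?_⟩
  have e1 : (1 / 2 : ℝ) • (a • z + b • z' + star (a • z + b • z')) =
      a • ((1 / 2 : ℝ) • (z + star z)) + b • ((1 / 2 : ℝ) • (z' + star z')) := by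
    rw [star_add, star_smul, star_smul, star_trivial a, star_trivial b]
    module
  have h1 : (1 / 2 : ℝ) • (z + star z) ≤ max s s' • (1 : B) :=
    hz.trans (CP1_smul_mono CP1_one_nonneg (le_max_left _ _))
  have h2 : (1 / 2 : ℝ) • (z' + star z') ≤ max s s' • (1 : B) :=
    hz'.trans (CP1_smul_mono CP1_one_nonneg (le_max_right _ _))
  rw [e1]
  calc a • ((1 / 2 : ℝ) • (z + star z)) + b • ((1 / 2 : ℝ) • (z' + star z'))
      ≤ a • (max s s' • (1 : B)) + b • (max s s' • (1 : B)) :=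
        add_le_add (smul_le_smul_of_nonneg_left h1 ha) (smul_le_smul_of_nonneg_left h2 hb)
    _ = max s s' • (1 : B) := by
        rw [← add_smul, hab, one_smul]

private theorem CP1_O_open (δ' : ℝ) : IsOpen (CP1_O B δ') := by
  rw [Metric.isOpen_iff]
  rintro z ⟨s, hs, hz⟩
  refine ⟨(δ' - s) / 2, by linarith, ?_⟩
  intro w hw
  rw [Metric.mem_ball, dist_eq_norm] at hw
  refine ⟨s + ‖w - z‖, by linarith, ?_⟩
  have hsa : IsSelfAdjoint ((1 / 2 : ℝ) • ((w - z) + star (w - z))) := by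
    rw [isSelfAdjoint_iff, star_smul, star_add, star_star, star_trivial, add_comm]
  have hn : ‖(1 / 2 : ℝ) • ((w - z) + star (w - z))‖ ≤ ‖w - z‖ := by
    rw [norm_smul]
    have h1 := norm_add_le (w - z) (star (w - z))
    rw [norm_star] at h1
    have h2 : ‖(1 / 2 : ℝ)‖ = 1 / 2 := by norm_num
    rw [h2]
    linarith
  have e1 : (1 / 2 : ℝ) • (w + star w) =
      (1 / 2 : ℝ) • (z + star z) + (1 / 2 : ℝ) • ((w - z) + star (w - z)) := by
    rw [star_sub]
    module
  rw [e1, add_smul]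
  exact add_le_add hz ((CP1_le_norm hsa).trans (CP1_smul_mono CP1_one_nonneg hn))

private theorem CP1_K_convex (c : B) : Convex ℝ (CP1_K c) := by
  rintro z ⟨ι, hι, u, hu, rfl⟩ z' ⟨ι', hι', u', hu', rfl⟩ a b ha hb hab
  have hsa : Real.sqrt a * Real.sqrt a = a := Real.mul_self_sqrt ha
  have hsb : Real.sqrt b * Real.sqrt b = b := Real.mul_self_sqrt hb
  refine ⟨ι ⊕ ι', inferInstance, Sum.elim (fun i => Real.sqrt a • u i)
    (fun i => Real.sqrt b • u' i), ?_, ?_⟩
  · rw [Fintype.sum_sum_type]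
    simp only [Sum.elim_inl, Sum.elim_inr, star_smul, star_trivial, smul_mul_smul_comm, hsa, hsb]
    rw [← Finset.smul_sum, ← Finset.smul_sum]
    calc c = a • c + b • c := by rw [← add_smul, hab, one_smul]
      _ ≤ _ := add_le_add (smul_le_smul_of_nonneg_left hu ha) (smul_le_smul_of_nonneg_left hu' hb)
  · rw [Fintype.sum_sum_type]
    simp only [Sum.elim_inl, Sum.elim_inr, star_smul, star_trivial, smul_mul_smul_comm, hsa, hsb]
    rw [← Finset.smul_sum, ← Finset.smul_sum]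

private theorem CP1_K_mem (c : B) (hc : 0 ≤ c) : ‖c‖ • (1 : B) ∈ CP1_K c := by
  have hs : Real.sqrt ‖c‖ * Real.sqrt ‖c‖ = ‖c‖ := Real.mul_self_sqrt (norm_nonneg c)
  refine ⟨Unit, inferInstance, fun _ => Real.sqrt ‖c‖ • (1 : B), ?_, ?_⟩
  · simp only [star_smul, star_trivial, star_one, smul_mul_smul_comm, hs, mul_one,
      Finset.univ_unique, Finset.sum_singleton]
    exact CP1_le_norm (IsSelfAdjoint.of_nonneg hc)
  · simp only [star_smul, star_trivial, star_one, smul_mul_smul_comm, hs, mul_one,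
      Finset.univ_unique, Finset.sum_singleton]

theorem cp_hb (c : B) (hc : 0 ≤ c) (δ' : ℝ) (hδ' : 0 < δ')
    (hno : ¬ ∃ (ι : Type) (_ : Fintype ι) (u : ι → B), c ≤ ∑ i, star (u i) * u i ∧
      ∑ i, u i * star (u i) ≤ δ' • (1 : B)) :
    ∃ f : B →ₗ[ℝ] ℝ, (∀ x, 0 ≤ x → 0 ≤ f x) ∧ f 1 = 1 ∧ (∀ x, f (star x) = f x) ∧
      ∀ (ι : Type) (_ : Fintype ι) (u : ι → B), c ≤ ∑ i, star (u i) * u i →
        δ' ≤ f (∑ i, u i * star (u i)) := by
  have hdisj : Disjoint (CP1_O B δ') (CP1_K c) := by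
    rw [Set.disjoint_left]
    rintro z ⟨s, hs, hz⟩ ⟨ι, hι, u, hu, rfl⟩
    refine hno ⟨ι, hι, u, hu, ?_⟩
    have h1 : star (∑ i, u i * star (u i)) = ∑ i, u i * star (u i) := by
      rw [star_sum]
      simp only [star_mul, star_star]
    rw [h1] at hz
    have h2 : (1 / 2 : ℝ) • ((∑ i, u i * star (u i)) + ∑ i, u i * star (u i)) =
        ∑ i, u i * star (u i) := by
      module
    rw [h2] at hz
    exact hz.trans (CP1_smul_mono CP1_one_nonneg hs.le)
  obtain ⟨f, γ, hfO, hfK⟩ := geometric_hahn_banach_open (CP1_O_convex δ') (CP1_O_open δ')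
    (CP1_K_convex c) hdisj
  have hskew : ∀ k : B, star k = -k → f k = 0 := by
    intro k hk
    by_contra h0
    have h1 : (γ / f k) • k ∈ CP1_O B δ' := by
      refine ⟨0, hδ', ?_⟩
      rw [star_smul, star_trivial, hk, smul_neg, add_neg_cancel, smul_zero, zero_smul]
    have h2 := hfO _ h1
    rw [map_smul, smul_eq_mul, div_mul_cancel₀ _ h0] at h2
    exact lt_irrefl _ h2
  have hpos : ∀ x, 0 ≤ x → 0 ≤ f x := by
    intro x hx
    by_contra h0
    push Not at h0
    have hγ : f 0 < γ := hfO 0 ⟨0, hδ', by rw [star_zero, add_zero, smul_zero, zero_smul]⟩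
    rw [map_zero] at hγ
    have h1 : (γ / f x) • x ∈ CP1_O B δ' := by
      refine ⟨0, hδ', ?_⟩
      have hsx : star x = x := (IsSelfAdjoint.of_nonneg hx)
      have e1 : (1 / 2 : ℝ) • ((γ / f x) • x + star ((γ / f x) • x)) = (γ / f x) • x := by
        rw [star_smul, star_trivial, hsx]
        module
      rw [e1, zero_smul]
      have h3 : γ / f x ≤ 0 := div_nonpos_of_nonneg_of_nonpos hγ.le h0.le
      have h4 := smul_nonneg (neg_nonneg.2 h3) hx
      rw [neg_smul] at h4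
      exact neg_nonneg.1 h4
    have h2 := hfO _ h1
    rw [map_smul, smul_eq_mul, div_mul_cancel₀ _ h0.ne] at h2
    exact lt_irrefl _ h2
  have hstar : ∀ x, f (star x) = f x := by
    intro x
    have h1 := hskew (star x - x) (by rw [star_sub, star_star, neg_sub])
    rw [map_sub] at h1
    linarith
  have hγ : 0 < γ := by
    have h1 : f 0 < γ := hfO 0 ⟨0, hδ', by rw [star_zero, add_zero, smul_zero, zero_smul]⟩
    rwa [map_zero] at h1
  have hf1 : 0 < f 1 := by
    have h1 := hfK _ (CP1_K_mem c hc)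
    rw [map_smul, smul_eq_mul] at h1
    have h2 : 0 < ‖c‖ * f 1 := hγ.trans_le h1
    rcases (norm_nonneg c).lt_or_eq with h3 | h3
    · exact (pos_iff_pos_of_mul_pos h2).1 h3
    · rw [← h3, zero_mul] at h2
      exact absurd h2 (lt_irrefl _)
  have hδγ : δ' * f 1 ≤ γ := by
    by_contra h0
    push Not at h0
    have h1 : (γ / f 1) • (1 : B) ∈ CP1_O B δ' := by
      refine ⟨γ / f 1, by rwa [div_lt_iff₀ hf1], ?_⟩
      rw [star_smul, star_trivial, star_one]
      refine le_of_eq ?_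
      module
    have h2 := hfO _ h1
    rw [map_smul, smul_eq_mul, div_mul_cancel₀ _ hf1.ne'] at h2
    exact lt_irrefl _ h2
  refine ⟨(f 1)⁻¹ • (f : B →ₗ[ℝ] ℝ), ?_, ?_, ?_, ?_⟩
  · intro x hx
    exact mul_nonneg (inv_nonneg.2 hf1.le) (hpos x hx)
  · exact inv_mul_cancel₀ hf1.ne'
  · intro x
    show (f 1)⁻¹ * f (star x) = (f 1)⁻¹ * f x
    rw [hstar]
  · intro ι hι u hu
    show δ' ≤ (f 1)⁻¹ * f (∑ i, u i * star (u i))
    have h1 : γ ≤ f (∑ i, u i * star (u i)) := hfK _ ⟨ι, hι, u, hu, rfl⟩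
    rw [inv_mul_eq_div, le_div_iff₀ hf1]
    exact hδγ.trans h1

end Pool.MP263F
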