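import Pool.Agent.Lib.MP_263cac_full.Tr
set_option autoImplicit false

/-! JOB CP2: the Cuntz–Pedersen functional of a state is additive and tracial.

`muf f x = inf { f(Σ u_i u_i*) | x ≤ Σ u_i* u_i }`.  Proofs.
* the set is nonempty for `x` self-adjoint (`x ≤ ‖x‖ • 1`) and bounded below by `0`.
* `muf_le`: `u = x^{1/2}` (`CFC.sqrt x`).
* subadditivity (any self-adjoint `x, y`): disjoint union of the families.
* superadditivity (`x, y ≥ 0`): let `x + y ≤ s = Σ u_i* u_i` and `ε > 0`, `h = (s+ε)^{-1/2}`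
  (`s + ε • 1` is strictly positive; `h` self-adjoint, commutes with `s`, `h (s+ε) h = 1`).
  `v_i = u_i h x^{1/2}`, `w_i = u_i h y^{1/2}`.  Then `Σ v_i* v_i = x^{1/2} h s h x^{1/2}
  = x - ε x^{1/2} h² x^{1/2} ≥ x - ε`, because `h² = (s+ε)⁻¹ ≤ (x+ε)⁻¹` and
  `ε x^{1/2}(x+ε)⁻¹x^{1/2} ≤ ε`.  Same for `w`.  And `Σ v_i v_i* + Σ w_i w_i* = Σ u_i h (x+y) h u_i*
  ≤ Σ u_i h s h u_i* ≤ Σ u_i u_i*` (`h s h ≤ 1`).  So `muf (x-ε) + muf (y-ε) ≤ f(Σ u u*)`, and
  `muf x ≤ muf (x - ε) + muf (ε) ≤ muf (x-ε) + ε`.  Let `ε → 0` and take the infimum.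
* `muf_tr`: let `u u* ≤ s = Σ v_i* v_i`, `h` as before, `w_i = v_i h u`: `Σ w_i* w_i = u* h s h u
  = u*u - ε u* h² u ≥ u*u - ε` (`h² ≤ (u u* + ε)⁻¹`, `ε u*(uu*+ε)⁻¹u ≤ ε`), and
  `Σ w_i w_i* = Σ v_i h u u* h v_i* ≤ Σ v_i h s h v_i* ≤ Σ v_i v_i*`.  So `muf (u*u) ≤ muf (uu*) + ε`. -/

namespace Pool.MP263F
variable {B : Type} [CStarAlgebra B] [PartialOrder B] [StarOrderedRing B]

/-- the Cuntz–Pedersen functional -/
noncomputable def muf (f : B →ₗ[ℝ] ℝ) (x : B) : ℝ :=
  sInf {t : ℝ | ∃ (ι : Type) (_ : Fintype ι) (u : ι → B), x ≤ ∑ i, star (u i) * u i ∧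
    t = f (∑ i, u i * star (u i))}

variable {f : B →ₗ[ℝ] ℝ}

private theorem CP2_exists_h (s : B) (hs : 0 ≤ s) (ε : ℝ) (hε : 0 < ε) :
    ∃ h : B, IsSelfAdjoint h ∧ h * s * h = 1 - ε • (h * h) := by
  have hsa : IsSelfAdjoint s := .of_nonneg hs
  have hspec : ∀ t ∈ spectrum ℝ s, 0 ≤ t := fun t ht => spectrum_nonneg_of_nonneg hs ht
  have hcont : ContinuousOn (fun t : ℝ => (√(t + ε))⁻¹) (spectrum ℝ s) := by
    refine ContinuousOn.inv₀ (by fun_prop) fun t ht => ?_
    have := hspec t ht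
    exact (Real.sqrt_pos.2 (by linarith)).ne'
  refine ⟨cfc (fun t : ℝ => (√(t + ε))⁻¹) s, cfc_predicate _ s, ?_⟩
  have e1 : cfc (fun t : ℝ => (√(t + ε))⁻¹) s * s = cfc (fun t : ℝ => (√(t + ε))⁻¹ * t) s := by
    rw [cfc_mul (fun t : ℝ => (√(t + ε))⁻¹) (fun t => t) s hcont continuousOn_id, cfc_id' ℝ s]
  have hcont2 : ContinuousOn (fun t : ℝ => (√(t + ε))⁻¹ * t) (spectrum ℝ s) :=
    hcont.mul continuousOn_id
  rw [e1, ← cfc_mul (fun t : ℝ => (√(t + ε))⁻¹ * t) (fun t : ℝ => (√(t + ε))⁻¹) s hcont2 hcont,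
    ← cfc_mul (fun t : ℝ => (√(t + ε))⁻¹) (fun t : ℝ => (√(t + ε))⁻¹) s hcont hcont]
  have hcont3 : ContinuousOn (fun t : ℝ => (√(t + ε))⁻¹ * (√(t + ε))⁻¹) (spectrum ℝ s) :=
    hcont.mul hcont
  have e2 : (ε • cfc (fun t : ℝ => (√(t + ε))⁻¹ * (√(t + ε))⁻¹) s : B) =
      cfc (fun t : ℝ => ε * ((√(t + ε))⁻¹ * (√(t + ε))⁻¹)) s :=
    (cfc_const_mul ε _ s hcont3).symm
  have e3 : (1 : B) = cfc (fun _ : ℝ => (1 : ℝ)) s := (cfc_const_one ℝ s).symm
  rw [e2, e3, ← cfc_sub (fun _ : ℝ => (1 : ℝ)) (fun t : ℝ => ε * ((√(t + ε))⁻¹ * (√(t + ε))⁻¹)) s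
    continuousOn_const (continuousOn_const.mul hcont3)]
  refine cfc_congr fun t ht => ?_
  have h0 := hspec t ht
  have h1 : 0 < √(t + ε) := Real.sqrt_pos.2 (by linarith)
  have h2 : √(t + ε) * √(t + ε) = t + ε := Real.mul_self_sqrt (by linarith)
  show (√(t + ε))⁻¹ * t * (√(t + ε))⁻¹ = 1 - ε * ((√(t + ε))⁻¹ * (√(t + ε))⁻¹)
  have h3 : (√(t + ε))⁻¹ * (√(t + ε))⁻¹ = (t + ε)⁻¹ := by
    rw [← mul_inv, h2]
  have h4 : t + ε ≠ 0 := by linarith
  rw [h3, mul_right_comm, h3]
  field_simp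
  ring

private theorem CP2_flip (T : B) (h : T * star T ≤ 1) : star T * T ≤ 1 := by
  have h1 : ‖T * star T‖ ≤ 1 :=
    (CStarAlgebra.norm_le_one_iff_of_nonneg (T * star T) (mul_star_self_nonneg T)).2 h
  refine (CStarAlgebra.norm_le_one_iff_of_nonneg (star T * T) (star_mul_self_nonneg T)).1 ?_
  rwa [CStarRing.norm_star_mul_self, ← CStarRing.norm_self_mul_star]

theorem muf_nonneg (hf : ∀ x, 0 ≤ x → 0 ≤ f x) (x : B) : 0 ≤ muf f x := by
  refine Real.sInf_nonneg ?_
  rintro t ⟨ι, _, u, -, rfl⟩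
  exact hf _ (Finset.sum_nonneg fun i _ => mul_star_self_nonneg (u i))

private theorem CP2_bdd (hf : ∀ x, 0 ≤ x → 0 ≤ f x) (x : B) :
    BddBelow {t : ℝ | ∃ (ι : Type) (_ : Fintype ι) (u : ι → B), x ≤ ∑ i, star (u i) * u i ∧
      t = f (∑ i, u i * star (u i))} := by
  refine ⟨0, ?_⟩
  rintro t ⟨ι, _, u, -, rfl⟩
  exact hf _ (Finset.sum_nonneg fun i _ => mul_star_self_nonneg (u i))

private theorem CP2_le_of (hf : ∀ x, 0 ≤ x → 0 ≤ f x) {x : B} {ι : Type} [Fintype ι] (u : ι → B)
    (h : x ≤ ∑ i, star (u i) * u i) : muf f x ≤ f (∑ i, u i * star (u i)) :=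
  csInf_le (CP2_bdd hf x) ⟨ι, inferInstance, u, h, rfl⟩

theorem muf_le (hf : ∀ x, 0 ≤ x → 0 ≤ f x) {x : B} (hx : 0 ≤ x) : muf f x ≤ f x := by
  have h1 : star (CFC.sqrt x) = CFC.sqrt x := (IsSelfAdjoint.of_nonneg (CFC.sqrt_nonneg x)).star_eq
  have h2 : CFC.sqrt x * CFC.sqrt x = x := CFC.sqrt_mul_sqrt_self x hx
  have h3 := CP2_le_of hf (x := x) (fun _ : Unit => CFC.sqrt x) (by simp [h1, h2])
  simpa [h1, h2] using h3

theorem le_muf (hf : ∀ x, 0 ≤ x → 0 ≤ f x) {x : B} (hx : IsSelfAdjoint x) (t : ℝ)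
    (h : ∀ (ι : Type) (_ : Fintype ι) (u : ι → B), x ≤ ∑ i, star (u i) * u i →
      t ≤ f (∑ i, u i * star (u i))) : t ≤ muf f x := by
  refine le_csInf ?_ ?_
  · refine ⟨_, Unit, inferInstance, fun _ => √‖x‖ • (1 : B), ?_, rfl⟩
    have h1 : ∑ _i : Unit, star (√‖x‖ • (1 : B)) * (√‖x‖ • (1 : B)) = ‖x‖ • (1 : B) := by
      simp only [Finset.univ_unique, Finset.sum_const, Finset.card_singleton, one_smul, star_smul,
        star_one, star_trivial, smul_mul_smul_comm, mul_one]
      rw [Real.mul_self_sqrt (norm_nonneg x)]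
    rw [h1, ← Algebra.algebraMap_eq_smul_one]
    exact hx.le_algebraMap_norm_self
  · rintro s ⟨ι, hι, u, hu, rfl⟩
    exact h ι hι u hu

private theorem CP2_key {κ : Type} [Fintype κ] (hf : ∀ x, 0 ≤ x → 0 ≤ f x) (h1 : f 1 = 1)
    (z : κ → B) {ι : Type} [Fintype ι] (v : ι → B)
    (hz : ∑ k, z k * star (z k) ≤ ∑ i, star (v i) * v i) :
    ∑ k, muf f (star (z k) * z k) ≤ f (∑ i, v i * star (v i)) := by
  classical
  have fmono : ∀ a b : B, a ≤ b → f a ≤ f b := by
    intro a b hab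
    have := hf (b - a) (sub_nonneg.2 hab)
    rw [map_sub] at this
    linarith
  refine le_of_forall_pos_le_add fun δ hδ => ?_
  set ε : ℝ := δ / (Fintype.card κ + 1) with hεd
  have hcard : (0 : ℝ) < Fintype.card κ + 1 := by positivity
  have hε : 0 < ε := div_pos hδ hcard
  set s : B := ∑ i, star (v i) * v i with hs
  have hs0 : 0 ≤ s := Finset.sum_nonneg fun i _ => star_mul_self_nonneg (v i)
  obtain ⟨h, hsa, hh⟩ := CP2_exists_h s hs0 ε hε
  have hstar : star h = h := hsa.star_eq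
  have hhh : 0 ≤ ε • (h * h) := by
    refine smul_nonneg hε.le ?_
    have := star_mul_self_nonneg h
    rwa [hstar] at this
  have hsh1 : h * s * h ≤ 1 := by
    rw [hh]
    exact sub_le_self _ hhh
  have hone : ∀ k, muf f (star (z k) * z k) ≤
      f (∑ i, v i * (h * (z k * star (z k)) * h) * star (v i)) + ε := by
    intro k
    have hT : star (h * z k) * (h * z k) ≤ 1 := by
      refine CP2_flip _ ?_
      have e1 : h * z k * star (h * z k) = h * (z k * star (z k)) * h := by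
        rw [star_mul, hstar]
        simp only [mul_assoc]
      rw [e1]
      refine le_trans ?_ hsh1
      have e2 : z k * star (z k) ≤ s := by
        refine le_trans ?_ hz
        exact Finset.single_le_sum (f := fun k => z k * star (z k))
          (fun j _ => mul_star_self_nonneg (z j)) (Finset.mem_univ k)
      have e3 := star_left_conjugate_le_conjugate e2 h
      rwa [hstar] at e3
    let w : Option ι → B := fun o => match o with
      | none => √ε • (1 : B)
      | some i => v i * h * z k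
    have hw1 : ∑ o, star (w o) * w o = star (z k) * (h * s * h) * z k + ε • (1 : B) := by
      rw [Fintype.sum_option]
      have e1 : star (w none) * w none = ε • (1 : B) := by
        simp only [w, star_smul, star_one, star_trivial, smul_mul_smul_comm, mul_one]
        rw [Real.mul_self_sqrt hε.le]
      have e2 : ∑ i, star (w (some i)) * w (some i) = star (z k) * (h * s * h) * z k := by
        rw [hs]
        simp only [w, star_mul, hstar, Finset.mul_sum, Finset.sum_mul]
        refine Finset.sum_congr rfl fun i _ => ?_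
        simp only [mul_assoc]
      rw [e1, e2, add_comm]
    have hw2 : ∑ o, w o * star (w o) = ∑ i, v i * (h * (z k * star (z k)) * h) * star (v i) +
        ε • (1 : B) := by
      rw [Fintype.sum_option]
      have e1 : w none * star (w none) = ε • (1 : B) := by
        simp only [w, star_smul, star_one, star_trivial, smul_mul_smul_comm, mul_one]
        rw [Real.mul_self_sqrt hε.le]
      have e2 : ∑ i, w (some i) * star (w (some i)) =
          ∑ i, v i * (h * (z k * star (z k)) * h) * star (v i) := by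
        refine Finset.sum_congr rfl fun i _ => ?_
        simp only [w, star_mul, hstar, mul_assoc]
      rw [e1, e2, add_comm]
    have hle : star (z k) * z k ≤ ∑ o, star (w o) * w o := by
      rw [hw1, hh]
      have e1 : star (z k) * (1 - ε • (h * h)) * z k + ε • (1 : B) =
          star (z k) * z k + ε • (1 - star (h * z k) * (h * z k)) := by
        rw [star_mul, hstar]
        simp only [mul_sub, sub_mul, mul_one, smul_sub, mul_smul_comm, smul_mul_assoc, mul_assoc]
        abel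
      rw [e1]
      exact le_add_of_nonneg_right (smul_nonneg hε.le (sub_nonneg.2 hT))
    have h2 := CP2_le_of hf w hle
    rw [hw2, map_add, map_smul, h1, smul_eq_mul, mul_one] at h2
    exact h2
  calc ∑ k, muf f (star (z k) * z k)
      ≤ ∑ k, (f (∑ i, v i * (h * (z k * star (z k)) * h) * star (v i)) + ε) :=
        Finset.sum_le_sum fun k _ => hone k
    _ = f (∑ i, v i * (h * (∑ k, z k * star (z k)) * h) * star (v i)) + Fintype.card κ * ε := by
        rw [Finset.sum_add_distrib, Finset.sum_const, Finset.card_univ, nsmul_eq_mul, ← map_sum]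
        congr 2
        rw [Finset.sum_comm]
        refine Finset.sum_congr rfl fun i _ => ?_
        simp only [Finset.mul_sum, Finset.sum_mul]
    _ ≤ f (∑ i, v i * star (v i)) + δ := by
        refine add_le_add ?_ ?_
        · refine fmono _ _ (Finset.sum_le_sum fun i _ => ?_)
          have e1 : h * (∑ k, z k * star (z k)) * h ≤ 1 := by
            refine le_trans ?_ hsh1
            have e3 := star_left_conjugate_le_conjugate hz h
            rwa [hstar] at e3
          have e4 := star_right_conjugate_le_conjugate e1 (v i)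
          rwa [mul_one] at e4
        · rw [hεd]
          rw [mul_div_assoc', div_le_iff₀ hcard]
          nlinarith

theorem muf_add (hf : ∀ x, 0 ≤ x → 0 ≤ f x) (h1 : f 1 = 1) {x y : B} (hx : 0 ≤ x) (hy : 0 ≤ y) :
    muf f (x + y) = muf f x + muf f y := by
  apply le_antisymm
  · have hA : muf f (x + y) - muf f x ≤ muf f y := by
      refine le_muf hf (IsSelfAdjoint.of_nonneg hy) _ fun ι hι u hu => ?_
      have hB : muf f (x + y) - f (∑ i, u i * star (u i)) ≤ muf f x := by
        refine le_muf hf (IsSelfAdjoint.of_nonneg hx) _ fun κ hκ w hw => ?_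
        have hC := CP2_le_of hf (x := x + y) (Sum.elim w u) (by
          rw [Fintype.sum_sum_type]
          exact add_le_add hw hu)
        rw [Fintype.sum_sum_type] at hC
        simp only [Sum.elim_inl, Sum.elim_inr, map_add] at hC
        linarith
      linarith
    linarith
  · refine le_muf hf (IsSelfAdjoint.of_nonneg (add_nonneg hx hy)) _ fun ι hι u hu => ?_
    have hsx : star (CFC.sqrt x) = CFC.sqrt x :=
      (IsSelfAdjoint.of_nonneg (CFC.sqrt_nonneg x)).star_eq
    have hsy : star (CFC.sqrt y) = CFC.sqrt y :=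
      (IsSelfAdjoint.of_nonneg (CFC.sqrt_nonneg y)).star_eq
    have hx2 : CFC.sqrt x * CFC.sqrt x = x := CFC.sqrt_mul_sqrt_self x hx
    have hy2 : CFC.sqrt y * CFC.sqrt y = y := CFC.sqrt_mul_sqrt_self y hy
    have hD := CP2_key hf h1 (fun b : Bool => if b then CFC.sqrt x else CFC.sqrt y) u (by
      rw [Fintype.sum_bool]
      simp only [if_true, Bool.false_eq_true, if_false, hsx, hsy, hx2, hy2]
      exact hu)
    rw [Fintype.sum_bool] at hD
    simpa only [if_true, Bool.false_eq_true, if_false, hsx, hsy, hx2, hy2] using hD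

private theorem CP2_smul_le (hf : ∀ x, 0 ≤ x → 0 ≤ f x) {x : B} (hx : 0 ≤ x) {t : ℝ} (ht : 0 < t) :
    muf f (t • x) ≤ t * muf f x := by
  have hA : t⁻¹ * muf f (t • x) ≤ muf f x := by
    refine le_muf hf (IsSelfAdjoint.of_nonneg hx) _ fun ι hι u hu => ?_
    have e1 : ∑ i, star (√t • u i) * (√t • u i) = t • ∑ i, star (u i) * u i := by
      rw [Finset.smul_sum]
      refine Finset.sum_congr rfl fun i _ => ?_
      rw [star_smul, star_trivial, smul_mul_smul_comm, Real.mul_self_sqrt ht.le]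
    have e2 : ∑ i, (√t • u i) * star (√t • u i) = t • ∑ i, u i * star (u i) := by
      rw [Finset.smul_sum]
      refine Finset.sum_congr rfl fun i _ => ?_
      rw [star_smul, star_trivial, smul_mul_smul_comm, Real.mul_self_sqrt ht.le]
    have hC := CP2_le_of hf (x := t • x) (fun i => √t • u i) (by
      rw [e1]
      exact smul_le_smul_of_nonneg_left hu ht.le)
    rw [e2, map_smul, smul_eq_mul] at hC
    rw [inv_mul_le_iff₀ ht]
    exact hC
  rwa [inv_mul_le_iff₀ ht] at hA

theorem muf_smul (hf : ∀ x, 0 ≤ x → 0 ≤ f x) {x : B} (hx : 0 ≤ x) {t : ℝ} (ht : 0 ≤ t) :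
    muf f (t • x) = t * muf f x := by
  rcases ht.eq_or_lt with rfl | ht
  · rw [zero_smul, zero_mul]
    refine le_antisymm ?_ (muf_nonneg hf 0)
    have := muf_le hf (le_refl (0 : B))
    rwa [map_zero] at this
  · refine le_antisymm (CP2_smul_le hf hx ht) ?_
    have h1 := CP2_smul_le hf (smul_nonneg ht.le hx) (inv_pos.2 ht)
    rw [smul_smul, inv_mul_cancel₀ ht.ne', one_smul] at h1
    rwa [le_inv_mul_iff₀ ht] at h1

theorem muf_tr (hf : ∀ x, 0 ≤ x → 0 ≤ f x) (h1 : f 1 = 1) (u : B) :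
    muf f (star u * u) = muf f (u * star u) := by
  have key : ∀ w : B, muf f (star w * w) ≤ muf f (w * star w) := by
    intro w
    refine le_muf hf (IsSelfAdjoint.mul_star_self w) _ fun ι hι v hv => ?_
    have hD := CP2_key hf h1 (fun _ : Unit => w) v (by simpa using hv)
    simpa using hD
  refine le_antisymm (key u) ?_
  have := key (star u)
  rwa [star_star] at this

end Pool.MP263F
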