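import Pool.Agent.Lib.MP_263cac_full.Tr
set_option autoImplicit false

/-! JOB CP3: extension of an additive positively homogeneous function from the positive cone,
and traciality from `μ(u*u) = μ(uu*)`.

Proof.  `R x = (1/2)(x + x*)`, `ρ x = μ((R x)⁺) - μ((R x)⁻)` (`CFC.posPart`, `x⁺`, `x⁻`).
If `a = p - q = p' - q'` with `p,q,p',q' ≥ 0` then `μ p - μ q = μ p' - μ q'` (additivity of
`p + q' = p' + q`), so `ρ` is additive and homogeneous.  `ρ (star x) = ρ x` clear.
Traciality: with `z = x* + y`: `z* z = x x* + x y + y* x* + y* y`, `z z* = x* x + x* y* + y x + y y*`,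
so `ρ(xy + (xy)*) = ρ(yx + (yx)*)`, so `ρ(xy) = ρ(yx)`. -/

namespace Pool.MP263F
variable {B : Type} [CStarAlgebra B] [PartialOrder B] [StarOrderedRing B]

theorem cone_ext (μ : B → ℝ) (h0 : ∀ x, 0 ≤ x → 0 ≤ μ x)
    (hadd : ∀ x y, 0 ≤ x → 0 ≤ y → μ (x + y) = μ x + μ y)
    (hsm : ∀ (t : ℝ) x, 0 ≤ t → 0 ≤ x → μ (t • x) = t * μ x)
    (htr : ∀ u, μ (star u * u) = μ (u * star u)) :
    ∃ ρ : B →ₗ[ℝ] ℝ, (∀ x, 0 ≤ x → ρ x = μ x) ∧ (∀ x, ρ (star x) = ρ x) ∧
      ∀ x y, ρ (x * y) = ρ (y * x) := by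
  have hμ0 : μ 0 = 0 := by
    have := hadd 0 0 le_rfl le_rfl
    rw [add_zero] at this
    linarith
  -- the real part
  have hRsa : ∀ x : B, IsSelfAdjoint (x + star x) := fun x => IsSelfAdjoint.add_star_self x
  -- independence of the decomposition
  have indep : ∀ p q p' q' : B, 0 ≤ p → 0 ≤ q → 0 ≤ p' → 0 ≤ q' → p - q = p' - q' →
      μ p - μ q = μ p' - μ q' := by
    intro p q p' q' hp hq hp' hq' h
    have h1 : p + q' = p' + q := by
      rw [sub_eq_sub_iff_add_eq_add] at h
      exact h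
    have h2 := hadd p q' hp hq'
    have h3 := hadd p' q hp' hq
    rw [h1] at h2
    linarith
  let ρ : B → ℝ := fun x => (μ ((x + star x)⁺) - μ ((x + star x)⁻)) / 2
  have hρ : ∀ x p q : B, 0 ≤ p → 0 ≤ q → x + star x = p - q → ρ x = (μ p - μ q) / 2 := by
    intro x p q hp hq h
    have h1 : (x + star x)⁺ - (x + star x)⁻ = x + star x := CFC.posPart_sub_negPart _ (hRsa x)
    have h2 := indep _ _ p q (CFC.posPart_nonneg (x + star x)) (CFC.negPart_nonneg (x + star x))
      hp hq (h1.trans h)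
    simp only [ρ]
    rw [h2]
  have hdec : ∀ x : B, ∃ p q : B, 0 ≤ p ∧ 0 ≤ q ∧ x + star x = p - q := fun x =>
    ⟨_, _, CFC.posPart_nonneg (x + star x), CFC.negPart_nonneg (x + star x),
      (CFC.posPart_sub_negPart _ (hRsa x)).symm⟩
  have hρadd : ∀ x y, ρ (x + y) = ρ x + ρ y := by
    intro x y
    obtain ⟨p, q, hp, hq, h⟩ := hdec x
    obtain ⟨p', q', hp', hq', h'⟩ := hdec y
    rw [hρ x p q hp hq h, hρ y p' q' hp' hq' h', hρ (x + y) (p + p') (q + q') (add_nonneg hp hp')
      (add_nonneg hq hq') (by rw [star_add, add_add_add_comm, h, h']; abel),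
      hadd p p' hp hp', hadd q q' hq hq']
    ring
  have hρneg : ∀ x, ρ (-x) = -ρ x := by
    intro x
    obtain ⟨p, q, hp, hq, h⟩ := hdec x
    rw [hρ x p q hp hq h, hρ (-x) q p hq hp (by rw [star_neg, ← neg_add, h]; abel)]
    ring
  have hρpos : ∀ (t : ℝ) x, 0 ≤ t → ρ (t • x) = t * ρ x := by
    intro t x ht
    obtain ⟨p, q, hp, hq, h⟩ := hdec x
    rw [hρ x p q hp hq h, hρ (t • x) (t • p) (t • q) (smul_nonneg ht hp) (smul_nonneg ht hq)
      (by rw [star_smul, star_trivial, ← smul_add, h, smul_sub]), hsm t p ht hp, hsm t q ht hq]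
    ring
  have hρsmul : ∀ (t : ℝ) x, ρ (t • x) = t * ρ x := by
    intro t x
    rcases le_total 0 t with ht | ht
    · exact hρpos t x ht
    · have h1 := hρpos (-t) x (neg_nonneg.2 ht)
      rw [neg_smul, hρneg] at h1
      linarith
  have hρstar : ∀ x, ρ (star x) = ρ x := by
    intro x
    simp only [ρ]
    rw [star_star, add_comm (star x) x]
  have hρμ : ∀ x, 0 ≤ x → ρ x = μ x := by
    intro x hx
    have hs : star x = x := (IsSelfAdjoint.of_nonneg hx).star_eq
    rw [hρ x (x + x) 0 (add_nonneg hx hx) le_rfl (by rw [hs, sub_zero]), hadd x x hx hx, hμ0]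
    ring
  have hρstarmul : ∀ u : B, ρ (star u * u) = ρ (u * star u) := by
    intro u
    rw [hρμ _ (star_mul_self_nonneg u), hρμ _ (mul_star_self_nonneg u), htr u]
  refine ⟨{ toFun := ρ, map_add' := hρadd, map_smul' := fun t x => hρsmul t x }, hρμ, hρstar, ?_⟩
  intro x y
  show ρ (x * y) = ρ (y * x)
  have h1 := hρstarmul (star x + y)
  have e1 : star (star x + y) * (star x + y) =
      x * star x + x * y + star (x * y) + star y * y := by
    rw [star_add, star_star, star_mul]
    noncomm_ring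
  have e2 : (star x + y) * star (star x + y) =
      star x * x + star (y * x) + y * x + y * star y := by
    rw [star_add, star_star, star_mul]
    noncomm_ring
  rw [e1, e2] at h1
  simp only [hρadd, hρstar] at h1
  have h2 := hρstarmul x
  have h3 := hρstarmul y
  linarith

end Pool.MP263F
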