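import Pool.Agent.Lib.MP_263cac_full.CP1
import Pool.Agent.Lib.MP_263cac_full.CP2
import Pool.Agent.Lib.MP_263cac_full.CP3
set_option autoImplicit false

/-! JOB CP4: the Cuntz–Pedersen comparison lemma.

Proof.  First find `u` with `c ≤ Σ u_i* u_i`, `Σ u_i u_i* ≤ δ' • 1`: otherwise take `f` from `cp_hb`,
`μ = muf f`, `ρ₀` from `cone_ext`; `δ' ≤ μ c` (`le_muf`), `μ c ≤ ‖c‖ μ 1` so `μ 1 > 0`, `μ 1 ≤ f 1 = 1`;
`ρ = (μ 1)⁻¹ ρ₀` satisfies `TrF`, and `ρ c ≥ μ c ≥ δ' > δ`, contradiction.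
Then correct: `s = Σ u_i* u_i ≥ c`, `h = (s+ε)^{-1/2}`, `v_i = u_i h c^{1/2}`:
`Σ v_i* v_i = c^{1/2} h s h c^{1/2} ≤ c` and `c - Σ v_i* v_i = ε c^{1/2} h² c^{1/2} ≤ ε` (`h² ≤ (c+ε)⁻¹`),
`Σ v_i v_i* = Σ u_i h c h u_i* ≤ Σ u_i h s h u_i* ≤ Σ u_i u_i* ≤ δ'`. -/

namespace Pool.MP263F
variable {B : Type} [CStarAlgebra B] [PartialOrder B] [StarOrderedRing B]

/-- first part: the comparison without the correction -/
private theorem cp4_first (c : B) (hc : 0 ≤ c) (δ δ' : ℝ) (hδ : 0 ≤ δ) (hδδ' : δ < δ')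
    (hρ : ∀ ρ : B →ₗ[ℝ] ℝ, TrF ρ → ρ c ≤ δ) :
    ∃ (ι : Type) (_ : Fintype ι) (u : ι → B), c ≤ ∑ i, star (u i) * u i ∧
      ∑ i, u i * star (u i) ≤ δ' • (1 : B) := by
  by_contra hno
  have hδ' : 0 < δ' := lt_of_le_of_lt hδ hδδ'
  obtain ⟨f, hf, hf1, hfs, hK⟩ := cp_hb c hc δ' hδ' hno
  have hone : (0 : B) ≤ 1 := by
    have h := star_mul_self_nonneg (1 : B)
    simpa using h
  obtain ⟨r, hr, hrs, hrt⟩ := cone_ext (muf f) (fun x _ => muf_nonneg hf x)
    (fun x y hx hy => muf_add hf hf1 hx hy) (fun t x ht hx => muf_smul hf hx ht)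
    (fun u => muf_tr hf hf1 u)
  have h1 : δ' ≤ r c := by
    rw [hr c hc]
    exact le_muf hf (IsSelfAdjoint.of_nonneg hc) δ' hK
  have h2 : r c ≤ ‖c‖ * r 1 := by
    have hle : c ≤ ‖c‖ • (1 : B) := by
      have h := (IsSelfAdjoint.of_nonneg hc).le_algebraMap_norm_self
      rwa [Algebra.algebraMap_eq_smul_one] at h
    have h3 : 0 ≤ r (‖c‖ • (1 : B) - c) := by
      rw [hr _ (sub_nonneg.2 hle)]
      exact muf_nonneg hf _
    rw [map_sub, map_smul, smul_eq_mul] at h3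
    linarith
  have h3 : r 1 ≤ 1 := by
    rw [hr 1 hone]
    exact (muf_le hf hone).trans hf1.le
  have h4 : 0 < r 1 := by
    by_contra h5
    have h6 : ‖c‖ * r 1 ≤ 0 := mul_nonpos_of_nonneg_of_nonpos (norm_nonneg _) (not_lt.1 h5)
    linarith
  have h5 : TrF ((r 1)⁻¹ • r) := by
    refine ⟨?_, ?_, ?_, ?_⟩
    · intro x
      rw [LinearMap.smul_apply, smul_eq_mul]
      apply mul_nonneg (inv_nonneg.2 h4.le)
      rw [hr _ (star_mul_self_nonneg x)]
      exact muf_nonneg hf _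
    · intro x
      rw [LinearMap.smul_apply, LinearMap.smul_apply, hrs]
    · intro x y
      rw [LinearMap.smul_apply, LinearMap.smul_apply, hrt]
    · rw [LinearMap.smul_apply, smul_eq_mul]
      exact inv_mul_cancel₀ h4.ne'
  have h6 := hρ _ h5
  rw [LinearMap.smul_apply, smul_eq_mul] at h6
  have h7 : r c ≤ (r 1)⁻¹ * r c := by
    have h8 : (1 : ℝ) ≤ (r 1)⁻¹ := (one_le_inv₀ h4).2 h3
    have h9 : 0 ≤ r c := by linarith
    nlinarith
  linarith

/-- the inverse square root of `s + ε` -/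
private theorem cp4_h (s : B) (hs : 0 ≤ s) (ε : ℝ) (hε : 0 < ε) :
    ∃ h : B, star h = h ∧ h * s * h = 1 - ε • (h * h) ∧ h * s * h ≤ 1 := by
  have hpos : IsStrictlyPositive (s + ε • (1 : B)) := by
    have h1 : IsStrictlyPositive (ε • (1 : B)) := by
      rw [← Algebra.algebraMap_eq_smul_one]
      exact (IsStrictlyPositive.iff_of_unital).2 ⟨by
        rw [Algebra.algebraMap_eq_smul_one]
        have h := star_mul_self_nonneg (1 : B)
        have h' : (0 : B) ≤ 1 := by simpa using h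
        exact smul_nonneg hε.le h', (isUnit_iff_ne_zero.2 hε.ne').map (algebraMap ℝ B)⟩
    exact IsStrictlyPositive.nonneg_add hs h1
  set a : B := s + ε • (1 : B) with ha
  refine ⟨a ^ (-(1 / 2) : ℝ), ?_, ?_, ?_⟩
  · exact (IsSelfAdjoint.of_nonneg CFC.rpow_nonneg).star_eq
  · have h1 := CFC.conjugate_rpow_neg_one_half a hpos
    have h2 : a ^ (-(1 / 2) : ℝ) * a * a ^ (-(1 / 2) : ℝ)
        = a ^ (-(1 / 2) : ℝ) * s * a ^ (-(1 / 2) : ℝ)
          + ε • (a ^ (-(1 / 2) : ℝ) * a ^ (-(1 / 2) : ℝ)) := by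
      nth_rw 2 [ha]
      rw [mul_add, add_mul, mul_smul_comm, mul_one, smul_mul_assoc]
    rw [h2] at h1
    exact eq_sub_of_add_eq h1
  · have h1 := CFC.conjugate_rpow_neg_one_half a hpos
    have h3 : s ≤ a := by
      rw [ha]
      have h := star_mul_self_nonneg (1 : B)
      have h' : (0 : B) ≤ 1 := by simpa using h
      exact le_add_of_nonneg_right (smul_nonneg hε.le h')
    calc a ^ (-(1 / 2) : ℝ) * s * a ^ (-(1 / 2) : ℝ)
        ≤ a ^ (-(1 / 2) : ℝ) * a * a ^ (-(1 / 2) : ℝ) :=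
          conjugate_le_conjugate_of_nonneg h3 CFC.rpow_nonneg
      _ = 1 := h1

theorem cp_lemma (c : B) (hc : 0 ≤ c) (δ δ' : ℝ) (hδ : 0 ≤ δ) (hδδ' : δ < δ')
    (hρ : ∀ ρ : B →ₗ[ℝ] ℝ, TrF ρ → ρ c ≤ δ) (ε : ℝ) (hε : 0 < ε) :
    ∃ (ι : Type) (_ : Fintype ι) (u : ι → B), ∑ i, star (u i) * u i ≤ c ∧
      ‖c - ∑ i, star (u i) * u i‖ ≤ ε ∧ ∑ i, u i * star (u i) ≤ δ' • (1 : B) := by
  obtain ⟨ι, hι, u, hu1, hu2⟩ := cp4_first c hc δ δ' hδ hδδ' hρ
  have hs : 0 ≤ ∑ i, star (u i) * u i := Finset.sum_nonneg fun i _ => star_mul_self_nonneg (u i)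
  obtain ⟨h, hh, hsh, hsh1⟩ := cp4_h (∑ i, star (u i) * u i) hs ε hε
  have hq0 : 0 ≤ CFC.sqrt c := CFC.sqrt_nonneg c
  have hqs : star (CFC.sqrt c) = CFC.sqrt c := (IsSelfAdjoint.of_nonneg hq0).star_eq
  have hqq : CFC.sqrt c * CFC.sqrt c = c := CFC.sqrt_mul_sqrt_self c hc
  have hchc : h * c * h ≤ 1 := by
    have h1 := star_left_conjugate_le_conjugate hu1 h
    rw [hh] at h1
    exact h1.trans hsh1
  -- the sum of the corrected family
  have e1 : ∑ i, star (u i * h * CFC.sqrt c) * (u i * h * CFC.sqrt c)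
      = CFC.sqrt c * (h * (∑ i, star (u i) * u i) * h) * CFC.sqrt c := by
    rw [Finset.mul_sum, Finset.sum_mul, Finset.mul_sum, Finset.sum_mul]
    refine Finset.sum_congr rfl fun i _ => ?_
    rw [star_mul, star_mul, hh, hqs]
    simp only [mul_assoc]
  have e2 : ∑ i, (u i * h * CFC.sqrt c) * star (u i * h * CFC.sqrt c)
      = ∑ i, u i * (h * c * h) * star (u i) := by
    refine Finset.sum_congr rfl fun i _ => ?_
    rw [star_mul, star_mul, hh, hqs]
    calc u i * h * CFC.sqrt c * (CFC.sqrt c * (h * star (u i)))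
        = u i * h * (CFC.sqrt c * CFC.sqrt c) * (h * star (u i)) := by simp only [mul_assoc]
      _ = u i * (h * c * h) * star (u i) := by rw [hqq]; simp only [mul_assoc]
  refine ⟨ι, hι, fun i => u i * h * CFC.sqrt c, ?_, ?_, ?_⟩
  · rw [e1]
    calc CFC.sqrt c * (h * (∑ i, star (u i) * u i) * h) * CFC.sqrt c
        ≤ CFC.sqrt c * 1 * CFC.sqrt c := conjugate_le_conjugate_of_nonneg hsh1 hq0
      _ = c := by rw [mul_one, hqq]
  · rw [e1, hsh]
    have e3 : c - CFC.sqrt c * (1 - ε • (h * h)) * CFC.sqrt c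
        = ε • (star (h * CFC.sqrt c) * (h * CFC.sqrt c)) := by
      rw [star_mul, hh, hqs, mul_sub, sub_mul, mul_one, hqq, sub_sub_cancel, mul_smul_comm,
        smul_mul_assoc]
      simp only [mul_assoc]
    rw [e3, norm_smul, Real.norm_eq_abs, abs_of_pos hε, CStarRing.norm_star_mul_self,
      ← CStarRing.norm_self_mul_star]
    have e4 : h * CFC.sqrt c * star (h * CFC.sqrt c) = h * c * h := by
      rw [star_mul, hh, hqs]
      calc h * CFC.sqrt c * (CFC.sqrt c * h) = h * (CFC.sqrt c * CFC.sqrt c) * h := by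
            simp only [mul_assoc]
        _ = h * c * h := by rw [hqq]
    rw [e4]
    have h5 : 0 ≤ h * c * h := by
      have h6 := star_left_conjugate_nonneg hc h
      rwa [hh] at h6
    have h6 : ‖h * c * h‖ ≤ 1 := (CStarAlgebra.norm_le_one_iff_of_nonneg _ h5).2 hchc
    calc ε * ‖h * c * h‖ ≤ ε * 1 := mul_le_mul_of_nonneg_left h6 hε.le
      _ = ε := mul_one ε
  · rw [e2]
    refine le_trans ?_ hu2
    refine Finset.sum_le_sum fun i _ => ?_
    calc u i * (h * c * h) * star (u i) ≤ u i * 1 * star (u i) :=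
          star_right_conjugate_le_conjugate hchc (u i)
      _ = u i * star (u i) := by rw [mul_one]

end Pool.MP263F
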