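import Mathlib
set_option autoImplicit false

/-! Basic definitions for the proof of S04091 (MP_263cac_an).
Forms are functions `(ℕ → B) → B → ℂ`; a cochain of degree `n` only depends on the first `n`
coordinates of the sequence, is linear in each of them and in the last variable, and bounded. -/

namespace Pool.MP263F

/-- a form: first argument the sequence of slots (only the first `n` matter), second the last slot -/
abbrev Form (B : Type) := (ℕ → B) → B → ℂ

section
variable {B : Type} [NonUnitalNormedRing B] [NormedSpace ℂ B]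

/-- bounded `n`-cochain with values in the dual, bound `C` -/
structure Coch (n : ℕ) (C : ℝ) (φ : Form B) : Prop where
  nonneg : 0 ≤ C
  dep : ∀ (w w' : ℕ → B) (y : B), (∀ i, i < n → w i = w' i) → φ w y = φ w' y
  add : ∀ i, i < n → ∀ (w : ℕ → B) (a b y : B),
    φ (Function.update w i (a + b)) y = φ (Function.update w i a) y + φ (Function.update w i b) y
  smul : ∀ i, i < n → ∀ (w : ℕ → B) (c : ℂ) (a y : B),
    φ (Function.update w i (c • a)) y = c * φ (Function.update w i a) y
  addy : ∀ (w : ℕ → B) (a b : B), φ w (a + b) = φ w a + φ w b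
  smuly : ∀ (w : ℕ → B) (c : ℂ) (a : B), φ w (c • a) = c * φ w a
  bound : ∀ (w : ℕ → B) (y : B), ‖φ w y‖ ≤ C * (∏ i ∈ Finset.range n, ‖w i‖) * ‖y‖

/-- bounded `n`-cochain, some bound -/
def IsCoch (n : ℕ) (φ : Form B) : Prop := ∃ C : ℝ, Coch n C φ

end

section
variable {B : Type} [Mul B]

/-- drop the first entry -/
def shift {B : Type} (w : ℕ → B) : ℕ → B := fun i => w (i + 1)

/-- multiply the entries at positions `k`, `k+1` -/
def mrg (k : ℕ) (w : ℕ → B) : ℕ → B :=
  fun i => if i < k then w i else if i = k then w k * w (k + 1) else w (i + 1)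

/-- insert `x` at position `k` -/
def ins {B : Type} (k : ℕ) (x : B) (w : ℕ → B) : ℕ → B :=
  fun i => if i < k then w i else if i = k then x else w (i - 1)

/-- face `d_k : C^n → C^{n+1}`, `0 ≤ k ≤ n+1` -/
def dd (n k : ℕ) (ψ : Form B) : Form B := fun w y =>
  if k = 0 then ψ (shift w) (y * w 0) else if k = n + 1 then ψ w (w n * y) else ψ (mrg (k - 1) w) y

/-- coboundary `δ : C^n → C^{n+1}` -/
def delta (n : ℕ) (ψ : Form B) : Form B := fun w y =>
  ∑ k ∈ Finset.range (n + 2), (-1 : ℂ) ^ k * dd n k ψ w y

end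

section
variable {B : Type} [NonUnitalNormedRing B] [NormedSpace ℂ B]

/-- `φ ∈ D^{n+1}`: a sum of faces of bounded `n`-cochains (bound `K`) -/
def InD (n : ℕ) (K : ℝ) (φ : Form B) : Prop :=
  ∃ η : ℕ → Form B, (∀ k, Coch n K (η k)) ∧
    ∀ w y, φ w y = ∑ k ∈ Finset.range (n + 2), dd n k (η k) w y

/-- `φ ∈ D^{n+1}`, some bound -/
def IsInD (n : ℕ) (φ : Form B) : Prop := ∃ K : ℝ, InD n K φ

end

/-- codegeneracy: insert `1` at position `j` -/
def ss {B : Type} [One B] (j : ℕ) (φ : Form B) : Form B := fun w y => φ (ins j 1 w) y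

/-- the alternating sequence `W, W*, W, ...` -/
def alt {B : Type} [Star B] (W : B) : ℕ → B := fun i => if Even i then W else star W

end Pool.MP263F
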