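import Pool.Agent.Lib.MP_263cac_full.Alg2
set_option autoImplicit false

/-! JOB Fin1: translation between forms and continuous multilinear maps.

`form_of_cmm`: `φ w y = T (fun i => w i) y`; bound `‖T‖`.
`cmm_of_form`: for fixed `a : Fin m → A` the functional `y ↦ ψ (ext a) y` (`ext a i = a ⟨i,_⟩` for `i<m`, `0`
otherwise) is continuous linear (`LinearMap.mkContinuous`), and the multilinear map is bounded
(`MultilinearMap.mkContinuous`).
`delta_cmm`: unfold `delta`, split off `k = 0` and `k = m+2`
(`Finset.sum_range_succ`, `Finset.sum_range_succ'`, `Finset.sum_range`). -/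

namespace Pool.MP263F
variable {A : Type} [NonUnitalCStarAlgebra A]

/-- extension by zero -/
private def Fin1_ext {A : Type} [Zero A] (m : ℕ) (a : Fin m → A) : ℕ → A :=
  fun i => if h : i < m then a ⟨i, h⟩ else 0

private theorem Fin1_ext_apply {A : Type} [Zero A] (m : ℕ) (a : Fin m → A) (i : Fin m) :
    Fin1_ext m a i = a i := by
  unfold Fin1_ext
  rw [dif_pos i.2]

private theorem Fin1_ext_update {A : Type} [Zero A] (m : ℕ) [DecidableEq (Fin m)] (a : Fin m → A)
    (i : Fin m) (x : A) :
    Fin1_ext m (Function.update a i x) = Function.update (Fin1_ext m a) (i : ℕ) x := by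
  funext k
  by_cases hk : k < m
  · by_cases hki : k = i
    · subst hki
      rw [Function.update_self]
      unfold Fin1_ext
      rw [dif_pos i.2, Function.update_self]
    · rw [Function.update_of_ne hki]
      unfold Fin1_ext
      rw [dif_pos hk, dif_pos hk, Function.update_of_ne]
      intro h
      exact hki (by rw [← h])
  · have hki : k ≠ i := fun h => hk (h ▸ i.2)
    rw [Function.update_of_ne hki]
    unfold Fin1_ext
    rw [dif_neg hk, dif_neg hk]

private theorem Fin1_restr_update {A : Type} (m : ℕ) (w : ℕ → A) (i : ℕ) (hi : i < m) (x : A) :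
    (fun j : Fin m => Function.update w i x (j : ℕ)) =
      Function.update (fun j : Fin m => w j) ⟨i, hi⟩ x := by
  funext j
  by_cases h : j = ⟨i, hi⟩
  · subst h
    rw [Function.update_self, Function.update_self]
  · rw [Function.update_of_ne h, Function.update_of_ne]
    intro h2
    exact h (Fin.ext h2)

theorem form_of_cmm (m : ℕ)
    (T : ContinuousMultilinearMap ℂ (fun _ : Fin m => A) (A →L[ℂ] ℂ)) :
    IsCoch m (fun (w : ℕ → A) (y : A) => T (fun i => w i) y) := by
  refine ⟨‖T‖, T.opNorm_nonneg, ?_, ?_, ?_, ?_, ?_, ?_⟩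
  · intro w w' y h
    have h1 : (fun i : Fin m => w i) = fun i : Fin m => w' i := funext fun i => h i i.2
    change T (fun i : Fin m => w i) y = T (fun i : Fin m => w' i) y
    rw [h1]
  · intro i hi w a b y
    change T (fun j : Fin m => Function.update w i (a + b) (j : ℕ)) y =
      T (fun j : Fin m => Function.update w i a (j : ℕ)) y
        + T (fun j : Fin m => Function.update w i b (j : ℕ)) y
    rw [Fin1_restr_update m w i hi, Fin1_restr_update m w i hi, Fin1_restr_update m w i hi,
      T.map_update_add, add_apply]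
  · intro i hi w c a y
    change T (fun j : Fin m => Function.update w i (c • a) (j : ℕ)) y =
      c * T (fun j : Fin m => Function.update w i a (j : ℕ)) y
    rw [Fin1_restr_update m w i hi, Fin1_restr_update m w i hi, T.map_update_smul,
      smul_apply, smul_eq_mul]
  · intro w a b
    exact map_add _ a b
  · intro w c a
    change T (fun i : Fin m => w i) (c • a) = c * T (fun i : Fin m => w i) a
    rw [map_smul, smul_eq_mul]
  · intro w y
    refine ((T fun i : Fin m => w i).le_opNorm y).trans ?_
    refine mul_le_mul_of_nonneg_right ?_ (norm_nonneg _)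
    have h1 := T.le_opNorm (fun i : Fin m => w i)
    rwa [← Finset.prod_range (fun i => ‖w i‖)] at h1

theorem cmm_of_form (m : ℕ) (ψ : Form A) (h : IsCoch m ψ) :
    ∃ S : ContinuousMultilinearMap ℂ (fun _ : Fin m => A) (A →L[ℂ] ℂ),
      ∀ (w : ℕ → A) (y : A), S (fun i => w i) y = ψ w y := by
  obtain ⟨C, hC⟩ := h
  have hprod : ∀ a : Fin m → A, ∏ i ∈ Finset.range m, ‖Fin1_ext m a i‖ = ∏ i, ‖a i‖ := by
    intro a
    rw [Finset.prod_range]
    exact Finset.prod_congr rfl fun i _ => by rw [Fin1_ext_apply]
  let L0 : (Fin m → A) → (A →ₗ[ℂ] ℂ) := fun a =>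
    { toFun := fun y => ψ (Fin1_ext m a) y
      map_add' := fun x y => hC.addy _ x y
      map_smul' := fun c x => hC.smuly _ c x }
  have hb : ∀ (a : Fin m → A) (y : A), ‖L0 a y‖ ≤ (C * ∏ i, ‖a i‖) * ‖y‖ := by
    intro a y
    have h1 := hC.bound (Fin1_ext m a) y
    rw [hprod] at h1
    exact h1
  let L : (Fin m → A) → (A →L[ℂ] ℂ) := fun a =>
    (L0 a).mkContinuous (C * ∏ i, ‖a i‖) (hb a)
  have hL : ∀ a y, L a y = ψ (Fin1_ext m a) y := fun a y => rfl
  let S0 : MultilinearMap ℂ (fun _ : Fin m => A) (A →L[ℂ] ℂ) :=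
    { toFun := L
      map_update_add' := by
        intro _ a i x x'
        ext y
        rw [add_apply, hL, hL, hL, Fin1_ext_update, Fin1_ext_update,
          Fin1_ext_update]
        exact hC.add i i.2 _ _ _ _
      map_update_smul' := by
        intro _ a i c x
        ext y
        rw [smul_apply, hL, hL, Fin1_ext_update, Fin1_ext_update]
        exact hC.smul i i.2 _ _ _ _ }
  refine ⟨S0.mkContinuous C (fun a => ?_), fun w y => ?_⟩
  · exact LinearMap.mkContinuous_norm_le (L0 a)
      (mul_nonneg hC.nonneg (Finset.prod_nonneg fun _ _ => norm_nonneg _)) (hb a)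
  · change ψ (Fin1_ext m fun i : Fin m => w i) y = ψ w y
    exact hC.dep _ _ _ fun i hi => Fin1_ext_apply m (fun i : Fin m => w i) ⟨i, hi⟩

theorem delta_cmm (m : ℕ)
    (S : ContinuousMultilinearMap ℂ (fun _ : Fin m => A) (A →L[ℂ] ℂ)) (a : Fin (m + 1) → A)
    (b : A) :
    delta m (fun (w : ℕ → A) (y : A) => S (fun i => w i) y)
        (fun i => if h : i < m + 1 then a ⟨i, h⟩ else 0) b
      = S (Fin.tail a) (b * a 0)
        + ∑ i : Fin m, (-1 : ℂ) ^ ((i : ℕ) + 1) *
            S (fun j : Fin m =>
                if (j : ℕ) < (i : ℕ) then a (Fin.castSucc j)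
                else if (j : ℕ) = (i : ℕ) then a (Fin.castSucc j) * a (Fin.succ j)
                else a (Fin.succ j)) b
        + (-1 : ℂ) ^ (m + 1) * S (Fin.init a) (a (Fin.last m) * b) := by
  have hw : ∀ (i : ℕ) (h : i < m + 1), (fun i => if h : i < m + 1 then a ⟨i, h⟩ else 0) i = a ⟨i, h⟩ := by
    intro i h
    change (if h : i < m + 1 then a ⟨i, h⟩ else 0) = a ⟨i, h⟩
    rw [dif_pos h]
  obtain ⟨w, hw'⟩ : ∃ w : ℕ → A, w = fun i => if h : i < m + 1 then a ⟨i, h⟩ else 0 := ⟨_, rfl⟩
  rw [← hw'] at hw ⊢
  unfold delta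
  rw [Finset.sum_range_succ, Finset.sum_range_succ']
  have h0 : dd m 0 (fun (w : ℕ → A) (y : A) => S (fun i => w i) y) w b = S (Fin.tail a) (b * a 0) := by
    unfold dd
    rw [if_pos rfl, hw 0 (Nat.succ_pos m)]
    have h1 : (fun i : Fin m => shift w (i : ℕ)) = Fin.tail a := by
      funext i
      exact hw (i + 1) (by omega)
    change S (fun i : Fin m => shift w (i : ℕ)) (b * a 0) = _
    rw [h1]
  have h2 : dd m (m + 1) (fun (w : ℕ → A) (y : A) => S (fun i => w i) y) w b
      = S (Fin.init a) (a (Fin.last m) * b) := by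
    unfold dd
    rw [if_neg (Nat.succ_ne_zero m), if_pos rfl, hw m (Nat.lt_succ_self m)]
    have h1 : (fun i : Fin m => w (i : ℕ)) = Fin.init a := by
      funext i
      exact hw i (by omega)
    change S (fun i : Fin m => w (i : ℕ)) (a (Fin.last m) * b) = _
    rw [h1]
  have h3 : ∑ k ∈ Finset.range m, (-1 : ℂ) ^ (k + 1) *
      dd m (k + 1) (fun (w : ℕ → A) (y : A) => S (fun i => w i) y) w b
      = ∑ i : Fin m, (-1 : ℂ) ^ ((i : ℕ) + 1) *
            S (fun j : Fin m =>
                if (j : ℕ) < (i : ℕ) then a (Fin.castSucc j)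
                else if (j : ℕ) = (i : ℕ) then a (Fin.castSucc j) * a (Fin.succ j)
                else a (Fin.succ j)) b := by
    rw [Finset.sum_range]
    refine Finset.sum_congr rfl fun i _ => ?_
    congr 1
    unfold dd
    rw [if_neg (Nat.succ_ne_zero _), if_neg (by have := i.2; omega)]
    have h1 : (fun j : Fin m => mrg (i : ℕ) w (j : ℕ)) = fun j : Fin m =>
                if (j : ℕ) < (i : ℕ) then a (Fin.castSucc j)
                else if (j : ℕ) = (i : ℕ) then a (Fin.castSucc j) * a (Fin.succ j)
                else a (Fin.succ j) := by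
      funext j
      unfold mrg
      split_ifs with h4 h5
      · exact hw j (by omega)
      · have h6 : w (i : ℕ) = a (Fin.castSucc j) := by
          rw [← h5]
          exact hw j (by omega)
        have h7 : w ((i : ℕ) + 1) = a (Fin.succ j) := by
          rw [← h5]
          exact hw (j + 1) (by omega)
        rw [h6, h7]
      · exact hw (j + 1) (by omega)
    change S (fun j : Fin m => mrg (i : ℕ) w (j : ℕ)) b = _
    rw [h1]
  rw [h0, h2, h3, pow_zero, one_mul, add_comm (∑ i : Fin m, _) (S (Fin.tail a) (b * a 0))]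

end Pool.MP263F
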