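import Pool.Agent.Lib.MP_263cac_full.NU2
import Pool.Agent.Lib.MP_263cac_full.Fin1
set_option autoImplicit false

/-! The final statement. -/

namespace Pool.MP263F

theorem final_statement :
    ∀ (A : Type) [NonUnitalCStarAlgebra A] (m : ℕ)
      (T : ContinuousMultilinearMap ℂ (fun _ : Fin (m + 1) => A) (A →L[ℂ] ℂ)),
      (∀ (a : Fin (m + 1 + 1) → A) (b : A),
        T (Fin.tail a) (b * a 0)
          + ∑ i : Fin (m + 1), (-1 : ℂ) ^ ((i : ℕ) + 1) *
              T (fun j : Fin (m + 1) =>
                  if (j : ℕ) < (i : ℕ) then a (Fin.castSucc j)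
                  else if (j : ℕ) = (i : ℕ) then a (Fin.castSucc j) * a (Fin.succ j)
                  else a (Fin.succ j)) b
          + (-1 : ℂ) ^ (m + 1 + 1) * T (Fin.init a) (a (Fin.last (m + 1)) * b) = 0) →
      ∃ S : ContinuousMultilinearMap ℂ (fun _ : Fin m => A) (A →L[ℂ] ℂ),
        ∀ (a : Fin (m + 1) → A) (b : A),
          T a b =
            S (Fin.tail a) (b * a 0)
              + ∑ i : Fin m, (-1 : ℂ) ^ ((i : ℕ) + 1) *
                  S (fun j : Fin m =>
                      if (j : ℕ) < (i : ℕ) then a (Fin.castSucc j)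
                      else if (j : ℕ) = (i : ℕ) then a (Fin.castSucc j) * a (Fin.succ j)
                      else a (Fin.succ j)) b
              + (-1 : ℂ) ^ (m + 1) * S (Fin.init a) (a (Fin.last m) * b) := by
  intro A _ m T hT
  set φ : Form A := fun w y => T (fun i => w i) y with hφdef
  have hφ : IsCoch (m + 1) φ := form_of_cmm (m + 1) T
  have hc : ∀ w y, delta (m + 1) φ w y = 0 := by
    intro w y
    have h1 := delta_cmm (m + 1) T (fun i => w i) y
    rw [hT] at h1
    have hdep : IsCoch (m + 1 + 1) (delta (m + 1) φ) := IsCoch.delta hφ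
    obtain ⟨C, hC⟩ := hdep
    rw [hC.dep w (fun i => if h : i < m + 1 + 1 then w i else 0) y
      (fun i hi => by simp only [dif_pos hi])]
    exact h1
  obtain ⟨ψ, hψ, hδ⟩ := nonunital_case hφ hc
  obtain ⟨S, hS⟩ := cmm_of_form m ψ hψ
  refine ⟨S, fun a b => ?_⟩
  rw [← delta_cmm m S a b]
  have h2 : (fun (w : ℕ → A) (y : A) => S (fun i => w i) y) = ψ := by
    funext w y; exact hS w y
  rw [h2, ← hδ]
  simp only [hφdef]
  congr 1
  congr 1
  funext i
  simp only [i.2, dif_pos]

end Pool.MP263F
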