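import Pool.Agent.Lib.MP_263cac_full.Tr
set_option autoImplicit false
set_option linter.unusedSectionVars false

/-! JOB LemE: the averaging construction (almost invariant elements).

Proof.  `g(b) = 1 - (1+b)⁻¹` for `b ≥ 0` (`Ring.inverse (1+b)`); it is monotone
(`CStarAlgebra.ringInverse_le_ringInverse`), `0 ≤ g(b) ≤ 1`, `g(b) ≤ b`, and
`g(u b u*) = u g(b) u*` for `u` unitary.
`b_0 = b`, `b_{k+1} ω = b_k ω + Σ_i u_i(ω) b_k(π_i ω) u_i(ω)*`, `e_k = g(b_k)`, and
`e = (1/m) Σ_{k<m} e_k`.  `b_k ≤ b_{k+1}`, so `e_0 ≤ e_k ≤ e_{k+1}`.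
(1) clear. (2) `1 - e ≤ 1 - e_0 = (1+b)⁻¹ ≤ (1 + c^p)⁻¹`, `c = X* X`, so
`‖X (1-e)‖² = ‖X (1-e)² X*‖ ≤ ‖X (1-e) X*‖ ≤ ‖X (1+c^p)⁻¹ X*‖ = ‖c (1+c^p)⁻¹‖ ≤ 1` (cfc: `t/(1+t^p) ≤ 1`
for `t ≥ 0`, `p ≥ 1`; for the equality use e.g. `h = (1+c^p)^{-1/2}` and `‖X h (X h)*‖ = ‖(X h)* (X h)‖`).
(3) `T_i e_k := u_i(ω) e_k(π_i ω) u_i(ω)* = g(T_i b_k) ≤ g(b_{k+1}) = e_{k+1}`, hence
`T_i e ≤ e + (1/m)(e_m - e_0) ≤ e + 1/m`.  The reverse inequality: apply this at `π_i ω` to the
inverse move `i'`, conjugate by `u_i(ω)`.  So `-1/m ≤ T_i e - e ≤ 1/m`.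
(4) `Σ_ω ρ(b_{k+1}) ≤ (1 + c |I|) Σ_ω ρ(b_k)` by the fibre bound; `e_k ≤ b_k`.
(5) for fixed unitaries: `‖Σ_ω b_{k+1}‖ ≤ (1+|I|) ‖Σ_ω b_k‖`, and `0 ≤ Σ e_k ≤ Σ b_k`. -/

namespace Pool.MP263F
variable {B : Type} [CStarAlgebra B] [PartialOrder B] [StarOrderedRing B]

/-- the resolvent `(1 + x)⁻¹` -/
private noncomputable def LemE_R (x : B) : B := Ring.inverse (1 + x)

private theorem LemE_sp {x : B} (hx : 0 ≤ x) : IsStrictlyPositive (1 + x) :=
  isStrictlyPositive_one.add_nonneg hx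

private theorem LemE_mul {x : B} (hx : 0 ≤ x) : (1 + x) * LemE_R x = 1 :=
  Ring.mul_inverse_cancel _ (LemE_sp hx).isUnit

private theorem LemE_mul' {x : B} (hx : 0 ≤ x) : LemE_R x * (1 + x) = 1 :=
  Ring.inverse_mul_cancel _ (LemE_sp hx).isUnit

private theorem LemE_inv {a b : B} (h1 : a * b = 1) (h2 : b * a = 1) : Ring.inverse a = b := by
  have := Ring.inverse_unit (⟨a, b, h1, h2⟩ : Bˣ)
  exact this

private theorem LemE_star {x : B} (hx : 0 ≤ x) : star (LemE_R x) = LemE_R x := by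
  unfold LemE_R
  rw [← Ring.inverse_star, star_add, star_one, (IsSelfAdjoint.of_nonneg hx).star_eq]

private theorem LemE_nonneg {x : B} (hx : 0 ≤ x) : 0 ≤ LemE_R x := by
  have h1 := star_left_conjugate_nonneg (LemE_sp hx).nonneg (LemE_R x)
  rw [mul_assoc, LemE_mul hx, mul_one, LemE_star hx] at h1
  exact h1

private theorem LemE_anti {x y : B} (hx : 0 ≤ x) (hxy : x ≤ y) : LemE_R y ≤ LemE_R x :=
  CStarAlgebra.ringInverse_le_ringInverse (by gcongr) (LemE_sp hx)

private theorem LemE_le_one {x : B} (hx : 0 ≤ x) : LemE_R x ≤ 1 := by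
  have h1 := LemE_anti (le_refl (0 : B)) hx
  rwa [LemE_R, LemE_R, add_zero, Ring.inverse_one, ← LemE_R] at h1

private theorem LemE_sub_le {x : B} (hx : 0 ≤ x) : 1 - LemE_R x ≤ x := by
  have h1 := star_left_conjugate_nonneg (LemE_nonneg hx) x
  rw [(IsSelfAdjoint.of_nonneg hx).star_eq] at h1
  have h2 : x * LemE_R x = 1 - LemE_R x := by
    have := LemE_mul hx
    rw [add_mul, one_mul] at this
    rw [← this]
    abel
  have h3 : LemE_R x * x = 1 - LemE_R x := by
    have := LemE_mul' hx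
    rw [mul_add, mul_one] at this
    rw [← this]
    abel
  have h4 : x * LemE_R x * x = x - (1 - LemE_R x) := by
    rw [h2, sub_mul, one_mul, h3]
  rw [h4, sub_nonneg] at h1
  exact h1

private theorem LemE_conj {x : B} (hx : 0 ≤ x) (u : unitary B) :
    LemE_R ((u : B) * x * star (u : B)) = (u : B) * LemE_R x * star (u : B) := by
  have e1 : star (u : B) * (u : B) = 1 := Unitary.coe_star_mul_self u
  have e2 : (u : B) * star (u : B) = 1 := Unitary.coe_mul_star_self u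
  have e3 : 1 + (u : B) * x * star (u : B) = (u : B) * (1 + x) * star (u : B) := by
    rw [mul_add, add_mul, mul_one, e2]
  unfold LemE_R
  refine LemE_inv ?_ ?_
  · rw [e3]
    calc (u : B) * (1 + x) * star (u : B) * ((u : B) * Ring.inverse (1 + x) * star (u : B))
        = (u : B) * (1 + x) * (star (u : B) * (u : B)) * Ring.inverse (1 + x) * star (u : B) := by
          simp only [mul_assoc]
      _ = (u : B) * ((1 + x) * Ring.inverse (1 + x)) * star (u : B) := by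
          rw [e1, mul_one]
          simp only [mul_assoc]
      _ = 1 := by rw [Ring.mul_inverse_cancel _ (LemE_sp hx).isUnit, mul_one, e2]
  · rw [e3]
    calc (u : B) * Ring.inverse (1 + x) * star (u : B) * ((u : B) * (1 + x) * star (u : B))
        = (u : B) * Ring.inverse (1 + x) * (star (u : B) * (u : B)) * (1 + x) * star (u : B) := by
          simp only [mul_assoc]
      _ = (u : B) * (Ring.inverse (1 + x) * (1 + x)) * star (u : B) := by
          rw [e1, mul_one]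
          simp only [mul_assoc]
      _ = 1 := by rw [Ring.inverse_mul_cancel _ (LemE_sp hx).isUnit, mul_one, e2]

/-- norm of a self-adjoint element between `-r` and `r` -/
private theorem LemE_norm {D : B} (hD : IsSelfAdjoint D) {r : ℝ} (hr : 0 ≤ r)
    (h1 : D ≤ algebraMap ℝ B r) (h2 : -D ≤ algebraMap ℝ B r) : ‖D‖ ≤ r := by
  have h3 := (le_algebraMap_iff_spectrum_le (R := ℝ) (a := D)).1 h1
  have h4 : algebraMap ℝ B (-r) ≤ D := by
    rw [map_neg, neg_le]
    exact h2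
  have h5 := (algebraMap_le_iff_le_spectrum (R := ℝ) (a := D)).1 h4
  have h6 := norm_cfc_le (𝕜 := ℝ) (f := fun x => x) (a := D) hr (fun x hx => by
    rw [Real.norm_eq_abs, abs_le]
    exact ⟨h5 x hx, h3 x hx⟩)
  rwa [cfc_id' ℝ D] at h6

/-- `c ≤ 1 + c ^ p` -/
private theorem LemE_pow {c : B} (hc : 0 ≤ c) (p : ℕ) (hp : 1 ≤ p) : c ≤ 1 + c ^ p := by
  have hsa := IsSelfAdjoint.of_nonneg hc
  have h1 : cfc (fun x : ℝ => x) c ≤ cfc (fun x : ℝ => 1 + x ^ p) c := by
    refine cfc_mono fun x hx => ?_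
    have hx0 : 0 ≤ x := spectrum_nonneg_of_nonneg hc hx
    rcases le_total x 1 with h | h
    · have := pow_nonneg hx0 p
      linarith
    · have := le_self_pow₀ h (by omega : p ≠ 0)
      linarith
  have h2 : cfc (fun x : ℝ => 1 + x ^ p) c = 1 + c ^ p := by
    rw [cfc_const_add (1 : ℝ) (fun x => x ^ p) c, cfc_pow_id c p, map_one]
  rwa [cfc_id' ℝ c, h2] at h1

private theorem LemE_X {X Q : B} {p : ℕ} (hp : 1 ≤ p) (hQ0 : 0 ≤ Q) (hQ1 : Q ≤ 1)
    (hQ : Q ≤ LemE_R ((star X * X) ^ p)) : ‖X * Q‖ ≤ 1 := by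
  set c := star X * X with hc
  have hc0 : 0 ≤ c := star_mul_self_nonneg X
  have hcp : 0 ≤ c ^ p := CStarAlgebra.pow_nonneg hc0 p
  set R := LemE_R (c ^ p) with hR
  have hRn : 0 ≤ R := LemE_nonneg hcp
  have hRs : star R = R := LemE_star hcp
  have hQ2 : Q * Q ≤ Q := by
    have := CStarAlgebra.pow_antitone hQ0 hQ1 (show 1 ≤ 2 by norm_num)
    simpa [sq] using this
  have hRc : R * c * R ≤ R := by
    have h1 := star_left_conjugate_le_conjugate (LemE_pow hc0 p hp) R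
    rw [hRs] at h1
    rwa [mul_assoc R (1 + c ^ p) R, LemE_mul hcp, mul_one] at h1
  set N := X * R * star X with hN
  have hN0 : 0 ≤ N := star_right_conjugate_nonneg hRn X
  have hNN : N * N ≤ N := by
    have h1 := star_right_conjugate_le_conjugate hRc X
    have e : N * N = X * (R * c * R) * star X := by
      rw [hN, hc]
      simp only [mul_assoc]
    rw [e]
    exact h1
  have hNs : star N = N := (IsSelfAdjoint.of_nonneg hN0).star_eq
  have hN1 : ‖N‖ ≤ 1 := by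
    have h1 : ‖N * N‖ = ‖N‖ * ‖N‖ := by
      have := CStarRing.norm_star_mul_self (x := N)
      rwa [hNs] at this
    have h2 : ‖N * N‖ ≤ ‖N‖ := by
      refine CStarAlgebra.norm_le_norm_of_nonneg_of_le ?_ hNN
      have := star_mul_self_nonneg N
      rwa [hNs] at this
    rw [h1] at h2
    by_contra hcon
    push Not at hcon
    nlinarith
  have hXQ : ‖X * Q‖ * ‖X * Q‖ ≤ 1 := by
    rw [← CStarRing.norm_self_mul_star, star_mul, (IsSelfAdjoint.of_nonneg hQ0).star_eq]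
    have e : X * Q * (Q * star X) = X * (Q * Q) * star X := by simp only [mul_assoc]
    rw [e]
    refine le_trans (CStarAlgebra.norm_le_norm_of_nonneg_of_le ?_ ?_) hN1
    · refine star_right_conjugate_nonneg ?_ X
      have := star_mul_self_nonneg Q
      rwa [(IsSelfAdjoint.of_nonneg hQ0).star_eq] at this
    · exact star_right_conjugate_le_conjugate (hQ2.trans hQ) X
  nlinarith [norm_nonneg (X * Q)]

section
variable {Ω I : Type} [Fintype Ω] [Fintype I] (π : I → Ω → Ω) (u : I → Ω → unitary B) (b : Ω → B)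

/-- the iterates `b_k` -/
private noncomputable def LemE_b : ℕ → Ω → B
  | 0 => b
  | k + 1 => fun ω => LemE_b k ω + ∑ i, (u i ω : B) * LemE_b k (π i ω) * star (u i ω : B)

private theorem LemE_b_zero (ω : Ω) : LemE_b π u b 0 ω = b ω := rfl

private theorem LemE_b_succ (k : ℕ) (ω : Ω) : LemE_b π u b (k + 1) ω =
    LemE_b π u b k ω + ∑ i, (u i ω : B) * LemE_b π u b k (π i ω) * star (u i ω : B) := rfl

variable {b} (hb : ∀ ω, 0 ≤ b ω)
include hb

private theorem LemE_b_nonneg (k : ℕ) : ∀ ω, 0 ≤ LemE_b π u b k ω := by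
  induction k with
  | zero => exact hb
  | succ k ih =>
    intro ω
    rw [LemE_b_succ]
    exact add_nonneg (ih ω) (Finset.sum_nonneg fun i _ => star_right_conjugate_nonneg (ih _) _)

private theorem LemE_b_mono (k : ℕ) (ω : Ω) : LemE_b π u b k ω ≤ LemE_b π u b (k + 1) ω := by
  rw [LemE_b_succ]
  exact le_add_of_nonneg_right
    (Finset.sum_nonneg fun i _ => star_right_conjugate_nonneg (LemE_b_nonneg π u hb k _) _)

private theorem LemE_b_conj (k : ℕ) (i : I) (ω : Ω) :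
    (u i ω : B) * LemE_b π u b k (π i ω) * star (u i ω : B) ≤ LemE_b π u b (k + 1) ω := by
  rw [LemE_b_succ]
  refine le_trans ?_ (le_add_of_nonneg_left (LemE_b_nonneg π u hb k ω))
  exact Finset.single_le_sum
    (f := fun i => (u i ω : B) * LemE_b π u b k (π i ω) * star (u i ω : B))
    (fun i _ => star_right_conjugate_nonneg (LemE_b_nonneg π u hb k _) _) (Finset.mem_univ i)

omit hb in
variable (b) in
/-- `e_k` -/
private noncomputable def LemE_e (k : ℕ) (ω : Ω) : B := 1 - LemE_R (LemE_b π u b k ω)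

private theorem LemE_e_nonneg (k : ℕ) (ω : Ω) : 0 ≤ LemE_e π u b k ω :=
  sub_nonneg.2 (LemE_le_one (LemE_b_nonneg π u hb k ω))

private theorem LemE_e_le_one (k : ℕ) (ω : Ω) : LemE_e π u b k ω ≤ 1 :=
  sub_le_self _ (LemE_nonneg (LemE_b_nonneg π u hb k ω))

private theorem LemE_e_le_b (k : ℕ) (ω : Ω) : LemE_e π u b k ω ≤ LemE_b π u b k ω :=
  LemE_sub_le (LemE_b_nonneg π u hb k ω)

private theorem LemE_e_mono (k : ℕ) (ω : Ω) : LemE_e π u b 0 ω ≤ LemE_e π u b k ω := by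
  induction k with
  | zero => exact le_rfl
  | succ k ih =>
    exact ih.trans (sub_le_sub_left (LemE_anti (LemE_b_nonneg π u hb k ω) (LemE_b_mono π u hb k ω)) _)

private theorem LemE_e_conj (k : ℕ) (i : I) (ω : Ω) :
    (u i ω : B) * LemE_e π u b k (π i ω) * star (u i ω : B) ≤ LemE_e π u b (k + 1) ω := by
  have e2 : (u i ω : B) * star (u i ω : B) = 1 := Unitary.coe_mul_star_self _
  unfold LemE_e
  rw [mul_sub, sub_mul, mul_one, e2, ← LemE_conj (LemE_b_nonneg π u hb k _)]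
  exact sub_le_sub_left (LemE_anti (star_right_conjugate_nonneg (LemE_b_nonneg π u hb k _) _)
    (LemE_b_conj π u hb k i ω)) _

omit hb in
variable (b) in
/-- the average `e` -/
private noncomputable def LemE_avg (m : ℕ) (ω : Ω) : B :=
  (1 / (m : ℝ)) • ∑ k ∈ Finset.range m, LemE_e π u b k ω

private theorem LemE_avg_nonneg (m : ℕ) (ω : Ω) : 0 ≤ LemE_avg π u b m ω :=
  smul_nonneg (by positivity) (Finset.sum_nonneg fun k _ => LemE_e_nonneg π u hb k ω)

omit [PartialOrder B] [StarOrderedRing B] hb in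
private theorem LemE_const {m : ℕ} (hm : 1 ≤ m) (x : B) :
    (1 / (m : ℝ)) • ∑ _k ∈ Finset.range m, x = x := by
  have hm0 : (m : ℝ) ≠ 0 := by
    have : m ≠ 0 := by omega
    exact_mod_cast this
  rw [Finset.sum_const, Finset.card_range, ← Nat.cast_smul_eq_nsmul ℝ, smul_smul,
    one_div_mul_cancel hm0, one_smul]

private theorem LemE_avg_le_one {m : ℕ} (hm : 1 ≤ m) (ω : Ω) : LemE_avg π u b m ω ≤ 1 := by
  rw [← LemE_const hm (1 : B)]
  exact smul_le_smul_of_nonneg_left (Finset.sum_le_sum fun k _ => LemE_e_le_one π u hb k ω)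
    (by positivity)

private theorem LemE_avg_ge {m : ℕ} (hm : 1 ≤ m) (ω : Ω) :
    LemE_e π u b 0 ω ≤ LemE_avg π u b m ω := by
  rw [← LemE_const hm (LemE_e π u b 0 ω)]
  exact smul_le_smul_of_nonneg_left (Finset.sum_le_sum fun k _ => LemE_e_mono π u hb k ω)
    (by positivity)

private theorem LemE_avg_conj (m : ℕ) (i : I) (ω : Ω) :
    (u i ω : B) * LemE_avg π u b m (π i ω) * star (u i ω : B) ≤
      LemE_avg π u b m ω + algebraMap ℝ B (1 / (m : ℝ)) := by
  have h1 : (u i ω : B) * LemE_avg π u b m (π i ω) * star (u i ω : B) =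
      (1 / (m : ℝ)) • ∑ k ∈ Finset.range m,
        (u i ω : B) * LemE_e π u b k (π i ω) * star (u i ω : B) := by
    unfold LemE_avg
    rw [mul_smul_comm, smul_mul_assoc, Finset.mul_sum, Finset.sum_mul]
  have h2 : ∑ k ∈ Finset.range m, (u i ω : B) * LemE_e π u b k (π i ω) * star (u i ω : B) ≤
      ∑ k ∈ Finset.range m, LemE_e π u b k ω + 1 := by
    refine (Finset.sum_le_sum fun k _ => LemE_e_conj π u hb k i ω).trans ?_
    have h3 := Finset.sum_range_succ' (fun k => LemE_e π u b k ω) m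
    have h4 := Finset.sum_range_succ (fun k => LemE_e π u b k ω) m
    have h5 : ∑ k ∈ Finset.range m, LemE_e π u b (k + 1) ω =
        ∑ k ∈ Finset.range m, LemE_e π u b k ω + LemE_e π u b m ω - LemE_e π u b 0 ω := by
      rw [← h4, h3]
      abel
    rw [h5]
    calc ∑ k ∈ Finset.range m, LemE_e π u b k ω + LemE_e π u b m ω - LemE_e π u b 0 ω
        ≤ ∑ k ∈ Finset.range m, LemE_e π u b k ω + LemE_e π u b m ω :=
          sub_le_self _ (LemE_e_nonneg π u hb 0 ω)
      _ ≤ _ := add_le_add_right (LemE_e_le_one π u hb m ω) _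
  rw [h1]
  refine (smul_le_smul_of_nonneg_left h2 (by positivity)).trans (le_of_eq ?_)
  rw [smul_add, Algebra.algebraMap_eq_smul_one]
  rfl

private theorem LemE_avg_norm (hinv : ∀ i ω, ∃ i', π i' (π i ω) = ω ∧ u i' (π i ω) = star (u i ω))
    (m : ℕ) (i : I) (ω : Ω) :
    ‖(u i ω : B) * LemE_avg π u b m (π i ω) * star (u i ω : B) - LemE_avg π u b m ω‖ ≤
      1 / (m : ℝ) := by
  have e1 : star (u i ω : B) * (u i ω : B) = 1 := Unitary.coe_star_mul_self _
  have e2 : (u i ω : B) * star (u i ω : B) = 1 := Unitary.coe_mul_star_self _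
  refine LemE_norm ?_ (by positivity) ?_ ?_
  · exact ((IsSelfAdjoint.of_nonneg
      (star_right_conjugate_nonneg (LemE_avg_nonneg π u hb m _) _))).sub
      (IsSelfAdjoint.of_nonneg (LemE_avg_nonneg π u hb m ω))
  · rw [sub_le_iff_le_add']
    exact LemE_avg_conj π u hb m i ω
  · obtain ⟨i', h1, h2⟩ := hinv i ω
    have h3 := LemE_avg_conj π u hb m i' (π i ω)
    rw [h1, h2] at h3
    have h4 := star_right_conjugate_le_conjugate h3 (u i ω : B)
    have e3 : ((star (u i ω) : unitary B) : B) = star (u i ω : B) := rfl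
    rw [e3, star_star] at h4
    have h5 : (u i ω : B) * (star (u i ω : B) * LemE_avg π u b m ω * (u i ω : B)) *
        star (u i ω : B) = LemE_avg π u b m ω := by
      calc _ = ((u i ω : B) * star (u i ω : B)) * LemE_avg π u b m ω *
            ((u i ω : B) * star (u i ω : B)) := by simp only [mul_assoc]
        _ = _ := by rw [e2, one_mul, mul_one]
    have h6 : (u i ω : B) * (LemE_avg π u b m (π i ω) + algebraMap ℝ B (1 / (m : ℝ))) *
        star (u i ω : B) = (u i ω : B) * LemE_avg π u b m (π i ω) * star (u i ω : B) +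
          algebraMap ℝ B (1 / (m : ℝ)) := by
      rw [mul_add, add_mul, ← Algebra.commutes, mul_assoc (algebraMap ℝ B (1 / (m : ℝ))), e2, mul_one]
    rw [h5, h6] at h4
    rw [neg_sub, sub_le_iff_le_add']
    exact h4

private theorem LemE_tr {c : ℕ} (hc : ∀ i ω', Nat.card {ω : Ω // π i ω = ω'} ≤ c)
    {ρ : B →ₗ[ℝ] ℝ} (hρ : TrF ρ) (k : ℕ) :
    ∑ ω, ρ (LemE_b π u b k ω) ≤ (1 + (c : ℝ) * Fintype.card I) ^ k * ∑ ω, ρ (b ω) := by
  classical
  induction k with
  | zero => simp [LemE_b_zero]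
  | succ k ih =>
    have h1 : ∀ i, ∑ ω, ρ (LemE_b π u b k (π i ω)) ≤ c * ∑ ω, ρ (LemE_b π u b k ω) := by
      intro i
      have h2 : ∑ ω, ρ (LemE_b π u b k (π i ω)) =
          ∑ ω', ∑ ω ∈ Finset.univ.filter (fun ω => π i ω = ω'), ρ (LemE_b π u b k (π i ω)) :=
        (Finset.sum_fiberwise Finset.univ (π i) (fun ω => ρ (LemE_b π u b k (π i ω)))).symm
      rw [h2, Finset.mul_sum]
      refine Finset.sum_le_sum fun ω' _ => ?_
      have h3 : ∑ ω ∈ Finset.univ.filter (fun ω => π i ω = ω'), ρ (LemE_b π u b k (π i ω)) =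
          ((Finset.univ.filter (fun ω => π i ω = ω')).card : ℝ) * ρ (LemE_b π u b k ω') := by
        rw [Finset.sum_congr rfl (g := fun _ => ρ (LemE_b π u b k ω')), Finset.sum_const,
          nsmul_eq_mul]
        intro ω hω
        rw [(Finset.mem_filter.1 hω).2]
      rw [h3]
      refine mul_le_mul_of_nonneg_right ?_ (hρ.nonneg (LemE_b_nonneg π u hb k ω'))
      have h4 := hc i ω'
      rw [Nat.card_eq_fintype_card, Fintype.card_subtype] at h4
      exact_mod_cast h4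
    have h5 : ∑ ω, ρ (LemE_b π u b (k + 1) ω) =
        ∑ ω, ρ (LemE_b π u b k ω) + ∑ i, ∑ ω, ρ (LemE_b π u b k (π i ω)) := by
      rw [Finset.sum_comm, ← Finset.sum_add_distrib]
      refine Finset.sum_congr rfl fun ω _ => ?_
      rw [LemE_b_succ, map_add, map_sum]
      congr 1
      exact Finset.sum_congr rfl fun i _ => hρ.conj _ _
    have h6 : ∑ i, ∑ ω, ρ (LemE_b π u b k (π i ω)) ≤
        (c : ℝ) * Fintype.card I * ∑ ω, ρ (LemE_b π u b k ω) := by
      refine (Finset.sum_le_sum fun i _ => h1 i).trans (le_of_eq ?_)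
      rw [Finset.sum_const, Finset.card_univ, nsmul_eq_mul]
      ring
    have h7 : (1 + (c : ℝ) * Fintype.card I) * ∑ ω, ρ (LemE_b π u b k ω) ≤
        (1 + (c : ℝ) * Fintype.card I) * ((1 + (c : ℝ) * Fintype.card I) ^ k * ∑ ω, ρ (b ω)) :=
      mul_le_mul_of_nonneg_left ih (by positivity)
    rw [h5]
    calc _ ≤ (1 + (c : ℝ) * Fintype.card I) * ∑ ω, ρ (LemE_b π u b k ω) := by
          rw [add_mul, one_mul]
          exact add_le_add_right h6 _
      _ ≤ _ := h7
      _ = _ := by ring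

omit [PartialOrder B] [StarOrderedRing B] hb in
private theorem LemE_fix (hπ : ∀ i ω, π i ω = ω) (hu : ∀ i ω ω', u i ω = u i ω') (k : ℕ) :
    ‖∑ ω, LemE_b π u b k ω‖ ≤ (1 + (Fintype.card I : ℝ)) ^ k * ‖∑ ω, b ω‖ := by
  rcases isEmpty_or_nonempty Ω with hΩ | ⟨⟨ω0⟩⟩
  · simp
  induction k with
  | zero =>
    rw [pow_zero, one_mul]
    exact le_rfl
  | succ k ih =>
    have h5 : ∑ ω, LemE_b π u b (k + 1) ω =
        ∑ ω, LemE_b π u b k ω +
          ∑ i, (u i ω0 : B) * (∑ ω, LemE_b π u b k ω) * star (u i ω0 : B) := by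
      have h6 : ∀ i, (u i ω0 : B) * (∑ ω, LemE_b π u b k ω) * star (u i ω0 : B) =
          ∑ ω, (u i ω : B) * LemE_b π u b k (π i ω) * star (u i ω : B) := by
        intro i
        rw [Finset.mul_sum, Finset.sum_mul]
        refine Finset.sum_congr rfl fun ω _ => ?_
        rw [hπ, hu i ω ω0]
      simp only [h6]
      rw [Finset.sum_comm, ← Finset.sum_add_distrib]
      rfl
    have hun : ∀ i, ‖(u i ω0 : B) * (∑ ω, LemE_b π u b k ω) * star (u i ω0 : B)‖ ≤
        ‖∑ ω, LemE_b π u b k ω‖ := by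
      intro i
      have e1 : ((star (u i ω0) : unitary B) : B) = star (u i ω0 : B) := rfl
      rw [← e1, CStarRing.norm_mul_coe_unitary, CStarRing.norm_coe_unitary_mul]
    rw [h5]
    calc _ ≤ ‖∑ ω, LemE_b π u b k ω‖ +
          ‖∑ i, (u i ω0 : B) * (∑ ω, LemE_b π u b k ω) * star (u i ω0 : B)‖ := norm_add_le _ _
      _ ≤ ‖∑ ω, LemE_b π u b k ω‖ + ∑ _i : I, ‖∑ ω, LemE_b π u b k ω‖ :=
          add_le_add le_rfl ((norm_sum_le _ _).trans (Finset.sum_le_sum fun i _ => hun i))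
      _ = (1 + (Fintype.card I : ℝ)) * ‖∑ ω, LemE_b π u b k ω‖ := by
          rw [Finset.sum_const, Finset.card_univ, nsmul_eq_mul]
          ring
      _ ≤ (1 + (Fintype.card I : ℝ)) * ((1 + (Fintype.card I : ℝ)) ^ k * ‖∑ ω, b ω‖) :=
          mul_le_mul_of_nonneg_left ih (by positivity)
      _ = _ := by ring

end

theorem lemE {Ω I : Type} [Fintype Ω] [Fintype I] (π : I → Ω → Ω) (u : I → Ω → unitary B)
    (hinv : ∀ i ω, ∃ i', π i' (π i ω) = ω ∧ u i' (π i ω) = star (u i ω))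
    (b : Ω → B) (hb : ∀ ω, 0 ≤ b ω) (m : ℕ) (hm : 1 ≤ m) :
    ∃ e : Ω → B, (∀ ω, 0 ≤ e ω ∧ e ω ≤ 1) ∧
      (∀ ω (X : B) (p : ℕ), 1 ≤ p → (star X * X) ^ p ≤ b ω → ‖X * (1 - e ω)‖ ≤ 1) ∧
      (∀ i ω, ‖(u i ω : B) * e (π i ω) * star (u i ω : B) - e ω‖ ≤ 1 / (m : ℝ)) ∧
      (∀ c : ℕ, 1 ≤ c → (∀ i ω', Nat.card {ω : Ω // π i ω = ω'} ≤ c) → ∀ ρ : B →ₗ[ℝ] ℝ, TrF ρ →
        ∑ ω, ρ (e ω) ≤ (1 + (c : ℝ) * Fintype.card I) ^ m * ∑ ω, ρ (b ω)) ∧
      ((∀ i ω, π i ω = ω) → (∀ i ω ω', u i ω = u i ω') →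
        ‖∑ ω, e ω‖ ≤ (1 + (Fintype.card I : ℝ)) ^ m * ‖∑ ω, b ω‖) := by
  have hm0 : (0 : ℝ) < m := by
    have : 0 < m := by omega
    exact_mod_cast this
  refine ⟨LemE_avg π u b m, fun ω => ⟨LemE_avg_nonneg π u hb m ω, LemE_avg_le_one π u hb hm ω⟩,
    fun ω X p hp hX => ?_, fun i ω => LemE_avg_norm π u hb hinv m i ω, fun c hc hfib ρ hρ => ?_,
    fun hπ hu => ?_⟩
  · refine LemE_X hp (sub_nonneg.2 (LemE_avg_le_one π u hb hm ω))
      (sub_le_self _ (LemE_avg_nonneg π u hb m ω)) ?_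
    have h1 := sub_le_sub_left (LemE_avg_ge π u hb hm ω) (1 : B)
    have h2 : 1 - LemE_e π u b 0 ω = LemE_R (b ω) := by
      unfold LemE_e
      rw [sub_sub_cancel, LemE_b_zero]
    rw [h2] at h1
    exact h1.trans (LemE_anti (CStarAlgebra.pow_nonneg (star_mul_self_nonneg X) p) hX)
  · have h0 : 0 ≤ ∑ ω, ρ (b ω) := Finset.sum_nonneg fun ω _ => hρ.nonneg (hb ω)
    have h1 : ∑ ω, ρ (LemE_avg π u b m ω) =
        (1 / (m : ℝ)) * ∑ k ∈ Finset.range m, ∑ ω, ρ (LemE_e π u b k ω) := by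
      rw [Finset.sum_comm, Finset.mul_sum]
      refine Finset.sum_congr rfl fun ω _ => ?_
      unfold LemE_avg
      rw [map_smul, map_sum, smul_eq_mul]
    have h2 : ∀ k ∈ Finset.range m, ∑ ω, ρ (LemE_e π u b k ω) ≤
        (1 + (c : ℝ) * Fintype.card I) ^ m * ∑ ω, ρ (b ω) := by
      intro k hk
      refine (Finset.sum_le_sum fun ω _ => hρ.mono (LemE_e_le_b π u hb k ω)).trans
        ((LemE_tr π u hb hfib hρ k).trans (mul_le_mul_of_nonneg_right ?_ h0))
      have h3 : (1 : ℝ) ≤ 1 + (c : ℝ) * Fintype.card I := by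
        have : (0 : ℝ) ≤ (c : ℝ) * Fintype.card I := by positivity
        linarith
      exact pow_le_pow_right₀ h3 (Finset.mem_range.1 hk).le
    rw [h1, one_div, inv_mul_le_iff₀ hm0]
    refine (Finset.sum_le_sum h2).trans (le_of_eq ?_)
    rw [Finset.sum_const, Finset.card_range, nsmul_eq_mul]
  · have h1 : ∑ ω, LemE_avg π u b m ω =
        (1 / (m : ℝ)) • ∑ k ∈ Finset.range m, ∑ ω, LemE_e π u b k ω := by
      rw [Finset.sum_comm, Finset.smul_sum]
      rfl
    have h2 : ∀ k ∈ Finset.range m, ‖∑ ω, LemE_e π u b k ω‖ ≤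
        (1 + (Fintype.card I : ℝ)) ^ m * ‖∑ ω, b ω‖ := by
      intro k hk
      have h3 : ‖∑ ω, LemE_e π u b k ω‖ ≤ ‖∑ ω, LemE_b π u b k ω‖ :=
        CStarAlgebra.norm_le_norm_of_nonneg_of_le
          (Finset.sum_nonneg fun ω _ => LemE_e_nonneg π u hb k ω)
          (Finset.sum_le_sum fun ω _ => LemE_e_le_b π u hb k ω)
      refine h3.trans ((LemE_fix (b := b) π u hπ hu k).trans
        (mul_le_mul_of_nonneg_right ?_ (norm_nonneg _)))
      have h4 : (1 : ℝ) ≤ 1 + (Fintype.card I : ℝ) := by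
        have : (0 : ℝ) ≤ (Fintype.card I : ℝ) := by positivity
        linarith
      exact pow_le_pow_right₀ h4 (Finset.mem_range.1 hk).le
    rw [h1, norm_smul, Real.norm_eq_abs, abs_of_pos (by positivity), one_div, inv_mul_le_iff₀ hm0]
    refine ((norm_sum_le _ _).trans (Finset.sum_le_sum h2)).trans (le_of_eq ?_)
    rw [Finset.sum_const, Finset.card_range, nsmul_eq_mul]

end Pool.MP263F
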