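import Pool.Agent.Lib.MP_263cac_full.MatDefs
import Pool.Agent.Lib.MP_263cac_full.Alg2
set_option autoImplicit false

/-! JOB Mat1: amplification.

`amp_coch`: entries satisfy `‖w i p q‖ ≤ ‖w i‖` (`CStarMatrix.norm_entry_le_norm`), `D^(n+1)` terms.
`amp_dd`: `amp (n+1) (dd n k φ)`: sum over `f : Fin (n+2) → Fin D`; split off the coordinate `f k`
(`Fin.insertNthEquiv`/`Fin.consEquiv`/`Fin.snocEquiv`): for `1 ≤ k ≤ n` summing over `f k` gives
`Σ_c w (k-1) a c * w k c b = (w (k-1) * w k) a b` by linearity in slot `k-1` (`Coch.sum_slot`);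
`k = 0`: `Σ_{f 0} Y (f last) (f 0) * w 0 (f 0) (f 1) = (Y * w 0) (f last) (f 1)`;
`k = n+1`: `Σ w n (f n) (f last) * Y (f last) (f 0) = (w n * Y) (f n) (f 0)`. -/

namespace Pool.MP263F
/-- the entries of the amplification -/
private def Mat1_sq {A : Type} [Zero A] {D n : ℕ} (f : Fin (n + 1) → Fin D) (w : ℕ → MM D A) :
    ℕ → A :=
  fun i => if h : i < n then w i (f ⟨i, by omega⟩) (f ⟨i + 1, by omega⟩) else 0

private theorem Mat1_amp {A : Type} [Zero A] (D n : ℕ) (φ : Form A) (w : ℕ → MM D A)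
    (Y : MM D A) : amp D n φ w Y =
      ∑ f : Fin (n + 1) → Fin D, φ (Mat1_sq f w) (Y (f ⟨n, by omega⟩) (f ⟨0, by omega⟩)) := rfl

private theorem Mat1_lt {D n : ℕ} (k : Fin (n + 2)) (c : Fin D) (f : Fin (n + 1) → Fin D) (i : ℕ)
    (hi : i < n + 2) (h : i < (k : ℕ)) :
    (Fin.insertNth (α := fun _ => Fin D) k c f) ⟨i, hi⟩ = f ⟨i, by omega⟩ := by
  have h1 : (⟨i, hi⟩ : Fin (n + 2)) = k.succAbove ⟨i, by omega⟩ := by
    rw [Fin.succAbove_of_castSucc_lt _ _ (by rw [Fin.lt_def]; exact h)]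
    rfl
  rw [h1, Fin.insertNth_apply_succAbove]

private theorem Mat1_gt {D n : ℕ} (k : Fin (n + 2)) (c : Fin D) (f : Fin (n + 1) → Fin D) (i : ℕ)
    (hi : i + 1 < n + 2) (h : (k : ℕ) ≤ i) :
    (Fin.insertNth (α := fun _ => Fin D) k c f) ⟨i + 1, hi⟩ = f ⟨i, by omega⟩ := by
  have h1 : (⟨i + 1, hi⟩ : Fin (n + 2)) = k.succAbove ⟨i, by omega⟩ := by
    rw [Fin.succAbove_of_le_castSucc _ _ (by rw [Fin.le_def]; exact h)]
    rfl
  rw [h1, Fin.insertNth_apply_succAbove]

private theorem Mat1_eq {D n : ℕ} (k : Fin (n + 2)) (c : Fin D) (f : Fin (n + 1) → Fin D) (i : ℕ)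
    (hi : i < n + 2) (h : i = (k : ℕ)) :
    (Fin.insertNth (α := fun _ => Fin D) k c f) ⟨i, hi⟩ = c := by
  have h1 : (⟨i, hi⟩ : Fin (n + 2)) = k := Fin.ext h
  rw [h1, Fin.insertNth_apply_same]

private theorem Mat1_sum {D n : ℕ} (k : Fin (n + 2)) (F : (Fin (n + 2) → Fin D) → ℂ) :
    ∑ g, F g = ∑ f : Fin (n + 1) → Fin D, ∑ c : Fin D,
      F (Fin.insertNth (α := fun _ => Fin D) k c f) := by
  rw [← (Fin.insertNthEquiv (fun _ => Fin D) k).sum_comp F, Fintype.sum_prod_type_right]
  rfl

private theorem Mat1_update {A : Type} [Zero A] {D n : ℕ} (f : Fin (n + 1) → Fin D)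
    (w : ℕ → MM D A) (i : ℕ) (hi : i < n) (x : MM D A) :
    Mat1_sq f (Function.update w i x) =
      Function.update (Mat1_sq f w) i (x (f ⟨i, by omega⟩) (f ⟨i + 1, by omega⟩)) := by
  funext l
  by_cases hl : l = i
  · subst hl
    rw [Function.update_self]
    simp only [Mat1_sq]
    rw [dif_pos hi, Function.update_self]
  · rw [Function.update_of_ne hl]
    simp only [Mat1_sq]
    rw [Function.update_of_ne hl]

variable {A : Type} [CStarAlgebra A] [PartialOrder A] [StarOrderedRing A]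

theorem amp_coch {D n : ℕ} {C : ℝ} {φ : Form A} (h : Coch n C φ) :
    Coch n ((D : ℝ) ^ (n + 1) * C) (amp D n φ) := by
  refine ⟨mul_nonneg (by positivity) h.nonneg, ?_, ?_, ?_, ?_, ?_, ?_⟩
  · intro w w' y hw
    rw [Mat1_amp, Mat1_amp]
    refine Finset.sum_congr rfl fun f _ => ?_
    refine h.dep _ _ _ fun i hi => ?_
    simp only [Mat1_sq]
    rw [dif_pos hi, dif_pos hi, hw i hi]
  · intro i hi w a b y
    rw [Mat1_amp, Mat1_amp, Mat1_amp, ← Finset.sum_add_distrib]
    refine Finset.sum_congr rfl fun f _ => ?_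
    rw [Mat1_update f w i hi, Mat1_update f w i hi, Mat1_update f w i hi, CStarMatrix.add_apply,
      h.add i hi]
  · intro i hi w c a y
    rw [Mat1_amp, Mat1_amp, Finset.mul_sum]
    refine Finset.sum_congr rfl fun f _ => ?_
    rw [Mat1_update f w i hi, Mat1_update f w i hi, CStarMatrix.smul_apply, h.smul i hi]
  · intro w a b
    rw [Mat1_amp, Mat1_amp, Mat1_amp, ← Finset.sum_add_distrib]
    refine Finset.sum_congr rfl fun f _ => ?_
    rw [CStarMatrix.add_apply, h.addy]
  · intro w c a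
    rw [Mat1_amp, Mat1_amp, Finset.mul_sum]
    refine Finset.sum_congr rfl fun f _ => ?_
    rw [CStarMatrix.smul_apply, h.smuly]
  · intro w y
    rw [Mat1_amp]
    have h1 : ∀ f ∈ (Finset.univ : Finset (Fin (n + 1) → Fin D)),
        ‖φ (Mat1_sq f w) (y (f ⟨n, by omega⟩) (f ⟨0, by omega⟩))‖ ≤
          C * (∏ i ∈ Finset.range n, ‖w i‖) * ‖y‖ := by
      intro f _
      refine (h.bound _ _).trans ?_
      have h2 : ∏ i ∈ Finset.range n, ‖Mat1_sq f w i‖ ≤ ∏ i ∈ Finset.range n, ‖w i‖ := by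
        refine Finset.prod_le_prod (fun i _ => norm_nonneg _) fun i hi => ?_
        simp only [Mat1_sq]
        rw [dif_pos (Finset.mem_range.mp hi)]
        exact CStarMatrix.norm_entry_le_norm
      have h3 : ‖y (f ⟨n, by omega⟩) (f ⟨0, by omega⟩)‖ ≤ ‖y‖ := CStarMatrix.norm_entry_le_norm
      exact mul_le_mul (mul_le_mul_of_nonneg_left h2 h.nonneg) h3 (norm_nonneg _)
        (mul_nonneg h.nonneg (Finset.prod_nonneg fun i _ => norm_nonneg _))
    refine (norm_sum_le _ _).trans ((Finset.sum_le_card_nsmul _ _ _ h1).trans (le_of_eq ?_))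
    rw [Finset.card_univ, Fintype.card_fun, Fintype.card_fin, Fintype.card_fin, nsmul_eq_mul]
    push_cast
    ring

theorem amp_dd {D n : ℕ} {φ : Form A} (h : IsCoch n φ) (k : ℕ) (hk : k ≤ n + 1)
    (w : ℕ → MM D A) (Y : MM D A) :
    dd n k (amp D n φ) w Y = amp D (n + 1) (dd n k φ) w Y := by
  obtain ⟨C, h⟩ := h
  rcases Nat.eq_zero_or_pos k with rfl | hk0
  · have e1 : dd n 0 (amp D n φ) w Y = amp D n φ (shift w) (Y * w 0) := by
      unfold dd
      rw [if_pos rfl]
    have e2 : ∀ (v : ℕ → A) (y : A), dd n 0 φ v y = φ (shift v) (y * v 0) := fun v y => by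
      unfold dd
      rw [if_pos rfl]
    rw [e1, Mat1_amp, Mat1_amp, Mat1_sum ⟨0, by omega⟩]
    refine Finset.sum_congr rfl fun f _ => ?_
    rw [CStarMatrix.mul_apply, h.sum_last]
    refine Finset.sum_congr rfl fun c _ => ?_
    rw [e2]
    have h1 : shift (Mat1_sq (Fin.insertNth (α := fun _ => Fin D) ⟨0, by omega⟩ c f) w) =
        Mat1_sq f (shift w) := by
      funext i
      simp only [shift, Mat1_sq]
      by_cases hi : i < n
      · rw [dif_pos (by omega), dif_pos hi, Mat1_gt _ c f i (by omega) (Nat.zero_le _),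
          Mat1_gt _ c f (i + 1) (by omega) (Nat.zero_le _)]
      · rw [dif_neg (by omega), dif_neg hi]
    have h2 : Mat1_sq (Fin.insertNth (α := fun _ => Fin D) ⟨0, by omega⟩ c f) w 0 =
        w 0 c (f ⟨0, by omega⟩) := by
      simp only [Mat1_sq]
      rw [dif_pos (by omega), Mat1_eq _ c f 0 (by omega) rfl,
        Mat1_gt _ c f 0 (by omega) (Nat.zero_le _)]
    rw [h1, h2, Mat1_gt _ c f n (by omega) (Nat.zero_le _), Mat1_eq _ c f 0 (by omega) rfl]
  · rcases Nat.lt_or_ge n k with hkn | hkn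
    · obtain rfl : k = n + 1 := by omega
      have e1 : dd n (n + 1) (amp D n φ) w Y = amp D n φ w (w n * Y) := by
        unfold dd
        rw [if_neg (by omega), if_pos rfl]
      have e2 : ∀ (v : ℕ → A) (y : A), dd n (n + 1) φ v y = φ v (v n * y) := fun v y => by
        unfold dd
        rw [if_neg (by omega), if_pos rfl]
      rw [e1, Mat1_amp, Mat1_amp, Mat1_sum ⟨n + 1, by omega⟩]
      refine Finset.sum_congr rfl fun f _ => ?_
      rw [CStarMatrix.mul_apply, h.sum_last]
      refine Finset.sum_congr rfl fun c _ => ?_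
      rw [e2]
      have h2 : Mat1_sq (Fin.insertNth (α := fun _ => Fin D) ⟨n + 1, by omega⟩ c f) w n =
          w n (f ⟨n, by omega⟩) c := by
        simp only [Mat1_sq]
        rw [dif_pos (by omega), Mat1_lt _ c f n (by omega) (Nat.lt_succ_self n),
          Mat1_eq _ c f (n + 1) (by omega) rfl]
      rw [h2, Mat1_lt _ c f 0 (by omega) (Nat.succ_pos n), Mat1_eq _ c f (n + 1) (by omega) rfl]
      refine h.dep _ _ _ fun i hi => ?_
      simp only [Mat1_sq]
      rw [dif_pos hi, dif_pos (by omega), Mat1_lt _ c f i (by omega) (by simp only; omega),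
        Mat1_lt _ c f (i + 1) (by omega) (by simp only; omega)]
    · obtain ⟨m, rfl⟩ : ∃ m, k = m + 1 := ⟨k - 1, by omega⟩
      have e1 : dd n (m + 1) (amp D n φ) w Y = amp D n φ (mrg m w) Y := by
        unfold dd
        rw [if_neg (by omega), if_neg (by omega), Nat.add_sub_cancel]
      have e2 : ∀ (v : ℕ → A) (y : A), dd n (m + 1) φ v y = φ (mrg m v) y := fun v y => by
        unfold dd
        rw [if_neg (by omega), if_neg (by omega), Nat.add_sub_cancel]
      rw [e1, Mat1_amp, Mat1_amp, Mat1_sum ⟨m + 1, by omega⟩]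
      refine Finset.sum_congr rfl fun f _ => ?_
      have h1 : Mat1_sq f (mrg m w) m =
          ∑ c, w m (f ⟨m, by omega⟩) c * w (m + 1) c (f ⟨m + 1, by omega⟩) := by
        simp only [Mat1_sq, mrg]
        rw [dif_pos (by omega), if_neg (lt_irrefl _), if_pos trivial, CStarMatrix.mul_apply]
      have h2 : Mat1_sq f (mrg m w) = Function.update (Mat1_sq f (mrg m w)) m
          (∑ c, w m (f ⟨m, by omega⟩) c * w (m + 1) c (f ⟨m + 1, by omega⟩)) := by
        rw [← h1, Function.update_eq_self]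
      rw [h2, h.sum_slot (by omega)]
      refine Finset.sum_congr rfl fun c _ => ?_
      rw [e2, Mat1_lt _ c f 0 (by omega) (Nat.succ_pos m),
        Mat1_gt _ c f n (by omega) (by simp only; omega)]
      have h3 : mrg m (Mat1_sq (Fin.insertNth (α := fun _ => Fin D) ⟨m + 1, by omega⟩ c f) w) =
          Function.update (Mat1_sq f (mrg m w)) m
            (w m (f ⟨m, by omega⟩) c * w (m + 1) c (f ⟨m + 1, by omega⟩)) := by
        funext i
        rcases lt_trichotomy i m with hi | hi | hi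
        · rw [Function.update_of_ne (by omega)]
          simp only [mrg, Mat1_sq]
          rw [if_pos hi, dif_pos (by omega), dif_pos (by omega), if_pos hi,
            Mat1_lt _ c f i (by omega) (by simp only; omega),
            Mat1_lt _ c f (i + 1) (by omega) (by simp only; omega)]
        · subst hi
          rw [Function.update_self]
          simp only [mrg, Mat1_sq]
          rw [if_neg (lt_irrefl _), if_pos trivial, dif_pos (by omega), dif_pos (by omega),
            Mat1_lt _ c f i (by omega) (by simp only; omega),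
            Mat1_eq _ c f (i + 1) (by omega) rfl,
            Mat1_gt _ c f (i + 1) (by omega) (le_refl _)]
        · rw [Function.update_of_ne (by omega)]
          simp only [mrg, Mat1_sq]
          rw [if_neg (by omega), if_neg (by omega)]
          by_cases hi2 : i < n
          · rw [dif_pos (by omega), dif_pos hi2, if_neg (by omega), if_neg (by omega),
              Mat1_gt _ c f i (by omega) (by simp only; omega),
              Mat1_gt _ c f (i + 1) (by omega) (by simp only; omega)]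
          · rw [dif_neg (by omega), dif_neg hi2]
      rw [h3]

theorem amp_delta {D n : ℕ} {φ : Form A} (h : IsCoch n φ) (hc : ∀ w y, delta n φ w y = 0)
    (w : ℕ → MM D A) (Y : MM D A) : delta n (amp D n φ) w Y = 0 := by
  unfold delta
  have h1 : ∀ k ∈ Finset.range (n + 2), (-1 : ℂ) ^ k * dd n k (amp D n φ) w Y =
      ∑ f : Fin (n + 1 + 1) → Fin D, (-1 : ℂ) ^ k *
        dd n k φ (Mat1_sq f w) (Y (f ⟨n + 1, by omega⟩) (f ⟨0, by omega⟩)) := by
    intro k hk
    rw [amp_dd h k (by have := Finset.mem_range.mp hk; omega), Mat1_amp, Finset.mul_sum]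
  rw [Finset.sum_congr rfl h1, Finset.sum_comm]
  refine Finset.sum_eq_zero fun f _ => ?_
  exact hc (Mat1_sq f w) (Y (f ⟨n + 1, by omega⟩) (f ⟨0, by omega⟩))

end Pool.MP263F
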