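import Pool.Agent.Lib.MP_263cac_full.MatDefs
set_option autoImplicit false

/-! JOB Mat2: matrix units and the sign group.

`Emat_norm`: `‖Emat p q x‖ ≤ ‖x‖`: `star (Emat p q x) * Emat p q x = Emat q q (star x * x)`; or use
`CStarMatrix.norm_le_of_forall_inner_le`/`toCLM` (operator norm of `v ↦ (v_p x)_q`), or any crude bound
is NOT enough: we need exactly `‖x‖`.  (One way: `Emat q q a` for `a` self-adjoint: the map
`a ↦ Emat q q a` is an injective (non-unital) star homomorphism, hence isometric:
`NonUnitalStarAlgHom.norm_apply_le`; then the C*-identity.)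
`sign_group`: `G` = image of `(Fin D → ℤˣ)` under `s ↦ diag(s)`, or use `Fin D → Bool`; if the map is not
injective (`A` trivial) everything is `0` anyway. For `p ≠ q`, `Σ_s s_p s_q = 0` (flip the sign `s_p`). -/

namespace Pool.MP263F
variable {A : Type} [CStarAlgebra A] [PartialOrder A] [StarOrderedRing A]

private theorem Mat2_apply {D : ℕ} (p q : Fin D) (x : A) (i j : Fin D) :
    (Emat p q x : MM D A) i j = if i = p ∧ j = q then x else 0 := rfl

theorem Emat_mul {D : ℕ} (p q r s : Fin D) (x y : A) :
    (Emat p q x * Emat r s y : MM D A) = if q = r then Emat p s (x * y) else 0 := by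
  refine CStarMatrix.ext fun i j => ?_
  rw [CStarMatrix.mul_apply]
  simp only [Mat2_apply]
  by_cases h : q = r
  · subst h
    rw [if_pos rfl, Mat2_apply, Finset.sum_eq_single q]
    · by_cases hi : i = p <;> by_cases hj : j = s <;> simp [hi, hj]
    · intro k _ hk
      simp [hk]
    · intro hk
      exact absurd (Finset.mem_univ q) hk
  · rw [if_neg h, CStarMatrix.zero_apply]
    refine Finset.sum_eq_zero fun k _ => ?_
    by_cases hk : k = q
    · subst hk
      simp [h]
    · simp [hk]

theorem Emat_add {D : ℕ} (p q : Fin D) (x y : A) :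
    (Emat p q (x + y) : MM D A) = Emat p q x + Emat p q y := by
  refine CStarMatrix.ext fun i j => ?_
  rw [CStarMatrix.add_apply]
  simp only [Mat2_apply]
  split_ifs <;> simp

theorem Emat_smul {D : ℕ} (p q : Fin D) (c : ℂ) (x : A) :
    (Emat p q (c • x) : MM D A) = c • Emat p q x := by
  refine CStarMatrix.ext fun i j => ?_
  rw [CStarMatrix.smul_apply]
  simp only [Mat2_apply]
  split_ifs <;> simp

theorem Emat_zero {D : ℕ} (p q : Fin D) : (Emat p q (0 : A) : MM D A) = 0 := by
  refine CStarMatrix.ext fun i j => ?_
  rw [CStarMatrix.zero_apply, Mat2_apply, ite_self]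

private theorem Mat2_star {D : ℕ} (p q : Fin D) (x : A) :
    star (Emat p q x : MM D A) = Emat q p (star x) := by
  refine CStarMatrix.ext fun i j => ?_
  rw [CStarMatrix.star_apply]
  simp only [Mat2_apply]
  by_cases hi : i = q <;> by_cases hj : j = p <;> simp [hi, hj]

/-- corner embedding -/
private noncomputable def Mat2_hom {D : ℕ} (q : Fin D) : A →⋆ₙₐ[ℂ] MM D A where
  toFun := Emat q q
  map_smul' c x := Emat_smul q q c x
  map_zero' := Emat_zero q q
  map_add' x y := Emat_add q q x y
  map_mul' x y := by
    rw [Emat_mul, if_pos rfl]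
  map_star' x := by
    rw [Mat2_star]

theorem Emat_norm {D : ℕ} (p q : Fin D) (x : A) : ‖(Emat p q x : MM D A)‖ ≤ ‖x‖ := by
  have h1 : ‖(Emat p q x : MM D A)‖ * ‖(Emat p q x : MM D A)‖
      = ‖(Emat q q (star x * x) : MM D A)‖ := by
    rw [← CStarRing.norm_star_mul_self, Mat2_star, Emat_mul, if_pos rfl]
  have h2 : ‖(Emat q q (star x * x) : MM D A)‖ ≤ ‖star x * x‖ :=
    NonUnitalStarAlgHom.norm_apply_le (Mat2_hom (A := A) q) (star x * x)
  rw [← h1, CStarRing.norm_star_mul_self] at h2
  exact (mul_self_le_mul_self_iff (norm_nonneg _) (norm_nonneg x)).2 h2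

/-- sign -/
private def Mat2_c (A : Type) [CStarAlgebra A] (b : Bool) : A := if b then 1 else -1

private theorem Mat2_c_sq (A : Type) [CStarAlgebra A] (b : Bool) :
    Mat2_c A b * Mat2_c A b = 1 := by
  cases b <;> simp [Mat2_c]

private theorem Mat2_c_star (A : Type) [CStarAlgebra A] (b : Bool) :
    star (Mat2_c A b) = Mat2_c A b := by
  cases b <;> simp [Mat2_c]

private theorem Mat2_c_not (A : Type) [CStarAlgebra A] (b : Bool) :
    Mat2_c A (!b) = - Mat2_c A b := by
  cases b <;> simp [Mat2_c]

/-- diagonal sign matrix -/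
private def Mat2_d (D : ℕ) (A : Type) [CStarAlgebra A] (s : Fin D → Bool) : MM D A :=
  CStarMatrix.ofMatrix (Matrix.of fun i j => if i = j then Mat2_c A (s i) else 0)

private theorem Mat2_d_apply (D : ℕ) (A : Type) [CStarAlgebra A] (s : Fin D → Bool)
    (i j : Fin D) : Mat2_d D A s i j = if i = j then Mat2_c A (s i) else 0 := rfl

private theorem Mat2_d_star (D : ℕ) (A : Type) [CStarAlgebra A] [PartialOrder A]
    [StarOrderedRing A] (s : Fin D → Bool) :
    star (Mat2_d D A s) = Mat2_d D A s := by
  refine CStarMatrix.ext fun i j => ?_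
  rw [CStarMatrix.star_apply, Mat2_d_apply, Mat2_d_apply]
  by_cases h : i = j
  · subst h
    simp [Mat2_c_star]
  · rw [if_neg h, if_neg (fun h' => h h'.symm), star_zero]

private theorem Mat2_d_conj (D : ℕ) (A : Type) [CStarAlgebra A] [PartialOrder A]
    [StarOrderedRing A] (s : Fin D → Bool) (M : MM D A) (p q : Fin D) :
    (Mat2_d D A s * M * Mat2_d D A s : MM D A) p q
      = Mat2_c A (s p) * M p q * Mat2_c A (s q) := by
  rw [CStarMatrix.mul_apply, Finset.sum_eq_single q]
  · rw [CStarMatrix.mul_apply, Finset.sum_eq_single p]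
    · rw [Mat2_d_apply, Mat2_d_apply, if_pos rfl, if_pos rfl]
    · intro k _ hk
      rw [Mat2_d_apply, if_neg (fun h => hk h.symm), zero_mul]
    · intro hk
      exact absurd (Finset.mem_univ p) hk
  · intro k _ hk
    rw [Mat2_d_apply, if_neg hk, mul_zero]
  · intro hk
    exact absurd (Finset.mem_univ q) hk

private theorem Mat2_d_sq (D : ℕ) (A : Type) [CStarAlgebra A] [PartialOrder A]
    [StarOrderedRing A] (s : Fin D → Bool) :
    Mat2_d D A s * Mat2_d D A s = 1 := by
  refine CStarMatrix.ext fun i j => ?_
  rw [CStarMatrix.mul_apply, Finset.sum_eq_single i, CStarMatrix.one_apply]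
  · rw [Mat2_d_apply, Mat2_d_apply, if_pos rfl]
    by_cases h : i = j
    · subst h
      simp [Mat2_c_sq]
    · rw [if_neg h, if_neg h, mul_zero]
  · intro k _ hk
    rw [Mat2_d_apply, if_neg (fun h => hk h.symm), zero_mul]
  · intro hk
    exact absurd (Finset.mem_univ i) hk

/-- the unitary -/
private def Mat2_u (D : ℕ) (A : Type) [CStarAlgebra A] [PartialOrder A]
    [StarOrderedRing A] (s : Fin D → Bool) : unitary (MM D A) :=
  ⟨Mat2_d D A s, by
    rw [Unitary.mem_iff]
    rw [Mat2_d_star, Mat2_d_sq]
    exact ⟨rfl, rfl⟩⟩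

theorem sign_group (D : ℕ) (A : Type) [CStarAlgebra A] [PartialOrder A] [StarOrderedRing A] :
    ∃ G : Finset (unitary (MM D A)), G.Nonempty ∧ ∀ M : MM D A, (∀ p, M p p = 0) →
      ∑ g ∈ G, (g : MM D A) * M * star (g : MM D A) = 0 := by
  classical
  rcases subsingleton_or_nontrivial A with hA | hA
  · refine ⟨{1}, Finset.singleton_nonempty 1, fun M _ => Subsingleton.elim _ _⟩
  · refine ⟨Finset.univ.image (Mat2_u D A), Finset.Nonempty.image Finset.univ_nonempty _, ?_⟩
    intro M hM
    have hinj : Function.Injective (Mat2_u D A) := by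
      intro s t hst
      funext i
      have h1 : Mat2_d D A s = Mat2_d D A t := congrArg Subtype.val hst
      have h2 : Mat2_d D A s i i = Mat2_d D A t i i := by rw [h1]
      rw [Mat2_d_apply, Mat2_d_apply, if_pos rfl, if_pos rfl] at h2
      have hne : (1 : A) ≠ -1 := by
        intro h
        have h3 : (2 : ℂ) • (1 : A) = 0 := by
          rw [two_smul]
          nth_rewrite 2 [h]
          exact add_neg_cancel 1
        rw [smul_eq_zero] at h3
        rcases h3 with h3 | h3
        · exact two_ne_zero h3
        · exact one_ne_zero h3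
      cases hs : s i <;> cases ht : t i <;> simp [Mat2_c, hs, ht] at h2 ⊢
      · exact hne h2.symm
      · exact hne h2
    rw [Finset.sum_image (fun x _ y _ h => hinj h)]
    refine CStarMatrix.ext fun p q => ?_
    have hval : ∀ s : Fin D → Bool,
        ((Mat2_u D A s : unitary (MM D A)) : MM D A) * M
          * star ((Mat2_u D A s : unitary (MM D A)) : MM D A)
          = Mat2_d D A s * M * Mat2_d D A s := by
      intro s
      change Mat2_d D A s * M * star (Mat2_d D A s) = _
      rw [Mat2_d_star]
    rw [Finset.sum_congr rfl (fun s _ => hval s), CStarMatrix.zero_apply]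
    have hsum : ∀ (S : Finset (Fin D → Bool)),
        (∑ s ∈ S, Mat2_d D A s * M * Mat2_d D A s : MM D A) p q
          = ∑ s ∈ S, (Mat2_d D A s * M * Mat2_d D A s : MM D A) p q := by
      intro S
      induction S using Finset.induction_on with
      | empty => simp [CStarMatrix.zero_apply]
      | insert a S ha ih =>
        rw [Finset.sum_insert ha, Finset.sum_insert ha, CStarMatrix.add_apply, ih]
    rw [hsum]
    simp only [Mat2_d_conj]
    by_cases hpq : p = q
    · subst hpq
      refine Finset.sum_eq_zero fun s _ => ?_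
      rw [hM, mul_zero, zero_mul]
    · refine Finset.sum_involution (fun s _ => Function.update s p (!(s p))) ?_ ?_ ?_ ?_
      · intro s _
        rw [Function.update_self, Function.update_of_ne (fun h => hpq h.symm), Mat2_c_not,
          neg_mul, neg_mul, add_neg_cancel]
      · intro s _ _ h
        have h1 := congrFun h p
        rw [Function.update_self] at h1
        cases hs : s p <;> simp [hs] at h1
      · intro s _
        exact Finset.mem_univ _
      · intro s _
        funext i
        by_cases hi : i = p
        · subst hi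
          simp
        · simp [Function.update_of_ne hi]

end Pool.MP263F
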