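import Pool.Agent.Lib.MP_263cac_full.MatDefs
import Pool.Agent.Lib.MP_263cac_full.Alg2
set_option autoImplicit false

/-! JOB Mat3: differentiation along unitaries.

`Dop_vanish`: first `k` skew-adjoint: `u t = exp(t k)` is unitary for real `t`
(`selfAdjoint.expUnitary`, or `NormedSpace.exp` of a skew-adjoint element), `alt (W * u t)` has entries
`W * u t` (even) and `star (u t) * star W = exp(-t k) * star W` (odd).  The function
`t ↦ Θ (alt (W u t)) Y` is identically `0`, and its derivative at `0` is
`Σ_{j<N} Θ (update (alt W) j (derivative of entry j)) Y = Dop N k Θ (alt W) Y`: entry `j` has derivative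
`W k` (even) resp. `-k star W` (odd).  (Derivative of a bounded multilinear form: one may convert to a
`ContinuousMultilinearMap` over `Fin N` and use `HasFDerivAt`/`HasStrictFDerivAt` of multilinear maps, or
prove directly with the telescoping sum and `Coch.bound`.)
General `k = k₁ + i k₂` with `k₁, k₂` skew-adjoint: `Dop` is complex linear in `k`. -/

namespace Pool.MP263F
variable {B : Type} [CStarAlgebra B]

private theorem Mat3_term {N : ℕ} {C : ℝ} {Θ : Form B} (h : Coch N C Θ) {j : ℕ} (hj : j < N)
    (L : B → B) {K : ℝ} (hK : 0 ≤ K) (hadd : ∀ a b, L (a + b) = L a + L b)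
    (hsmul : ∀ (c : ℂ) (a : B), L (c • a) = c • L a) (hL : ∀ a, ‖L a‖ ≤ K * ‖a‖) :
    Coch N (C * K) (fun c Y => Θ (Function.update c j (L (c j))) Y) := by
  refine ⟨mul_nonneg h.nonneg hK, ?_, ?_, ?_, ?_, ?_, ?_⟩
  · intro w w' y hw
    refine h.dep _ _ _ fun i hi => ?_
    by_cases hij : i = j
    · subst hij
      rw [Function.update_self, Function.update_self, hw i hi]
    · rw [Function.update_of_ne hij, Function.update_of_ne hij, hw i hi]
  · intro i hi w a b y
    by_cases hij : i = j
    · subst hij
      simp only [Function.update_self, Function.update_idem, hadd]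
      exact h.add i hi w _ _ y
    · simp only [Function.update_of_ne (Ne.symm hij), Function.update_comm hij]
      exact h.add i hi _ a b y
  · intro i hi w c a y
    by_cases hij : i = j
    · subst hij
      simp only [Function.update_self, Function.update_idem, hsmul]
      exact h.smul i hi w c _ y
    · simp only [Function.update_of_ne (Ne.symm hij), Function.update_comm hij]
      exact h.smul i hi _ c a y
  · intro w a b
    exact h.addy _ a b
  · intro w c a
    exact h.smuly _ c a
  · intro w y
    refine (h.bound _ y).trans ?_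
    have hjm : j ∈ Finset.range N := Finset.mem_range.2 hj
    have h1 : ∏ i ∈ Finset.range N, ‖Function.update w j (L (w j)) i‖ ≤
        K * ∏ i ∈ Finset.range N, ‖w i‖ := by
      rw [← Finset.mul_prod_erase _ _ hjm, ← Finset.mul_prod_erase _ (fun i => ‖w i‖) hjm,
        Function.update_self]
      have h2 : ∏ i ∈ (Finset.range N).erase j, ‖Function.update w j (L (w j)) i‖ =
          ∏ i ∈ (Finset.range N).erase j, ‖w i‖ := by
        refine Finset.prod_congr rfl fun i hi => ?_
        rw [Function.update_of_ne (Finset.ne_of_mem_erase hi)]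
      rw [h2, ← mul_assoc]
      exact mul_le_mul_of_nonneg_right (hL _) (Finset.prod_nonneg fun i _ => norm_nonneg _)
    have h3 : C * (∏ i ∈ Finset.range N, ‖Function.update w j (L (w j)) i‖) ≤
        C * (K * ∏ i ∈ Finset.range N, ‖w i‖) := mul_le_mul_of_nonneg_left h1 h.nonneg
    have h4 := mul_le_mul_of_nonneg_right h3 (norm_nonneg y)
    refine h4.trans (le_of_eq ?_)
    ring

/-- extension of a finite family -/
private def Mat3_ext {N : ℕ} (m : Fin N → B) : ℕ → B := fun i => if h : i < N then m ⟨i, h⟩ else 0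

private theorem Mat3_ext_update {N : ℕ} (m : Fin N → B) (i : Fin N) (x : B) :
    Mat3_ext (Function.update m i x) = Function.update (Mat3_ext m) (i : ℕ) x := by
  funext j
  unfold Mat3_ext
  by_cases hj : j = (i : ℕ)
  · subst hj
    rw [Function.update_self, dif_pos i.2]
    exact Function.update_self _ _ _
  · rw [Function.update_of_ne hj]
    by_cases hjN : j < N
    · rw [dif_pos hjN, dif_pos hjN, Function.update_of_ne]
      intro h
      exact hj (congrArg Fin.val h)
    · rw [dif_neg hjN, dif_neg hjN]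

private theorem Mat3_ext_update' {N : ℕ} (inst : DecidableEq (Fin N)) (m : Fin N → B) (i : Fin N)
    (x : B) : Mat3_ext (@Function.update (Fin N) (fun _ => B) inst m i x) =
      Function.update (Mat3_ext m) (i : ℕ) x := by
  have hinst : inst = instDecidableEqFin N := Subsingleton.elim _ _
  subst hinst
  exact Mat3_ext_update m i x

private noncomputable def Mat3_cm {N : ℕ} {C : ℝ} {Θ : Form B} (h : Coch N C Θ) (Y : B) :
    ContinuousMultilinearMap ℂ (fun _ : Fin N => B) ℂ :=
  MultilinearMap.mkContinuous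
    { toFun := fun m => Θ (Mat3_ext m) Y
      map_update_add' := by
        intro inst m i x y
        rw [Mat3_ext_update' inst, Mat3_ext_update' inst, Mat3_ext_update' inst]
        exact h.add i i.2 _ x y Y
      map_update_smul' := by
        intro inst m i c x
        rw [Mat3_ext_update' inst, Mat3_ext_update' inst]
        exact h.smul i i.2 _ c x Y } (C * ‖Y‖) (by
    intro m
    refine (h.bound (Mat3_ext m) Y).trans (le_of_eq ?_)
    have h1 : ∏ i ∈ Finset.range N, ‖Mat3_ext m i‖ = ∏ i, ‖m i‖ := by
      rw [Finset.prod_range]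
      refine Finset.prod_congr rfl fun i _ => ?_
      unfold Mat3_ext
      rw [dif_pos i.2]
    rw [h1]
    ring)

private theorem Mat3_cm_apply {N : ℕ} {C : ℝ} {Θ : Form B} (h : Coch N C Θ) (Y : B)
    (m : Fin N → B) : Mat3_cm h Y m = Θ (Mat3_ext m) Y := rfl

private theorem Mat3_skew {N : ℕ} {Θ : Form B} (h : IsCoch N Θ) (S : Set B)
    (hz : ∀ W ∈ unitary B, ∀ Y ∈ S, Θ (alt W) Y = 0) (k : B) (hk : star k = -k) :
    ∀ W ∈ unitary B, ∀ Y ∈ S, Dop N k Θ (alt W) Y = 0 := by
  intro W hW Y hY
  obtain ⟨C, hC⟩ := h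
  let _ : NormedAlgebra ℚ B := NormedAlgebra.restrictScalars ℚ ℂ B
  have hu : ∀ t : ℝ, NormedSpace.exp (t • k) ∈ unitary B := fun t =>
    NormedSpace.exp_mem_unitary_of_mem_skewAdjoint (by
      rw [skewAdjoint.mem_iff, star_smul, hk, smul_neg]
      simp)
  have hstar : ∀ t : ℝ, star (NormedSpace.exp (t • k)) = NormedSpace.exp (t • (-k)) := fun t => by
    rw [NormedSpace.star_exp, star_smul, hk]
    simp
  have hd1 : HasDerivAt (fun t : ℝ => NormedSpace.exp (t • k)) k 0 := by
    have h1 := hasDerivAt_exp_smul_const (𝕂 := ℝ) k 0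
    simpa using h1
  have hd2 : HasDerivAt (fun t : ℝ => NormedSpace.exp (t • (-k))) (-k) 0 := by
    have h1 := hasDerivAt_exp_smul_const (𝕂 := ℝ) (-k) 0
    simpa using h1
  let m : ℝ → Fin N → B := fun t i => if Even (i : ℕ) then W * NormedSpace.exp (t • k)
    else NormedSpace.exp (t • (-k)) * star W
  let m' : Fin N → B := fun i => if Even (i : ℕ) then W * k else -k * star W
  have hm : HasDerivAt m m' 0 := by
    rw [hasDerivAt_pi]
    intro i
    by_cases hi : Even (i : ℕ)
    · have h1 : (fun t => m t i) = fun t => W * NormedSpace.exp (t • k) := by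
        funext t
        exact if_pos hi
      have h2 : m' i = W * k := if_pos hi
      rw [h1, h2]
      exact hd1.const_mul W
    · have h1 : (fun t => m t i) = fun t => NormedSpace.exp (t • (-k)) * star W := by
        funext t
        exact if_neg hi
      have h2 : m' i = -k * star W := if_neg hi
      rw [h1, h2]
      exact hd2.mul_const (star W)
  have hmalt : ∀ t, ∀ i, i < N → Mat3_ext (m t) i = alt (W * NormedSpace.exp (t • k)) i := by
    intro t i hi
    unfold Mat3_ext
    rw [dif_pos hi]
    show (if Even i then _ else _) = alt _ i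
    unfold alt
    by_cases he : Even i
    · rw [if_pos he, if_pos he]
    · rw [if_neg he, if_neg he, star_mul, hstar]
  have hf := (Mat3_cm hC Y).hasFDerivAt (x := m 0)
  have hf2 := (hf.restrictScalars ℝ).comp_hasDerivAt (0 : ℝ) hm
  have hzero : ((Mat3_cm hC Y) ∘ m) = fun _ : ℝ => (0 : ℂ) := by
    funext t
    show Mat3_cm hC Y (m t) = 0
    rw [Mat3_cm_apply, hC.dep _ (alt (W * NormedSpace.exp (t • k))) Y (hmalt t)]
    exact hz _ (Submonoid.mul_mem _ hW (hu t)) Y hY
  have h0 : ((Mat3_cm hC Y).linearDeriv (m 0)) m' = 0 := by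
    have h1 : HasDerivAt (fun _ : ℝ => (0 : ℂ)) (((Mat3_cm hC Y).linearDeriv (m 0)) m') 0 := by
      rw [← hzero]
      exact hf2
    exact h1.unique (hasDerivAt_const (0 : ℝ) (0 : ℂ))
  rw [ContinuousMultilinearMap.linearDeriv_apply] at h0
  unfold Dop
  rw [← h0, Finset.sum_range]
  refine Finset.sum_congr rfl fun i _ => ?_
  rw [Mat3_cm_apply, Mat3_ext_update]
  have h2 : ∀ x : B, Θ (Function.update (Mat3_ext (m 0)) (i : ℕ) x) Y =
      Θ (Function.update (alt W) (i : ℕ) x) Y := by
    intro x
    refine hC.dep _ _ Y fun j hj => ?_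
    by_cases hji : j = (i : ℕ)
    · subst hji
      rw [Function.update_self, Function.update_self]
    · rw [Function.update_of_ne hji, Function.update_of_ne hji, hmalt 0 j hj]
      simp
  rw [h2]
  by_cases hi : Even (i : ℕ)
  · have h3 : m' i = W * k := if_pos hi
    rw [h3, if_pos hi, hi.neg_one_pow, one_mul]
    congr 2
    unfold alt
    rw [if_pos hi]
  · have h3 : m' i = -k * star W := if_neg hi
    rw [h3, if_neg hi, (Nat.not_even_iff_odd.1 hi).neg_one_pow]
    have h4 : -k * star W = (-1 : ℂ) • (k * alt W (i : ℕ)) := by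
      unfold alt
      rw [if_neg hi]
      simp
    rw [h4, hC.smul i i.2]

private theorem Mat3_Dop_add {N : ℕ} {Θ : Form B} (h : IsCoch N Θ) (a b : B) (c : ℕ → B) (Y : B) :
    Dop N (a + b) Θ c Y = Dop N a Θ c Y + Dop N b Θ c Y := by
  obtain ⟨C, hC⟩ := h
  unfold Dop
  rw [← Finset.sum_add_distrib]
  refine Finset.sum_congr rfl fun j hj => ?_
  rw [← mul_add]
  congr 1
  rw [← hC.add j (Finset.mem_range.1 hj)]
  congr 2
  by_cases he : Even j
  · rw [if_pos he, if_pos he, if_pos he, mul_add]
  · rw [if_neg he, if_neg he, if_neg he, add_mul]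

private theorem Mat3_Dop_smul {N : ℕ} {Θ : Form B} (h : IsCoch N Θ) (z : ℂ) (b : B) (c : ℕ → B)
    (Y : B) : Dop N (z • b) Θ c Y = z * Dop N b Θ c Y := by
  obtain ⟨C, hC⟩ := h
  unfold Dop
  rw [Finset.mul_sum]
  refine Finset.sum_congr rfl fun j hj => ?_
  have h1 : (if Even j then c j * (z • b) else (z • b) * c j) =
      z • (if Even j then c j * b else b * c j) := by
    by_cases he : Even j
    · rw [if_pos he, if_pos he, mul_smul_comm]
    · rw [if_neg he, if_neg he, smul_mul_assoc]
  rw [h1, hC.smul j (Finset.mem_range.1 hj)]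
  ring


theorem Dop_coch {N : ℕ} {Θ : Form B} (h : IsCoch N Θ) (k : B) : IsCoch N (Dop N k Θ) := by
  obtain ⟨C, hC⟩ := h
  have h1 : IsCoch N (fun c Y => ∑ j ∈ Finset.range N, (-1 : ℂ) ^ j *
      Θ (Function.update c j (if Even j then c j * k else k * c j)) Y) := by
    refine IsCoch.sum (Finset.range N) (fun j => fun c Y => (-1 : ℂ) ^ j *
      Θ (Function.update c j (if Even j then c j * k else k * c j)) Y) fun j hj => ?_
    refine IsCoch.csmul (φ := fun c Y =>
      Θ (Function.update c j (if Even j then c j * k else k * c j)) Y) ?_ _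
    refine ⟨C * ‖k‖, ?_⟩
    by_cases he : Even j
    · simp only [if_pos he]
      refine Mat3_term hC (Finset.mem_range.1 hj) (fun a => a * k) (norm_nonneg k) ?_ ?_ ?_
      · intro a b
        exact add_mul a b k
      · intro c a
        exact smul_mul_assoc c a k
      · intro a
        rw [mul_comm ‖k‖]
        exact norm_mul_le a k
    · simp only [if_neg he]
      refine Mat3_term hC (Finset.mem_range.1 hj) (fun a => k * a) (norm_nonneg k) ?_ ?_ ?_
      · intro a b
        exact mul_add k a b
      · intro c a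
        exact mul_smul_comm c k a
      · intro a
        exact norm_mul_le k a
  exact h1

theorem Dop_vanish {N : ℕ} {Θ : Form B} (h : IsCoch N Θ) (S : Set B)
    (hz : ∀ W ∈ unitary B, ∀ Y ∈ S, Θ (alt W) Y = 0) (k : B) :
    ∀ W ∈ unitary B, ∀ Y ∈ S, Dop N k Θ (alt W) Y = 0 := by
  intro W hW Y hY
  have h1 : star ((1 / 2 : ℂ) • (k - star k)) = -((1 / 2 : ℂ) • (k - star k)) := by
    rw [star_smul, star_sub, star_star, ← smul_neg, neg_sub]
    congr 1
    simp
  have h2 : star ((-(Complex.I / 2)) • (k + star k)) = -((-(Complex.I / 2)) • (k + star k)) := by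
    rw [star_smul, star_add, star_star, add_comm (star k) k, ← neg_smul]
    congr 1
    simp
    ring
  have h3 : k = (1 / 2 : ℂ) • (k - star k) + Complex.I • ((-(Complex.I / 2)) • (k + star k)) := by
    rw [smul_smul]
    have h4 : Complex.I * -(Complex.I / 2) = 1 / 2 := by
      have := Complex.I_mul_I
      linear_combination (-1 / 2 : ℂ) * this
    rw [h4, ← smul_add]
    have h5 : k - star k + (k + star k) = (2 : ℂ) • k := by
      rw [two_smul]
      abel
    rw [h5, smul_smul]
    norm_num
  have h4 := Mat3_skew h S hz _ h1 W hW Y hY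
  have h5 := Mat3_skew h S hz _ h2 W hW Y hY
  rw [h3, Mat3_Dop_add h, h4, Mat3_Dop_smul h, h5, mul_zero, add_zero]

theorem DopN_vanish {N : ℕ} {Θ : Form B} (h : IsCoch N Θ) (S : Set B)
    (hz : ∀ W ∈ unitary B, ∀ Y ∈ S, Θ (alt W) Y = 0) (k : ℕ → B) (r : ℕ) :
    ∀ Y ∈ S, DopN N k r Θ (fun _ => 1) Y = 0 := by
  have key : ∀ r : ℕ, IsCoch N (DopN N k r Θ) ∧
      ∀ W ∈ unitary B, ∀ Y ∈ S, DopN N k r Θ (alt W) Y = 0 := by
    intro r
    induction r with
    | zero => exact ⟨h, hz⟩
    | succ r ih => exact ⟨Dop_coch ih.1 (k r), Dop_vanish ih.1 S ih.2 (k r)⟩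
  intro Y hY
  have h1 : (fun _ => 1 : ℕ → B) = alt 1 := by
    funext i
    unfold alt
    rw [star_one, ite_self]
  rw [h1]
  exact (key r).2 1 (Submonoid.one_mem _) Y hY

end Pool.MP263F
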