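import Pool.Agent.Lib.MP_263cac_full.Mat3
set_option autoImplicit false

/-! JOB Mat4: expansion of the iterated operator.

Induction on `r`: `DopN (r+1) c = Σ_{j<N} (-1)^j DopN r (update c j (c j * h r | h r * c j))`, and
`slots h f r (update c j (c j * h r)) = slots h (f, r ↦ j) (r+1) c` (even `j`:
`(c j * h r) * dn .. r = c j * (h r * dn .. r)`; odd `j`: `up .. r * (h r * c j) = (up .. r * h r) * c j`).
Use `Fin.snocEquiv` (or `Fin.consEquiv`, `Fin.insertNthEquiv`) and `Fintype.sum_prod_type` for
`(Fin (r+1) → Fin N) ≃ (Fin r → Fin N) × Fin N`, `Finset.sum_range`. -/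

namespace Pool.MP263F
variable {B : Type} [CStarAlgebra B]

private theorem Mat4_up (h : ℕ → B) {f g : ℕ → ℕ} (j : ℕ) : ∀ r : ℕ, (∀ s, s < r → f s = g s) →
    up h f j r = up h g j r := by
  intro r
  induction r with
  | zero => intro _; rfl
  | succ r ih =>
    intro hfg
    have h1 := ih fun s hs => hfg s (by omega)
    have h2 := hfg r (by omega)
    simp only [up, h1, h2]

private theorem Mat4_dn (h : ℕ → B) {f g : ℕ → ℕ} (j : ℕ) : ∀ r : ℕ, (∀ s, s < r → f s = g s) →
    dn h f j r = dn h g j r := by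
  intro r
  induction r with
  | zero => intro _; rfl
  | succ r ih =>
    intro hfg
    have h1 := ih fun s hs => hfg s (by omega)
    have h2 := hfg r (by omega)
    simp only [dn, h1, h2]

private theorem Mat4_ext_lt {N r : ℕ} (f : Fin r → Fin N) (j : Fin N) (s : ℕ) (hs : s < r) :
    extf (Fin.snoc (α := fun _ => Fin N) f j) s = extf f s := by
  unfold extf
  rw [dif_pos (by omega : s < r + 1), dif_pos hs]
  have h1 : (⟨s, by omega⟩ : Fin (r + 1)) = Fin.castSucc ⟨s, hs⟩ := rfl
  rw [h1, Fin.snoc_castSucc]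

private theorem Mat4_ext_eq {N r : ℕ} (f : Fin r → Fin N) (j : Fin N) :
    extf (Fin.snoc (α := fun _ => Fin N) f j) r = (j : ℕ) := by
  unfold extf
  rw [dif_pos (by omega : r < r + 1)]
  have h1 : (⟨r, by omega⟩ : Fin (r + 1)) = Fin.last r := rfl
  rw [h1, Fin.snoc_last]

private theorem Mat4_slots {N : ℕ} (h : ℕ → B) (r : ℕ) (c : ℕ → B) (f : Fin r → Fin N) (j : Fin N) :
    slots h (extf (Fin.snoc (α := fun _ => Fin N) f j)) (r + 1) c =
      slots h (extf f) r (Function.update c (j : ℕ)
        (if Even (j : ℕ) then c j * h r else h r * c j)) := by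
  funext i
  unfold slots
  have hu := Mat4_up h (f := extf (Fin.snoc (α := fun _ => Fin N) f j)) (g := extf f) i r
    (fun s hs => Mat4_ext_lt f j s hs)
  have hd := Mat4_dn h (f := extf (Fin.snoc (α := fun _ => Fin N) f j)) (g := extf f) i r
    (fun s hs => Mat4_ext_lt f j s hs)
  simp only [up, dn, hu, hd, Mat4_ext_eq]
  by_cases hij : i = (j : ℕ)
  · subst hij
    rw [Function.update_self]
    by_cases he : Even (j : ℕ)
    · simp only [if_pos he, if_true]
      rw [mul_assoc]
    · simp only [if_neg he, if_true]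
      rw [mul_assoc]
  · have hji : ¬ ((j : ℕ) = i) := fun h => hij h.symm
    rw [Function.update_of_ne hij]
    simp only [if_neg hji]

theorem DopN_expand {N : ℕ} {Θ : Form B} (h : ℕ → B) (r : ℕ) (c : ℕ → B) (Y : B) :
    DopN N h r Θ c Y = ∑ f : Fin r → Fin N,
      (∏ s, (-1 : ℂ) ^ (f s : ℕ)) * Θ (slots h (extf f) r c) Y := by
  induction r generalizing c with
  | zero =>
    simp only [DopN, Finset.univ_unique, Finset.sum_singleton, Finset.univ_eq_empty,
      Finset.prod_empty, one_mul]
    congr 1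
    funext i
    unfold slots
    simp [up, dn]
  | succ r ih =>
    show Dop N (h r) (DopN N h r Θ) c Y = _
    unfold Dop
    rw [Finset.sum_range, ← Equiv.sum_comp (Fin.snocEquiv fun _ => Fin N), Fintype.sum_prod_type]
    refine Finset.sum_congr rfl fun j _ => ?_
    rw [ih, Finset.mul_sum]
    refine Finset.sum_congr rfl fun f _ => ?_
    have h1 : (Fin.snocEquiv fun _ => Fin N) (j, f) = Fin.snoc (α := fun _ => Fin N) f j := rfl
    rw [h1, Mat4_slots, Fin.prod_univ_castSucc]
    simp only [Fin.snoc_castSucc, Fin.snoc_last]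
    ring

end Pool.MP263F
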