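import Pool.Agent.Lib.MP_263cac_full.MatDefs
import Pool.Agent.Lib.MP_263cac_full.Mat2
import Pool.Agent.Lib.MP_263cac_full.Alg4
set_option autoImplicit false
set_option linter.unusedSectionVars false

/-! JOB Mat5: the slot substitution gives bounded cochains.

`slots_coch`: content of slot `f s` is linear in `h s`, the other contents do not depend on `h s`
(`s < r`); so `slots (update h s (a+b)) f r c = update (slots h f r c) (f s) (.. + ..)`.
Bound: `‖dn h f j r‖, ‖up h f j r‖ ≤ ∏_{s<r} (if f s = j then ‖h s‖ else 1)` (`‖1‖ ≤ 1`), and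
`∏_{j<N} ∏_{s<r} (if f s = j then ‖h s‖ else 1) = ∏_{s<r} ‖h s‖` since `f s < N`.
`Coch.comp_mat`: composition with the linear contractions `x_s ↦ E_{σ s, τ s} x_s`. -/

namespace Pool.MP263F

section slotlemmas
variable {B : Type} [CStarAlgebra B]

theorem Mat5_dn_congr {h h' : ℕ → B} (f : ℕ → ℕ) (j : ℕ) :
    ∀ r : ℕ, (∀ i, i < r → h i = h' i) → dn h f j r = dn h' f j r := by
  intro r
  induction r with
  | zero => intro _; rfl
  | succ r ih =>
    intro hh
    simp only [dn]
    rw [ih (fun i hi => hh i (by omega)), hh r (by omega)]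

theorem Mat5_up_congr {h h' : ℕ → B} (f : ℕ → ℕ) (j : ℕ) :
    ∀ r : ℕ, (∀ i, i < r → h i = h' i) → up h f j r = up h' f j r := by
  intro r
  induction r with
  | zero => intro _; rfl
  | succ r ih =>
    intro hh
    simp only [up]
    rw [ih (fun i hi => hh i (by omega)), hh r (by omega)]

theorem Mat5_dn_ne (h : ℕ → B) (f : ℕ → ℕ) (j s : ℕ) (hj : j ≠ f s) (a : B) :
    ∀ r : ℕ, dn (Function.update h s a) f j r = dn h f j r := by
  intro r
  induction r with
  | zero => rfl
  | succ r ih =>
    simp only [dn]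
    rw [ih]
    by_cases hr : f r = j
    · have hrs : r ≠ s := by
        rintro rfl
        exact hj hr.symm
      rw [Function.update_of_ne hrs]
    · rw [if_neg hr, if_neg hr]

theorem Mat5_up_ne (h : ℕ → B) (f : ℕ → ℕ) (j s : ℕ) (hj : j ≠ f s) (a : B) :
    ∀ r : ℕ, up (Function.update h s a) f j r = up h f j r := by
  intro r
  induction r with
  | zero => rfl
  | succ r ih =>
    simp only [up]
    rw [ih]
    by_cases hr : f r = j
    · have hrs : r ≠ s := by
        rintro rfl
        exact hj hr.symm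
      rw [Function.update_of_ne hrs]
    · rw [if_neg hr, if_neg hr]

theorem Mat5_dn_eq (h : ℕ → B) (f : ℕ → ℕ) (s : ℕ) :
    ∀ r : ℕ, s < r → ∃ L R : B, ∀ a : B, dn (Function.update h s a) f (f s) r = L * a * R := by
  intro r
  induction r with
  | zero => intro hs; omega
  | succ r ih =>
    intro hs
    by_cases hsr : s = r
    · subst hsr
      refine ⟨1, dn h f (f s) s, fun a => ?_⟩
      simp only [dn, if_true]
      rw [Function.update_self, one_mul]
      rw [Mat5_dn_congr (h := Function.update h s a) (h' := h) f (f s) s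
        (fun i hi => Function.update_of_ne (by omega) _ _)]
    · obtain ⟨L, R, hLR⟩ := ih (by omega)
      by_cases hr : f r = f s
      · refine ⟨h r * L, R, fun a => ?_⟩
        simp only [dn]
        rw [if_pos hr, hLR, Function.update_of_ne (Ne.symm hsr), mul_assoc (h r) L a,
          mul_assoc (h r) (L * a) R]
      · refine ⟨L, R, fun a => ?_⟩
        simp only [dn]
        rw [if_neg hr, hLR]

theorem Mat5_up_eq (h : ℕ → B) (f : ℕ → ℕ) (s : ℕ) :
    ∀ r : ℕ, s < r → ∃ L R : B, ∀ a : B, up (Function.update h s a) f (f s) r = L * a * R := by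
  intro r
  induction r with
  | zero => intro hs; omega
  | succ r ih =>
    intro hs
    by_cases hsr : s = r
    · subst hsr
      refine ⟨up h f (f s) s, 1, fun a => ?_⟩
      simp only [up, if_true]
      rw [Function.update_self, mul_one]
      rw [Mat5_up_congr (h := Function.update h s a) (h' := h) f (f s) s
        (fun i hi => Function.update_of_ne (by omega) _ _)]
    · obtain ⟨L, R, hLR⟩ := ih (by omega)
      by_cases hr : f r = f s
      · refine ⟨L, R * h r, fun a => ?_⟩
        simp only [up]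
        rw [if_pos hr, hLR, Function.update_of_ne (Ne.symm hsr), mul_assoc (L * a) R (h r)]
      · refine ⟨L, R, fun a => ?_⟩
        simp only [up]
        rw [if_neg hr, hLR]

theorem Mat5_slots_update (h : ℕ → B) (f : ℕ → ℕ) {s r : ℕ} (hs : s < r) :
    ∃ L R : B, ∀ a : B, slots (Function.update h s a) f r (fun _ => 1)
      = Function.update (slots h f r (fun _ => 1)) (f s) (L * a * R) := by
  obtain ⟨L, R, h1⟩ := Mat5_dn_eq h f s r hs
  obtain ⟨L', R', h2⟩ := Mat5_up_eq h f s r hs
  by_cases he : Even (f s)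
  · refine ⟨L, R, fun a => ?_⟩
    funext j
    by_cases hj : j = f s
    · subst hj
      rw [Function.update_self]
      simp only [slots]
      rw [if_pos he, one_mul, h1]
    · rw [Function.update_of_ne hj]
      simp only [slots]
      rw [Mat5_dn_ne h f j s hj a r, Mat5_up_ne h f j s hj a r]
  · refine ⟨L', R', fun a => ?_⟩
    funext j
    by_cases hj : j = f s
    · subst hj
      rw [Function.update_self]
      simp only [slots]
      rw [if_neg he, mul_one, h2]
    · rw [Function.update_of_ne hj]
      simp only [slots]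
      rw [Mat5_dn_ne h f j s hj a r, Mat5_up_ne h f j s hj a r]

theorem Mat5_norm_one : ‖(1 : B)‖ ≤ 1 := by
  rcases subsingleton_or_nontrivial B with hB | hB
  · rw [Subsingleton.elim (1 : B) 0, norm_zero]
    exact zero_le_one
  · rw [CStarRing.norm_one]

theorem Mat5_dn_norm (h : ℕ → B) (f : ℕ → ℕ) (j : ℕ) :
    ∀ r : ℕ, ‖dn h f j r‖ ≤ ∏ s ∈ Finset.range r, (if f s = j then ‖h s‖ else 1) := by
  intro r
  induction r with
  | zero =>
    simp only [dn, Finset.range_zero, Finset.prod_empty]
    exact Mat5_norm_one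
  | succ r ih =>
    rw [Finset.prod_range_succ]
    simp only [dn]
    by_cases hr : f r = j
    · rw [if_pos hr, if_pos hr, mul_comm]
      exact (norm_mul_le _ _).trans (mul_le_mul_of_nonneg_left ih (norm_nonneg _))
    · rw [if_neg hr, if_neg hr, mul_one]
      exact ih

theorem Mat5_up_norm (h : ℕ → B) (f : ℕ → ℕ) (j : ℕ) :
    ∀ r : ℕ, ‖up h f j r‖ ≤ ∏ s ∈ Finset.range r, (if f s = j then ‖h s‖ else 1) := by
  intro r
  induction r with
  | zero =>
    simp only [up, Finset.range_zero, Finset.prod_empty]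
    exact Mat5_norm_one
  | succ r ih =>
    rw [Finset.prod_range_succ]
    simp only [up]
    by_cases hr : f r = j
    · rw [if_pos hr, if_pos hr]
      exact (norm_mul_le _ _).trans (mul_le_mul_of_nonneg_right ih (norm_nonneg _))
    · rw [if_neg hr, if_neg hr, mul_one]
      exact ih

theorem Mat5_slots_norm (h : ℕ → B) (f : ℕ → ℕ) (r j : ℕ) :
    ‖slots h f r (fun _ => 1) j‖ ≤ ∏ s ∈ Finset.range r, (if f s = j then ‖h s‖ else 1) := by
  simp only [slots]
  by_cases he : Even j
  · rw [if_pos he, one_mul]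
    exact Mat5_dn_norm h f j r
  · rw [if_neg he, mul_one]
    exact Mat5_up_norm h f j r

theorem Mat5_prod (h : ℕ → B) (f : ℕ → ℕ) (N r : ℕ) (hf : ∀ s, s < r → f s < N) :
    ∏ j ∈ Finset.range N, ∏ s ∈ Finset.range r, (if f s = j then ‖h s‖ else 1)
      = ∏ s ∈ Finset.range r, ‖h s‖ := by
  rw [Finset.prod_comm]
  refine Finset.prod_congr rfl fun s hs => ?_
  rw [Finset.prod_ite_eq, if_pos (Finset.mem_range.mpr (hf s (Finset.mem_range.mp hs)))]

end slotlemmas

theorem slots_coch {B : Type} [CStarAlgebra B] {N : ℕ} {Θ : Form B} (h : IsCoch N Θ) (f : ℕ → ℕ)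
    (r : ℕ) (hf : ∀ s, s < r → f s < N) :
    IsCoch r (fun k Y => Θ (slots k f r (fun _ => 1)) Y) := by
  obtain ⟨C, hC⟩ := h
  refine ⟨C, ?_⟩
  refine ⟨hC.nonneg, ?_, ?_, ?_, ?_, ?_, ?_⟩
  · intro w w' y hw
    apply hC.dep
    intro i _
    simp only [slots]
    rw [Mat5_dn_congr (h := w) (h' := w') f i r hw, Mat5_up_congr (h := w) (h' := w') f i r hw]
  · intro i hi w a b y
    obtain ⟨L, R, hLR⟩ := Mat5_slots_update w f hi
    rw [hLR, hLR, hLR, mul_add, add_mul]
    exact hC.add (f i) (hf i hi) _ _ _ _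
  · intro i hi w c a y
    obtain ⟨L, R, hLR⟩ := Mat5_slots_update w f hi
    rw [hLR, hLR, mul_smul_comm, smul_mul_assoc]
    exact hC.smul (f i) (hf i hi) _ _ _ _
  · intro w a b
    exact hC.addy _ _ _
  · intro w c a
    exact hC.smuly _ _ _
  · intro w y
    refine (hC.bound _ _).trans ?_
    refine mul_le_mul_of_nonneg_right ?_ (norm_nonneg _)
    refine mul_le_mul_of_nonneg_left ?_ hC.nonneg
    rw [← Mat5_prod w f N r hf]
    exact Finset.prod_le_prod (fun j _ => norm_nonneg _) (fun j _ => Mat5_slots_norm w f r j)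

theorem Th_coch {B : Type} [CStarAlgebra B] {n : ℕ} {F : Form B} (h : IsCoch (n + 1) F) :
    IsCoch (NN n) (Th n F) := by
  obtain ⟨C, hC⟩ := h
  by_cases he : Even (n + 1)
  · have h1 : NN n = n + 1 := if_pos he
    have h2 : Th n F = F := by
      funext c Y
      simp only [Th]
      rw [if_pos he]
    rw [h1, h2]
    exact ⟨C, hC⟩
  · have h1 : NN n = n + 2 := if_neg he
    have h2 : Th n F = fun c Y => F c (c (n + 1) * Y) := by
      funext c Y
      simp only [Th]
      rw [if_neg he]
    rw [h1, h2]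
    refine ⟨C, hC.nonneg, ?_, ?_, ?_, ?_, ?_, ?_⟩
    · intro w w' y hw
      rw [hw (n + 1) (by omega)]
      exact hC.dep w w' _ (fun i hi => hw i (by omega))
    · intro i hi w a b y
      by_cases hin : i = n + 1
      · subst hin
        rw [Function.update_self, Function.update_self, Function.update_self, add_mul, hC.addy]
        rw [hC.dep (Function.update w (n + 1) (a + b)) (Function.update w (n + 1) a) _
          (fun j hj => by rw [Function.update_of_ne (by omega), Function.update_of_ne (by omega)]),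
          hC.dep (Function.update w (n + 1) (a + b)) (Function.update w (n + 1) b) _
          (fun j hj => by rw [Function.update_of_ne (by omega), Function.update_of_ne (by omega)])]
      · rw [Function.update_of_ne (Ne.symm hin), Function.update_of_ne (Ne.symm hin),
          Function.update_of_ne (Ne.symm hin)]
        exact hC.add i (by omega) _ _ _ _
    · intro i hi w c a y
      by_cases hin : i = n + 1
      · subst hin
        rw [Function.update_self, Function.update_self, smul_mul_assoc, hC.smuly]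
        rw [hC.dep (Function.update w (n + 1) (c • a)) (Function.update w (n + 1) a) _
          (fun j hj => by rw [Function.update_of_ne (by omega), Function.update_of_ne (by omega)])]
      · rw [Function.update_of_ne (Ne.symm hin), Function.update_of_ne (Ne.symm hin)]
        exact hC.smul i (by omega) _ _ _ _
    · intro w a b
      rw [mul_add]
      exact hC.addy _ _ _
    · intro w c a
      rw [mul_smul_comm]
      exact hC.smuly _ _ _
    · intro w y
      refine (hC.bound _ _).trans ?_
      rw [Finset.prod_range_succ _ (n + 1)]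
      have h3 : 0 ≤ C * ∏ i ∈ Finset.range (n + 1), ‖w i‖ :=
        mul_nonneg hC.nonneg (Finset.prod_nonneg fun i _ => norm_nonneg _)
      calc C * (∏ i ∈ Finset.range (n + 1), ‖w i‖) * ‖w (n + 1) * y‖
          ≤ C * (∏ i ∈ Finset.range (n + 1), ‖w i‖) * (‖w (n + 1)‖ * ‖y‖) :=
            mul_le_mul_of_nonneg_left (norm_mul_le _ _) h3
        _ = C * ((∏ i ∈ Finset.range (n + 1), ‖w i‖) * ‖w (n + 1)‖) * ‖y‖ := by ring

section hElemmas
variable {A : Type} [CStarAlgebra A] [PartialOrder A] [StarOrderedRing A]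

theorem Mat5_hE_norm (n : ℕ) (x : ℕ → A) (s : ℕ) : ‖hE n x s‖ ≤ ‖x s‖ := by
  unfold hE
  split_ifs with hs
  · exact Emat_norm _ _ _
  · rw [norm_zero]
    exact norm_nonneg _

theorem Mat5_hE_congr (n : ℕ) (x x' : ℕ → A) (s : ℕ) (h : s ≤ n → x s = x' s) :
    hE n x s = hE n x' s := by
  unfold hE
  split_ifs with hs
  · rw [h hs]
  · rfl

theorem Mat5_hE_self (n : ℕ) (x : ℕ → A) (i : ℕ) (hi : i ≤ n) (a : A) :
    hE n (Function.update x i a) i = Emat ⟨i, by omega⟩ ⟨i + 1, by omega⟩ a := by
  unfold hE
  rw [dif_pos hi, Function.update_self]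

end hElemmas

/-- permuted version: slot `j` gets `h_{σ j}`, `σ` a permutation of `{0..n}` -/
theorem comp_hE_perm {A : Type} [CStarAlgebra A] [PartialOrder A] [StarOrderedRing A] {n : ℕ}
    {Ψ : Form (MM (n + 2) A)} (h : IsCoch (n + 1) Ψ) (σ : ℕ → ℕ) (hσ : ∀ j, j ≤ n → σ j ≤ n)
    (hinj : ∀ i j, i ≤ n → j ≤ n → σ i = σ j → i = j) :
    IsCoch (n + 1) (fun x y => Ψ (fun j => hE n x (σ j)) (Y0 n y)) := by
  obtain ⟨C, hC⟩ := h
  have hsurj : ∀ i, i ≤ n → ∃ j, j ≤ n ∧ σ j = i := by
    intro i hi
    have h1 : Set.SurjOn σ (Finset.range (n + 1) : Set ℕ) (Finset.range (n + 1) : Set ℕ) := by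
      apply Finset.surjOn_of_injOn_of_card_le σ
      · intro j hj
        rw [Finset.coe_range, Set.mem_Iio] at hj ⊢
        have := hσ j (by omega)
        omega
      · intro j hj j' hj' hjj
        rw [Finset.coe_range, Set.mem_Iio] at hj hj'
        exact hinj j j' (by omega) (by omega) hjj
      · exact le_refl _
    have h2 : i ∈ (Finset.range (n + 1) : Set ℕ) := by
      rw [Finset.coe_range, Set.mem_Iio]
      omega
    obtain ⟨j, hj, hji⟩ := h1 h2
    rw [Finset.coe_range, Set.mem_Iio] at hj
    exact ⟨j, by omega, hji⟩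
  have hupd : ∀ (x : ℕ → A) (i j : ℕ) (hi : i ≤ n), j ≤ n → σ j = i → ∀ (a : A) (Y : MM (n + 2) A),
      Ψ (fun j => hE n (Function.update x i a) (σ j)) Y
        = Ψ (Function.update (fun j => hE n x (σ j)) j
            (Emat ⟨i, by omega⟩ ⟨i + 1, by omega⟩ a)) Y := by
    intro x i j hi hj hji a Y
    apply hC.dep
    intro k hk
    by_cases hkj : k = j
    · subst hkj
      rw [Function.update_self, hji]
      exact Mat5_hE_self n x i hi a
    · rw [Function.update_of_ne hkj]
      apply Mat5_hE_congr
      intro _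
      rw [Function.update_of_ne]
      intro hki
      exact hkj (hinj k j (by omega) hj (hki.trans hji.symm))
  refine ⟨C, hC.nonneg, ?_, ?_, ?_, ?_, ?_, ?_⟩
  · intro w w' y hw
    apply hC.dep
    intro i hi
    apply Mat5_hE_congr
    intro hs
    exact hw _ (by omega)
  · intro i hi w a b y
    obtain ⟨j, hj, hji⟩ := hsurj i (by omega)
    rw [hupd w i j (by omega) hj hji, hupd w i j (by omega) hj hji, hupd w i j (by omega) hj hji,
      Emat_add]
    exact hC.add j (by omega) _ _ _ _
  · intro i hi w c a y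
    obtain ⟨j, hj, hji⟩ := hsurj i (by omega)
    rw [hupd w i j (by omega) hj hji, hupd w i j (by omega) hj hji, Emat_smul]
    exact hC.smul j (by omega) _ _ _ _
  · intro w a b
    simp only [Y0]
    rw [Emat_add]
    exact hC.addy _ _ _
  · intro w c a
    simp only [Y0]
    rw [Emat_smul]
    exact hC.smuly _ _ _
  · intro w y
    refine (hC.bound _ _).trans ?_
    have h1 : ‖Y0 n y‖ ≤ ‖y‖ := Emat_norm _ _ _
    have h2 : ∏ i ∈ Finset.range (n + 1), ‖hE n w (σ i)‖ ≤ ∏ i ∈ Finset.range (n + 1), ‖w i‖ := by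
      have h3 : ∏ i ∈ Finset.range (n + 1), ‖w (σ i)‖ = ∏ i ∈ Finset.range (n + 1), ‖w i‖ := by
        refine Finset.prod_nbij σ ?_ ?_ ?_ ?_
        · intro j hj
          rw [Finset.mem_range] at hj ⊢
          have := hσ j (by omega)
          omega
        · intro j hj j' hj' hjj
          rw [Finset.coe_range, Set.mem_Iio] at hj hj'
          exact hinj j j' (by omega) (by omega) hjj
        · intro i hi
          rw [Finset.coe_range, Set.mem_Iio] at hi
          obtain ⟨j, hj, hji⟩ := hsurj i (by omega)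
          refine ⟨j, ?_, hji⟩
          rw [Finset.coe_range, Set.mem_Iio]
          omega
        · intro j _
          rfl
      rw [← h3]
      exact Finset.prod_le_prod (fun j _ => norm_nonneg _) (fun j _ => Mat5_hE_norm n w (σ j))
    have h4 : 0 ≤ ∏ i ∈ Finset.range (n + 1), ‖w i‖ :=
      Finset.prod_nonneg fun i _ => norm_nonneg _
    exact mul_le_mul (mul_le_mul_of_nonneg_left h2 hC.nonneg) h1 (norm_nonneg _)
      (mul_nonneg hC.nonneg h4)

theorem comp_hE {A : Type} [CStarAlgebra A] [PartialOrder A] [StarOrderedRing A] {n : ℕ}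
    {Ψ : Form (MM (n + 2) A)} (h : IsCoch (n + 1) Ψ) :
    IsCoch (n + 1) (fun x y => Ψ (hE n x) (Y0 n y)) := by
  exact comp_hE_perm h (fun j => j) (fun j hj => hj) (fun i j _ _ hij => hij)

end Pool.MP263F
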