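import Pool.Agent.Lib.MP_263cac_full.MatDefs
import Pool.Agent.Lib.MP_263cac_full.Mat2
set_option autoImplicit false
set_option linter.unusedSectionVars false

/-! The slot contents for `h_s = E_{s,s+1} x_s`.

`dn_collide`: invariant (induction on `r`): if some `s < r` has `f s = j`, then there is `a < r` with
`dn .. r = E_{a,a}(1) * dn .. r`; so `h_r * dn .. r = 0` if `r+1 ≠ a`.
`up_gap`: invariant: if some `s < r` has `f s = j`, let `b` be the largest such `s`; then
`up .. r = up .. r * E_{b+1,b+1}(1)`; so `up .. r * h_r = 0` unless `b + 1 = r`.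
`up_merge`: `h_s h_{s+1} = E_{s,s+2} (x_s x_{s+1}) = E_{s,s+1}(x_s x_{s+1}) E_{s+1,s+2}(1)`.
`up_indep`, `dn_indep`: contents of `j` only involve `x t` with `f t = j`. -/

namespace Pool.MP263F
variable {A : Type} [CStarAlgebra A] [PartialOrder A] [StarOrderedRing A]

private theorem Mat6_hE {n : ℕ} (x : ℕ → A) {s : ℕ} (h : s ≤ n) :
    hE n x s = Emat ⟨s, by omega⟩ ⟨s + 1, by omega⟩ (x s) := by
  unfold hE
  rw [dif_pos h]

private theorem Mat6_hE_congr {n : ℕ} (x x' : ℕ → A) {s : ℕ} (h : x s = x' s) :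
    hE n x s = hE n x' s := by
  unfold hE
  rw [h]

private theorem Mat6_dn {n : ℕ} (x : ℕ → A) (f : ℕ → ℕ) (j r : ℕ) (hr : r ≤ n + 1)
    (h : ∃ s, s < r ∧ f s = j) : ∃ (a : ℕ) (ha : a < r),
      dn (hE n x) f j r = Emat ⟨a, by omega⟩ ⟨a, by omega⟩ (1 : A) * dn (hE n x) f j r := by
  induction r with
  | zero =>
    obtain ⟨s, hs, _⟩ := h
    exact absurd hs (Nat.not_lt_zero s)
  | succ r ih =>
    by_cases hf : f r = j
    · refine ⟨r, by omega, ?_⟩
      have h1 : dn (hE n x) f j (r + 1) = hE n x r * dn (hE n x) f j r := if_pos hf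
      rw [h1, Mat6_hE x (by omega : r ≤ n), ← mul_assoc, Emat_mul, if_pos rfl, one_mul]
    · have h1 : dn (hE n x) f j (r + 1) = dn (hE n x) f j r := if_neg hf
      obtain ⟨s, hs, hfs⟩ := h
      have hsr : s < r := by
        rcases Nat.lt_succ_iff_lt_or_eq.1 hs with h2 | h2
        · exact h2
        · exact absurd (h2 ▸ hfs) hf
      obtain ⟨a, ha, h3⟩ := ih (by omega) ⟨s, hsr, hfs⟩
      refine ⟨a, by omega, ?_⟩
      rw [h1]
      exact h3

private theorem Mat6_up {n : ℕ} (x : ℕ → A) (f : ℕ → ℕ) (j r : ℕ) (hr : r ≤ n + 1)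
    (h : ∃ s, s < r ∧ f s = j) : ∃ (b : ℕ) (hb : b < r), f b = j ∧
      up (hE n x) f j r = up (hE n x) f j r * Emat ⟨b + 1, by omega⟩ ⟨b + 1, by omega⟩ (1 : A) := by
  induction r with
  | zero =>
    obtain ⟨s, hs, _⟩ := h
    exact absurd hs (Nat.not_lt_zero s)
  | succ r ih =>
    by_cases hf : f r = j
    · refine ⟨r, by omega, hf, ?_⟩
      have h1 : up (hE n x) f j (r + 1) = up (hE n x) f j r * hE n x r := if_pos hf
      rw [h1, Mat6_hE x (by omega : r ≤ n), mul_assoc, Emat_mul, if_pos rfl, mul_one]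
    · have h1 : up (hE n x) f j (r + 1) = up (hE n x) f j r := if_neg hf
      obtain ⟨s, hs, hfs⟩ := h
      have hsr : s < r := by
        rcases Nat.lt_succ_iff_lt_or_eq.1 hs with h2 | h2
        · exact h2
        · exact absurd (h2 ▸ hfs) hf
      obtain ⟨b, hb, hfb, h3⟩ := ih (by omega) ⟨s, hsr, hfs⟩
      refine ⟨b, by omega, hfb, ?_⟩
      rw [h1]
      exact h3

theorem dn_collide {n : ℕ} (x : ℕ → A) (f : ℕ → ℕ) (j r s t : ℕ) (hr : r ≤ n + 1) (hst : s < t)
    (htr : t < r) (hs : f s = j) (ht : f t = j) : dn (hE n x) f j r = 0 := by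
  induction r with
  | zero => exact absurd htr (Nat.not_lt_zero t)
  | succ r ih =>
    rcases Nat.lt_succ_iff_lt_or_eq.1 htr with h2 | h2
    · have h3 := ih (by omega) h2
      by_cases hf : f r = j
      · have h1 : dn (hE n x) f j (r + 1) = hE n x r * dn (hE n x) f j r := if_pos hf
        rw [h1, h3, mul_zero]
      · have h1 : dn (hE n x) f j (r + 1) = dn (hE n x) f j r := if_neg hf
        rw [h1, h3]
    · subst h2
      have h1 : dn (hE n x) f j (t + 1) = hE n x t * dn (hE n x) f j t := if_pos ht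
      obtain ⟨a, ha, h3⟩ := Mat6_dn (n := n) x f j t (by omega) ⟨s, hst, hs⟩
      have hne : ¬ ((⟨t + 1, by omega⟩ : Fin (n + 2)) = (⟨a, by omega⟩ : Fin (n + 2))) := by
        intro h4
        have := congrArg Fin.val h4
        simp only at this
        omega
      rw [h1, h3, Mat6_hE x (by omega : t ≤ n), ← mul_assoc, Emat_mul, if_neg hne, zero_mul]

theorem up_gap {n : ℕ} (x : ℕ → A) (f : ℕ → ℕ) (j r s t : ℕ) (hr : r ≤ n + 1) (hst : s < t)
    (htr : t < r) (hs : f s = j) (ht : f t = j)
    (hno : ∀ a, a + 1 < r → ¬ (f a = j ∧ f (a + 1) = j)) : up (hE n x) f j r = 0 := by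
  induction r with
  | zero => exact absurd htr (Nat.not_lt_zero t)
  | succ r ih =>
    rcases Nat.lt_succ_iff_lt_or_eq.1 htr with h2 | h2
    · have h3 := ih (by omega) h2 (fun a ha => hno a (by omega))
      by_cases hf : f r = j
      · have h1 : up (hE n x) f j (r + 1) = up (hE n x) f j r * hE n x r := if_pos hf
        rw [h1, h3, zero_mul]
      · have h1 : up (hE n x) f j (r + 1) = up (hE n x) f j r := if_neg hf
        rw [h1, h3]
    · subst h2
      have h1 : up (hE n x) f j (t + 1) = up (hE n x) f j t * hE n x t := if_pos ht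
      obtain ⟨b, hb, hfb, h3⟩ := Mat6_up (n := n) x f j t (by omega) ⟨s, hst, hs⟩
      have hbt : b + 1 ≠ t := by
        intro h4
        exact hno b (by omega) ⟨hfb, by rw [h4]; exact ht⟩
      have hne : ¬ ((⟨b + 1, by omega⟩ : Fin (n + 2)) = (⟨t, by omega⟩ : Fin (n + 2))) := by
        intro h4
        exact hbt (congrArg Fin.val h4)
      rw [h1, h3, Mat6_hE x (by omega : t ≤ n), mul_assoc, Emat_mul, if_neg hne, mul_zero]

private theorem Mat6_up_indep {n : ℕ} (x x' : ℕ → A) (f : ℕ → ℕ) (j r : ℕ)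
    (h : ∀ t, t < r → f t = j → x t = x' t) : up (hE n x) f j r = up (hE n x') f j r := by
  induction r with
  | zero => rfl
  | succ r ih =>
    have h3 := ih (fun t ht => h t (by omega))
    by_cases hf : f r = j
    · have h1 : up (hE n x) f j (r + 1) = up (hE n x) f j r * hE n x r := if_pos hf
      have h2 : up (hE n x') f j (r + 1) = up (hE n x') f j r * hE n x' r := if_pos hf
      rw [h1, h2, h3, Mat6_hE_congr x x' (h r (by omega) hf)]
    · have h1 : up (hE n x) f j (r + 1) = up (hE n x) f j r := if_neg hf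
      have h2 : up (hE n x') f j (r + 1) = up (hE n x') f j r := if_neg hf
      rw [h1, h2, h3]

theorem up_merge {n : ℕ} (x : ℕ → A) (f : ℕ → ℕ) (j r s : ℕ) (hr : r ≤ n + 1) (hsr : s + 1 < r)
    (hs : f s = j) (ht : f (s + 1) = j) :
    up (hE n x) f j r
      = up (hE n (Function.update (Function.update x s (x s * x (s + 1))) (s + 1) 1)) f j r := by
  set x' := Function.update (Function.update x s (x s * x (s + 1))) (s + 1) 1 with hx'
  have e0 : x' s = x s * x (s + 1) := by
    rw [hx', Function.update_of_ne (by omega), Function.update_self]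
  have e1 : x' (s + 1) = 1 := by
    rw [hx', Function.update_self]
  have e2 : ∀ t, t ≠ s → t ≠ s + 1 → x t = x' t := by
    intro t h1 h2
    rw [hx', Function.update_of_ne h2, Function.update_of_ne h1]
  obtain ⟨d, rfl⟩ : ∃ d, r = s + 2 + d := ⟨r - (s + 2), by omega⟩
  induction d with
  | zero =>
    have h1 : up (hE n x) f j (s + 2) = up (hE n x) f j s * hE n x s * hE n x (s + 1) := by
      have a1 : up (hE n x) f j (s + 1 + 1) = up (hE n x) f j (s + 1) * hE n x (s + 1) := if_pos ht
      have a2 : up (hE n x) f j (s + 1) = up (hE n x) f j s * hE n x s := if_pos hs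
      rw [← a2, ← a1]
    have h2 : up (hE n x') f j (s + 2) = up (hE n x') f j s * hE n x' s * hE n x' (s + 1) := by
      have a1 : up (hE n x') f j (s + 1 + 1) = up (hE n x') f j (s + 1) * hE n x' (s + 1) :=
        if_pos ht
      have a2 : up (hE n x') f j (s + 1) = up (hE n x') f j s * hE n x' s := if_pos hs
      rw [← a2, ← a1]
    have h3 : up (hE n x) f j s = up (hE n x') f j s :=
      Mat6_up_indep x x' f j s (fun t ht' _ => e2 t (by omega) (by omega))
    rw [add_zero, h1, h2, h3, mul_assoc, mul_assoc]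
    congr 1
    rw [Mat6_hE x (by omega : s ≤ n), Mat6_hE x (by omega : s + 1 ≤ n),
      Mat6_hE x' (by omega : s ≤ n), Mat6_hE x' (by omega : s + 1 ≤ n), Emat_mul, Emat_mul,
      if_pos rfl, if_pos rfl, e0, e1, mul_one]
  | succ d ih =>
    have h3 := ih (by omega) (by omega)
    rw [← add_assoc]
    by_cases hf : f (s + 2 + d) = j
    · have h1 : up (hE n x) f j (s + 2 + d + 1) =
          up (hE n x) f j (s + 2 + d) * hE n x (s + 2 + d) := if_pos hf
      have h2 : up (hE n x') f j (s + 2 + d + 1) =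
          up (hE n x') f j (s + 2 + d) * hE n x' (s + 2 + d) := if_pos hf
      rw [h1, h2, h3, Mat6_hE_congr x x' (e2 (s + 2 + d) (by omega) (by omega))]
    · have h1 : up (hE n x) f j (s + 2 + d + 1) = up (hE n x) f j (s + 2 + d) := if_neg hf
      have h2 : up (hE n x') f j (s + 2 + d + 1) = up (hE n x') f j (s + 2 + d) := if_neg hf
      rw [h1, h2, h3]

theorem up_indep {n : ℕ} (x x' : ℕ → A) (f : ℕ → ℕ) (j r : ℕ)
    (h : ∀ t, t < r → f t = j → x t = x' t) : up (hE n x) f j r = up (hE n x') f j r :=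
  Mat6_up_indep x x' f j r h

theorem dn_indep {n : ℕ} (x x' : ℕ → A) (f : ℕ → ℕ) (j r : ℕ)
    (h : ∀ t, t < r → f t = j → x t = x' t) : dn (hE n x) f j r = dn (hE n x') f j r := by
  induction r with
  | zero => rfl
  | succ r ih =>
    have h3 := ih (fun t ht => h t (by omega))
    by_cases hf : f r = j
    · have h1 : dn (hE n x) f j (r + 1) = hE n x r * dn (hE n x) f j r := if_pos hf
      have h2 : dn (hE n x') f j (r + 1) = hE n x' r * dn (hE n x') f j r := if_pos hf
      rw [h1, h2, h3, Mat6_hE_congr x x' (h r (by omega) hf)]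
    · have h1 : dn (hE n x) f j (r + 1) = dn (hE n x) f j r := if_neg hf
      have h2 : dn (hE n x') f j (r + 1) = dn (hE n x') f j r := if_neg hf
      rw [h1, h2, h3]

/-- empty slot -/
theorem up_empty {B : Type} [Ring B] (h : ℕ → B) (f : ℕ → ℕ) (j r : ℕ) (hf : ∀ t, t < r → f t ≠ j) :
    up h f j r = 1 := by
  induction r with
  | zero => rfl
  | succ r ih =>
    have h1 : up h f j (r + 1) = up h f j r := if_neg (hf r (by omega))
    rw [h1]
    exact ih (fun t ht => hf t (by omega))

theorem dn_empty {B : Type} [Ring B] (h : ℕ → B) (f : ℕ → ℕ) (j r : ℕ) (hf : ∀ t, t < r → f t ≠ j) :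
    dn h f j r = 1 := by
  induction r with
  | zero => rfl
  | succ r ih =>
    have h1 : dn h f j (r + 1) = dn h f j r := if_neg (hf r (by omega))
    rw [h1]
    exact ih (fun t ht => hf t (by omega))

/-- slot with exactly one entry -/
theorem up_single {B : Type} [Ring B] (h : ℕ → B) (f : ℕ → ℕ) (j r s : ℕ) (hs : s < r)
    (hj : f s = j) (hf : ∀ t, t < r → f t = j → t = s) : up h f j r = h s := by
  induction r with
  | zero => exact absurd hs (Nat.not_lt_zero s)
  | succ r ih =>
    rcases Nat.lt_succ_iff_lt_or_eq.1 hs with h2 | h2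
    · have h3 : ¬ f r = j := fun h4 => by
        have := hf r (by omega) h4
        omega
      have h1 : up h f j (r + 1) = up h f j r := if_neg h3
      rw [h1]
      exact ih h2 (fun t ht => hf t (by omega))
    · subst h2
      have h1 : up h f j (s + 1) = up h f j s * h s := if_pos hj
      have h3 : up h f j s = 1 := up_empty h f j s (fun t ht h4 => by
        have := hf t (by omega) h4
        omega)
      rw [h1, h3, one_mul]

theorem dn_single {B : Type} [Ring B] (h : ℕ → B) (f : ℕ → ℕ) (j r s : ℕ) (hs : s < r)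
    (hj : f s = j) (hf : ∀ t, t < r → f t = j → t = s) : dn h f j r = h s := by
  induction r with
  | zero => exact absurd hs (Nat.not_lt_zero s)
  | succ r ih =>
    rcases Nat.lt_succ_iff_lt_or_eq.1 hs with h2 | h2
    · have h3 : ¬ f r = j := fun h4 => by
        have := hf r (by omega) h4
        omega
      have h1 : dn h f j (r + 1) = dn h f j r := if_neg h3
      rw [h1]
      exact ih h2 (fun t ht => hf t (by omega))
    · subst h2
      have h1 : dn h f j (s + 1) = h s * dn h f j s := if_pos hj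
      have h3 : dn h f j s = 1 := dn_empty h f j s (fun t ht h4 => by
        have := hf t (by omega) h4
        omega)
      rw [h1, h3, mul_one]

end Pool.MP263F
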