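import Pool.Agent.Lib.MP_263cac_full.Mat5
import Pool.Agent.Lib.MP_263cac_full.Mat6
set_option autoImplicit false

/-! JOB Mat7: permutation terms and the main term. `F = amp φ + Σ_k dd n k (η k)`.

`amp_perm`: `amp (n+2) (n+1) φ (j ↦ h_{σ j}) (Y0 y) = Σ_f φ(..)`: a nonzero term needs `f 0 = 0`,
`f (last) = n+1`, `f i = σ i`, `f (i+1) = σ i + 1` for all `i ≤ n`, so `σ 0 = 0`, `σ (i+1) = σ i + 1`,
i.e. `σ = id` on `{0..n}`; for `σ = id` exactly `f i = i` contributes `φ x y`.
`dd_perm_inD`: `k = 0`: `Y0 y * h_{σ 0} = E_{n+1,0} y E_{σ0,σ0+1} x_{σ0}` is `0` unless `σ 0 = 0`, and then it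
is `E_{n+1,1} (y x_0)`: use `IsInD.of_deg_zero` (`x_0` does not occur in the other slots).
`1 ≤ k ≤ n`: `h_{σ(k-1)} h_{σ k} = 0` unless `σ k = σ(k-1) + 1 =: s+1`, and then it is
`E_{s,s+2}(x_s x_{s+1})`: use `IsInD.of_deg_mid` with `k' = s+1`.
`k = n+1`: `h_{σ n} * Y0 y = 0` unless `σ n = n`: then `E_{n,0} (x_n y)`: `IsInD.of_deg_last`.
The `IsCoch` hypotheses come from `comp_hE_perm` applied to `dd n k η` (`IsCoch.dd`). -/

namespace Pool.MP263F
variable {A : Type} [CStarAlgebra A] [PartialOrder A] [StarOrderedRing A]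

private theorem Mat7_hE_apply {n : ℕ} (x : ℕ → A) (s : ℕ) (hs : s ≤ n) (p q : Fin (n + 2)) :
    hE n x s p q = if (p : ℕ) = s ∧ (q : ℕ) = s + 1 then x s else 0 := by
  unfold hE Emat
  rw [dif_pos hs]
  simp only [CStarMatrix.ofMatrix_apply, Matrix.of_apply, Fin.ext_iff]

private theorem Mat7_Y0_apply {n : ℕ} (y : A) (p q : Fin (n + 2)) :
    Y0 n y p q = if (p : ℕ) = n + 1 ∧ (q : ℕ) = 0 then y else 0 := by
  unfold Y0 Emat
  simp only [CStarMatrix.ofMatrix_apply, Matrix.of_apply, Fin.ext_iff]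

/-- one term of the amplification vanishes unless the indices match -/
private theorem Mat7_term {n : ℕ} {φ : Form A} (hφ : IsCoch (n + 1) φ) (σ : ℕ → ℕ)
    (hσ : ∀ j, j ≤ n → σ j ≤ n) (x : ℕ → A) (y : A) (f : Fin (n + 2) → Fin (n + 2))
    (hne : φ (fun i => if h : i < n + 1 then
        hE n x (σ i) (f ⟨i, by omega⟩) (f ⟨i + 1, by omega⟩) else 0)
      (Y0 n y (f (Fin.last (n + 1))) (f 0)) ≠ 0) :
    (∀ i : ℕ, ∀ hi : i < n + 1, (f ⟨i, by omega⟩ : ℕ) = σ i ∧ (f ⟨i + 1, by omega⟩ : ℕ) = σ i + 1)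
      ∧ (f (Fin.last (n + 1)) : ℕ) = n + 1 ∧ (f 0 : ℕ) = 0 := by
  obtain ⟨C, hC⟩ := hφ
  constructor
  · intro i hi
    by_contra hcon
    apply hne
    apply hC.zero_slot (i := i) hi
    simp only [hi, dif_pos]
    rw [Mat7_hE_apply x (σ i) (hσ i (by omega)), if_neg hcon]
  · by_contra hcon
    apply hne
    rw [Mat7_Y0_apply, if_neg hcon]
    exact hC.zero_last _

theorem amp_perm {n : ℕ} {φ : Form A} (hφ : IsCoch (n + 1) φ) (σ : ℕ → ℕ)
    (hσ : ∀ j, j ≤ n → σ j ≤ n) (hne : ∃ j, j ≤ n ∧ σ j ≠ j) (x : ℕ → A) (y : A) :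
    amp (n + 2) (n + 1) φ (fun j => hE n x (σ j)) (Y0 n y) = 0 := by
  unfold amp
  apply Finset.sum_eq_zero
  intro f _
  by_contra hcon
  obtain ⟨h1, h2, h3⟩ := Mat7_term hφ σ hσ x y f hcon
  obtain ⟨j, hj, hjne⟩ := hne
  apply hjne
  have key : ∀ i : ℕ, i ≤ n → σ i = i := by
    intro i
    induction i with
    | zero =>
      intro _
      have := (h1 0 (by omega)).1
      rw [← this]
      exact h3
    | succ i ih =>
      intro hi
      have e1 := (h1 i (by omega)).2
      have e2 := (h1 (i + 1) (by omega)).1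
      rw [← e2, e1, ih (by omega)]
  exact key j hj

theorem amp_id {n : ℕ} {φ : Form A} (hφ : IsCoch (n + 1) φ) (x : ℕ → A) (y : A) :
    amp (n + 2) (n + 1) φ (hE n x) (Y0 n y) = φ x y := by
  unfold amp
  rw [Finset.sum_eq_single (fun i => i)]
  · have hY : Y0 n y (Fin.last (n + 1)) 0 = y := by
      rw [Mat7_Y0_apply, if_pos]
      exact ⟨rfl, rfl⟩
    rw [hY]
    obtain ⟨C, hC⟩ := hφ
    apply hC.dep
    intro i hi
    simp only [hi, dif_pos]
    rw [Mat7_hE_apply x i (by omega), if_pos]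
    exact ⟨rfl, rfl⟩
  · intro f _ hf
    by_contra hcon
    obtain ⟨h1, h2, h3⟩ := Mat7_term hφ (fun j => j) (fun j hj => hj) x y f hcon
    apply hf
    funext i
    apply Fin.ext
    by_cases hi : (i : ℕ) < n + 1
    · have := (h1 i hi).1
      simpa using this
    · have hi' : i = Fin.last (n + 1) := by
        apply Fin.ext
        have := i.2
        simp only [Fin.val_last]
        omega
      rw [hi', h2]
      rfl
  · intro h
    exact absurd (Finset.mem_univ _) h

private theorem Mat7_hE_update {n : ℕ} (x : ℕ → A) (s t : ℕ) (a : A) (h : s ≠ t) :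
    hE n (Function.update x t a) s = hE n x s := by
  unfold hE
  rw [Function.update_of_ne h]

private theorem Mat7_Y0_hE {n : ℕ} (x : ℕ → A) (y : A) (s : ℕ) (hs : s ≤ n) :
    (Y0 n y * hE n x s : MM (n + 2) A)
      = if s = 0 then Emat ⟨n + 1, by omega⟩ ⟨1, by omega⟩ (y * x 0) else 0 := by
  unfold Y0 hE
  rw [dif_pos hs, Emat_mul]
  by_cases h0 : s = 0
  · subst h0
    rw [if_pos rfl, if_pos rfl]
  · rw [if_neg h0, if_neg]
    intro hcon
    apply h0
    have := congrArg Fin.val hcon
    simp only at this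
    omega

private theorem Mat7_hE_Y0 {n : ℕ} (x : ℕ → A) (y : A) (s : ℕ) (hs : s ≤ n) :
    (hE n x s * Y0 n y : MM (n + 2) A)
      = if s = n then Emat ⟨n, by omega⟩ ⟨0, by omega⟩ (x n * y) else 0 := by
  unfold Y0 hE
  rw [dif_pos hs, Emat_mul]
  by_cases h0 : s = n
  · subst h0
    rw [if_pos rfl, if_pos rfl]
  · rw [if_neg h0, if_neg]
    intro hcon
    apply h0
    have := congrArg Fin.val hcon
    simp only at this
    omega

private theorem Mat7_hE_hE {n : ℕ} (x : ℕ → A) (s t : ℕ) (hs : s ≤ n) (ht : t ≤ n) :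
    (hE n x s * hE n x t : MM (n + 2) A)
      = if h : s + 1 = t then Emat ⟨s, by omega⟩ ⟨t + 1, by omega⟩ (x s * x t) else 0 := by
  unfold hE
  rw [dif_pos hs, dif_pos ht, Emat_mul]
  by_cases h0 : s + 1 = t
  · rw [dif_pos h0, if_pos (Fin.ext h0)]
  · rw [dif_neg h0, if_neg]
    intro hcon
    exact h0 (congrArg Fin.val hcon)

theorem dd_perm_inD {n : ℕ} {η : Form (MM (n + 2) A)} (hη : IsCoch n η) (k : ℕ) (hk : k ≤ n + 1)
    (σ : ℕ → ℕ) (hσ : ∀ j, j ≤ n → σ j ≤ n)
    (hinj : ∀ i j, i ≤ n → j ≤ n → σ i = σ j → i = j) :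
    IsInD n (fun x y => dd n k η (fun j => hE n x (σ j)) (Y0 n y)) := by
  have hcoch : IsCoch (n + 1) (fun (x : ℕ → A) (y : A) =>
      dd n k η (fun j => hE n x (σ j)) (Y0 n y)) :=
    comp_hE_perm (hη.dd k hk) σ hσ hinj
  obtain ⟨C, hC⟩ := hη
  by_cases hk0 : k = 0
  · subst hk0
    by_cases hs0 : σ 0 = 0
    · apply IsInD.of_deg_zero hcoch
      intro x y
      simp only [dd, if_true]
      rw [Mat7_Y0_hE x y (σ 0) (hσ 0 (by omega)), if_pos hs0,
        Mat7_Y0_hE _ (y * x 0) (σ 0) (hσ 0 (by omega)), if_pos hs0, Function.update_self, mul_one]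
      apply hC.dep
      intro i hi
      simp only [shift]
      rw [Mat7_hE_update]
      intro hcon
      have := hinj (i + 1) 0 (by omega) (by omega) (by rw [hcon, hs0])
      omega
    · apply (IsInD.zero n).congr
      intro x y
      simp only [dd, if_true]
      rw [Mat7_Y0_hE x y (σ 0) (hσ 0 (by omega)), if_neg hs0]
      exact hC.zero_last _
  · by_cases hkn : k = n + 1
    · subst hkn
      by_cases hs0 : σ n = n
      · apply IsInD.of_deg_last hcoch
        intro x y
        simp only [dd, if_neg hk0, if_true]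
        rw [Mat7_hE_Y0 x y (σ n) (hσ n (by omega)), if_pos hs0,
          Mat7_hE_Y0 _ (x n * y) (σ n) (hσ n (by omega)), if_pos hs0, Function.update_self, one_mul]
        apply hC.dep
        intro i hi
        rw [Mat7_hE_update]
        intro hcon
        have := hinj i n (by omega) (by omega) (by rw [hcon, hs0])
        omega
      · apply (IsInD.zero n).congr
        intro x y
        simp only [dd, if_neg hk0, if_true]
        rw [Mat7_hE_Y0 x y (σ n) (hσ n (by omega)), if_neg hs0]
        exact hC.zero_last _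
    · obtain ⟨m, rfl⟩ : ∃ m, k = m + 1 := ⟨k - 1, by omega⟩
      have hmn : m + 1 ≤ n := by omega
      by_cases hs0 : σ m + 1 = σ (m + 1)
      · have hs1 : σ m + 1 ≤ n := by
          rw [hs0]
          exact hσ _ hmn
        apply IsInD.of_deg_mid hcoch (σ m + 1) (by omega) hs1
        intro x y
        simp only [dd, if_neg hk0, if_neg hkn, Nat.add_sub_cancel]
        apply hC.dep
        intro i hi
        simp only [mrg]
        by_cases h1 : i < m
        · rw [if_pos h1, if_pos h1, Mat7_hE_update, Mat7_hE_update]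
          · intro hcon
            have := hinj i m (by omega) (by omega) hcon
            omega
          · intro hcon
            have := hinj i (m + 1) (by omega) (by omega) (by rw [hcon, hs0])
            omega
        · rw [if_neg h1, if_neg h1]
          by_cases h2 : i = m
          · rw [if_pos h2, if_pos h2, Mat7_hE_hE x (σ m) (σ (m + 1)) (by omega) (by omega),
              dif_pos hs0, Mat7_hE_hE _ (σ m) (σ (m + 1)) (by omega) (by omega), dif_pos hs0]
            congr 1
            rw [← hs0, Function.update_self, Function.update_of_ne (by omega), Function.update_self,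
              mul_one]
          · rw [if_neg h2, if_neg h2, Mat7_hE_update, Mat7_hE_update]
            · intro hcon
              have := hinj (i + 1) m (by omega) (by omega) hcon
              omega
            · intro hcon
              have := hinj (i + 1) (m + 1) (by omega) (by omega) (by rw [hcon, hs0])
              omega
      · apply (IsInD.zero n).congr
        intro x y
        simp only [dd, if_neg hk0, if_neg hkn, Nat.add_sub_cancel]
        apply hC.zero_slot (i := m) (by omega)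
        simp only [mrg, lt_irrefl, if_false, if_true]
        rw [Mat7_hE_hE x (σ m) (σ (m + 1)) (hσ _ (by omega)) (hσ _ (by omega)), dif_neg hs0]

theorem perm_inD {n : ℕ} {φ : Form A} (hφ : IsCoch (n + 1) φ) {F : Form (MM (n + 2) A)}
    (hF : IsCoch (n + 1) F) (hD : IsInD n (fun w y => F w y - amp (n + 2) (n + 1) φ w y))
    (σ : ℕ → ℕ) (hσ : ∀ j, j ≤ n → σ j ≤ n)
    (hinj : ∀ i j, i ≤ n → j ≤ n → σ i = σ j → i = j) (hne : ∃ j, j ≤ n ∧ σ j ≠ j) :
    IsInD n (fun x y => F (fun j => hE n x (σ j)) (Y0 n y)) := by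
  obtain ⟨K, η, hη, hs⟩ := hD
  have hsum : IsInD n (fun (x : ℕ → A) (y : A) => ∑ k ∈ Finset.range (n + 2),
      dd n k (η k) (fun j => hE n x (σ j)) (Y0 n y)) :=
    IsInD.sum _ (fun k x y => dd n k (η k) (fun j => hE n x (σ j)) (Y0 n y)) (fun k hk =>
      dd_perm_inD ⟨K, hη k⟩ k (by have := Finset.mem_range.mp hk; omega) σ hσ hinj)
  apply hsum.congr
  intro x y
  have := hs (fun j => hE n x (σ j)) (Y0 n y)
  simp only at this
  rw [amp_perm hφ σ hσ hne, sub_zero] at this
  exact this

theorem main_inD {n : ℕ} {φ : Form A} (hφ : IsCoch (n + 1) φ) {F : Form (MM (n + 2) A)}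
    (hF : IsCoch (n + 1) F) (hD : IsInD n (fun w y => F w y - amp (n + 2) (n + 1) φ w y)) :
    IsInD n (fun x y => F (hE n x) (Y0 n y) - φ x y) := by
  obtain ⟨K, η, hη, hs⟩ := hD
  have hsum : IsInD n (fun (x : ℕ → A) (y : A) => ∑ k ∈ Finset.range (n + 2),
      dd n k (η k) (fun j => hE n x ((fun i => i) j)) (Y0 n y)) :=
    IsInD.sum _ (fun k x y => dd n k (η k) (fun j => hE n x ((fun i => i) j)) (Y0 n y))
      (fun k hk =>
      dd_perm_inD ⟨K, hη k⟩ k (by have := Finset.mem_range.mp hk; omega) (fun i => i)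
        (fun j hj => hj) (fun i j _ _ h => h))
  apply hsum.congr
  intro x y
  have := hs (hE n x) (Y0 n y)
  simp only at this
  rw [amp_id hφ] at this
  exact this

end Pool.MP263F
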