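import Pool.Agent.Lib.MP_263cac_full.Mat7
set_option autoImplicit false

/-! JOB Mat8: every term except the identity term is in `D`.

Proof.  `Ψ x y = Th n F (slots (hE n x) f (n+1) 1) (Y0 n y)`; it is a bounded cochain by `Th_coch`,
`slots_coch`, `comp_hE`.
(A) `∃ s < t ≤ n`, `f s = f t = j`.  (A1) `j` even: `dn_collide` makes slot `j` zero (`j < n+1`: if
`NN n = n+2` then `n+1` is odd so `j ≠ n+1`), so `Ψ = 0` (`Coch.zero_slot`).  (A2) `j` odd and
`∃ a`, `a+1 ≤ n`, `f a = f (a+1) = j`: `IsInD.of_deg_mid` with `k = a+1`, using `up_merge` for slot `j` and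
`up_indep`/`dn_indep` for the others.  (A3) `j` odd, no such `a`: `up_gap`, slot `j` (or for `j = n+1` the
last argument `c (n+1) * Y`) is zero, so `Ψ = 0`.
(B) `f` injective on `{0..n}` and `f s = n+1` for some `s ≤ n` (so `NN n = n+2`, `n+1` odd): content of slot
`n+1` is `h_s` (`up_single`), `h_s * Y0 y = 0` unless `s = n`; for `s = n`: `E_{n,0}(x_n y)`,
`IsInD.of_deg_last`.
(C) `f` injective on `{0..n}` with values `≤ n`: it is a permutation of `{0..n}`; let `σ` be the inverse;
slot `j ≤ n` has content `h_{σ j}` (`up_single`, `dn_single`), slot `n+1` (if used) is `1` (`up_empty`), so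
`Ψ x y = F (j ↦ h_{σ j}) (Y0 y)` (`dep`), and `perm_inD` applies (`σ ≠ id` as `f ≠ id`). -/

namespace Pool.MP263F
variable {A : Type} [CStarAlgebra A] [PartialOrder A] [StarOrderedRing A]

private theorem Mat8_slots {B : Type} [Ring B] (h : ℕ → B) (f : ℕ → ℕ) (r j : ℕ) :
    slots h f r (fun _ => 1) j = if Even j then dn h f j r else up h f j r := by
  unfold slots
  by_cases hj : Even j
  · rw [if_pos hj, if_pos hj, one_mul]
  · rw [if_neg hj, if_neg hj, mul_one]

private theorem Mat8_NN_even {n : ℕ} (h : Even (n + 1)) : NN n = n + 1 := by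
  unfold NN
  rw [if_pos h]

private theorem Mat8_NN_odd {n : ℕ} (h : ¬ Even (n + 1)) : NN n = n + 2 := by
  unfold NN
  rw [if_neg h]

private theorem Mat8_hE_Y0 {n : ℕ} (x : ℕ → A) (y : A) (s : ℕ) (hs : s ≤ n) :
    (hE n x s * Y0 n y : MM (n + 2) A)
      = if s = n then Emat ⟨n, by omega⟩ ⟨0, by omega⟩ (x n * y) else 0 := by
  unfold Y0 hE
  rw [dif_pos hs, Emat_mul]
  by_cases h0 : s = n
  · subst h0
    rw [if_pos rfl, if_pos rfl]
  · rw [if_neg h0, if_neg]
    intro hcon
    apply h0
    have := congrArg Fin.val hcon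
    simp only at this
    omega

/-- a zero slot makes the form vanish -/
private theorem Mat8_zero {n : ℕ} {F : Form (MM (n + 2) A)} (hF : IsCoch (n + 1) F)
    (c : ℕ → MM (n + 2) A) (Y : MM (n + 2) A) (j : ℕ) (hj : j < NN n) (hc : c j = 0) :
    Th n F c Y = 0 := by
  obtain ⟨C, hC⟩ := hF
  unfold Th
  by_cases hjn : j < n + 1
  · exact hC.zero_slot hjn _ _ hc
  · by_cases he : Even (n + 1)
    · rw [Mat8_NN_even he] at hj
      omega
    · rw [Mat8_NN_odd he] at hj
      have hj' : j = n + 1 := by omega
      subst hj'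
      rw [if_neg he, hc, zero_mul]
      exact hC.zero_last _

/-- the slots only see the entries of `x` used there -/
private theorem Mat8_indep {n : ℕ} (x x' : ℕ → A) (f : ℕ → ℕ) (j r : ℕ)
    (h : ∀ t, t < r → f t = j → x t = x' t) :
    slots (hE n x) f r (fun _ => 1) j = slots (hE n x') f r (fun _ => 1) j := by
  rw [Mat8_slots, Mat8_slots]
  by_cases hj : Even j
  · rw [if_pos hj, if_pos hj]
    exact dn_indep x x' f j r h
  · rw [if_neg hj, if_neg hj]
    exact up_indep x x' f j r h

private theorem Mat8_single {n : ℕ} (x : ℕ → A) (f : ℕ → ℕ) (j r s : ℕ) (hs : s < r)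
    (hj : f s = j) (hf : ∀ t, t < r → f t = j → t = s) :
    slots (hE n x) f r (fun _ => 1) j = hE n x s := by
  rw [Mat8_slots]
  by_cases he : Even j
  · rw [if_pos he]
    exact dn_single _ f j r s hs hj hf
  · rw [if_neg he]
    exact up_single _ f j r s hs hj hf

private theorem Mat8_empty {n : ℕ} (x : ℕ → A) (f : ℕ → ℕ) (j r : ℕ)
    (hf : ∀ t, t < r → f t ≠ j) :
    slots (hE n x) f r (fun _ => 1) j = 1 := by
  rw [Mat8_slots]
  by_cases he : Even j
  · rw [if_pos he]
    exact dn_empty _ f j r hf
  · rw [if_neg he]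
    exact up_empty _ f j r hf

/-- the permutation case: slot contents -/
private theorem Mat8_perm {n : ℕ} {F : Form (MM (n + 2) A)} (hF : IsCoch (n + 1) F)
    (f σ : ℕ → ℕ) (hf : ∀ s, s ≤ n → f s ≤ n)
    (hinj : ∀ s t, s ≤ n → t ≤ n → f s = f t → s = t)
    (hσ : ∀ j, j ≤ n → σ j ≤ n) (hfσ : ∀ j, j ≤ n → f (σ j) = j) (x : ℕ → A) (y : A) :
    Th n F (slots (hE n x) f (n + 1) (fun _ => 1)) (Y0 n y)
      = F (fun j => hE n x (σ j)) (Y0 n y) := by
  obtain ⟨C, hC⟩ := hF
  have hlast : (if Even (n + 1) then Y0 n y
      else slots (hE n x) f (n + 1) (fun _ => 1) (n + 1) * Y0 n y : MM (n + 2) A) = Y0 n y := by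
    by_cases he : Even (n + 1)
    · rw [if_pos he]
    · rw [if_neg he, Mat8_empty x f (n + 1) (n + 1) (fun t ht h => by
        have := hf t (by omega)
        omega), one_mul]
  unfold Th
  rw [hlast]
  apply hC.dep
  intro i hi
  exact Mat8_single x f i (n + 1) (σ i) (by have := hσ i (by omega); omega) (hfσ i (by omega))
    (fun t ht h => hinj t (σ i) (by omega) (hσ i (by omega)) (by rw [h, hfσ i (by omega)]))

theorem term_inD {n : ℕ} {φ : Form A} (hφ : IsCoch (n + 1) φ) {F : Form (MM (n + 2) A)}
    (hF : IsCoch (n + 1) F) (hD : IsInD n (fun w y => F w y - amp (n + 2) (n + 1) φ w y))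
    (f : ℕ → ℕ) (hf : ∀ s, s ≤ n → f s < NN n) (hne : ∃ s, s ≤ n ∧ f s ≠ s) :
    IsInD n (fun x y => Th n F (slots (hE n x) f (n + 1) (fun _ => 1)) (Y0 n y)) := by
  have hcoch : IsCoch (n + 1) (fun (x : ℕ → A) (y : A) =>
      Th n F (slots (hE n x) f (n + 1) (fun _ => 1)) (Y0 n y)) :=
    comp_hE (slots_coch (Th_coch hF) f (n + 1) (fun s hs => hf s (by omega)))
  by_cases hA : ∃ s t, s < t ∧ t ≤ n ∧ f s = f t
  · obtain ⟨s, t, hst, htn, hfst⟩ := hA
    by_cases he : Even (f s)
    · -- (A1)
      apply (IsInD.zero n).congr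
      intro x y
      apply Mat8_zero hF _ _ (f s) (hf s (by omega))
      rw [Mat8_slots, if_pos he]
      exact dn_collide x f (f s) (n + 1) s t le_rfl hst (by omega) rfl hfst.symm
    · by_cases ha : ∃ a, a + 1 ≤ n ∧ f a = f s ∧ f (a + 1) = f s
      · -- (A2)
        obtain ⟨a, han, ha1, ha2⟩ := ha
        apply IsInD.of_deg_mid hcoch (a + 1) (by omega) han
        intro x y
        have hsl : slots (hE n x) f (n + 1) (fun _ => 1)
            = slots (hE n (Function.update (Function.update x a (x a * x (a + 1))) (a + 1) 1))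
                f (n + 1) (fun _ => 1) := by
          funext j
          by_cases hj : j = f s
          · subst hj
            rw [Mat8_slots, Mat8_slots, if_neg he, if_neg he]
            exact up_merge x f (f s) (n + 1) a le_rfl (by omega) ha1 ha2
          · apply Mat8_indep
            intro t' ht' hft'
            rw [Function.update_of_ne, Function.update_of_ne]
            · intro hcon
              subst hcon
              exact hj (by rw [← hft', ha1])
            · intro hcon
              subst hcon
              exact hj (by rw [← hft', ha2])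
        simp only [Nat.add_sub_cancel]
        rw [hsl]
      · -- (A3)
        apply (IsInD.zero n).congr
        intro x y
        apply Mat8_zero hF _ _ (f s) (hf s (by omega))
        rw [Mat8_slots, if_neg he]
        exact up_gap x f (f s) (n + 1) s t le_rfl hst (by omega) rfl hfst.symm
          (fun a ha' hcon => ha ⟨a, by omega, hcon.1, hcon.2⟩)
  · have hinj : ∀ s t, s ≤ n → t ≤ n → f s = f t → s = t := by
      intro s t hs ht hst
      rcases Nat.lt_trichotomy s t with h | h | h
      · exact absurd ⟨s, t, h, ht, hst⟩ hA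
      · exact h
      · exact absurd ⟨t, s, h, hs, hst.symm⟩ hA
    by_cases hB : ∃ s, s ≤ n ∧ f s = n + 1
    · obtain ⟨s, hs, hfs⟩ := hB
      have hodd : ¬ Even (n + 1) := by
        intro he
        have := hf s hs
        rw [Mat8_NN_even he] at this
        omega
      have hlast : ∀ (x : ℕ → A), slots (hE n x) f (n + 1) (fun _ => 1) (n + 1) = hE n x s := by
        intro x
        exact Mat8_single x f (n + 1) (n + 1) s (by omega) hfs
          (fun t ht h => hinj t s (by omega) hs (by rw [h, hfs]))
      obtain ⟨C, hC⟩ := hF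
      by_cases hsn : s = n
      · subst hsn
        apply IsInD.of_deg_last hcoch
        intro x y
        simp only [Th, if_neg hodd]
        rw [hlast, hlast, Mat8_hE_Y0 x y s le_rfl, if_pos rfl, Mat8_hE_Y0 _ (x s * y) s le_rfl,
          if_pos rfl, Function.update_self, one_mul]
        apply hC.dep
        intro i hi
        apply Mat8_indep
        intro t ht hft
        rw [Function.update_of_ne]
        intro hcon
        subst hcon
        omega
      · apply (IsInD.zero n).congr
        intro x y
        simp only [Th, if_neg hodd]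
        rw [hlast, Mat8_hE_Y0 x y s hs, if_neg hsn]
        exact hC.zero_last _
    · -- (C)
      have hfn : ∀ s, s ≤ n → f s ≤ n := by
        intro s hs
        by_contra hcon
        apply hB
        refine ⟨s, hs, ?_⟩
        have h1 := hf s hs
        by_cases he : Even (n + 1)
        · rw [Mat8_NN_even he] at h1
          omega
        · rw [Mat8_NN_odd he] at h1
          omega
      have himg : (Finset.range (n + 1)).image f = Finset.range (n + 1) := by
        apply Finset.eq_of_subset_of_card_le
        · intro j hj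
          rw [Finset.mem_image] at hj
          obtain ⟨s, hs, rfl⟩ := hj
          rw [Finset.mem_range] at hs ⊢
          have := hfn s (by omega)
          omega
        · rw [Finset.card_image_of_injOn]
          intro s hs t ht hst
          rw [Finset.mem_coe, Finset.mem_range] at hs ht
          exact hinj s t (by omega) (by omega) hst
      have hex : ∀ j, j ≤ n → ∃ s, s ≤ n ∧ f s = j := by
        intro j hj
        have : j ∈ (Finset.range (n + 1)).image f := by
          rw [himg, Finset.mem_range]
          omega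
        rw [Finset.mem_image] at this
        obtain ⟨s, hs, hfs⟩ := this
        rw [Finset.mem_range] at hs
        exact ⟨s, by omega, hfs⟩
      have hσex : ∃ σ : ℕ → ℕ, ∀ j, j ≤ n → σ j ≤ n ∧ f (σ j) = j := by
        classical
        refine ⟨fun j => if h : j ≤ n then (hex j h).choose else 0, ?_⟩
        intro j hj
        simp only [hj, dif_pos]
        exact (hex j hj).choose_spec
      obtain ⟨σ, hσ⟩ := hσex
      have hperm : IsInD n (fun x y => F (fun j => hE n x (σ j)) (Y0 n y)) := by
        apply perm_inD hφ hF hD σ (fun j hj => (hσ j hj).1)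
        · intro i j hi hj hij
          rw [← (hσ i hi).2, hij, (hσ j hj).2]
        · by_contra hcon
          obtain ⟨s, hs, hfs⟩ := hne
          apply hcon
          refine ⟨s, hs, ?_⟩
          intro h
          apply hfs
          have := (hσ s hs).2
          rwa [h] at this
      apply hperm.congr
      intro x y
      exact Mat8_perm hF f σ hfn hinj (fun j hj => (hσ j hj).1) (fun j hj => (hσ j hj).2) x y

/-- the identity term -/
theorem term_id {n : ℕ} {F : Form (MM (n + 2) A)} (hF : IsCoch (n + 1) F) (f : ℕ → ℕ)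
    (hf : ∀ s, s ≤ n → f s = s) (x : ℕ → A) (y : A) :
    Th n F (slots (hE n x) f (n + 1) (fun _ => 1)) (Y0 n y) = F (hE n x) (Y0 n y) := by
  exact Mat8_perm hF f (fun j => j) (fun s hs => by rw [hf s hs]; exact hs)
    (fun s t hs ht h => by rwa [hf s hs, hf t ht] at h) (fun j hj => hj) (fun j hj => hf j hj) x y

end Pool.MP263F
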