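import Pool.Agent.Lib.MP_263cac_full.Mat1
import Pool.Agent.Lib.MP_263cac_full.Mat3
import Pool.Agent.Lib.MP_263cac_full.Mat4
import Pool.Agent.Lib.MP_263cac_full.Mat8
import Pool.Agent.Lib.MP_263cac_full.Asm4
import Pool.Agent.Lib.MP_263cac_full.Alg7
set_option autoImplicit false

/-! JOB Mat9: the unital case.

Proof.  `letI := CStarAlgebra.spectralOrder A; letI := CStarAlgebra.spectralOrderedRing A`.
`Φ = amp (n+2) (n+1) φ` is a bounded cocycle (`amp_coch`, `amp_delta`).  `G` from `sign_group`, `F` from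
`theoremB`.  For `W` unitary and `Y = Y0 n y` (zero diagonal as `n+1 ≠ 0`): `Th n F (alt W) Y = 0`
(`Even (n+1)`: directly; odd: `Th n F (alt W) Y = F (alt W) (star W * Y)`).  `DopN_vanish` with
`S = range (Y0 n)` and `DopN_expand` (`c = 1`): `Σ_f ± Th n F (slots (hE n x) (extf f) (n+1) 1) (Y0 n y) = 0`
for all `x, y`.  The term `f = id` (`f s = s`, possible as `s ≤ n < NN n`) is `± F (hE n x) (Y0 n y)`, all the
others are in `D` (`term_inD`), so `(x,y) ↦ F (hE n x) (Y0 n y)` is in `D`, and by `main_inD` so is `φ`.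
`unital_case`: then `coh_of_inD`. -/

namespace Pool.MP263F
variable {A : Type} [CStarAlgebra A]

theorem unital_inD {n : ℕ} {φ : Form A} (hφ : IsCoch (n + 1) φ)
    (hc : ∀ w y, delta (n + 1) φ w y = 0) : IsInD n φ := by
  classical
  letI : PartialOrder A := CStarAlgebra.spectralOrder A
  letI : StarOrderedRing A := CStarAlgebra.spectralOrderedRing A
  obtain ⟨C, hC⟩ := hφ
  have hφ : IsCoch (n + 1) φ := ⟨C, hC⟩
  have hΦ : IsCoch (n + 1) (amp (n + 2) (n + 1) φ) := ⟨_, amp_coch hC⟩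
  have hΦc : ∀ w y, delta (n + 1) (amp (n + 2) (n + 1) φ) w y = 0 :=
    fun w y => amp_delta hφ hc w y
  obtain ⟨G, hG, hGM⟩ := sign_group (n + 2) A
  obtain ⟨F, hF, hFD, hFk⟩ := theoremB hΦ hΦc G hG
  -- the vanishing on `Y0`
  have hY0 : ∀ (y : A) (p : Fin (n + 2)), (Y0 n y) p p = 0 := by
    intro y p
    unfold Y0 Emat
    show (if p = (⟨n + 1, by omega⟩ : Fin (n + 2)) ∧ p = (⟨0, by omega⟩ : Fin (n + 2)) then y
      else 0) = 0
    rw [if_neg]
    rintro ⟨h1, h2⟩
    rw [h1] at h2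
    simp at h2
  have hvan : ∀ W ∈ unitary (MM (n + 2) A), ∀ Y ∈ Set.range (Y0 (A := A) n),
      Th n F (alt W) Y = 0 := by
    rintro W hW Y ⟨y, rfl⟩
    have h1 := hFk W hW (Y0 n y) (hGM _ (hY0 y))
    unfold Th
    by_cases he : Even (n + 1)
    · rw [if_pos he] at h1 ⊢
      exact h1
    · rw [if_neg he] at h1 ⊢
      have h2 : alt W (n + 1) = star W := by
        unfold alt
        rw [if_neg he]
      rw [h2]
      exact h1
  have hNN : ∀ s : Fin (n + 1), (s : ℕ) < NN n := by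
    intro s
    unfold NN
    split_ifs <;> omega
  have hexp : ∀ (x : ℕ → A) (y : A), ∑ f : Fin (n + 1) → Fin (NN n),
      (∏ s, (-1 : ℂ) ^ (f s : ℕ)) *
        Th n F (slots (hE n x) (extf f) (n + 1) (fun _ => 1)) (Y0 n y) = 0 := by
    intro x y
    rw [← DopN_expand]
    exact DopN_vanish (Th_coch hF) (Set.range (Y0 n)) hvan (hE n x) (n + 1) _ ⟨y, rfl⟩
  -- the identity term
  set f₀ : Fin (n + 1) → Fin (NN n) := fun s => ⟨s, hNN s⟩ with hf₀
  have hterm : ∀ f : Fin (n + 1) → Fin (NN n), f ≠ f₀ →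
      IsInD n (fun x y => Th n F (slots (hE n x) (extf f) (n + 1) (fun _ => 1)) (Y0 n y)) := by
    intro f hf
    refine term_inD hφ hF hFD (extf f) ?_ ?_
    · intro s hs
      unfold extf
      rw [dif_pos (Nat.lt_succ_of_le hs)]
      exact (f _).2
    · by_contra hcon
      push Not at hcon
      apply hf
      funext s
      have h1 := hcon s (Nat.lt_succ_iff.mp s.2)
      unfold extf at h1
      rw [dif_pos s.2] at h1
      exact Fin.ext h1
  set c₀ : ℂ := ∏ s : Fin (n + 1), (-1 : ℂ) ^ ((f₀ s : Fin (NN n)) : ℕ) with hc₀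
  have hc₀0 : c₀ ≠ 0 := by
    rw [hc₀]
    exact Finset.prod_ne_zero_iff.mpr fun s _ => pow_ne_zero _ (by norm_num)
  have hid : ∀ (x : ℕ → A) (y : A),
      Th n F (slots (hE n x) (extf f₀) (n + 1) (fun _ => 1)) (Y0 n y) = F (hE n x) (Y0 n y) := by
    intro x y
    refine term_id hF (extf f₀) ?_ x y
    intro s hs
    unfold extf
    rw [dif_pos (Nat.lt_succ_of_le hs)]
  have hmain : IsInD n (fun x y => F (hE n x) (Y0 n y)) := by
    have h1 : IsInD n (fun x y => ∑ f ∈ Finset.univ.erase f₀,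
        (∏ s, (-1 : ℂ) ^ (f s : ℕ)) *
          Th n F (slots (hE n x) (extf f) (n + 1) (fun _ => 1)) (Y0 n y)) :=
      IsInD.sum _ _ fun f hf => (hterm f (Finset.ne_of_mem_erase hf)).csmul _
    refine (h1.csmul (-c₀⁻¹)).congr fun x y => ?_
    have h2 := hexp x y
    rw [← Finset.add_sum_erase _ _ (Finset.mem_univ f₀), hid, ← hc₀] at h2
    have h3 : ∑ f ∈ Finset.univ.erase f₀, (∏ s, (-1 : ℂ) ^ (f s : ℕ)) *
        Th n F (slots (hE n x) (extf f) (n + 1) (fun _ => 1)) (Y0 n y) =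
        -(c₀ * F (hE n x) (Y0 n y)) := by linear_combination h2
    rw [h3]
    field_simp
  have h4 := hmain.subb (main_inD hφ hF hFD)
  refine h4.congr fun x y => ?_
  ring

theorem unital_case {n : ℕ} {φ : Form A} (hφ : IsCoch (n + 1) φ)
    (hc : ∀ w y, delta (n + 1) φ w y = 0) :
    ∃ ψ : Form A, IsCoch n ψ ∧ ∀ w y, φ w y = delta n ψ w y := by
  exact coh_of_inD hφ hc (unital_inD hφ hc)

end Pool.MP263F
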