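import Pool.Agent.Lib.MP_263cac_full.Defs
set_option autoImplicit false

/-! Definitions for the matrix part. -/

namespace Pool.MP263F

/-- matrices over `A` as a C⋆-algebra -/
abbrev MM (D : ℕ) (A : Type) := CStarMatrix (Fin D) (Fin D) A

/-- the amplification `φ ⊗ Tr` of an `n`-form -/
def amp {A : Type} [Zero A] (D n : ℕ) (φ : Form A) : Form (MM D A) := fun w Y =>
  ∑ f : Fin (n + 1) → Fin D,
    φ (fun i => if h : i < n then w i (f ⟨i, by omega⟩) (f ⟨i + 1, by omega⟩) else 0)
      (Y (f (Fin.last n)) (f 0))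

/-- matrix unit times `x` -/
def Emat {A : Type} [Zero A] {D : ℕ} (p q : Fin D) (x : A) : MM D A :=
  CStarMatrix.ofMatrix (Matrix.of fun i j => if i = p ∧ j = q then x else 0)

/-- `h_s = E_{s,s+1} x_s` for `s ≤ n` in `M_{n+2}(A)` -/
def hE {A : Type} [Zero A] (n : ℕ) (x : ℕ → A) (s : ℕ) : MM (n + 2) A :=
  if h : s ≤ n then Emat ⟨s, by omega⟩ ⟨s + 1, by omega⟩ (x s) else 0

/-- `Y = E_{n+1,0} y` -/
def Y0 {A : Type} [Zero A] (n : ℕ) (y : A) : MM (n + 2) A :=
  Emat ⟨n + 1, by omega⟩ ⟨0, by omega⟩ y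

section
variable {B : Type} [Ring B]

/-- content of an odd slot: product of the `h s`, `s < r`, `f s = j`, in increasing order -/
def up (h : ℕ → B) (f : ℕ → ℕ) (j : ℕ) : ℕ → B
  | 0 => 1
  | (r + 1) => if f r = j then up h f j r * h r else up h f j r

/-- content of an even slot: product in decreasing order -/
def dn (h : ℕ → B) (f : ℕ → ℕ) (j : ℕ) : ℕ → B
  | 0 => 1
  | (r + 1) => if f r = j then h r * dn h f j r else dn h f j r

/-- slot contents -/
def slots (h : ℕ → B) (f : ℕ → ℕ) (r : ℕ) (c : ℕ → B) : ℕ → B :=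
  fun j => if Even j then c j * dn h f j r else up h f j r * c j

/-- the derivation-like operator -/
def Dop (N : ℕ) (k : B) (Θ : Form B) : Form B := fun c Y =>
  ∑ j ∈ Finset.range N, (-1 : ℂ) ^ j *
    Θ (Function.update c j (if Even j then c j * k else k * c j)) Y

/-- iterated operator: apply `Dop (h 0)` first, `Dop (h (r-1))` last -/
def DopN (N : ℕ) (h : ℕ → B) : ℕ → Form B → Form B
  | 0, Θ => Θ
  | (r + 1), Θ => Dop N (h r) (DopN N h r Θ)

/-- extend `f : Fin r → Fin N` to `ℕ → ℕ` (by `N`, never used) -/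
def extf {r N : ℕ} (f : Fin r → Fin N) : ℕ → ℕ := fun s => if h : s < r then (f ⟨s, h⟩ : ℕ) else N

/-- number of slots -/
def NN (n : ℕ) : ℕ := if Even (n + 1) then n + 1 else n + 2

/-- the form with an even number of slots -/
def Th (n : ℕ) (F : Form B) : Form B := fun c Y =>
  F c (if Even (n + 1) then Y else c (n + 1) * Y)

end

end Pool.MP263F
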