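import Pool.Agent.Lib.MP_263cac_full.Tr
set_option autoImplicit false

/-! JOB Mom1: the one-step moment inequality.

Proof.  `X = A + d`, `q = 2p+2`, `r = 2p`.  `X^q - A^q = Σ_{i<q} A^i d X^{q-1-i}` and
`X^m - A^m = Σ_{k<m} X^k d A^{m-1-k}` (noncommutative geometric sums, e.g. `mul_geom`-like identities,
easy inductions).  So by traciality
`ρ(X^q) = ρ(A^q) + q ρ(A^{q-1} d) + Σ_{i=0}^{q-1} Σ_{k=0}^{q-2-i} ρ(A^{q-2-k} d X^k d)`
`       = ρ(A^q) + q ρ(A^{q-1} d) + Σ_{k=0}^{q-2} (q-1-k) ρ(A^{r-k} d X^k d)`.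
Put `b k = ρ(A^{r-k} d X^k d)`, `0 ≤ k ≤ r`.  For `a, a' ≤ p`: with `P = X^a d A^{p-a}`,
`Q = X^{a'} d A^{p-a'}` Cauchy–Schwarz gives `b (a+a')^2 ≤ b (2a) * b (2a')`, `b (2a) ≥ 0`.
So `c a = b (2a)` (`0 ≤ a ≤ p`) is nonnegative with `c a ^2 ≤ c (a-1) * c (a+1)` hence
`c a ≤ max (c 0) (c p)` (discrete convexity: at an interior maximum the neighbours are equal to it),
and for odd `k`, `b k ^2 ≤ b (k-1) * b (k+1)`.  Finally
`c 0 = ρ(A^{2p} d^2) = ρ(A^p d^2 A^p) ≤ ρ(A^{2p})` and `c p = ρ(d X^{2p} d) = ρ(X^p d^2 X^p) ≤ ρ(X^{2p})`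
(`d^2 ≤ 1` as `‖d‖ ≤ 1`).  So every `|b k| ≤ ρ(A^{2p}) + ρ(X^{2p})`, and `Σ (q-1-k) ≤ q^2`. -/

namespace Pool.MP263F
variable {B : Type} [CStarAlgebra B] [PartialOrder B] [StarOrderedRing B]

theorem Mom1_geom {B : Type} [Ring B] (Y S : B) (n : ℕ) :
    Y ^ n = S ^ n + ∑ i ∈ Finset.range n, Y ^ i * (Y - S) * S ^ (n - 1 - i) := by
  induction n with
  | zero => simp
  | succ n ih =>
    rw [Finset.sum_range_succ]
    have h1 : ∑ i ∈ Finset.range n, Y ^ i * (Y - S) * S ^ (n + 1 - 1 - i) =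
        (∑ i ∈ Finset.range n, Y ^ i * (Y - S) * S ^ (n - 1 - i)) * S := by
      rw [Finset.sum_mul]
      refine Finset.sum_congr rfl fun i hi => ?_
      rw [Finset.mem_range] at hi
      have : n + 1 - 1 - i = (n - 1 - i) + 1 := by omega
      rw [this, pow_succ]
      simp only [mul_assoc]
    rw [h1]
    have h2 : ∑ i ∈ Finset.range n, Y ^ i * (Y - S) * S ^ (n - 1 - i) = Y ^ n - S ^ n :=
      eq_sub_of_add_eq' ih.symm
    rw [h2]
    simp only [Nat.add_sub_cancel, Nat.sub_self, pow_zero, mul_one]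
    rw [pow_succ, pow_succ]
    noncomm_ring

theorem Mom1_geom' {B : Type} [Ring B] (Y S : B) (n : ℕ) :
    Y ^ n = S ^ n + ∑ i ∈ Finset.range n, S ^ i * (Y - S) * Y ^ (n - 1 - i) := by
  have h := Mom1_geom S Y n
  have h2 : ∑ i ∈ Finset.range n, S ^ i * (Y - S) * Y ^ (n - 1 - i) =
      - ∑ i ∈ Finset.range n, S ^ i * (S - Y) * Y ^ (n - 1 - i) := by
    rw [← Finset.sum_neg_distrib]
    refine Finset.sum_congr rfl fun i _ => ?_
    rw [← neg_sub S Y]
    simp only [mul_neg, neg_mul]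
  rw [h2, eq_sub_of_add_eq' h.symm]
  abel

theorem Mom1_sq {ρ : B →ₗ[ℝ] ℝ} (h : TrF ρ) (u x : B) (hx : ‖x‖ ≤ 1) :
    ρ (star u * (star x * x) * u) ≤ ρ (star u * u) := by
  have h3 : star x * x ≤ algebraMap ℝ B (‖x‖ ^ 2) :=
    CStarAlgebra.star_mul_le_algebraMap_norm_sq
  have h4 : star u * (star x * x) * u ≤ star u * (algebraMap ℝ B (‖x‖ ^ 2)) * u :=
    star_left_conjugate_le_conjugate h3 u
  have h5 := h.mono h4
  have h6 : star u * (algebraMap ℝ B (‖x‖ ^ 2)) * u = (‖x‖ ^ 2) • (star u * u) := by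
    rw [Algebra.algebraMap_eq_smul_one]; simp
  rw [h6, map_smul, smul_eq_mul] at h5
  have h7 := h.pos u
  have h8 : ‖x‖ ^ 2 ≤ 1 := by have := norm_nonneg x; nlinarith
  nlinarith

theorem Mom1_max (c : ℕ → ℝ) (p : ℕ) (hc : ∀ a ≤ p, 0 ≤ c a)
    (hl : ∀ a, 1 ≤ a → a + 1 ≤ p → c a ^ 2 ≤ c (a - 1) * c (a + 1)) (a : ℕ) (ha : a ≤ p) :
    c a ≤ max (c 0) (c p) := by
  classical
  obtain ⟨m, hm, hmax⟩ := Finset.exists_max_image (Finset.range (p + 1)) c ⟨0, by simp⟩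
  -- smallest maximiser
  have hex : ∃ m, m ≤ p ∧ ∀ b ≤ p, c b ≤ c m := by
    refine ⟨m, by simpa [Nat.lt_succ_iff] using hm, fun b hb => hmax b ?_⟩
    simpa [Nat.lt_succ_iff] using hb
  have hspec := Nat.find_spec hex
  set k := Nat.find hex with hk
  obtain ⟨hkp, hkmax⟩ := hspec
  refine (hkmax a ha).trans ?_
  rcases Nat.eq_zero_or_pos k with h0 | hpos
  · rw [h0]; exact le_max_left _ _
  rcases eq_or_lt_of_le hkp with h1 | hlt
  · rw [h1]; exact le_max_right _ _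
  exfalso
  have h2 := hl k hpos hlt
  have h3 : c (k + 1) ≤ c k := hkmax _ hlt
  have h4 : 0 ≤ c (k - 1) := hc _ (by omega)
  have h5 : 0 ≤ c k := hc _ hkp
  have h6 : c k ≤ c (k - 1) := by
    rcases h5.eq_or_lt with h7 | h7
    · rw [← h7]; exact h4
    · by_contra hcon
      push Not at hcon
      have : c (k - 1) * c (k + 1) ≤ c (k - 1) * c k := mul_le_mul_of_nonneg_left h3 h4
      nlinarith
  have h7 : ¬ (k - 1 ≤ p ∧ ∀ b ≤ p, c b ≤ c (k - 1)) := Nat.find_min hex (by omega)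
  exact h7 ⟨by omega, fun b hb => (hkmax b hb).trans h6⟩

theorem mixed_bound {ρ : B →ₗ[ℝ] ℝ} (h : TrF ρ) {A X d : B} (hA : IsSelfAdjoint A)
    (hX : IsSelfAdjoint X) (hd : IsSelfAdjoint d) (hd1 : ‖d‖ ≤ 1) (p k : ℕ) (hk : k ≤ 2 * p) :
    |ρ (A ^ (2 * p - k) * d * X ^ k * d)| ≤ ρ (A ^ (2 * p)) + ρ (X ^ (2 * p)) := by
  have hAs : star A = A := hA
  have hXs : star X = X := hX
  have hds : star d = d := hd
  set b : ℕ → ℝ := fun k => ρ (A ^ (2 * p - k) * d * X ^ k * d) with hb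
  have hPQ : ∀ a a', a ≤ p → a' ≤ p →
      ρ (star (X ^ a * d * A ^ (p - a)) * (X ^ a' * d * A ^ (p - a'))) = b (a + a') := by
    intro a a' ha ha'
    have e1 : star (X ^ a * d * A ^ (p - a)) * (X ^ a' * d * A ^ (p - a')) =
        (A ^ (p - a) * d * X ^ (a + a') * d) * A ^ (p - a') := by
      rw [star_mul, star_mul, star_pow, star_pow, hAs, hXs, hds, pow_add]
      simp only [mul_assoc]
    rw [e1, h.tr]
    show _ = ρ (A ^ (2 * p - (a + a')) * d * X ^ (a + a') * d)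
    rw [show 2 * p - (a + a') = (p - a') + (p - a) by omega, pow_add A]
    simp only [mul_assoc]
  have hcs : ∀ a a', a ≤ p → a' ≤ p → b (a + a') ^ 2 ≤ b (2 * a) * b (2 * a') := by
    intro a a' ha ha'
    have := h.cs (X ^ a * d * A ^ (p - a)) (X ^ a' * d * A ^ (p - a'))
    rw [hPQ a a' ha ha', hPQ a a ha ha, hPQ a' a' ha' ha', ← two_mul, ← two_mul] at this
    exact this
  have hnn : ∀ a ≤ p, 0 ≤ b (2 * a) := by
    intro a ha
    have := h.pos (X ^ a * d * A ^ (p - a))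
    rwa [hPQ a a ha ha, ← two_mul] at this
  have h0 : b (2 * 0) ≤ ρ (A ^ (2 * p)) := by
    have e1 : b (2 * 0) = ρ (star (A ^ p) * (star d * d) * A ^ p) := by
      show ρ (A ^ (2 * p - 2 * 0) * d * X ^ (2 * 0) * d) = _
      rw [star_pow, hAs, hds, h.tr (A ^ p * (d * d)) (A ^ p)]
      rw [show 2 * p - 2 * 0 = p + p by omega, pow_add]
      simp only [mul_zero, pow_zero, mul_one, mul_assoc]
    have e2 := Mom1_sq h (A ^ p) d hd1
    rw [e1]
    refine e2.trans_eq ?_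
    rw [star_pow, hAs, ← pow_add, two_mul]
  have hp : b (2 * p) ≤ ρ (X ^ (2 * p)) := by
    have e1 : b (2 * p) = ρ (star (X ^ p) * (star d * d) * X ^ p) := by
      show ρ (A ^ (2 * p - 2 * p) * d * X ^ (2 * p) * d) = _
      rw [star_pow, hXs, hds, h.tr (X ^ p * (d * d)) (X ^ p), Nat.sub_self, pow_zero, one_mul,
        h.tr (d * X ^ (2 * p)) d, ← mul_assoc, h.tr (d * d), two_mul, pow_add]
      simp only [mul_assoc]
    have e2 := Mom1_sq h (X ^ p) d hd1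
    rw [e1]
    refine e2.trans_eq ?_
    rw [star_pow, hXs, ← pow_add, two_mul]
  have hA0 : 0 ≤ ρ (A ^ (2 * p)) := by
    have := h.pos (A ^ p); rwa [star_pow, hAs, ← pow_add, ← two_mul] at this
  have hX0 : 0 ≤ ρ (X ^ (2 * p)) := by
    have := h.pos (X ^ p); rwa [star_pow, hXs, ← pow_add, ← two_mul] at this
  have hmax : ∀ a ≤ p, b (2 * a) ≤ ρ (A ^ (2 * p)) + ρ (X ^ (2 * p)) := by
    intro a ha
    have h1 := Mom1_max (fun a => b (2 * a)) p hnn (by
      intro a ha1 ha2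
      have h2 := hcs (a - 1) (a + 1) (by omega) ha2
      rw [show a - 1 + (a + 1) = 2 * a by omega] at h2
      exact h2) a ha
    refine h1.trans (max_le ?_ ?_)
    · exact h0.trans (by linarith)
    · exact hp.trans (by linarith)
  obtain ⟨a, a', ha, ha', rfl⟩ : ∃ a a', a ≤ p ∧ a' ≤ p ∧ k = a + a' :=
    ⟨min k p, k - min k p, min_le_right _ _, by omega, by omega⟩
  have h1 := hcs a a' ha ha'
  have h2 := hmax a ha
  have h3 := hmax a' ha'
  have h4 := hnn a ha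
  have h5 := hnn a' ha'
  show |b (a + a')| ≤ _
  apply abs_le_of_sq_le_sq _ (by linarith)
  nlinarith

theorem one_step {ρ : B →ₗ[ℝ] ℝ} (h : TrF ρ) {A d : B} (hA : IsSelfAdjoint A)
    (hd : IsSelfAdjoint d) (hd1 : ‖d‖ ≤ 1) (p : ℕ) :
    ρ ((A + d) ^ (2 * p + 2)) ≤ ρ (A ^ (2 * p + 2)) + (2 * p + 2) * ρ (A ^ (2 * p + 1) * d)
      + (2 * p + 2) ^ 2 * (ρ (A ^ (2 * p)) + ρ ((A + d) ^ (2 * p))) := by
  set X := A + d with hXdef
  have hX : IsSelfAdjoint X := hA.add hd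
  have hXA : X - A = d := by rw [hXdef]; abel
  set R := ρ (A ^ (2 * p)) + ρ (X ^ (2 * p)) with hR
  have hR0 : 0 ≤ R := (abs_nonneg _).trans (mixed_bound h hA hX hd hd1 p 0 (by omega))
  have g1 := Mom1_geom' X A (2 * p + 2)
  rw [hXA] at g1
  have g2 : ∀ i ∈ Finset.range (2 * p + 2), ρ (A ^ i * d * X ^ (2 * p + 2 - 1 - i)) ≤
      ρ (A ^ (2 * p + 1) * d) + (2 * p + 2) * R := by
    intro i hi
    rw [Finset.mem_range] at hi
    have g3 := Mom1_geom X A (2 * p + 2 - 1 - i)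
    rw [hXA] at g3
    rw [g3, mul_add, map_add]
    apply add_le_add
    · rw [h.tr, ← mul_assoc, ← pow_add]
      apply le_of_eq
      congr 3
      omega
    · rw [Finset.mul_sum, map_sum]
      calc ∑ k ∈ Finset.range (2 * p + 2 - 1 - i),
          ρ (A ^ i * d * (X ^ k * d * A ^ (2 * p + 2 - 1 - i - 1 - k))) ≤
          ∑ k ∈ Finset.range (2 * p + 2 - 1 - i), R := by
            refine Finset.sum_le_sum fun k hk => ?_
            rw [Finset.mem_range] at hk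
            have e1 : ρ (A ^ i * d * (X ^ k * d * A ^ (2 * p + 2 - 1 - i - 1 - k))) =
                ρ (A ^ (2 * p - k) * d * X ^ k * d) := by
              rw [show A ^ i * d * (X ^ k * d * A ^ (2 * p + 2 - 1 - i - 1 - k)) =
                (A ^ i * d * X ^ k * d) * A ^ (2 * p + 2 - 1 - i - 1 - k) by
                  simp only [mul_assoc], h.tr,
                show 2 * p - k = (2 * p + 2 - 1 - i - 1 - k) + i by omega, pow_add]
              simp only [mul_assoc]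
            rw [e1]
            exact (le_abs_self _).trans (mixed_bound h hA hX hd hd1 p k (by omega))
        _ ≤ (2 * p + 2) * R := by
            rw [Finset.sum_const, Finset.card_range, nsmul_eq_mul]
            apply mul_le_mul_of_nonneg_right _ hR0
            have : ((2 * p + 2 - 1 - i : ℕ) : ℝ) ≤ ((2 * p + 2 : ℕ) : ℝ) := by
              exact_mod_cast (by omega : 2 * p + 2 - 1 - i ≤ 2 * p + 2)
            push_cast at this
            exact this
  have g4 : ρ (X ^ (2 * p + 2)) = ρ (A ^ (2 * p + 2)) +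
      ∑ i ∈ Finset.range (2 * p + 2), ρ (A ^ i * d * X ^ (2 * p + 2 - 1 - i)) := by
    rw [g1, map_add, map_sum]
  rw [g4]
  have g5 := Finset.sum_le_sum g2
  rw [Finset.sum_const, Finset.card_range, nsmul_eq_mul] at g5
  have hcast : ((2 * p + 2 : ℕ) : ℝ) = 2 * p + 2 := by push_cast; ring
  rw [hcast] at g5
  have g6 : (2 * (p : ℝ) + 2) * (ρ (A ^ (2 * p + 1) * d) + (2 * p + 2) * R) =
      (2 * p + 2) * ρ (A ^ (2 * p + 1) * d) + (2 * p + 2) ^ 2 * R := by ring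
  rw [g6] at g5
  linarith

end Pool.MP263F
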