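import Pool.Agent.Lib.MP_263cac_full.Mom1
set_option autoImplicit false

/-! JOB Mom2: moment bound for martingale-like sums.

Proof.  `E ℓ f = Σ_{ω : Fin ℓ → Λ} f (extω ω)`.  First show: if `f : (ℕ → Λ) → ℝ` depends only on
the coordinates `< ℓ+1`, then `E (ℓ+1) f = E ℓ (fun ω => Σ_λ f (update ω ℓ λ))` (use `Fin.snocEquiv`
or `Fin.consEquiv`/`Fin.insertNthEquiv`, `Fintype.sum_prod_type`).
Put `S ℓ ω = Σ_{j<ℓ} D j ω`, `M p ℓ = E ℓ (fun ω => ρ((S ℓ ω)^{2p})) / (card Λ)^ℓ`.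
By `one_step` with `A = S ℓ ω`, `d = D ℓ ω`, and the mean zero property (the term
`ρ (A^{2p+1} * d)` sums to `0` over `update ω ℓ λ`, because `S ℓ` does not depend on coordinate `ℓ`),
`M (p+1) (ℓ+1) ≤ M (p+1) ℓ + (2p+2)^2 (M p ℓ + M p (ℓ+1))`.  `M 0 ℓ = 1` (`ρ 1 = 1`).
Induction on `p` and then on `ℓ`: `M p ℓ ≤ 8^p (p!)^2 ℓ^p` (for `p+1`: each step adds at most
`2 (2p+2)^2 8^p (p!)^2 (ℓ+1)^p`, hence the sum of the first `ℓ` steps is
`≤ 8 (p+1)^2 8^p (p!)^2 ℓ^{p+1}`; `M (p+1) 0 = 0`). -/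

namespace Pool.MP263F
variable {B : Type} [CStarAlgebra B] [PartialOrder B] [StarOrderedRing B]

/-- extend a finite word to a sequence -/
noncomputable def extω {Λ : Type} [Nonempty Λ] {ℓ : ℕ} (ω : Fin ℓ → Λ) : ℕ → Λ :=
  fun i => if h : i < ℓ then ω ⟨i, h⟩ else Classical.arbitrary Λ

theorem Mom2_ext_lt {Λ : Type} [Nonempty Λ] {ℓ : ℕ} (ω : Fin ℓ → Λ) (c : Λ) (i : ℕ) (hi : i < ℓ) :
    extω (Fin.snoc ω c : Fin (ℓ + 1) → Λ) i = extω ω i := by
  unfold extω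
  rw [dif_pos (show i < ℓ + 1 by omega), dif_pos hi]
  have : (⟨i, by omega⟩ : Fin (ℓ + 1)) = Fin.castSucc ⟨i, hi⟩ := rfl
  rw [this]
  exact Fin.snoc_castSucc (α := fun _ => Λ) c ω ⟨i, hi⟩

theorem Mom2_ext_eq {Λ : Type} [Nonempty Λ] {ℓ : ℕ} (ω : Fin ℓ → Λ) (c : Λ) :
    extω (Fin.snoc ω c : Fin (ℓ + 1) → Λ) ℓ = c := by
  unfold extω
  rw [dif_pos (show ℓ < ℓ + 1 by omega)]
  have : (⟨ℓ, by omega⟩ : Fin (ℓ + 1)) = Fin.last ℓ := rfl
  rw [this]
  exact Fin.snoc_last (α := fun _ => Λ) c ω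

theorem Mom2_sum {Λ : Type} [Fintype Λ] [Nonempty Λ] (ℓ : ℕ) (F : (Fin (ℓ + 1) → Λ) → ℝ) :
    ∑ ω, F ω = ∑ ω : Fin ℓ → Λ, ∑ c : Λ, F (Fin.snoc ω c) := by
  rw [← Equiv.sum_comp (Fin.snocEquiv (fun _ : Fin (ℓ + 1) => Λ)) F, Fintype.sum_prod_type,
    Finset.sum_comm]
  rfl

theorem moment_bound {ρ : B →ₗ[ℝ] ℝ} (h : TrF ρ) {Λ : Type} [Fintype Λ] [Nonempty Λ]
    (D : ℕ → (ℕ → Λ) → B) (hsa : ∀ j ω, IsSelfAdjoint (D j ω)) (hn : ∀ j ω, ‖D j ω‖ ≤ 1)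
    (hdep : ∀ j ω ω', (∀ i, i ≤ j → ω i = ω' i) → D j ω = D j ω')
    (hmean : ∀ j ω, ∑ c : Λ, D j (Function.update ω j c) = 0) (p ℓ : ℕ) :
    ∑ ω : Fin ℓ → Λ, ρ ((∑ j ∈ Finset.range ℓ, D j (extω ω)) ^ (2 * p))
      ≤ (Fintype.card Λ : ℝ) ^ ℓ * (8 ^ p * (p.factorial : ℝ) ^ 2 * (ℓ : ℝ) ^ p) := by
  set N : ℝ := (Fintype.card Λ : ℝ) with hN
  have hN0 : 0 ≤ N := by rw [hN]; positivity
  -- partial sums
  have hS : ∀ (ℓ : ℕ) (ω : Fin ℓ → Λ) (c : Λ),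
      ∑ j ∈ Finset.range (ℓ + 1), D j (extω (Fin.snoc ω c : Fin (ℓ + 1) → Λ)) =
        (∑ j ∈ Finset.range ℓ, D j (extω ω)) + D ℓ (Function.update (extω ω) ℓ c) := by
    intro ℓ ω c
    rw [Finset.sum_range_succ]
    congr 1
    · refine Finset.sum_congr rfl fun j hj => hdep j _ _ fun i hi => ?_
      rw [Finset.mem_range] at hj
      exact Mom2_ext_lt ω c i (by omega)
    · refine hdep ℓ _ _ fun i hi => ?_
      rcases eq_or_lt_of_le hi with h1 | h1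
      · subst h1; rw [Mom2_ext_eq, Function.update_self]
      · rw [Mom2_ext_lt ω c i h1, Function.update_of_ne (by omega)]
  have hSsa : ∀ (ℓ : ℕ) (ω : Fin ℓ → Λ),
      IsSelfAdjoint (∑ j ∈ Finset.range ℓ, D j (extω ω)) := by
    intro ℓ ω
    show star _ = _
    rw [star_sum]
    exact Finset.sum_congr rfl fun j _ => hsa j _
  induction p generalizing ℓ with
  | zero =>
    simp only [mul_zero, pow_zero, h.one, Nat.factorial_zero, Nat.cast_one, one_pow, mul_one]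
    rw [Finset.sum_const, Finset.card_univ, nsmul_eq_mul, mul_one, Fintype.card_fun,
      Fintype.card_fin]
    push_cast
    exact le_rfl
  | succ p ihp =>
    induction ℓ with
    | zero =>
      simp
    | succ ℓ ihℓ =>
      set K : ℝ := 8 ^ p * (p.factorial : ℝ) ^ 2 with hK
      have hK' : (8 : ℝ) ^ (p + 1) * ((p + 1).factorial : ℝ) ^ 2 = 2 * (2 * p + 2) ^ 2 * K := by
        rw [hK, Nat.factorial_succ]; push_cast; ring
      rw [hK'] at ihℓ ⊢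
      have hK0 : 0 ≤ K := by rw [hK]; positivity
      have i1 := ihp ℓ
      have i2 := ihp (ℓ + 1)
      rw [Mom2_sum] at i2 ⊢
      simp only [hS] at i2 ⊢
      -- one step inequality summed
      have step : ∀ ω : Fin ℓ → Λ, ∑ c : Λ,
          ρ ((∑ j ∈ Finset.range ℓ, D j (extω ω) + D ℓ (Function.update (extω ω) ℓ c)) ^
            (2 * (p + 1))) ≤
          N * ρ ((∑ j ∈ Finset.range ℓ, D j (extω ω)) ^ (2 * (p + 1))) +
          (2 * p + 2) ^ 2 * (N * ρ ((∑ j ∈ Finset.range ℓ, D j (extω ω)) ^ (2 * p)) +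
            ∑ c : Λ, ρ ((∑ j ∈ Finset.range ℓ, D j (extω ω) +
              D ℓ (Function.update (extω ω) ℓ c)) ^ (2 * p))) := by
        intro ω
        set A := ∑ j ∈ Finset.range ℓ, D j (extω ω) with hA
        have h1 : ∀ c : Λ, ρ ((A + D ℓ (Function.update (extω ω) ℓ c)) ^ (2 * (p + 1))) ≤
            ρ (A ^ (2 * (p + 1))) +
            (2 * p + 2) * ρ (A ^ (2 * p + 1) * D ℓ (Function.update (extω ω) ℓ c)) +
            (2 * p + 2) ^ 2 * (ρ (A ^ (2 * p)) +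
              ρ ((A + D ℓ (Function.update (extω ω) ℓ c)) ^ (2 * p))) := by
          intro c
          have := one_step h (hSsa ℓ ω) (hsa ℓ (Function.update (extω ω) ℓ c)) (hn ℓ _) p
          rw [← hA] at this
          exact this
        have h2 : ∑ c : Λ, ρ (A ^ (2 * p + 1) * D ℓ (Function.update (extω ω) ℓ c)) = 0 := by
          rw [← map_sum, ← Finset.mul_sum, hmean, mul_zero, map_zero]
        calc _ ≤ ∑ c : Λ, (ρ (A ^ (2 * (p + 1))) +
            (2 * p + 2) * ρ (A ^ (2 * p + 1) * D ℓ (Function.update (extω ω) ℓ c)) +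
            (2 * p + 2) ^ 2 * (ρ (A ^ (2 * p)) +
              ρ ((A + D ℓ (Function.update (extω ω) ℓ c)) ^ (2 * p)))) :=
              Finset.sum_le_sum fun c _ => h1 c
          _ = _ := by
            simp only [Finset.sum_add_distrib, ← Finset.mul_sum, h2, Finset.sum_const,
              Finset.card_univ, nsmul_eq_mul, mul_zero, add_zero]
            rfl
      calc _ ≤ ∑ ω : Fin ℓ → Λ, (N * ρ ((∑ j ∈ Finset.range ℓ, D j (extω ω)) ^ (2 * (p + 1))) +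
          (2 * p + 2) ^ 2 * (N * ρ ((∑ j ∈ Finset.range ℓ, D j (extω ω)) ^ (2 * p)) +
            ∑ c : Λ, ρ ((∑ j ∈ Finset.range ℓ, D j (extω ω) +
              D ℓ (Function.update (extω ω) ℓ c)) ^ (2 * p)))) :=
            Finset.sum_le_sum fun ω _ => step ω
        _ = N * (∑ ω : Fin ℓ → Λ, ρ ((∑ j ∈ Finset.range ℓ, D j (extω ω)) ^ (2 * (p + 1)))) +
          (2 * p + 2) ^ 2 * (N * (∑ ω : Fin ℓ → Λ,
            ρ ((∑ j ∈ Finset.range ℓ, D j (extω ω)) ^ (2 * p))) +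
            ∑ ω : Fin ℓ → Λ, ∑ c : Λ, ρ ((∑ j ∈ Finset.range ℓ, D j (extω ω) +
              D ℓ (Function.update (extω ω) ℓ c)) ^ (2 * p))) := by
            simp only [Finset.sum_add_distrib, ← Finset.mul_sum]
        _ ≤ N * (N ^ ℓ * (2 * (2 * p + 2) ^ 2 * K * (ℓ : ℝ) ^ (p + 1))) +
          (2 * p + 2) ^ 2 * (N * (N ^ ℓ * (K * (ℓ : ℝ) ^ p)) +
            N ^ (ℓ + 1) * (K * ((ℓ + 1 : ℕ) : ℝ) ^ p)) := by
            apply add_le_add
            · exact mul_le_mul_of_nonneg_left ihℓ hN0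
            · apply mul_le_mul_of_nonneg_left _ (by positivity)
              exact add_le_add (mul_le_mul_of_nonneg_left i1 hN0) i2
        _ ≤ N ^ (ℓ + 1) * (2 * (2 * p + 2) ^ 2 * K * ((ℓ + 1 : ℕ) : ℝ) ^ (p + 1)) := by
            push_cast
            have hl : (0 : ℝ) ≤ ℓ := by positivity
            have e1 : (ℓ : ℝ) ^ p ≤ ((ℓ : ℝ) + 1) ^ p := pow_le_pow_left₀ hl (by linarith) p
            have e2 : (ℓ : ℝ) ^ (p + 1) ≤ ((ℓ : ℝ) + 1) ^ p * ℓ := by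
              rw [pow_succ]; exact mul_le_mul_of_nonneg_right e1 hl
            have e3 : ((ℓ : ℝ) + 1) ^ (p + 1) = ((ℓ : ℝ) + 1) ^ p * ℓ + ((ℓ : ℝ) + 1) ^ p := by
              ring
            have e4 : 0 ≤ N ^ (ℓ + 1) := by positivity
            have e5 : 0 ≤ (2 * (p : ℝ) + 2) ^ 2 * K := by positivity
            have e6 : N ^ (ℓ + 1) = N * N ^ ℓ := by ring
            calc _ = N ^ (ℓ + 1) * (((2 * (p : ℝ) + 2) ^ 2 * K) * (2 * (ℓ : ℝ) ^ (p + 1) +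
                (ℓ : ℝ) ^ p + ((ℓ : ℝ) + 1) ^ p)) := by rw [e6]; ring
              _ ≤ N ^ (ℓ + 1) * (((2 * (p : ℝ) + 2) ^ 2 * K) * (2 * ((ℓ : ℝ) + 1) ^ (p + 1))) := by
                apply mul_le_mul_of_nonneg_left _ e4
                apply mul_le_mul_of_nonneg_left _ e5
                rw [e3]; linarith
              _ = _ := by ring

end Pool.MP263F
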