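import Pool.Agent.Lib.MP_263cac_full.Alg2
import Pool.Agent.Lib.MP_263cac_full.Ult
set_option autoImplicit false

/-! JOB NU1: the extension of a cocycle of a nonunital C⋆-algebra to the unitization.

Proof.  Order on `A`: `CStarAlgebra.spectralOrder`, approximate unit filter
`CStarAlgebra.approximateUnit A` (`CStarAlgebra.increasingApproximateUnit`), contained in the closed unit ball
(`eventually_norm`/`closedBall_mem`), `u a → a`, `a u → a`.  Let `U` be an ultrafilter below it and
`L v = lim_U φ v u` (exists: bounded by `C ∏ ‖v i‖` eventually; e.g. apply `Coch.exists_ultralimit` to the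
forms `(v, z) ↦ z-independent`, or directly compactness of a closed ball in `ℂ`).
Define `φ̃ w Y = φ (fun i => (w i).snd) Y.snd + Y.fst * L (fun i => (w i).snd)`.
`IsCoch`: `‖snd z‖ ≤ ‖..‖`: in `Unitization ℂ A` (C*-norm) one has `‖z.fst‖ ≤ ‖z‖` and
`‖z.snd‖ ≤ 2 ‖z‖` (`‖(z.snd : A⁺¹)‖ = ‖z - fst‖`), so constants `2^{n+2} C` suffice.
Cocycle.  Write `w i = (λ_i, a_i)`, `Y = (μ, y)`, `om_i = φ̃ (a with a_i omitted; Y)` (depends on the `a`'s and
`Y` only).  `(w k * w (k+1)).snd = λ_k a_{k+1} + λ_{k+1} a_k + a_k a_{k+1}`, so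
`d_k φ̃ (w; Y) = d_k φ̃ (a; Y) + λ_{k-1} om_{k-1} + λ_k om_k` for `1 ≤ k ≤ n+1` (here the degree is `n+1`),
`d_0 φ̃ (w;Y) = d_0 φ̃ (a;Y) + λ_0 om_0`, `d_{n+2} φ̃ (w;Y) = d_{n+2} φ̃ (a; Y) + λ_{n+1} om_{n+1}`, and the
alternating sum telescopes to `δ φ̃ (a; Y)`, `a_i ∈ A`.  For `Y = y ∈ A` it is `δ φ (a; y) = 0`; for `Y = 1`
it is `φ(a_1..; a_0) + Σ ± L(.. a_k a_{k+1} ..) ± φ(a_0..; a_{n+1}) = lim_U δ φ (a; u) = 0`. -/

namespace Pool.MP263F

open Filter Topology

/-- an ultrafilter which is an approximate unit in the unit ball -/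
private theorem NU1_unit (A : Type) [NonUnitalCStarAlgebra A] : ∃ U : Ultrafilter A,
    (∀ᶠ u in (U : Filter A), ‖u‖ ≤ 1) ∧ (∀ a : A, Tendsto (fun u => a * u) U (𝓝 a)) ∧
      (∀ a : A, Tendsto (fun u => u * a) U (𝓝 a)) := by
  let _ := CStarAlgebra.spectralOrder A
  let _ := CStarAlgebra.spectralOrderedRing A
  have h := CStarAlgebra.increasingApproximateUnit A
  have := h.neBot
  refine ⟨Ultrafilter.of (CStarAlgebra.approximateUnit A), ?_, fun a => ?_, fun a => ?_⟩
  · exact (Ultrafilter.of_le _) h.eventually_norm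
  · exact (h.tendsto_mul_left a).mono_left (Ultrafilter.of_le _)
  · exact (h.tendsto_mul_right a).mono_left (Ultrafilter.of_le _)

/-- slot update of a `mrg` -/
private theorem NU1_update_skip {A : Type} (a : ℕ → A) (k : ℕ) (x : A) :
    Function.update (fun i => if i < k then a i else a (i + 1)) k x
      = fun i => if i < k then a i else if i = k then x else a (i + 1) := by
  funext i
  rcases lt_trichotomy i k with h | h | h
  · rw [Function.update_of_ne h.ne, if_pos h, if_pos h]
  · subst h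
    rw [Function.update_self, if_neg (lt_irrefl _), if_pos rfl]
  · rw [Function.update_of_ne h.ne', if_neg h.not_gt, if_neg h.not_gt, if_neg h.ne']

/-- the coboundary, faces written out -/
private theorem NU1_delta_eq {B : Type} [Mul B] (m : ℕ) (ψ : Form B) (w : ℕ → B) (y : B) :
    delta m ψ w y = ψ (shift w) (y * w 0)
      + (∑ k ∈ Finset.range m, (-1 : ℂ) ^ (k + 1) * ψ (mrg k w) y)
      + (-1 : ℂ) ^ (m + 1) * ψ w (w m * y) := by
  rw [delta, Finset.sum_range_succ, Finset.sum_range_succ']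
  have h0 : dd m 0 ψ w y = ψ (shift w) (y * w 0) := by simp [dd]
  have h1 : dd m (m + 1) ψ w y = ψ w (w m * y) := by simp [dd]
  have h2 : ∑ k ∈ Finset.range m, (-1 : ℂ) ^ (k + 1) * dd m (k + 1) ψ w y
      = ∑ k ∈ Finset.range m, (-1 : ℂ) ^ (k + 1) * ψ (mrg k w) y := by
    refine Finset.sum_congr rfl fun k hk => ?_
    have hk' : k < m := Finset.mem_range.1 hk
    have : ¬ (k + 1 = m + 1) := by omega
    simp [dd, hk'.ne]
  rw [h0, h1, h2]
  simp only [pow_zero, one_mul]
  ring

private theorem NU1_tele (m : ℕ) (x : ℕ → ℂ) :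
    ∑ k ∈ Finset.range m, (-1 : ℂ) ^ (k + 1) * (x k + x (k + 1)) = -x 0 + (-1 : ℂ) ^ m * x m := by
  induction m with
  | zero => simp
  | succ m ih =>
    rw [Finset.sum_range_succ, ih]
    ring

theorem unitization_ext {A : Type} [NonUnitalCStarAlgebra A] {n : ℕ} {φ : Form A}
    (hφ : IsCoch (n + 1) φ) (hc : ∀ w y, delta (n + 1) φ w y = 0) :
    ∃ φ' : Form (Unitization ℂ A), IsCoch (n + 1) φ' ∧ (∀ w y, delta (n + 1) φ' w y = 0) ∧
      ∀ (w : ℕ → A) (y : A), φ' (fun i => (w i : Unitization ℂ A)) (y : Unitization ℂ A)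
        = φ w y := by
  obtain ⟨C, hC⟩ := hφ
  obtain ⟨U, hU1, hUl, hUr⟩ := NU1_unit A
  -- the limit functional
  have hlim : ∀ v : ℕ → A, ∃ z : ℂ, Tendsto (fun u => φ v u) U (𝓝 z) := by
    intro v
    have hmem : Metric.closedBall (0 : ℂ) (C * ∏ i ∈ Finset.range (n + 1), ‖v i‖)
        ∈ (U.map fun u => φ v u : Ultrafilter ℂ) := by
      rw [Ultrafilter.mem_map]
      filter_upwards [hU1] with u hu
      rw [Set.mem_preimage, mem_closedBall_zero_iff]
      calc ‖φ v u‖ ≤ C * (∏ i ∈ Finset.range (n + 1), ‖v i‖) * ‖u‖ := hC.bound v u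
        _ ≤ C * (∏ i ∈ Finset.range (n + 1), ‖v i‖) * 1 :=
          mul_le_mul_of_nonneg_left hu
            (mul_nonneg hC.nonneg (Finset.prod_nonneg fun i _ => norm_nonneg _))
        _ = _ := mul_one _
    obtain ⟨z, -, hz⟩ := (isCompact_closedBall (0 : ℂ)
      (C * ∏ i ∈ Finset.range (n + 1), ‖v i‖)).ultrafilter_le_nhds' _ hmem
    exact ⟨z, hz⟩
  choose L hL using hlim
  have Ldep : ∀ v v' : ℕ → A, (∀ i, i < n + 1 → v i = v' i) → L v = L v' := by
    intro v v' h
    refine tendsto_nhds_unique (hL v) ((hL v').congr fun u => ?_)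
    exact (hC.dep v v' u h).symm
  have Ladd : ∀ i, i < n + 1 → ∀ (v : ℕ → A) (a b : A), L (Function.update v i (a + b))
      = L (Function.update v i a) + L (Function.update v i b) := by
    intro i hi v a b
    refine tendsto_nhds_unique (hL _) (((hL (Function.update v i a)).add
      (hL (Function.update v i b))).congr fun u => ?_)
    exact (hC.add i hi v a b u).symm
  have Lsmul : ∀ i, i < n + 1 → ∀ (v : ℕ → A) (c : ℂ) (a : A), L (Function.update v i (c • a))
      = c * L (Function.update v i a) := by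
    intro i hi v c a
    refine tendsto_nhds_unique (hL _) (((hL (Function.update v i a)).const_mul c).congr
      fun u => ?_)
    exact (hC.smul i hi v c a u).symm
  have Lbound : ∀ v : ℕ → A, ‖L v‖ ≤ C * ∏ i ∈ Finset.range (n + 1), ‖v i‖ := by
    intro v
    refine le_of_tendsto (hL v).norm ?_
    filter_upwards [hU1] with u hu
    calc ‖φ v u‖ ≤ C * (∏ i ∈ Finset.range (n + 1), ‖v i‖) * ‖u‖ := hC.bound v u
      _ ≤ C * (∏ i ∈ Finset.range (n + 1), ‖v i‖) * 1 :=
        mul_le_mul_of_nonneg_left hu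
          (mul_nonneg hC.nonneg (Finset.prod_nonneg fun i _ => norm_nonneg _))
      _ = _ := mul_one _
  -- norms of the components
  have nfst : ∀ z : Unitization ℂ A, ‖z.fst‖ ≤ ‖z‖ := by
    intro z
    rw [Unitization.norm_eq_sup]
    exact le_max_left _ _
  have nsnd : ∀ z : Unitization ℂ A, ‖z.snd‖ ≤ 2 * ‖z‖ := by
    intro z
    have e : ((z.snd : A) : Unitization ℂ A) = z - algebraMap ℂ (Unitization ℂ A) z.fst := by
      rw [eq_sub_iff_add_eq, add_comm]
      exact Unitization.inl_fst_add_inr_snd_eq z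
    rw [← Unitization.norm_inr (𝕜 := ℂ) z.snd, e]
    calc ‖z - algebraMap ℂ (Unitization ℂ A) z.fst‖
        ≤ ‖z‖ + ‖algebraMap ℂ (Unitization ℂ A) z.fst‖ := norm_sub_le _ _
      _ ≤ ‖z‖ + ‖z‖ := by
        gcongr
        rw [norm_algebraMap, norm_one, mul_one]
        exact nfst z
      _ = 2 * ‖z‖ := by ring
  have psnd : ∀ w : ℕ → Unitization ℂ A, ∏ i ∈ Finset.range (n + 1), ‖(w i).snd‖
      ≤ 2 ^ (n + 1) * ∏ i ∈ Finset.range (n + 1), ‖w i‖ := by
    intro w
    calc ∏ i ∈ Finset.range (n + 1), ‖(w i).snd‖ ≤ ∏ i ∈ Finset.range (n + 1), (2 * ‖w i‖) :=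
        Finset.prod_le_prod (fun i _ => norm_nonneg _) fun i _ => nsnd _
      _ = _ := by rw [Finset.prod_mul_distrib, Finset.prod_const, Finset.card_range]
  have sup : ∀ (w : ℕ → Unitization ℂ A) (i : ℕ) (x : Unitization ℂ A),
      (fun j => (Function.update w i x j).snd) = Function.update (fun j => (w j).snd) i x.snd := by
    intro w i x
    funext j
    by_cases h : j = i
    · subst h; simp
    · simp [h]
  obtain ⟨E, hE⟩ : ∃ E : Form (Unitization ℂ A), ∀ w Y,
      E w Y = φ (fun i => (w i).snd) Y.snd + Y.fst * L (fun i => (w i).snd) := ⟨_, fun _ _ => rfl⟩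
  refine ⟨E, ⟨C * 2 ^ (n + 1) * 2 + C * 2 ^ (n + 1), ?_⟩, ?_, ?_⟩
  · have hCn := hC.nonneg
    constructor
    · positivity
    · intro w w' y h
      rw [hE, hE, hC.dep _ (fun i => (w' i).snd) _ fun i hi => by rw [h i hi],
        Ldep _ (fun i => (w' i).snd) fun i hi => by rw [h i hi]]
    · intro i hi w a b y
      rw [hE, hE, hE, sup, sup, sup, Unitization.snd_add, hC.add i hi, Ladd i hi]
      ring
    · intro i hi w c a y
      rw [hE, hE, sup, sup, Unitization.snd_smul, hC.smul i hi, Lsmul i hi]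
      ring
    · intro w a b
      rw [hE, hE, hE, Unitization.snd_add, Unitization.fst_add, hC.addy]
      ring
    · intro w c a
      rw [hE, hE, Unitization.snd_smul, Unitization.fst_smul, hC.smuly, smul_eq_mul]
      ring
    · intro w y
      rw [hE]
      have hP : 0 ≤ ∏ i ∈ Finset.range (n + 1), ‖w i‖ := Finset.prod_nonneg fun i _ => norm_nonneg _
      have hP' : 0 ≤ ∏ i ∈ Finset.range (n + 1), ‖(w i).snd‖ :=
        Finset.prod_nonneg fun i _ => norm_nonneg _
      have b1 : ‖φ (fun i => (w i).snd) y.snd‖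
          ≤ C * (2 ^ (n + 1) * ∏ i ∈ Finset.range (n + 1), ‖w i‖) * (2 * ‖y‖) := by
        refine (hC.bound _ _).trans ?_
        gcongr
        · exact psnd w
        · exact nsnd y
      have b2 : ‖y.fst * L (fun i => (w i).snd)‖
          ≤ ‖y‖ * (C * (2 ^ (n + 1) * ∏ i ∈ Finset.range (n + 1), ‖w i‖)) := by
        rw [norm_mul]
        have := nfst y
        have h2 := Lbound fun i => (w i).snd
        have h3 : C * ∏ i ∈ Finset.range (n + 1), ‖(w i).snd‖
            ≤ C * (2 ^ (n + 1) * ∏ i ∈ Finset.range (n + 1), ‖w i‖) :=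
          mul_le_mul_of_nonneg_left (psnd w) hCn
        exact mul_le_mul this (h2.trans h3) (norm_nonneg _) (norm_nonneg _)
      calc ‖φ (fun i => (w i).snd) y.snd + y.fst * L (fun i => (w i).snd)‖
          ≤ _ := norm_add_le _ _
        _ ≤ _ := add_le_add b1 b2
        _ = (C * 2 ^ (n + 1) * 2 + C * 2 ^ (n + 1)) * (∏ i ∈ Finset.range (n + 1), ‖w i‖) * ‖y‖ := by
          ring
  · intro w Y
    obtain ⟨a, ha⟩ : ∃ a : ℕ → A, a = fun i => (w i).snd := ⟨_, rfl⟩
    obtain ⟨l, hl⟩ : ∃ l : ℕ → ℂ, l = fun i => (w i).fst := ⟨_, rfl⟩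
    obtain ⟨S, hS⟩ : ∃ S : ℕ → ℕ → A, S = fun k i => if i < k then a i else a (i + 1) := ⟨_, rfl⟩
    have S0 : S 0 = shift a := by
      rw [hS]; funext i; simp [shift]
    have Su1 : ∀ k, Function.update (S k) k (a (k + 1)) = S k := by
      intro k
      rw [hS]
      exact Function.update_eq_self_iff.2 (by simp)
    have Su2 : ∀ k, Function.update (S k) k (a k) = S (k + 1) := by
      intro k
      rw [hS, NU1_update_skip]
      funext i
      rcases lt_trichotomy i k with h | h | h
      · simp [h, Nat.lt_succ_of_lt h]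
      · subst h; simp
      · have h1 : ¬ i < k + 1 := by omega
        simp [h.not_gt, h.ne', h1]
    have Su3 : ∀ k, Function.update (S k) k (a k * a (k + 1)) = mrg k a := by
      intro k
      rw [hS, NU1_update_skip]
      rfl
    -- the three kinds of faces of the extension
    have f0 : E (shift w) (Y * w 0) = φ (shift a) (Y.snd * a 0) + Y.fst * φ (shift a) (a 0)
        + l 0 * (φ (S 0) Y.snd + Y.fst * L (S 0)) := by
      have e1 : (fun i => (shift w i).snd) = shift a := by rw [ha]; rfl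
      rw [hE, e1, Unitization.snd_mul, Unitization.fst_mul, hC.addy, hC.addy, hC.smuly,
        hC.smuly, S0, ha, hl]
      ring
    have fm : ∀ k, k < n + 1 → E (mrg k w) Y = (φ (mrg k a) Y.snd + Y.fst * L (mrg k a))
        + (l k * (φ (S k) Y.snd + Y.fst * L (S k))
          + l (k + 1) * (φ (S (k + 1)) Y.snd + Y.fst * L (S (k + 1)))) := by
      intro k hk
      have e1 : (fun i => (mrg k w i).snd)
          = Function.update (S k) k (l k • a (k + 1) + l (k + 1) • a k + a k * a (k + 1)) := by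
        rw [hS, NU1_update_skip, ha, hl]
        funext i
        rcases lt_trichotomy i k with h | h | h
        · simp [mrg, h]
        · subst h; simp [mrg]
        · simp [mrg, h.not_gt, h.ne']
      rw [hE, e1, hC.add k hk, hC.add k hk, hC.smul k hk, hC.smul k hk, Ladd k hk, Ladd k hk,
        Lsmul k hk, Lsmul k hk, Su1, Su2, Su3]
      ring
    have fl : E w (w (n + 1) * Y) = φ a (a (n + 1) * Y.snd) + Y.fst * φ a (a (n + 1))
        + l (n + 1) * (φ (S (n + 1)) Y.snd + Y.fst * L (S (n + 1))) := by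
      have e1 : ∀ i, i < n + 1 → S (n + 1) i = a i := by
        intro i hi
        rw [hS]
        simp [hi]
      have e2 : ∀ y, φ (S (n + 1)) y = φ a y := fun y => hC.dep _ _ _ e1
      have e3 : L (S (n + 1)) = L a := Ldep _ _ e1
      rw [hE, ← ha, Unitization.snd_mul, Unitization.fst_mul, hC.addy, hC.addy, hC.smuly,
        hC.smuly, e2, e3, hl, ha]
      ring
    -- the cocycle identity for entries in `A` and the unit in the last slot
    have hbr : φ (shift a) (a 0)
        + (∑ k ∈ Finset.range (n + 1), (-1 : ℂ) ^ (k + 1) * L (mrg k a))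
        + (-1 : ℂ) ^ (n + 1 + 1) * φ a (a (n + 1)) = 0 := by
      have cont : ∀ v : ℕ → A, Continuous fun y => φ v y := by
        intro v
        have hlin : ∀ y y' : A, φ v y - φ v y' = φ v (y - y') := fun y y' => (hC.suby v y y').symm
        have hK : 0 ≤ C * ∏ i ∈ Finset.range (n + 1), ‖v i‖ :=
          mul_nonneg hC.nonneg (Finset.prod_nonneg fun i _ => norm_nonneg _)
        refine (LipschitzWith.of_dist_le_mul (K := ⟨_, hK⟩) fun y y' => ?_).continuous
        rw [dist_eq_norm, dist_eq_norm, hlin]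
        exact hC.bound v _
      have t1 : Tendsto (fun u => φ (shift a) (u * a 0)) U (𝓝 (φ (shift a) (a 0))) :=
        ((cont (shift a)).tendsto _).comp (hUr (a 0))
      have t2 : Tendsto (fun u => φ a (a (n + 1) * u)) U (𝓝 (φ a (a (n + 1)))) :=
        ((cont a).tendsto _).comp (hUl (a (n + 1)))
      have t3 : Tendsto (fun u => ∑ k ∈ Finset.range (n + 1), (-1 : ℂ) ^ (k + 1) * φ (mrg k a) u) U
          (𝓝 (∑ k ∈ Finset.range (n + 1), (-1 : ℂ) ^ (k + 1) * L (mrg k a))) :=
        tendsto_finsetSum _ fun k _ => (hL (mrg k a)).const_mul _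
      have t4 := (t1.add t3).add (t2.const_mul ((-1 : ℂ) ^ (n + 1 + 1)))
      have t5 : Tendsto (fun u => delta (n + 1) φ a u) U (𝓝 0) := by
        simp only [hc]
        exact tendsto_const_nhds
      refine tendsto_nhds_unique t4 (t5.congr fun u => ?_)
      exact NU1_delta_eq (n + 1) φ a u
    have hay := hc a Y.snd
    rw [NU1_delta_eq] at hay
    rw [NU1_delta_eq, f0, fl]
    have hsum : ∑ k ∈ Finset.range (n + 1), (-1 : ℂ) ^ (k + 1) * E (mrg k w) Y
        = (∑ k ∈ Finset.range (n + 1), (-1 : ℂ) ^ (k + 1) * φ (mrg k a) Y.snd)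
          + Y.fst * (∑ k ∈ Finset.range (n + 1), (-1 : ℂ) ^ (k + 1) * L (mrg k a))
          + (-(l 0 * (φ (S 0) Y.snd + Y.fst * L (S 0)))
            + (-1 : ℂ) ^ (n + 1) * (l (n + 1) * (φ (S (n + 1)) Y.snd + Y.fst * L (S (n + 1))))) := by
      rw [← NU1_tele (n + 1) fun k => l k * (φ (S k) Y.snd + Y.fst * L (S k)), Finset.mul_sum,
        ← Finset.sum_add_distrib, ← Finset.sum_add_distrib]
      refine Finset.sum_congr rfl fun k hk => ?_
      rw [fm k (Finset.mem_range.1 hk)]
      ring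
    rw [hsum]
    linear_combination hay + Y.fst * hbr
  · intro w y
    rw [hE]
    simp

end Pool.MP263F
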