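import Pool.Agent.Lib.MP_263cac_full.NU1
import Pool.Agent.Lib.MP_263cac_full.Mat9
set_option autoImplicit false

/-! JOB NU2: the nonunital case. `φ'` from `unitization_ext`, `ψ'` from `unital_case`
(`Unitization ℂ A` is a `CStarAlgebra`), `ψ w y = ψ' (fun i => (w i : A⁺¹)) y`; `inr` is an isometric algebra
homomorphism (`Unitization.norm_inr`, `Unitization.inr_mul`, ...), and it commutes with `shift`, `mrg`. -/

namespace Pool.MP263F

private theorem NU2_update {A : Type} [NonUnitalCStarAlgebra A] (w : ℕ → A) (i : ℕ) (a : A) :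
    (fun j => ((Function.update w i a j : A) : Unitization ℂ A)) =
      Function.update (fun j => ((w j : A) : Unitization ℂ A)) i (a : Unitization ℂ A) := by
  funext j
  by_cases hj : j = i
  · subst hj
    simp only [Function.update_self]
  · simp only [Function.update_of_ne hj]

private theorem NU2_mrg {A : Type} [NonUnitalCStarAlgebra A] (k : ℕ) (w : ℕ → A) :
    (fun j => ((mrg k w j : A) : Unitization ℂ A)) =
      mrg k (fun j => ((w j : A) : Unitization ℂ A)) := by
  funext j
  simp only [mrg]
  split_ifs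
  · rfl
  · rw [Unitization.inr_mul]
  · rfl

private theorem NU2_dd {A : Type} [NonUnitalCStarAlgebra A] (n k : ℕ) (ψ' : Form (Unitization ℂ A))
    (w : ℕ → A) (y : A) :
    dd n k (fun (w : ℕ → A) (y : A) => ψ' (fun i => (w i : Unitization ℂ A)) (y : Unitization ℂ A)) w y
      = dd n k ψ' (fun i => (w i : Unitization ℂ A)) (y : Unitization ℂ A) := by
  simp only [dd]
  split_ifs
  · rw [Unitization.inr_mul]
    rfl
  · rw [Unitization.inr_mul]
  · rw [NU2_mrg]

theorem nonunital_case {A : Type} [NonUnitalCStarAlgebra A] {n : ℕ} {φ : Form A}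
    (hφ : IsCoch (n + 1) φ) (hc : ∀ w y, delta (n + 1) φ w y = 0) :
    ∃ ψ : Form A, IsCoch n ψ ∧ ∀ w y, φ w y = delta n ψ w y := by
  obtain ⟨φ', h1, h2, h3⟩ := unitization_ext hφ hc
  obtain ⟨ψ', h4, h5⟩ := unital_case h1 h2
  refine ⟨fun w y => ψ' (fun i => (w i : Unitization ℂ A)) (y : Unitization ℂ A), ?_, ?_⟩
  · obtain ⟨C, hC⟩ := h4
    refine ⟨C, ⟨hC.nonneg, ?_, ?_, ?_, ?_, ?_, ?_⟩⟩
    · intro w w' y h
      exact hC.dep _ _ _ (fun i hi => by simp only [h i hi])
    · intro i hi w a b y
      simp only [NU2_update]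
      rw [Unitization.inr_add]
      exact hC.add i hi _ _ _ _
    · intro i hi w c a y
      simp only [NU2_update]
      rw [Unitization.inr_smul]
      exact hC.smul i hi _ _ _ _
    · intro w a b
      rw [Unitization.inr_add]
      exact hC.addy _ _ _
    · intro w c a
      rw [Unitization.inr_smul]
      exact hC.smuly _ _ _
    · intro w y
      have h := hC.bound (fun i => (w i : Unitization ℂ A)) (y : Unitization ℂ A)
      simpa only [Unitization.norm_inr] using h
  · intro w y
    rw [← h3 w y, h5]
    simp only [delta, NU2_dd]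

end Pool.MP263F
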