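import Pool.Agent.Lib.MP_263cac_full.Tr
set_option autoImplicit false

/-! JOB Pha: random phases.

Proof.  `Θ = Fin m → ι → ZMod 4`, `ζ k = I ^ (k.val)`, `v θ a = Σ_i ζ(θ a i) • u i`.
Averages of characters: the average over `θ` of `ζ(θ a i)^{±1}...`: for `a ≠ b`,
`Δ = Σ_{i,j} conj ζ(θ a i) ζ(θ b j) u_i* u_j` and `avg Δ* Δ = Σ_{i,j} u_j* u_i u_i* u_j`
`= Σ_j u_j* (Σ_i u_i u_i*) u_j ≤ δ' Σ_j u_j* u_j ≤ δ'`; for `a = b`,
`Δ = Σ_{i ≠ j} conj ζ(θ a i) ζ(θ a j) u_i* u_j`, and `avg Δ* Δ = Σ_{i≠j} u_j* u_i u_i* u_j` (the average of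
`ζ_i conj ζ_j conj ζ_k ζ_l` for `i ≠ j`, `k ≠ l` is `1` if `i=k, j=l` and `0` otherwise; here one uses that
the average of `ζ²` is `0`). -/

namespace Pool.MP263F
variable {B : Type} [CStarAlgebra B] [PartialOrder B] [StarOrderedRing B]

private lemma pha_sum_zero {Θ : Type} [Fintype Θ] [AddGroup Θ] (ψ : Θ → ℂ) (θ0 : Θ)
    (h : ∀ θ, ψ (θ + θ0) = ψ θ * ψ θ0) (h1 : ψ θ0 ≠ 1) : ∑ θ, ψ θ = 0 := by
  have h2 : ∑ θ, ψ (θ + θ0) = ∑ θ, ψ θ := Equiv.sum_comp (Equiv.addRight θ0) ψ
  have h3 : ∑ θ, ψ (θ + θ0) = (∑ θ, ψ θ) * ψ θ0 := by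
    rw [Finset.sum_mul]
    exact Finset.sum_congr rfl fun θ _ => h θ
  have h4 : (∑ θ, ψ θ) * (ψ θ0 - 1) = 0 := by
    rw [mul_sub, mul_one, ← h3, h2, sub_self]
  exact (mul_eq_zero.1 h4).resolve_right (sub_ne_zero.2 h1)

/-- the character `k ↦ I ^ k` of `ZMod 4` -/
private noncomputable def pha_z (k : ZMod 4) : ℂ := ZMod.stdAddChar k

private lemma pha_add (k l : ZMod 4) : pha_z (k + l) = pha_z k * pha_z l :=
  AddChar.map_add_eq_mul _ _ _

private lemma pha_zero : pha_z 0 = 1 := AddChar.map_zero_eq_one _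

private lemma pha_one : pha_z 1 = Complex.I := by
  unfold pha_z
  have h1 := ZMod.stdAddChar_coe (N := 4) 1
  have h2 : ((1 : ℤ) : ZMod 4) = 1 := by simp
  rw [h2] at h1
  rw [h1]
  have h3 : 2 * (Real.pi : ℂ) * Complex.I * ((1 : ℤ) : ℂ) / ((4 : ℕ) : ℂ)
      = (Real.pi : ℂ) / 2 * Complex.I := by
    push_cast
    ring
  rw [h3, Complex.exp_pi_div_two_mul_I]

private lemma pha_conj (k : ZMod 4) : (starRingEnd ℂ) (pha_z k) * pha_z k = 1 := by
  rw [mul_comm, Complex.mul_conj, Complex.normSq_eq_norm_sq]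
  unfold pha_z
  rw [AddChar.norm_apply]
  simp

section
open scoped Classical
variable {ι : Type} {m : ℕ}

/-- the coefficient of `star (u i) * u j` -/
private noncomputable def pha_c (a b : Fin m) (θ : Fin m → ι → ZMod 4) (p : ι × ι) : ℂ :=
  if a = b ∧ p.1 = p.2 then 0 else (starRingEnd ℂ) (pha_z (θ a p.1)) * pha_z (θ b p.2)

private lemma pha_corr [Fintype ι] (a b : Fin m) (p q : ι × ι) :
    ∑ θ : Fin m → ι → ZMod 4, (starRingEnd ℂ) (pha_c a b θ p) * pha_c a b θ q
      = if p = q ∧ ¬ (a = b ∧ p.1 = p.2) then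
        (Fintype.card (Fin m → ι → ZMod 4) : ℂ) else 0 := by
  by_cases hp : a = b ∧ p.1 = p.2
  · rw [if_neg (fun h => h.2 hp)]
    refine Finset.sum_eq_zero fun θ _ => ?_
    unfold pha_c
    rw [if_pos hp, map_zero, zero_mul]
  by_cases hq : a = b ∧ q.1 = q.2
  · have hpq : ¬ (p = q ∧ ¬ (a = b ∧ p.1 = p.2)) := by
      rintro ⟨rfl, h⟩
      exact h hq
    rw [if_neg hpq]
    refine Finset.sum_eq_zero fun θ _ => ?_
    unfold pha_c
    rw [if_pos hq, mul_zero]
  have hc : ∀ θ : Fin m → ι → ZMod 4, (starRingEnd ℂ) (pha_c a b θ p) * pha_c a b θ q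
      = pha_z (θ a p.1) * (starRingEnd ℂ) (pha_z (θ b p.2)) *
        ((starRingEnd ℂ) (pha_z (θ a q.1)) * pha_z (θ b q.2)) := by
    intro θ
    unfold pha_c
    rw [if_neg hp, if_neg hq, map_mul, Complex.conj_conj]
  rw [Finset.sum_congr rfl fun θ _ => hc θ]
  by_cases hpq : p = q
  · subst hpq
    rw [if_pos ⟨rfl, hp⟩]
    have h1 : ∀ θ : Fin m → ι → ZMod 4,
        pha_z (θ a p.1) * (starRingEnd ℂ) (pha_z (θ b p.2)) *
        ((starRingEnd ℂ) (pha_z (θ a p.1)) * pha_z (θ b p.2)) = 1 := by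
      intro θ
      calc pha_z (θ a p.1) * (starRingEnd ℂ) (pha_z (θ b p.2)) *
            ((starRingEnd ℂ) (pha_z (θ a p.1)) * pha_z (θ b p.2))
          = ((starRingEnd ℂ) (pha_z (θ a p.1)) * pha_z (θ a p.1)) *
            ((starRingEnd ℂ) (pha_z (θ b p.2)) * pha_z (θ b p.2)) := by ring
        _ = 1 := by rw [pha_conj, pha_conj, one_mul]
    rw [Finset.sum_congr rfl fun θ _ => h1 θ]
    simp
  · rw [if_neg (fun h => hpq h.1)]
    by_cases h1 : p.1 = q.1
    · have h2 : p.2 ≠ q.2 := fun h => hpq (Prod.ext h1 h)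
      refine pha_sum_zero _ (fun a' i' => if a' = b ∧ i' = p.2 then 1 else 0) ?_ ?_
      · intro θ
        simp only [Pi.add_apply, pha_add, map_mul]
        ring
      · have e1 : ¬ (a = b ∧ p.1 = p.2) := hp
        have e2 : ¬ (a = b ∧ q.1 = p.2) := by rw [← h1]; exact hp
        have e3 : ¬ (b = b ∧ q.2 = p.2) := fun h => h2 h.2.symm
        beta_reduce
        rw [if_neg e1, if_pos ⟨rfl, rfl⟩, if_neg e2, if_neg e3, pha_zero, pha_one]
        intro h
        have h5 := congrArg Complex.re h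
        simp at h5
    · refine pha_sum_zero _ (fun a' i' => if a' = a ∧ i' = p.1 then 1 else 0) ?_ ?_
      · intro θ
        simp only [Pi.add_apply, pha_add, map_mul]
        ring
      · have e1 : ¬ (b = a ∧ p.2 = p.1) := fun h => hp ⟨h.1.symm, h.2.symm⟩
        have e2 : ¬ (a = a ∧ q.1 = p.1) := fun h => h1 h.2.symm
        by_cases e3 : b = a ∧ q.2 = p.1
        · beta_reduce
          rw [if_pos ⟨rfl, rfl⟩, if_neg e1, if_neg e2, if_pos e3, pha_zero, pha_one]
          intro h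
          have h5 := congrArg Complex.re h
          norm_num at h5
        · beta_reduce
          rw [if_pos ⟨rfl, rfl⟩, if_neg e1, if_neg e2, if_neg e3, pha_zero, pha_one]
          intro h
          have h5 := congrArg Complex.re h
          simp at h5

end

theorem phases {ι : Type} [Fintype ι] (u : ι → B) (δ' : ℝ) (hδ' : 0 ≤ δ')
    (h1 : ∑ i, star (u i) * u i ≤ 1) (h2 : ∑ i, u i * star (u i) ≤ δ' • (1 : B)) (m : ℕ) :
    ∃ (Θ : Type) (_ : Fintype Θ) (_ : Nonempty Θ) (v : Θ → Fin m → B),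
      ∀ a b, (Fintype.card Θ : ℝ)⁻¹ • ∑ θ,
        star (star (v θ a) * v θ b - (if a = b then ∑ i, star (u i) * u i else 0))
          * (star (v θ a) * v θ b - (if a = b then ∑ i, star (u i) * u i else 0))
        ≤ δ' • (1 : B) := by
  classical
  refine ⟨Fin m → ι → ZMod 4, inferInstance, inferInstance,
    fun θ a => ∑ i, pha_z (θ a i) • u i, ?_⟩
  intro a b
  -- the expansion
  have hD : ∀ θ : Fin m → ι → ZMod 4,
      star (∑ i, pha_z (θ a i) • u i) * (∑ i, pha_z (θ b i) • u i)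
        - (if a = b then ∑ i, star (u i) * u i else 0)
      = ∑ p : ι × ι, pha_c a b θ p • (star (u p.1) * u p.2) := by
    intro θ
    have e1 : star (∑ i, pha_z (θ a i) • u i) * (∑ i, pha_z (θ b i) • u i)
        = ∑ p : ι × ι, ((starRingEnd ℂ) (pha_z (θ a p.1)) * pha_z (θ b p.2)) •
          (star (u p.1) * u p.2) := by
      rw [star_sum, Finset.sum_mul_sum, Fintype.sum_prod_type]
      refine Finset.sum_congr rfl fun i _ => Finset.sum_congr rfl fun j _ => ?_
      rw [star_smul, smul_mul_smul_comm]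
      rfl
    have e2 : (if a = b then ∑ i, star (u i) * u i else 0)
        = ∑ p : ι × ι, (if a = b ∧ p.1 = p.2 then (1 : ℂ) else 0) • (star (u p.1) * u p.2) := by
      rw [Fintype.sum_prod_type]
      by_cases hab : a = b
      · rw [if_pos hab]
        refine Finset.sum_congr rfl fun i _ => ?_
        rw [Finset.sum_eq_single i]
        · rw [if_pos ⟨hab, rfl⟩, one_smul]
        · intro j _ hj
          rw [if_neg (fun h => hj h.2.symm), zero_smul]
        · intro h
          exact absurd (Finset.mem_univ i) h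
      · rw [if_neg hab]
        symm
        refine Finset.sum_eq_zero fun i _ => Finset.sum_eq_zero fun j _ => ?_
        rw [if_neg (fun h => hab h.1), zero_smul]
    rw [e1, e2, ← Finset.sum_sub_distrib]
    refine Finset.sum_congr rfl fun p _ => ?_
    rw [← sub_smul]
    congr 1
    unfold pha_c
    by_cases hp : a = b ∧ p.1 = p.2
    · rw [if_pos hp, if_pos hp, hp.1, hp.2, pha_conj, sub_self]
    · rw [if_neg hp, if_neg hp, sub_zero]
  -- the average
  have hS : ∑ θ : Fin m → ι → ZMod 4,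
      star (∑ p : ι × ι, pha_c a b θ p • (star (u p.1) * u p.2))
        * (∑ p : ι × ι, pha_c a b θ p • (star (u p.1) * u p.2))
      = (Fintype.card (Fin m → ι → ZMod 4) : ℝ) • ∑ p : ι × ι,
        (if a = b ∧ p.1 = p.2 then 0 else
          star (star (u p.1) * u p.2) * (star (u p.1) * u p.2)) := by
    have e1 : ∀ θ : Fin m → ι → ZMod 4,
        star (∑ p : ι × ι, pha_c a b θ p • (star (u p.1) * u p.2))
        * (∑ p : ι × ι, pha_c a b θ p • (star (u p.1) * u p.2))
        = ∑ p : ι × ι, ∑ q : ι × ι, ((starRingEnd ℂ) (pha_c a b θ p) * pha_c a b θ q) •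
          (star (star (u p.1) * u p.2) * (star (u q.1) * u q.2)) := by
      intro θ
      rw [star_sum, Finset.sum_mul_sum]
      refine Finset.sum_congr rfl fun p _ => Finset.sum_congr rfl fun q _ => ?_
      rw [star_smul, smul_mul_smul_comm]
      rfl
    rw [Finset.sum_congr rfl fun θ _ => e1 θ, Finset.sum_comm, Finset.smul_sum]
    refine Finset.sum_congr rfl fun p _ => ?_
    rw [Finset.sum_comm]
    have e2 : ∀ q : ι × ι, ∑ θ : Fin m → ι → ZMod 4,
        ((starRingEnd ℂ) (pha_c a b θ p) * pha_c a b θ q) •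
          (star (star (u p.1) * u p.2) * (star (u q.1) * u q.2))
        = (if p = q ∧ ¬ (a = b ∧ p.1 = p.2) then
        (Fintype.card (Fin m → ι → ZMod 4) : ℂ) else 0) •
          (star (star (u p.1) * u p.2) * (star (u q.1) * u q.2)) := by
      intro q
      rw [← Finset.sum_smul, pha_corr]
    rw [Finset.sum_congr rfl fun q _ => e2 q, Finset.sum_eq_single p]
    · by_cases hp : a = b ∧ p.1 = p.2
      · rw [if_neg (fun h => h.2 hp), if_pos hp, zero_smul, smul_zero]
      · rw [if_pos ⟨rfl, hp⟩, if_neg hp]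
        have h3 : ((Fintype.card (Fin m → ι → ZMod 4) : ℂ))
            = (((Fintype.card (Fin m → ι → ZMod 4) : ℝ)) : ℂ) := by push_cast; rfl
        rw [h3, Complex.coe_smul]
    · intro q _ hq
      rw [if_neg (fun h => hq h.1.symm), zero_smul]
    · intro h
      exact absurd (Finset.mem_univ p) h
  rw [Finset.sum_congr rfl fun θ _ => by rw [hD θ], hS, smul_smul, inv_mul_cancel₀ (by
    exact_mod_cast Fintype.card_ne_zero), one_smul]
  -- the estimate
  calc ∑ p : ι × ι, (if a = b ∧ p.1 = p.2 then 0 else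
          star (star (u p.1) * u p.2) * (star (u p.1) * u p.2))
      ≤ ∑ p : ι × ι, star (star (u p.1) * u p.2) * (star (u p.1) * u p.2) := by
        refine Finset.sum_le_sum fun p _ => ?_
        by_cases hp : a = b ∧ p.1 = p.2
        · rw [if_pos hp]
          exact star_mul_self_nonneg _
        · rw [if_neg hp]
    _ = ∑ j, star (u j) * (∑ i, u i * star (u i)) * u j := by
        rw [Fintype.sum_prod_type_right]
        refine Finset.sum_congr rfl fun j _ => ?_
        rw [Finset.mul_sum, Finset.sum_mul]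
        refine Finset.sum_congr rfl fun i _ => ?_
        rw [star_mul, star_star]
        simp only [mul_assoc]
    _ ≤ ∑ j, star (u j) * (δ' • (1 : B)) * u j :=
        Finset.sum_le_sum fun j _ => star_left_conjugate_le_conjugate h2 (u j)
    _ = δ' • ∑ j, star (u j) * u j := by
        rw [Finset.smul_sum]
        refine Finset.sum_congr rfl fun j _ => ?_
        rw [mul_smul_comm, mul_one, smul_mul_assoc]
    _ ≤ δ' • (1 : B) := smul_le_smul_of_nonneg_left h1 hδ'

end Pool.MP263F
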