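import Pool.Agent.Lib.MP_263cac_full.Alg2
set_option autoImplicit false

/-! JOB Pri1: continuity of bounded cochains and cochains obtained by substituting linear maps. -/

open Filter Topology

namespace Pool.MP263F
variable {B : Type} [NonUnitalNormedRing B] [NormedSpace ℂ B]

private theorem Pri1_prod_update {n j : ℕ} (hj : j < n) (w : ℕ → B) (v : B) (K : ℝ) (hK : 0 ≤ K)
    (hw : ∀ s, s < n → ‖w s‖ ≤ K) :
    ∏ s ∈ Finset.range n, ‖Function.update w j v s‖ ≤ ‖v‖ * K ^ (n - 1) := by
  rw [← Finset.mul_prod_erase (Finset.range n) _ (Finset.mem_range.2 hj), Function.update_self]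
  refine mul_le_mul_of_nonneg_left ?_ (norm_nonneg _)
  have h1 : ∏ s ∈ (Finset.range n).erase j, ‖Function.update w j v s‖ ≤
      ∏ s ∈ (Finset.range n).erase j, K := by
    refine Finset.prod_le_prod (fun s _ => norm_nonneg _) fun s hs => ?_
    rw [Finset.mem_erase, Finset.mem_range] at hs
    rw [Function.update_of_ne hs.1]
    exact hw s hs.2
  refine h1.trans (le_of_eq ?_)
  rw [Finset.prod_const, Finset.card_erase_of_mem (Finset.mem_range.2 hj), Finset.card_range]

private theorem Pri1_slot_diff {n : ℕ} {C : ℝ} {Φ : Form B} (h : Coch n C Φ) {j : ℕ} (hj : j < n)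
    (w : ℕ → B) (a b y : B) (K : ℝ) (hK : 0 ≤ K) (hw : ∀ s, s < n → ‖w s‖ ≤ K) (hy : ‖y‖ ≤ K) :
    ‖Φ (Function.update w j a) y - Φ (Function.update w j b) y‖ ≤ C * (‖a - b‖ * K ^ (n - 1)) * K := by
  rw [← h.sub_slot hj]
  refine (h.bound _ _).trans ?_
  have h1 := Pri1_prod_update hj w (a - b) K hK hw
  have h2 : 0 ≤ ‖a - b‖ * K ^ (n - 1) := by positivity
  exact mul_le_mul (mul_le_mul_of_nonneg_left h1 h.nonneg) hy (norm_nonneg _) (mul_nonneg h.nonneg h2)

/-- telescoping over the slots: replace `c i s` by `c' i s` one slot after the other; each difference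
is bounded by `C * K^n * ‖c i s - c' i s‖` (`Coch.sub_slot`, `Coch.bound`), the last slot by
`C * K^n * ‖Y i - Y' i‖`. -/
theorem Coch.tendsto_sub {n : ℕ} {C : ℝ} {Φ : Form B} (h : Coch n C Φ) {ι : Type}
    {l : Filter ι} (K : ℝ) (c c' : ι → ℕ → B) (Y Y' : ι → B)
    (hc : ∀ i s, s < n → ‖c i s‖ ≤ K) (hc' : ∀ i s, s < n → ‖c' i s‖ ≤ K)
    (hY : ∀ i, ‖Y i‖ ≤ K) (hY' : ∀ i, ‖Y' i‖ ≤ K)
    (hd : ∀ s, s < n → Tendsto (fun i => ‖c i s - c' i s‖) l (𝓝 0))
    (hYd : Tendsto (fun i => ‖Y i - Y' i‖) l (𝓝 0)) :
    Tendsto (fun i => Φ (c i) (Y i) - Φ (c' i) (Y' i)) l (𝓝 0) := by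
  have hmix : ∀ j, j ≤ n → Tendsto (fun i => Φ (c i) (Y i) -
      Φ (fun s => if s < j then c' i s else c i s) (Y i)) l (𝓝 0) := by
    intro j
    induction j with
    | zero =>
      intro _
      have h1 : (fun i => Φ (c i) (Y i) - Φ (fun s => if s < 0 then c' i s else c i s) (Y i)) =
          fun _ => (0 : ℂ) := by
        funext i
        have h2 : (fun s => if s < 0 then c' i s else c i s) = c i := by
          funext s
          rw [if_neg (Nat.not_lt_zero s)]
        rw [h2, sub_self]
      rw [h1]
      exact tendsto_const_nhds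
    | succ j ih =>
      intro hj
      have h1 := ih (by omega)
      have hjn : j < n := by omega
      have h2 : Tendsto (fun i => Φ (fun s => if s < j then c' i s else c i s) (Y i) -
          Φ (fun s => if s < j + 1 then c' i s else c i s) (Y i)) l (𝓝 0) := by
        have h3 : Tendsto (fun i => C * (‖c i j - c' i j‖ * K ^ (n - 1)) * K) l (𝓝 0) := by
          have h4 := (((hd j hjn).mul_const (K ^ (n - 1))).const_mul C).mul_const K
          simpa using h4
        refine squeeze_zero_norm (fun i => ?_) h3
        have hK : 0 ≤ K := (norm_nonneg _).trans (hY i)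
        have h5 : (fun s => if s < j then c' i s else c i s) =
            Function.update (fun s => if s < j then c' i s else c i s) j (c i j) := by
          funext s
          by_cases hs : s = j
          · subst hs
            rw [Function.update_self, if_neg (lt_irrefl s)]
          · rw [Function.update_of_ne hs]
        have h6 : (fun s => if s < j + 1 then c' i s else c i s) =
            Function.update (fun s => if s < j then c' i s else c i s) j (c' i j) := by
          funext s
          by_cases hs : s = j
          · subst hs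
            rw [Function.update_self, if_pos (Nat.lt_succ_self s)]
          · rw [Function.update_of_ne hs]
            by_cases h7 : s < j
            · rw [if_pos h7, if_pos (by omega)]
            · rw [if_neg h7, if_neg (by omega)]
        have h8 := Pri1_slot_diff h hjn (fun s => if s < j then c' i s else c i s) (c i j) (c' i j) (Y i) K hK
          (fun s hs => by
            by_cases h9 : s < j
            · simp only [h9, if_true]
              exact hc' i s hs
            · simp only [h9, if_false]
              exact hc i s hs) (hY i)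
        rw [← h5, ← h6] at h8
        exact h8
      have h3 := h1.add h2
      rw [add_zero] at h3
      refine h3.congr fun i => ?_
      ring
  have h1 := hmix n le_rfl
  have h2 : Tendsto (fun i => Φ (c' i) (Y i) - Φ (c' i) (Y' i)) l (𝓝 0) := by
    have h3 : Tendsto (fun i => C * K ^ n * ‖Y i - Y' i‖) l (𝓝 0) := by
      have h4 := hYd.const_mul (C * K ^ n)
      simpa using h4
    refine squeeze_zero_norm (fun i => ?_) h3
    rw [← h.suby]
    refine (h.bound _ _).trans ?_
    refine mul_le_mul_of_nonneg_right (mul_le_mul_of_nonneg_left ?_ h.nonneg) (norm_nonneg _)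
    have h5 : ∏ s ∈ Finset.range n, ‖c' i s‖ ≤ ∏ s ∈ Finset.range n, K :=
      Finset.prod_le_prod (fun s _ => norm_nonneg _) fun s hs => hc' i s (Finset.mem_range.1 hs)
    rwa [Finset.prod_const, Finset.card_range] at h5
  have h3 := h1.add h2
  rw [add_zero] at h3
  refine h3.congr fun i => ?_
  rw [h.dep (fun s => if s < n then c' i s else c i s) (c' i) (Y i) (fun s hs => if_pos hs)]
  ring

/-- substitute linear maps in all slots -/
theorem Coch.comp {n : ℕ} {C : ℝ} {Φ : Form B} (h : Coch n C Φ) (K : ℝ) (hK : 0 ≤ K)
    (L : ℕ → B →ₗ[ℂ] B) (M : B →ₗ[ℂ] B) (hL : ∀ s, s < n → ∀ w, ‖L s w‖ ≤ K * ‖w‖)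
    (hM : ∀ y, ‖M y‖ ≤ K * ‖y‖) :
    Coch n (C * K ^ (n + 1)) (fun w y => Φ (fun s => L s (w s)) (M y)) := by
  have hup : ∀ (w : ℕ → B) (i : ℕ) (a : B), (fun s => L s (Function.update w i a s)) =
      Function.update (fun s => L s (w s)) i (L i a) := by
    intro w i a
    funext s
    by_cases hs : s = i
    · subst hs
      rw [Function.update_self, Function.update_self]
    · rw [Function.update_of_ne hs, Function.update_of_ne hs]
  refine ⟨mul_nonneg h.nonneg (by positivity), ?_, ?_, ?_, ?_, ?_, ?_⟩
  · intro w w' y hww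
    exact h.dep _ _ _ fun i hi => by rw [hww i hi]
  · intro i hi w a b y
    simp only [hup]
    rw [map_add, h.add i hi]
  · intro i hi w c a y
    simp only [hup]
    rw [map_smul, h.smul i hi]
  · intro w a b
    simp only [map_add]
    exact h.addy _ _ _
  · intro w c a
    simp only [map_smul]
    exact h.smuly _ _ _
  · intro w y
    refine (h.bound _ _).trans ?_
    have h1 : ∏ i ∈ Finset.range n, ‖L i (w i)‖ ≤ K ^ n * ∏ i ∈ Finset.range n, ‖w i‖ := by
      have h2 : ∏ i ∈ Finset.range n, ‖L i (w i)‖ ≤ ∏ i ∈ Finset.range n, (K * ‖w i‖) :=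
        Finset.prod_le_prod (fun i _ => norm_nonneg _) fun i hi => hL i (Finset.mem_range.1 hi) _
      rwa [Finset.prod_mul_distrib, Finset.prod_const, Finset.card_range] at h2
    have h3 : 0 ≤ ∏ i ∈ Finset.range n, ‖w i‖ := Finset.prod_nonneg fun i _ => norm_nonneg _
    have h4 : C * (∏ i ∈ Finset.range n, ‖L i (w i)‖) * ‖M y‖ ≤
        C * (K ^ n * ∏ i ∈ Finset.range n, ‖w i‖) * (K * ‖y‖) :=
      mul_le_mul (mul_le_mul_of_nonneg_left h1 h.nonneg) (hM y) (norm_nonneg _)
        (mul_nonneg h.nonneg (mul_nonneg (by positivity) h3))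
    refine h4.trans (le_of_eq ?_)
    ring

private theorem Pri1_prod_ins (g : ℕ → ℝ) (j n : ℕ) (hj : j ≤ n) :
    ∏ s ∈ Finset.range (n + 1), (if s < j then g s else if s = j then 1 else g (s - 1)) =
      ∏ i ∈ Finset.range n, g i := by
  induction n, hj using Nat.le_induction with
  | base =>
    rw [Finset.prod_range_succ, if_neg (lt_irrefl j), if_pos rfl, mul_one]
    exact Finset.prod_congr rfl fun s hs => if_pos (Finset.mem_range.1 hs)
  | succ n hn ih =>
    rw [Finset.prod_range_succ, ih, Finset.prod_range_succ g, if_neg (by omega), if_neg (by omega),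
      Nat.add_sub_cancel]

/-- a constant in slot `j`, identity before, linear maps after -/
theorem Coch.pull {n : ℕ} {C : ℝ} {Φ : Form B} (h : Coch (n + 1) C Φ) (K : ℝ) (hK : 1 ≤ K)
    (j : ℕ) (hj : j ≤ n) (x : B) (hx : ‖x‖ ≤ K)
    (L : ℕ → B →ₗ[ℂ] B) (M : B →ₗ[ℂ] B) (hL : ∀ s w, ‖L s w‖ ≤ K * ‖w‖)
    (hM : ∀ y, ‖M y‖ ≤ K * ‖y‖) :
    Coch n (C * K ^ (n + 2)) (fun v y => Φ (fun s =>
      if s < j then v s else if s = j then x else L s (v (s - 1))) (M y)) := by
  have hK0 : 0 ≤ K := zero_le_one.trans hK
  have hup1 : ∀ (v : ℕ → B) (i : ℕ) (a : B), i < j →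
      (fun s => if s < j then Function.update v i a s else if s = j then x
        else L s (Function.update v i a (s - 1))) =
      Function.update (fun s => if s < j then v s else if s = j then x else L s (v (s - 1))) i a := by
    intro v i a hi
    funext s
    by_cases hs : s = i
    · subst hs
      rw [Function.update_self, if_pos hi, Function.update_self]
    · by_cases h1 : s < j
      · rw [if_pos h1, Function.update_of_ne hs, Function.update_of_ne hs, if_pos h1]
      · rw [if_neg h1]
        by_cases h2 : s = j
        · rw [if_pos h2, Function.update_of_ne hs, if_neg h1, if_pos h2]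
        · rw [if_neg h2, Function.update_of_ne (show s - 1 ≠ i by omega), Function.update_of_ne hs,
            if_neg h1, if_neg h2]
  have hup2 : ∀ (v : ℕ → B) (i : ℕ) (a : B), j ≤ i →
      (fun s => if s < j then Function.update v i a s else if s = j then x
        else L s (Function.update v i a (s - 1))) =
      Function.update (fun s => if s < j then v s else if s = j then x else L s (v (s - 1))) (i + 1)
        (L (i + 1) a) := by
    intro v i a hi
    funext s
    by_cases hs : s = i + 1
    · subst hs
      rw [Function.update_self, if_neg (by omega), if_neg (by omega), Nat.add_sub_cancel,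
        Function.update_self]
    · rw [Function.update_of_ne hs]
      by_cases h1 : s < j
      · rw [if_pos h1, if_pos h1, Function.update_of_ne (by omega)]
      · rw [if_neg h1, if_neg h1]
        by_cases h2 : s = j
        · rw [if_pos h2, if_pos h2]
        · rw [if_neg h2, if_neg h2, Function.update_of_ne (by omega)]
  refine ⟨mul_nonneg h.nonneg (by positivity), ?_, ?_, ?_, ?_, ?_, ?_⟩
  · intro v v' y hvv
    refine h.dep _ _ _ fun i hi => ?_
    by_cases h1 : i < j
    · rw [if_pos h1, if_pos h1, hvv i (by omega)]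
    · rw [if_neg h1, if_neg h1]
      by_cases h2 : i = j
      · rw [if_pos h2, if_pos h2]
      · rw [if_neg h2, if_neg h2, hvv (i - 1) (by omega)]
  · intro i hi v a b y
    by_cases h1 : i < j
    · simp only [hup1 v i _ h1]
      rw [h.add i (by omega)]
    · simp only [hup2 v i _ (not_lt.1 h1)]
      rw [map_add, h.add (i + 1) (by omega)]
  · intro i hi v c a y
    by_cases h1 : i < j
    · simp only [hup1 v i _ h1]
      rw [h.smul i (by omega)]
    · simp only [hup2 v i _ (not_lt.1 h1)]
      rw [map_smul, h.smul (i + 1) (by omega)]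
  · intro w a b
    simp only [map_add]
    exact h.addy _ _ _
  · intro w c a
    simp only [map_smul]
    exact h.smuly _ _ _
  · intro v y
    refine (h.bound _ _).trans ?_
    have h1 : ∏ s ∈ Finset.range (n + 1), ‖(if s < j then v s else if s = j then x else L s (v (s - 1)))‖ ≤
        K ^ (n + 1) * ∏ i ∈ Finset.range n, ‖v i‖ := by
      have h2 : ∏ s ∈ Finset.range (n + 1), ‖(if s < j then v s else if s = j then x else L s (v (s - 1)))‖ ≤
          ∏ s ∈ Finset.range (n + 1),
            (K * (if s < j then ‖v s‖ else if s = j then 1 else ‖v (s - 1)‖)) := by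
        refine Finset.prod_le_prod (fun s _ => norm_nonneg _) fun s _ => ?_
        by_cases h3 : s < j
        · rw [if_pos h3, if_pos h3]
          exact le_mul_of_one_le_left (norm_nonneg _) hK
        · rw [if_neg h3, if_neg h3]
          by_cases h4 : s = j
          · rw [if_pos h4, if_pos h4, mul_one]
            exact hx
          · rw [if_neg h4, if_neg h4]
            exact hL s _
      rw [Finset.prod_mul_distrib, Finset.prod_const, Finset.card_range,
        Pri1_prod_ins (fun s => ‖v s‖) j n hj] at h2
      exact h2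
    have h3 : 0 ≤ ∏ i ∈ Finset.range n, ‖v i‖ := Finset.prod_nonneg fun i _ => norm_nonneg _
    have h4 := mul_le_mul (mul_le_mul_of_nonneg_left h1 h.nonneg) (hM y) (norm_nonneg _)
        (mul_nonneg h.nonneg (mul_nonneg (by positivity) h3))
    refine h4.trans (le_of_eq ?_)
    ring

end Pool.MP263F
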