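import Pool.Agent.Lib.MP_263cac_full.Pri1
set_option autoImplicit false

/-! JOB Pri3: one step of the prism.

Proof of `prism_step`.  Let `p` be the sequence `p s = w s` for `s < j`, `p j = κ j`,
`p s = ξ (s-1) s (w (s-1))` for `s > j`, and evaluate `0 = delta (n+1) Φ p (lam (n+1) Y)`
`= Σ_{m=0}^{n+2} (-1)^m dd (n+1) m Φ p (lam (n+1) Y)` (index `i : ι` suppressed).
* `m < j`: equals/approximates `dd n m (XiL j) w Y` (`m=0`: `lam (n+1) Y * w 0 ≈ lam (n+1) (Y * w 0)`, H5;
  `1 ≤ m`: exact, `mrg (m-1) p = (XiL-sequence of mrg (m-1) w)`).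
* `m = j`: the term `A j` (exact).   * `m = j+1`: `≈ A (j+1)` (H1: `κ j * ξ j (j+1) (w j) ≈ w j * κ (j+1)`;
  for `j = n+1`, H4).
* `m > j+1`: with `k = m - 1`, `≈ dd n k (XiR j k) w Y` (for `k ≤ n`: H2
  `ξ (k-1) k (w (k-1)) * ξ k (k+1) (w k) ≈ ξ (k-1) (k+1) (w (k-1) * w k)`;
  for `k = n+1`: H3 `ξ n (n+1) (w n) * lam (n+1) Y ≈ lam n (w n * Y)`).
All `≈` are instances of `Coch.tendsto_sub`. -/

open Filter Topology

namespace Pool.MP263F
variable {B : Type} [CStarAlgebra B]

/-- skip `k` -/
def tau (k i : ℕ) : ℕ := if i < k then i else i + 1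

/-- the prism form for `k > j` -/
noncomputable def XiR (Φ : Form B) (κ : ℕ → B) (ξ : ℕ → ℕ → B →ₗ[ℂ] B) (lam : ℕ → B →ₗ[ℂ] B)
    (n j k : ℕ) : Form B := fun v Y =>
  Φ (fun s => if s < j then v s else if s = j then κ j else ξ (tau k (s - 1)) (tau k s) (v (s - 1)))
    (lam (tau k n) Y)

/-- the prism form for `k < j` (does not depend on `k`) -/
noncomputable def XiL (Φ : Form B) (κ : ℕ → B) (ξ : ℕ → ℕ → B →ₗ[ℂ] B) (lam : ℕ → B →ₗ[ℂ] B)
    (n j : ℕ) : Form B := fun v Y =>
  Φ (fun s => if s < j - 1 then v s else if s = j - 1 then κ j else ξ s (s + 1) (v (s - 1)))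
    (lam (n + 1) Y)

/-- the terms `A_0, ..., A_{n+2}` -/
noncomputable def Aterm (Φ : Form B) (κ : ℕ → B) (ξ : ℕ → ℕ → B →ₗ[ℂ] B) (lam : ℕ → B →ₗ[ℂ] B) (mu : B →ₗ[ℂ] B)
    (n j : ℕ) : Form B := fun w Y =>
  if j = 0 then Φ (fun s => ξ s (s + 1) (w s)) (lam (n + 1) Y * κ 0)
  else if j = n + 2 then Φ w (mu Y)
  else Φ (fun s => if s < j - 1 then w s else if s = j - 1 then w (j - 1) * κ j
    else ξ s (s + 1) (w s)) (lam (n + 1) Y)

private theorem pri3_sum (f : ℕ → ℂ) (j N : ℕ) (h : j ≤ N) :
    ∑ m ∈ Finset.range (N + 2), f m =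
      ∑ k ∈ Finset.range (N + 1), (if k < j then f k else if j < k then f (k + 1) else 0)
        + f j + f (j + 1) := by
  induction N, h using Nat.le_induction with
  | base =>
    rw [Finset.sum_range_succ, Finset.sum_range_succ, Finset.sum_range_succ]
    have : ∑ k ∈ Finset.range j, (if k < j then f k else if j < k then f (k + 1) else 0)
        = ∑ k ∈ Finset.range j, f k :=
      Finset.sum_congr rfl fun k hk => by rw [if_pos (Finset.mem_range.1 hk)]
    rw [this]
    simp
  | succ N hN ih =>
    rw [Finset.sum_range_succ, ih, Finset.sum_range_succ _ (N + 1), if_neg (by omega),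
      if_pos (by omega)]
    ring

private theorem pri3_same {n : ℕ} {C : ℝ} {Φ : Form B} (h : Coch n C Φ) {ι : Type}
    {l : Filter ι} (K : ℝ) (c : ι → ℕ → B) (Y Y' : ι → B)
    (hc : ∀ i s, s < n → ‖c i s‖ ≤ K)
    (hY : ∀ i, ‖Y i‖ ≤ K) (hY' : ∀ i, ‖Y' i‖ ≤ K)
    (hYd : Tendsto (fun i => ‖Y i - Y' i‖) l (𝓝 0)) :
    Tendsto (fun i => Φ (c i) (Y i) - Φ (c i) (Y' i)) l (𝓝 0) := by
  refine h.tendsto_sub K c c Y Y' hc hc hY hY' (fun s _ => ?_) hYd
  simp only [sub_self, norm_zero]
  exact tendsto_const_nhds

theorem prism_step {n : ℕ} {C : ℝ} {Φ : Form B} (hΦ : Coch (n + 1) C Φ)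
    (hc : ∀ w y, delta (n + 1) Φ w y = 0) {ι : Type} (l : Filter ι) (K : ℝ)
    (κ : ι → ℕ → B) (ξ : ι → ℕ → ℕ → B →ₗ[ℂ] B) (lam : ι → ℕ → B →ₗ[ℂ] B) (mu : ι → B →ₗ[ℂ] B)
    (hK : 1 ≤ K) (hκ : ∀ i s, ‖κ i s‖ ≤ K) (hξ : ∀ i s t w, ‖ξ i s t w‖ ≤ K * ‖w‖)
    (hlam : ∀ i s w, ‖lam i s w‖ ≤ K * ‖w‖) (hmu : ∀ i w, ‖mu i w‖ ≤ K * ‖w‖)
    (H1 : ∀ s, s ≤ n → ∀ w, Tendsto (fun i => ‖κ i s * ξ i s (s + 1) w - w * κ i (s + 1)‖) l (𝓝 0))
    (H2 : ∀ s, s + 1 ≤ n → ∀ w w', Tendsto (fun i =>
      ‖ξ i s (s + 1) w * ξ i (s + 1) (s + 2) w' - ξ i s (s + 2) (w * w')‖) l (𝓝 0))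
    (H3 : ∀ w Y, Tendsto (fun i =>
      ‖ξ i n (n + 1) w * lam i (n + 1) Y - lam i n (w * Y)‖) l (𝓝 0))
    (H4 : ∀ Y, Tendsto (fun i => ‖κ i (n + 1) * lam i (n + 1) Y - mu i Y‖) l (𝓝 0))
    (H5 : ∀ w Y, Tendsto (fun i => ‖lam i (n + 1) Y * w - lam i (n + 1) (Y * w)‖) l (𝓝 0))
    (j : ℕ) (hj : j ≤ n + 1) (w : ℕ → B) (Y : B) :
    Tendsto (fun i =>
      (-1 : ℂ) ^ j * (Aterm Φ (κ i) (ξ i) (lam i) (mu i) n j w Y
        - Aterm Φ (κ i) (ξ i) (lam i) (mu i) n (j + 1) w Y)
      + ∑ k ∈ Finset.range (n + 2),
        (if k < j then (-1 : ℂ) ^ k * dd n k (XiL Φ (κ i) (ξ i) (lam i) n j) w Y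
         else if j < k then -(-1 : ℂ) ^ k * dd n k (XiR Φ (κ i) (ξ i) (lam i) n j k) w Y
         else 0)) l (𝓝 0) := by
  classical
  have hK0 : (0 : ℝ) ≤ K := zero_le_one.trans hK
  -- bounds of the entries
  obtain ⟨W, hW1, hW⟩ : ∃ W : ℝ, 1 ≤ W ∧ ∀ s, s < n + 3 → ‖w s‖ ≤ W := by
    refine ⟨1 + ∑ s ∈ Finset.range (n + 3), ‖w s‖, ?_, fun s hs => ?_⟩
    · have : 0 ≤ ∑ s ∈ Finset.range (n + 3), ‖w s‖ := Finset.sum_nonneg fun _ _ => norm_nonneg _
      linarith
    · have := Finset.single_le_sum (f := fun s => ‖w s‖) (fun _ _ => norm_nonneg _)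
        (Finset.mem_range.2 hs)
      linarith
  have hW0 : 0 ≤ W := zero_le_one.trans hW1
  obtain ⟨V, hV1, hV⟩ : ∃ V : ℝ, 1 ≤ V ∧ ‖Y‖ ≤ V :=
    ⟨1 + ‖Y‖, by linarith [norm_nonneg Y], by linarith [norm_nonneg Y]⟩
  have hV0 : 0 ≤ V := zero_le_one.trans hV1
  obtain ⟨R, hR⟩ : ∃ R : ℝ, R = K * W * (K * W * V) := ⟨_, rfl⟩
  have hKW : 1 ≤ K * W := one_le_mul_of_one_le_of_one_le hK hW1
  have hKW0 : 0 ≤ K * W := zero_le_one.trans hKW
  have hKWV : K * W ≤ K * W * V := le_mul_of_one_le_right hKW0 hV1
  have hKWV1 : 1 ≤ K * W * V := hKW.trans hKWV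
  have hRKWV : K * W * V ≤ R := by
    rw [hR]; exact le_mul_of_one_le_left (by linarith) hKW
  have hRKW2 : K * W * (K * W) ≤ R := by
    rw [hR]; exact mul_le_mul_of_nonneg_left hKWV hKW0
  have hRKW : K * W ≤ R := hKWV.trans hRKWV
  have hRW : W ≤ R := (le_mul_of_one_le_left hW0 hK).trans hRKW
  have hRK : K ≤ R := (le_mul_of_one_le_right hK0 hW1).trans hRKW
  have hRKV : K * V ≤ R := by
    refine le_trans ?_ hRKWV
    calc K * V ≤ K * W * V := by
          have : K ≤ K * W := le_mul_of_one_le_right hK0 hW1
          exact mul_le_mul_of_nonneg_right this hV0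
      _ = _ := rfl
  have hξw : ∀ i s t u, u < n + 3 → ‖ξ i s t (w u)‖ ≤ K * W := fun i s t u hu =>
    (hξ i s t (w u)).trans (mul_le_mul_of_nonneg_left (hW u hu) hK0)
  have hlY : ∀ i s, ‖lam i s Y‖ ≤ K * V := fun i s =>
    (hlam i s Y).trans (mul_le_mul_of_nonneg_left hV hK0)
  have hlYR : ∀ i s, ‖lam i s Y‖ ≤ R := fun i s => (hlY i s).trans hRKV
  -- the sequence
  obtain ⟨p, hp⟩ : ∃ p : ι → ℕ → B, ∀ i s, p i s =
      if s < j then w s else if s = j then κ i j else ξ i (s - 1) s (w (s - 1)) := ⟨_, fun _ _ => rfl⟩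
  have hpR : ∀ i s, s < n + 3 → ‖p i s‖ ≤ K * W := by
    intro i s hs
    rw [hp]
    split_ifs with h1 h2
    · exact (hW s hs).trans (le_mul_of_one_le_left hW0 hK)
    · exact (hκ i j).trans (le_mul_of_one_le_right hK0 hW1)
    · exact hξw i _ _ _ (by omega)
  obtain ⟨T, hT⟩ : ∃ T : ι → ℕ → ℂ, ∀ i m, T i m = dd (n + 1) m Φ (p i) (lam i (n + 1) Y) :=
    ⟨_, fun _ _ => rfl⟩
  have h0 : ∀ i, ∑ m ∈ Finset.range (n + 1 + 2), (-1 : ℂ) ^ m * T i m = 0 := by
    intro i
    have := hc (p i) (lam i (n + 1) Y)
    unfold delta at this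
    simp only [hT]
    exact this
  have h0' : ∀ i, ∑ k ∈ Finset.range (n + 2), (if k < j then (-1 : ℂ) ^ k * T i k
      else if j < k then (-1 : ℂ) ^ (k + 1) * T i (k + 1) else 0)
      + (-1 : ℂ) ^ j * T i j + (-1 : ℂ) ^ (j + 1) * T i (j + 1) = 0 := by
    intro i
    have := h0 i
    rw [pri3_sum (fun m => (-1 : ℂ) ^ m * T i m) j (n + 1) hj] at this
    exact this
  -- the term j
  have hA : ∀ i, Aterm Φ (κ i) (ξ i) (lam i) (mu i) n j w Y = T i j := by
    intro i
    rw [hT]
    unfold Aterm dd
    by_cases hj0 : j = 0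
    · rw [if_pos hj0, if_pos hj0]
      have e1 : shift (p i) = fun s => ξ i s (s + 1) (w s) := by
        funext s
        unfold shift
        rw [hp, if_neg (by omega), if_neg (by omega)]
        simp
      have e2 : p i 0 = κ i 0 := by
        rw [hp, if_neg (by omega), if_pos hj0.symm, hj0]
      rw [e1, e2]
    · rw [if_neg hj0, if_neg hj0, if_neg (by omega), if_neg (by omega)]
      congr 1
      funext s
      unfold mrg
      by_cases h1 : s < j - 1
      · rw [if_pos h1, if_pos h1, hp, if_pos (by omega)]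
      · rw [if_neg h1, if_neg h1]
        by_cases h2 : s = j - 1
        · rw [if_pos h2, if_pos h2, hp, hp, if_pos (by omega), if_neg (by omega), if_pos (by omega)]
        · rw [if_neg h2, if_neg h2, hp, if_neg (by omega), if_neg (by omega)]
          simp
  -- the term j + 1
  have hB : Tendsto (fun i => Aterm Φ (κ i) (ξ i) (lam i) (mu i) n (j + 1) w Y - T i (j + 1)) l
      (𝓝 0) := by
    by_cases hjn : j = n + 1
    · have e : ∀ i, Aterm Φ (κ i) (ξ i) (lam i) (mu i) n (j + 1) w Y - T i (j + 1)
          = Φ w (mu i Y) - Φ (p i) (κ i (n + 1) * lam i (n + 1) Y) := by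
        intro i
        rw [hT]
        unfold Aterm dd
        rw [if_neg (by omega), if_pos (by omega), if_neg (by omega), if_pos (by omega)]
        have : p i (n + 1) = κ i (n + 1) := by
          rw [hp, if_neg (by omega), if_pos (by omega), hjn]
        rw [this]
      have e2 : ∀ i, Φ (p i) (κ i (n + 1) * lam i (n + 1) Y)
          = Φ w (κ i (n + 1) * lam i (n + 1) Y) := by
        intro i
        refine hΦ.dep _ _ _ fun s hs => ?_
        rw [hp, if_pos (by omega)]
      simp only [e, e2]
      refine pri3_same hΦ R (fun _ => w) _ _ (fun i s hs => (hW s (by omega)).trans hRW) ?_ ?_ ?_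
      · intro i
        exact (hmu i Y).trans ((mul_le_mul_of_nonneg_left hV hK0).trans hRKV)
      · intro i
        calc ‖κ i (n + 1) * lam i (n + 1) Y‖ ≤ ‖κ i (n + 1)‖ * ‖lam i (n + 1) Y‖ := norm_mul_le _ _
          _ ≤ K * (K * V) := mul_le_mul (hκ i _) (hlY i _) (norm_nonneg _) hK0
          _ ≤ R := by
            rw [hR]
            have h1 : K ≤ K * W := le_mul_of_one_le_right hK0 hW1
            have h2 : K * V ≤ K * W * V := mul_le_mul_of_nonneg_right h1 hV0
            exact mul_le_mul h1 h2 (by positivity) hKW0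
      · have := H4 Y
        refine this.congr fun i => ?_
        rw [norm_sub_rev]
    · have e : ∀ i, Aterm Φ (κ i) (ξ i) (lam i) (mu i) n (j + 1) w Y - T i (j + 1)
          = Φ (fun s => if s < j then w s else if s = j then w j * κ i (j + 1)
              else ξ i s (s + 1) (w s)) (lam i (n + 1) Y)
            - Φ (fun s => if s < j then w s else if s = j then κ i j * ξ i j (j + 1) (w j)
              else ξ i s (s + 1) (w s)) (lam i (n + 1) Y) := by
        intro i
        rw [hT]
        unfold Aterm dd
        rw [if_neg (by omega), if_neg (by omega), if_neg (by omega), if_neg (by omega)]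
        congr 2
        funext s
        unfold mrg
        simp only [Nat.add_sub_cancel]
        by_cases h1 : s < j
        · rw [if_pos h1, if_pos h1, hp, if_pos h1]
        · rw [if_neg h1, if_neg h1]
          by_cases h2 : s = j
          · rw [if_pos h2, if_pos h2, hp, hp, if_neg (by omega), if_pos rfl, if_neg (by omega),
              if_neg (by omega)]
            simp
          · rw [if_neg h2, if_neg h2, hp, if_neg (by omega), if_neg (by omega)]
            simp
      simp only [e]
      have hb1 : ∀ i s, s < n + 1 → ‖ξ i s (s + 1) (w s)‖ ≤ R := fun i s hs =>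
        (hξw i _ _ _ (by omega)).trans hRKW
      refine hΦ.tendsto_sub R _ _ _ _ ?_ ?_ (fun i => hlYR i _) (fun i => hlYR i _) ?_ ?_
      · intro i s hs
        split_ifs with h1 h2
        · exact (hW s (by omega)).trans hRW
        · calc ‖w j * κ i (j + 1)‖ ≤ ‖w j‖ * ‖κ i (j + 1)‖ := norm_mul_le _ _
            _ ≤ W * K := mul_le_mul (hW j (by omega)) (hκ i _) (norm_nonneg _) hW0
            _ ≤ R := by rw [mul_comm]; exact hRKW
        · exact hb1 i s hs
      · intro i s hs
        split_ifs with h1 h2
        · exact (hW s (by omega)).trans hRW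
        · calc ‖κ i j * ξ i j (j + 1) (w j)‖ ≤ ‖κ i j‖ * ‖ξ i j (j + 1) (w j)‖ := norm_mul_le _ _
            _ ≤ (K * W) * (K * W) := mul_le_mul ((hκ i _).trans (le_mul_of_one_le_right hK0 hW1))
                (hξw i _ _ _ (by omega)) (norm_nonneg _) hKW0
            _ ≤ R := hRKW2
        · exact hb1 i s hs
      · intro s hs
        by_cases h1 : s < j
        · simp only [if_pos h1, sub_self, norm_zero]
          exact tendsto_const_nhds
        · by_cases h2 : s = j
          · simp only [if_neg h1, if_pos h2]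
            refine (H1 j (by omega) (w j)).congr fun i => ?_
            rw [norm_sub_rev]
          · simp only [if_neg h1, if_neg h2, sub_self, norm_zero]
            exact tendsto_const_nhds
      · simp only [sub_self, norm_zero]
        exact tendsto_const_nhds
  -- terms k < j
  have hL : ∀ k, k < j → Tendsto (fun i =>
      dd n k (XiL Φ (κ i) (ξ i) (lam i) n j) w Y - T i k) l (𝓝 0) := by
    intro k hk
    by_cases hk0 : k = 0
    · subst hk0
      have e : ∀ i, dd n 0 (XiL Φ (κ i) (ξ i) (lam i) n j) w Y - T i 0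
          = Φ (shift (p i)) (lam i (n + 1) (Y * w 0)) - Φ (shift (p i)) (lam i (n + 1) Y * w 0) := by
        intro i
        rw [hT]
        unfold dd XiL
        rw [if_pos rfl, if_pos rfl]
        have e1 : p i 0 = w 0 := by rw [hp, if_pos hk]
        have e2 : (fun s => if s < j - 1 then shift w s else if s = j - 1 then κ i j
            else ξ i s (s + 1) (shift w (s - 1))) = shift (p i) := by
          funext s
          unfold shift
          rw [hp]
          by_cases h1 : s < j - 1
          · rw [if_pos h1, if_pos (show s + 1 < j by omega)]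
          · rw [if_neg h1, if_neg (show ¬ s + 1 < j by omega)]
            by_cases h2 : s = j - 1
            · rw [if_pos h2, if_pos (show s + 1 = j by omega)]
            · rw [if_neg h2, if_neg (show ¬ s + 1 = j by omega)]
              have : s - 1 + 1 = s := by omega
              rw [this]
              simp
        rw [e1, e2]
      simp only [e]
      refine pri3_same hΦ R (fun i => shift (p i)) _ _ (fun i s hs => ?_) ?_ ?_ ?_
      · exact (hpR i (s + 1) (by omega)).trans hRKW
      · intro i
        calc ‖lam i (n + 1) (Y * w 0)‖ ≤ K * ‖Y * w 0‖ := hlam i _ _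
          _ ≤ K * (V * W) := by
              refine mul_le_mul_of_nonneg_left ?_ hK0
              exact (norm_mul_le _ _).trans (mul_le_mul hV (hW 0 (by omega)) (norm_nonneg _) hV0)
          _ = K * W * V := by ring
          _ ≤ R := hRKWV
      · intro i
        calc ‖lam i (n + 1) Y * w 0‖ ≤ ‖lam i (n + 1) Y‖ * ‖w 0‖ := norm_mul_le _ _
          _ ≤ (K * V) * W := mul_le_mul (hlY i _) (hW 0 (by omega)) (norm_nonneg _) (by positivity)
          _ = K * W * V := by ring
          _ ≤ R := hRKWV
      · refine (H5 (w 0) Y).congr fun i => ?_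
        rw [norm_sub_rev]
    · have e : ∀ i, dd n k (XiL Φ (κ i) (ξ i) (lam i) n j) w Y - T i k = 0 := by
        intro i
        rw [hT]
        unfold dd XiL
        rw [if_neg hk0, if_neg (by omega), if_neg hk0, if_neg (by omega), sub_eq_zero]
        congr 1
        funext s
        unfold mrg
        by_cases h1 : s < j - 1
        · rw [if_pos h1]
          by_cases h2 : s < k - 1
          · rw [if_pos h2, if_pos h2, hp, if_pos (by omega)]
          · rw [if_neg h2, if_neg h2]
            by_cases h3 : s = k - 1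
            · rw [if_pos h3, if_pos h3, hp, hp, if_pos (by omega), if_pos (by omega)]
            · rw [if_neg h3, if_neg h3, hp, if_pos (by omega)]
        · rw [if_neg h1]
          by_cases h2 : s = j - 1
          · rw [if_pos h2, if_neg (by omega), if_neg (by omega), hp, if_neg (by omega),
              if_pos (by omega)]
          · rw [if_neg h2, if_neg (by omega), if_neg (by omega), if_neg (by omega),
              if_neg (by omega), hp, if_neg (by omega), if_neg (by omega)]
            have : s - 1 + 1 = s := by omega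
            rw [this]
            simp
      simp only [e]
      exact tendsto_const_nhds
  -- terms k > j
  have hRt : ∀ k, j < k → k < n + 2 → Tendsto (fun i =>
      dd n k (XiR Φ (κ i) (ξ i) (lam i) n j k) w Y - T i (k + 1)) l (𝓝 0) := by
    intro k hjk hkn
    by_cases hk : k = n + 1
    · have e : ∀ i, dd n k (XiR Φ (κ i) (ξ i) (lam i) n j k) w Y - T i (k + 1)
          = Φ (p i) (lam i n (w n * Y)) - Φ (p i) (ξ i n (n + 1) (w n) * lam i (n + 1) Y) := by
        intro i
        rw [hT]
        unfold dd XiR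
        rw [if_neg (by omega), if_pos hk, if_neg (by omega), if_pos (by omega)]
        have e1 : p i (n + 1) = ξ i n (n + 1) (w n) := by
          rw [hp, if_neg (by omega), if_neg (by omega)]
          simp
        have e2 : tau k n = n := by unfold tau; rw [if_pos (by omega)]
        rw [e1, e2]
        congr 1
        refine hΦ.dep _ _ _ fun s hs => ?_
        rw [hp]
        by_cases h1 : s < j
        · rw [if_pos h1, if_pos h1]
        · rw [if_neg h1, if_neg h1]
          by_cases h2 : s = j
          · rw [if_pos h2, if_pos h2]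
          · rw [if_neg h2, if_neg h2]
            have e3 : tau k (s - 1) = s - 1 := by unfold tau; rw [if_pos (by omega)]
            have e4 : tau k s = s := by unfold tau; rw [if_pos (by omega)]
            rw [e3, e4]
      simp only [e]
      refine pri3_same hΦ R p _ _ (fun i s hs => ?_) ?_ ?_ ?_
      · exact (hpR i s (by omega)).trans hRKW
      · intro i
        calc ‖lam i n (w n * Y)‖ ≤ K * ‖w n * Y‖ := hlam i _ _
          _ ≤ K * (W * V) := by
              refine mul_le_mul_of_nonneg_left ?_ hK0
              exact (norm_mul_le _ _).trans (mul_le_mul (hW n (by omega)) hV (norm_nonneg _) hW0)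
          _ = K * W * V := by ring
          _ ≤ R := hRKWV
      · intro i
        calc ‖ξ i n (n + 1) (w n) * lam i (n + 1) Y‖
            ≤ ‖ξ i n (n + 1) (w n)‖ * ‖lam i (n + 1) Y‖ := norm_mul_le _ _
          _ ≤ (K * W) * (K * V) :=
              mul_le_mul (hξw i _ _ _ (by omega)) (hlY i _) (norm_nonneg _) hKW0
          _ ≤ R := by
            rw [hR]
            have h1 : K ≤ K * W := le_mul_of_one_le_right hK0 hW1
            have h2 : K * V ≤ K * W * V := mul_le_mul_of_nonneg_right h1 hV0
            exact mul_le_mul_of_nonneg_left h2 hKW0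
      · refine (H3 (w n) Y).congr fun i => ?_
        rw [norm_sub_rev]
    · have e : ∀ i, dd n k (XiR Φ (κ i) (ξ i) (lam i) n j k) w Y - T i (k + 1)
          = Φ (fun s => if s < k then p i s else if s = k then ξ i (k - 1) (k + 1) (w (k - 1) * w k)
              else p i (s + 1)) (lam i (n + 1) Y)
            - Φ (fun s => if s < k then p i s else if s = k then
                ξ i (k - 1) k (w (k - 1)) * ξ i k (k + 1) (w k) else p i (s + 1))
              (lam i (n + 1) Y) := by
        intro i
        rw [hT]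
        unfold dd XiR
        rw [if_neg (by omega), if_neg hk, if_neg (by omega), if_neg (by omega)]
        have e2 : tau k n = n + 1 := by unfold tau; rw [if_neg (by omega)]
        rw [e2]
        congr 2
        · funext s
          by_cases h1 : s < j
          · rw [if_pos h1, if_pos (by omega), hp, if_pos h1]
            unfold mrg
            rw [if_pos (by omega)]
          · rw [if_neg h1]
            by_cases h2 : s = j
            · rw [if_pos h2, if_pos (by omega), hp, if_neg h1, if_pos h2]
            · rw [if_neg h2]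
              by_cases h3 : s < k
              · have e3 : tau k (s - 1) = s - 1 := by unfold tau; rw [if_pos (by omega)]
                have e4 : tau k s = s := by unfold tau; rw [if_pos (by omega)]
                rw [if_pos h3, e3, e4, hp, if_neg h1, if_neg h2]
                unfold mrg
                rw [if_pos (by omega)]
              · by_cases h4 : s = k
                · have e3 : tau k (s - 1) = k - 1 := by unfold tau; rw [if_pos (by omega), h4]
                  have e4 : tau k s = k + 1 := by unfold tau; rw [if_neg (by omega), h4]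
                  rw [if_neg h3, if_pos h4, e3, e4]
                  unfold mrg
                  rw [if_neg (by omega), if_pos (by omega)]
                  have : k - 1 + 1 = k := by omega
                  rw [this]
                · have e3 : tau k (s - 1) = s := by unfold tau; rw [if_neg (by omega)]; omega
                  have e4 : tau k s = s + 1 := by unfold tau; rw [if_neg (by omega)]
                  rw [if_neg h3, if_neg h4, e3, e4, hp, if_neg (by omega), if_neg (by omega)]
                  unfold mrg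
                  rw [if_neg (by omega), if_neg (by omega)]
                  have : s - 1 + 1 = s := by omega
                  rw [this]
                  simp
        · funext s
          unfold mrg
          simp only [Nat.add_sub_cancel]
          by_cases h3 : s < k
          · rw [if_pos h3, if_pos h3]
          · rw [if_neg h3, if_neg h3]
            by_cases h4 : s = k
            · rw [if_pos h4, if_pos h4, hp, hp, if_neg (by omega), if_neg (by omega),
                if_neg (by omega), if_neg (by omega)]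
              simp
            · rw [if_neg h4, if_neg h4]
      simp only [e]
      refine hΦ.tendsto_sub R _ _ _ _ ?_ ?_ (fun i => hlYR i _) (fun i => hlYR i _) ?_ ?_
      · intro i s hs
        split_ifs with h1 h2
        · exact (hpR i s (by omega)).trans hRKW
        · calc ‖ξ i (k - 1) (k + 1) (w (k - 1) * w k)‖ ≤ K * ‖w (k - 1) * w k‖ := hξ i _ _ _
            _ ≤ K * (W * W) := by
                refine mul_le_mul_of_nonneg_left ?_ hK0
                exact (norm_mul_le _ _).trans (mul_le_mul (hW _ (by omega)) (hW _ (by omega))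
                  (norm_nonneg _) hW0)
            _ ≤ (K * W) * (K * W) := by
                have : K * (W * W) = (K * W) * W := by ring
                rw [this]
                exact mul_le_mul_of_nonneg_left (le_mul_of_one_le_left hW0 hK) hKW0
            _ ≤ R := hRKW2
        · exact (hpR i (s + 1) (by omega)).trans hRKW
      · intro i s hs
        split_ifs with h1 h2
        · exact (hpR i s (by omega)).trans hRKW
        · calc ‖ξ i (k - 1) k (w (k - 1)) * ξ i k (k + 1) (w k)‖
              ≤ ‖ξ i (k - 1) k (w (k - 1))‖ * ‖ξ i k (k + 1) (w k)‖ := norm_mul_le _ _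
            _ ≤ (K * W) * (K * W) := mul_le_mul (hξw i _ _ _ (by omega))
                (hξw i _ _ _ (by omega)) (norm_nonneg _) hKW0
            _ ≤ R := hRKW2
        · exact (hpR i (s + 1) (by omega)).trans hRKW
      · intro s hs
        by_cases h1 : s < k
        · simp only [if_pos h1, sub_self, norm_zero]
          exact tendsto_const_nhds
        · by_cases h2 : s = k
          · simp only [if_neg h1, if_pos h2]
            have e5 : k - 1 + 1 = k := by omega
            have e6 : k - 1 + 2 = k + 1 := by omega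
            have hh := H2 (k - 1) (by omega) (w (k - 1)) (w k)
            rw [e5, e6] at hh
            refine hh.congr fun i => ?_
            rw [norm_sub_rev]
          · simp only [if_neg h1, if_neg h2, sub_self, norm_zero]
            exact tendsto_const_nhds
      · simp only [sub_self, norm_zero]
        exact tendsto_const_nhds
  -- conclusion
  have hfin : ∀ i, (-1 : ℂ) ^ j * (Aterm Φ (κ i) (ξ i) (lam i) (mu i) n j w Y
        - Aterm Φ (κ i) (ξ i) (lam i) (mu i) n (j + 1) w Y)
      + ∑ k ∈ Finset.range (n + 2),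
        (if k < j then (-1 : ℂ) ^ k * dd n k (XiL Φ (κ i) (ξ i) (lam i) n j) w Y
         else if j < k then -(-1 : ℂ) ^ k * dd n k (XiR Φ (κ i) (ξ i) (lam i) n j k) w Y
         else 0)
      = -(-1 : ℂ) ^ j * (Aterm Φ (κ i) (ξ i) (lam i) (mu i) n (j + 1) w Y - T i (j + 1))
        + ∑ k ∈ Finset.range (n + 2),
          (if k < j then (-1 : ℂ) ^ k * (dd n k (XiL Φ (κ i) (ξ i) (lam i) n j) w Y - T i k)
           else if j < k then -(-1 : ℂ) ^ k *
             (dd n k (XiR Φ (κ i) (ξ i) (lam i) n j k) w Y - T i (k + 1))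
           else 0) := by
    intro i
    have e1 : ∑ k ∈ Finset.range (n + 2),
          (if k < j then (-1 : ℂ) ^ k * (dd n k (XiL Φ (κ i) (ξ i) (lam i) n j) w Y - T i k)
           else if j < k then -(-1 : ℂ) ^ k *
             (dd n k (XiR Φ (κ i) (ξ i) (lam i) n j k) w Y - T i (k + 1))
           else 0)
        = ∑ k ∈ Finset.range (n + 2),
        (if k < j then (-1 : ℂ) ^ k * dd n k (XiL Φ (κ i) (ξ i) (lam i) n j) w Y
         else if j < k then -(-1 : ℂ) ^ k * dd n k (XiR Φ (κ i) (ξ i) (lam i) n j k) w Y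
         else 0) - ∑ k ∈ Finset.range (n + 2), (if k < j then (-1 : ℂ) ^ k * T i k
          else if j < k then (-1 : ℂ) ^ (k + 1) * T i (k + 1) else 0) := by
      rw [← Finset.sum_sub_distrib]
      refine Finset.sum_congr rfl fun k _ => ?_
      split_ifs
      · ring
      · ring
      · ring
    rw [e1, hA]
    have h1 := h0' i
    have e2 : (-1 : ℂ) ^ (j + 1) = -(-1 : ℂ) ^ j := by rw [pow_succ]; ring
    linear_combination h1 - T i (j + 1) * e2
  simp only [hfin]
  have hterm : ∀ k ∈ Finset.range (n + 2), Tendsto (fun i =>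
      (if k < j then (-1 : ℂ) ^ k * (dd n k (XiL Φ (κ i) (ξ i) (lam i) n j) w Y - T i k)
           else if j < k then -(-1 : ℂ) ^ k *
             (dd n k (XiR Φ (κ i) (ξ i) (lam i) n j k) w Y - T i (k + 1))
           else 0)) l (𝓝 0) := by
    intro k hk
    have hk' := Finset.mem_range.1 hk
    by_cases h1 : k < j
    · simp only [if_pos h1]
      have := (hL k h1).const_mul ((-1 : ℂ) ^ k)
      rwa [mul_zero] at this
    · simp only [if_neg h1]
      by_cases h2 : j < k
      · simp only [if_pos h2]
        have := (hRt k h2 hk').const_mul (-(-1 : ℂ) ^ k)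
        rwa [mul_zero] at this
      · simp only [if_neg h2]
        exact tendsto_const_nhds
  have key := (hB.const_mul (-(-1 : ℂ) ^ j)).add (tendsto_finsetSum _ hterm)
  have hz : -(-1 : ℂ) ^ j * 0 + ∑ k ∈ Finset.range (n + 2), (0 : ℂ) = 0 := by simp
  rw [hz] at key
  exact key

end Pool.MP263F
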