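import Pool.Agent.Lib.MP_263cac_full.Pri3
set_option autoImplicit false

/-! JOB Pri4: the approximate prism lemma. Sum `prism_step` over `j = 0..n+1` with signs `(-1)^j`:
`A_0 - A_{n+2} + Σ_k [ Σ_{j>k} (-1)^{k+j} d_k XiL_j - Σ_{j<k} (-1)^{k+j} d_k XiR_{j,k} ] → 0`, so
`η i k = Σ_{j ≤ n+1} (if k < j then (-1)^{k+j} XiL j else if j < k then -(-1)^{k+j} XiR j k else 0)`
works (for `k ≤ n+1`; put `η i k = 0` for `k > n+1`); the bound is from `Coch.pull`
(note for `k<j` we have `j ≥ 1` and `j - 1 ≤ n`; for `k > j`, `j ≤ n`). -/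

open Filter Topology

namespace Pool.MP263F
variable {B : Type} [CStarAlgebra B]

theorem prism {n : ℕ} {C : ℝ} {Φ : Form B} (hΦ : Coch (n + 1) C Φ)
    (hc : ∀ w y, delta (n + 1) Φ w y = 0) {ι : Type} (l : Filter ι) (K : ℝ)
    (κ : ι → ℕ → B) (ξ : ι → ℕ → ℕ → B →ₗ[ℂ] B) (lam : ι → ℕ → B →ₗ[ℂ] B) (mu : ι → B →ₗ[ℂ] B)
    (hK : 1 ≤ K) (hκ : ∀ i s, ‖κ i s‖ ≤ K) (hξ : ∀ i s t w, ‖ξ i s t w‖ ≤ K * ‖w‖)
    (hlam : ∀ i s w, ‖lam i s w‖ ≤ K * ‖w‖) (hmu : ∀ i w, ‖mu i w‖ ≤ K * ‖w‖)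
    (H1 : ∀ s, s ≤ n → ∀ w, Tendsto (fun i => ‖κ i s * ξ i s (s + 1) w - w * κ i (s + 1)‖) l (𝓝 0))
    (H2 : ∀ s, s + 1 ≤ n → ∀ w w', Tendsto (fun i =>
      ‖ξ i s (s + 1) w * ξ i (s + 1) (s + 2) w' - ξ i s (s + 2) (w * w')‖) l (𝓝 0))
    (H3 : ∀ w Y, Tendsto (fun i =>
      ‖ξ i n (n + 1) w * lam i (n + 1) Y - lam i n (w * Y)‖) l (𝓝 0))
    (H4 : ∀ Y, Tendsto (fun i => ‖κ i (n + 1) * lam i (n + 1) Y - mu i Y‖) l (𝓝 0))
    (H5 : ∀ w Y, Tendsto (fun i => ‖lam i (n + 1) Y * w - lam i (n + 1) (Y * w)‖) l (𝓝 0)) :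
    ∃ (K' : ℝ) (η : ι → ℕ → Form B), (∀ i k, Coch n K' (η i k)) ∧
      ∀ w Y, Tendsto (fun i => Φ w (mu i Y)
        - Φ (fun s => ξ i s (s + 1) (w s)) (lam i (n + 1) Y * κ i 0)
        - ∑ k ∈ Finset.range (n + 2), dd n k (η i k) w Y) l (𝓝 0) := by
  classical
  have hK0 : (0 : ℝ) ≤ K := zero_le_one.trans hK
  have hC0 : 0 ≤ C := hΦ.nonneg
  have hCK : 0 ≤ C * K ^ (n + 2) := mul_nonneg hC0 (pow_nonneg hK0 _)
  set T : ι → ℕ → ℕ → Form B := fun i k j =>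
    if k < j then (fun v y => ((-1 : ℂ) ^ j * (-1 : ℂ) ^ k) * XiL Φ (κ i) (ξ i) (lam i) n j v y)
    else if j < k then
      (fun v y => ((-1 : ℂ) ^ j * (-(-1 : ℂ) ^ k)) * XiR Φ (κ i) (ξ i) (lam i) n j k v y)
    else (fun _ _ => 0) with hTdef
  have hn1 : ∀ a : ℕ, ‖((-1 : ℂ) ^ a)‖ = 1 := fun a => by simp
  have hT : ∀ i k j, k ≤ n + 1 → j ≤ n + 1 → Coch n (C * K ^ (n + 2)) (T i k j) := by
    intro i k j hk hj
    simp only [hTdef]
    by_cases h1 : k < j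
    · rw [if_pos h1]
      have h := hΦ.pull K hK (j - 1) (by omega) (κ i j) (hκ i j) (fun s => ξ i s (s + 1)) (lam i (n + 1))
        (fun s w => hξ i s (s + 1) w) (fun y => hlam i (n + 1) y)
      have h2 := h.csmul ((-1 : ℂ) ^ j * (-1 : ℂ) ^ k)
      rw [norm_mul, hn1, hn1, one_mul, one_mul] at h2
      exact h2
    · rw [if_neg h1]
      by_cases h3 : j < k
      · rw [if_pos h3]
        have h := hΦ.pull K hK j (by omega) (κ i j) (hκ i j) (fun s => ξ i (tau k (s - 1)) (tau k s))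
          (lam i (tau k n)) (fun s w => hξ i _ _ w) (fun y => hlam i _ y)
        have h2 := h.csmul ((-1 : ℂ) ^ j * (-(-1 : ℂ) ^ k))
        rw [norm_mul, norm_neg, hn1, hn1, one_mul, one_mul] at h2
        exact h2
      · rw [if_neg h3]
        exact (Coch.zero n).mono hCK
  refine ⟨∑ _j ∈ Finset.range (n + 2), C * K ^ (n + 2),
    fun i k => if k ≤ n + 1 then (fun v y => ∑ j ∈ Finset.range (n + 2), T i k j v y)
      else (fun _ _ => 0), ?_, ?_⟩
  · intro i k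
    by_cases hk : k ≤ n + 1
    · simp only [if_pos hk]
      exact Coch.sum (Finset.range (n + 2)) (fun _ => C * K ^ (n + 2)) (fun j => T i k j)
        (fun j hj => hT i k j hk (by have := Finset.mem_range.1 hj; omega))
    · simp only [if_neg hk]
      exact (Coch.zero n).mono (Finset.sum_nonneg (fun _ _ => hCK))
  · intro w Y
    have hlim : Tendsto (fun i => ∑ j ∈ Finset.range (n + 2), (-1 : ℂ) ^ j * (
      (-1 : ℂ) ^ j * (Aterm Φ (κ i) (ξ i) (lam i) (mu i) n j w Y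
        - Aterm Φ (κ i) (ξ i) (lam i) (mu i) n (j + 1) w Y)
      + ∑ k ∈ Finset.range (n + 2),
        (if k < j then (-1 : ℂ) ^ k * dd n k (XiL Φ (κ i) (ξ i) (lam i) n j) w Y
         else if j < k then -(-1 : ℂ) ^ k * dd n k (XiR Φ (κ i) (ξ i) (lam i) n j k) w Y
         else 0))) l (𝓝 0) := by
      have hh := tendsto_finsetSum (Finset.range (n + 2)) (fun j hj =>
        (prism_step hΦ hc l K κ ξ lam mu hK hκ hξ hlam hmu H1 H2 H3 H4 H5 j
          (by have := Finset.mem_range.1 hj; omega) w Y).const_mul ((-1 : ℂ) ^ j))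
      rw [Finset.sum_congr rfl (fun j _ => mul_zero ((-1 : ℂ) ^ j)), Finset.sum_const_zero] at hh
      exact hh
    have hneg := hlim.neg
    rw [neg_zero] at hneg
    refine hneg.congr (fun i => ?_)
    have hA0 : Aterm Φ (κ i) (ξ i) (lam i) (mu i) n 0 w Y
        = Φ (fun s => ξ i s (s + 1) (w s)) (lam i (n + 1) Y * κ i 0) := by
      simp [Aterm]
    have hA2 : Aterm Φ (κ i) (ξ i) (lam i) (mu i) n (n + 2) w Y = Φ w (mu i Y) := by
      simp [Aterm]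
    have hsq : ∀ j : ℕ, (-1 : ℂ) ^ j * (-1 : ℂ) ^ j = 1 := fun j => by
      rw [← mul_pow]; norm_num
    have hstep : ∀ j, (-1 : ℂ) ^ j * (
      (-1 : ℂ) ^ j * (Aterm Φ (κ i) (ξ i) (lam i) (mu i) n j w Y
        - Aterm Φ (κ i) (ξ i) (lam i) (mu i) n (j + 1) w Y)
      + ∑ k ∈ Finset.range (n + 2),
        (if k < j then (-1 : ℂ) ^ k * dd n k (XiL Φ (κ i) (ξ i) (lam i) n j) w Y
         else if j < k then -(-1 : ℂ) ^ k * dd n k (XiR Φ (κ i) (ξ i) (lam i) n j k) w Y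
         else 0)) = (Aterm Φ (κ i) (ξ i) (lam i) (mu i) n j w Y
        - Aterm Φ (κ i) (ξ i) (lam i) (mu i) n (j + 1) w Y)
        + ∑ k ∈ Finset.range (n + 2), dd n k (T i k j) w Y := by
      intro j
      rw [mul_add, ← mul_assoc, hsq, one_mul, Finset.mul_sum]
      congr 1
      refine Finset.sum_congr rfl (fun k _ => ?_)
      simp only [hTdef]
      by_cases h1 : k < j
      · rw [if_pos h1, if_pos h1, dd_smul, mul_assoc]
      · rw [if_neg h1, if_neg h1]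
        by_cases h3 : j < k
        · rw [if_pos h3, if_pos h3, dd_smul, mul_assoc]
        · rw [if_neg h3, if_neg h3, dd_zero, mul_zero]
    rw [Finset.sum_congr rfl (fun j _ => hstep j), Finset.sum_add_distrib,
      Finset.sum_range_sub', hA0, hA2, Finset.sum_comm]
    have hdd : ∀ k ∈ Finset.range (n + 2),
        dd n k (if k ≤ n + 1 then (fun v y => ∑ j ∈ Finset.range (n + 2), T i k j v y)
          else (fun _ _ => 0)) w Y = ∑ j ∈ Finset.range (n + 2), dd n k (T i k j) w Y := by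
      intro k hk
      rw [if_pos (by have := Finset.mem_range.1 hk; omega)]
      exact dd_sum n k _ (fun j => T i k j) w Y
    rw [Finset.sum_congr rfl hdd]
    ring

end Pool.MP263F
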