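import Pool.Agent.Lib.MP_263cac_full.CP4
import Pool.Agent.Lib.MP_263cac_full.Pha
import Pool.Agent.Lib.MP_263cac_full.LemE
set_option autoImplicit false

/-! JOB SE: the swindle elements.

Proof.  Let `q = 1 - (1-e)^L`, so `0 ≤ q ≤ 1` and `q ≤ L • e` (functional calculus / Bernoulli).
Write every `w ∈ 𝓕 ∪ {e}` as `Σ_{i<4} c_i u_i` with `u_i` unitary, `‖c_i‖ ≤ ‖w‖/2`
(`CStarAlgebra.exists_sum_four_unitary`).  The moves: index type
`I = ({w // w ∈ 𝓕} ⊕ Unit) × Fin 4 × Bool` (size `8(|𝓕|+1)`), `π = id`, `u` = these unitaries and their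
adjoints (constant in `ω`).  Choose `K ≥ 1` with `2 (‖w‖ + 1)/K ≤ ε` for `w ∈ 𝓕` and for `‖e‖ ≤ 1`;
choose `Λ > 0` real with `Λ^{-1/2} ≤ ε/2`; choose `δ' > 0` with
`(1+8(|𝓕|+1))^K Λ m² δ' ≤ ε`; `η = δ'/(2(L+1))`.  Then `ρ q ≤ L η < δ'`, so `cp_lemma` (tolerance `ε/2`)
gives `u` with `Σ u*u ≤ q ≤ 1`, `‖q - Σ u*u‖ ≤ ε/2`, `Σ u u* ≤ δ'`.  `phases` gives `v θ a`, `Δ θ a b`.
`b θ = Λ Σ_{a,b} Δ* Δ`; `lemE` (with `m := K`) gives `e'' θ`; `x = 1 - e''`, `y θ a = v θ a * x θ`.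
`‖avg (1-x)‖ ≤ (1+|I|)^K ‖avg b‖ ≤ (1+|I|)^K Λ m² δ' ≤ ε`.  `(√Λ Δ)* (√Λ Δ) ≤ b θ` gives
`‖Δ x‖ ≤ Λ^{-1/2} ≤ ε/2` (`p = 1`).  `y_a* y_b = x (v_a* v_b) x = x (δ_{ab} q' + Δ) x` with `q' = Σ u*u`, so the
difference to `δ_{ab} x q x` is at most `‖q' - q‖ + ‖Δ x‖ ≤ ε`.  Commutators: from (3) of `lemE`,
`‖u x u* - x‖ ≤ 1/K` so `‖x u - u x‖ ≤ 1/K`, and `‖[x,w]‖ ≤ Σ‖c_i‖/K ≤ 2‖w‖/K ≤ ε`.
Note that `η` must not depend on `e`: the number of moves does not. -/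

namespace Pool.MP263F
variable {B : Type} [CStarAlgebra B] [PartialOrder B] [StarOrderedRing B]

theorem SE_q {e : B} (he0 : 0 ≤ e) (he1 : e ≤ 1) (L : ℕ) :
    0 ≤ 1 - (1 - e) ^ L ∧ 1 - (1 - e) ^ L ≤ 1 ∧ 1 - (1 - e) ^ L ≤ (L : ℝ) • e := by
  have hsa : IsSelfAdjoint e := IsSelfAdjoint.of_nonneg he0
  have h0 : ∀ t ∈ spectrum ℝ e, 0 ≤ t := fun t ht => spectrum_nonneg_of_nonneg he0 ht
  have h1 : ∀ t ∈ spectrum ℝ e, t ≤ 1 := by
    intro t ht
    have h2 : cfc (fun t : ℝ => t) e ≤ 1 := by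
      rw [cfc_id' ℝ e]
      exact he1
    exact (cfc_le_one_iff (fun t : ℝ => t) e).1 h2 t ht
  have e1 : (1 - e) = cfc (fun t : ℝ => 1 - t) e := by
    rw [cfc_sub (fun _ : ℝ => (1:ℝ)) (fun t : ℝ => t) e, cfc_const_one ℝ e, cfc_id' ℝ e]
  have e2 : (1 - e) ^ L = cfc (fun t : ℝ => (1 - t) ^ L) e := by
    rw [e1, cfc_pow (fun t : ℝ => 1 - t) L e]
  have e3 : 1 - (1 - e) ^ L = cfc (fun t : ℝ => 1 - (1 - t) ^ L) e := by
    rw [cfc_sub (fun _ : ℝ => (1:ℝ)) (fun t : ℝ => (1 - t) ^ L) e, cfc_const_one ℝ e, e2]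
  have e4 : (L : ℝ) • e = cfc (fun t : ℝ => (L : ℝ) * t) e := by
    rw [cfc_const_mul (L : ℝ) (fun t : ℝ => t) e, cfc_id' ℝ e]
  refine ⟨?_, ?_, ?_⟩
  · rw [e3]
    refine cfc_nonneg fun t ht => ?_
    have h2 := h0 t ht
    have h3 := h1 t ht
    have h4 : (1 - t) ^ L ≤ 1 := pow_le_one₀ (by linarith) (by linarith)
    linarith
  · rw [e3]
    refine cfc_le_one _ _ fun t ht => ?_
    have h2 := h0 t ht
    have h3 := h1 t ht
    have h4 : 0 ≤ (1 - t) ^ L := pow_nonneg (by linarith) L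
    linarith
  · rw [e3, e4]
    refine cfc_mono fun t ht => ?_
    have h2 := h0 t ht
    have h3 := h1 t ht
    have h4 := one_add_mul_le_pow (show (-2 : ℝ) ≤ -t by linarith) L
    have h5 : 1 + (-t) = 1 - t := by ring
    rw [h5] at h4
    linarith

theorem SE_norm_one : ‖(1 : B)‖ ≤ 1 :=
  (CStarAlgebra.norm_le_one_iff_of_nonneg (1 : B)).2 le_rfl

/-- a commutator estimate from unitary conjugation -/
theorem SE_comm (x w : B) (U : Fin 4 → unitary B) (c : Fin 4 → ℂ) (hw : w = ∑ i, c i • (U i : B))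
    (hc : ∀ i, ‖c i‖ ≤ ‖w‖ / 2) {κ : ℝ} (hκ : 0 ≤ κ)
    (hU : ∀ i, ‖(U i : B) * x * star (U i : B) - x‖ ≤ κ) : ‖x * w - w * x‖ ≤ 2 * ‖w‖ * κ := by
  have h1 : ∀ i, ‖x * (U i : B) - (U i : B) * x‖ ≤ κ := by
    intro i
    have h2 : x * (U i : B) - (U i : B) * x
        = -(((U i : B) * x * star (U i : B) - x) * (U i : B)) := by
      rw [sub_mul, mul_assoc ((U i : B) * x), Unitary.coe_star_mul_self, mul_one]
      abel
    rw [h2, norm_neg]
    refine (norm_mul_le _ _).trans ?_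
    have h3 : ‖(U i : B)‖ ≤ 1 := by
      rcases subsingleton_or_nontrivial B with h | h
      · rw [Subsingleton.elim (U i : B) 0, norm_zero]
        exact zero_le_one
      · exact (CStarRing.norm_coe_unitary (U i)).le
    calc ‖(U i : B) * x * star (U i : B) - x‖ * ‖(U i : B)‖ ≤ κ * 1 :=
          mul_le_mul (hU i) h3 (norm_nonneg _) hκ
      _ = κ := mul_one κ
  have h2 : x * w - w * x = ∑ i, c i • (x * (U i : B) - (U i : B) * x) := by
    conv_lhs => rw [hw]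
    rw [Finset.mul_sum, Finset.sum_mul, ← Finset.sum_sub_distrib]
    refine Finset.sum_congr rfl fun i _ => ?_
    rw [mul_smul_comm, smul_mul_assoc, smul_sub]
  rw [h2]
  refine (norm_sum_le _ _).trans ?_
  calc ∑ i, ‖c i • (x * (U i : B) - (U i : B) * x)‖ ≤ ∑ i : Fin 4, ‖w‖ / 2 * κ := by
        refine Finset.sum_le_sum fun i _ => ?_
        rw [norm_smul]
        exact mul_le_mul (hc i) (h1 i) (norm_nonneg _) (by positivity)
    _ = 2 * ‖w‖ * κ := by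
        rw [Finset.sum_const, Finset.card_univ, Fintype.card_fin]
        simp only [nsmul_eq_mul]
        push_cast
        ring

theorem swindle_elements (L m : ℕ) (ε : ℝ) (hε : 0 < ε) (𝓕 : Finset B) :
    ∃ η : ℝ, 0 < η ∧ ∀ e : B, 0 ≤ e → e ≤ 1 → (∀ ρ : B →ₗ[ℝ] ℝ, TrF ρ → ρ e ≤ η) →
      ∃ (Θ : Type) (_ : Fintype Θ) (_ : Nonempty Θ) (x : Θ → B) (y : Θ → Fin m → B),
        (∀ θ, 0 ≤ x θ ∧ x θ ≤ 1) ∧
        (∀ θ a b, ‖star (y θ a) * y θ b - (if a = b then x θ * (1 - (1 - e) ^ L) * x θ else 0)‖ ≤ ε) ∧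
        (∀ θ, ∀ w ∈ 𝓕, ‖x θ * w - w * x θ‖ ≤ ε) ∧
        (∀ θ, ‖x θ * e - e * x θ‖ ≤ ε) ∧
        ‖(Fintype.card Θ : ℝ)⁻¹ • ∑ θ, (1 - x θ)‖ ≤ ε := by
  classical
  choose U c hUc hc using fun w : B => CStarAlgebra.exists_sum_four_unitary w
  set P : ℕ := Fintype.card ((↥𝓕 ⊕ Unit) × Fin 4 × Bool) with hP
  obtain ⟨K, hK⟩ : ∃ K : ℕ, 2 * (∑ w ∈ 𝓕, ‖w‖ + 1) / ε ≤ K := exists_nat_ge _
  have hS0 : 0 ≤ ∑ w ∈ 𝓕, ‖w‖ := Finset.sum_nonneg fun w _ => norm_nonneg w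
  have hKpos : (0 : ℝ) < K := by
    have : 0 < 2 * (∑ w ∈ 𝓕, ‖w‖ + 1) / ε := by positivity
    linarith
  have hK1 : 1 ≤ K := by
    have : 0 < K := by exact_mod_cast hKpos
    omega
  have hKε : 2 * (∑ w ∈ 𝓕, ‖w‖ + 1) * (1 / (K : ℝ)) ≤ ε := by
    rw [div_le_iff₀ hε] at hK
    rw [mul_one_div, div_le_iff₀ hKpos]
    linarith
  obtain ⟨Λ, hΛ⟩ : ∃ Λ : ℝ, Λ = (2 / ε) ^ 2 := ⟨_, rfl⟩
  have hΛ0 : 0 < Λ := by rw [hΛ]; positivity
  have hΛs : Real.sqrt Λ = 2 / ε := by rw [hΛ, Real.sqrt_sq (by positivity)]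
  obtain ⟨D, hD⟩ : ∃ D : ℝ, D = (1 + (P : ℝ)) ^ K * Λ * ((m : ℝ) ^ 2 + 1) := ⟨_, rfl⟩
  have hD0 : 0 < D := by rw [hD]; positivity
  obtain ⟨δ', hδ'⟩ : ∃ δ' : ℝ, δ' = ε / D := ⟨_, rfl⟩
  have hδ'0 : 0 < δ' := by rw [hδ']; positivity
  refine ⟨δ' / (2 * (L + 1)), by positivity, fun e he0 he1 hρe => ?_⟩
  obtain ⟨hq0, hq1, hqL⟩ := SE_q he0 he1 L
  set q : B := 1 - (1 - e) ^ L with hq
  -- the comparison lemma
  have hLη : (L : ℝ) * (δ' / (2 * (L + 1))) < δ' := by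
    have h1 : (L : ℝ) * (δ' / (2 * (L + 1))) = δ' * (L / (2 * (L + 1))) := by ring
    have h2 : (L : ℝ) / (2 * (L + 1)) < 1 := by
      rw [div_lt_one (by positivity)]
      have : (0 : ℝ) ≤ L := Nat.cast_nonneg L
      linarith
    rw [h1]
    nlinarith
  have hρq : ∀ ρ : B →ₗ[ℝ] ℝ, TrF ρ → ρ q ≤ (L : ℝ) * (δ' / (2 * (L + 1))) := by
    intro ρ hρ
    have h1 := hρ.mono hqL
    rw [map_smul, smul_eq_mul] at h1
    exact h1.trans (mul_le_mul_of_nonneg_left (hρe ρ hρ) (Nat.cast_nonneg L))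
  obtain ⟨ι, hι, u, hu1, hu2, hu3⟩ := cp_lemma q hq0 _ δ' (by positivity) hLη hρq (ε / 2)
    (by positivity)
  obtain ⟨Θ, hΘ, hΘn, v, hv⟩ := phases u δ' hδ'0.le (hu1.trans hq1) hu3 m
  set q' : B := ∑ i, star (u i) * u i with hq'
  set Δ : Θ → Fin m → Fin m → B := fun θ a b => star (v θ a) * v θ b - (if a = b then q' else 0)
    with hΔ
  set bb : Θ → B := fun θ => Λ • ∑ a, ∑ b, star (Δ θ a b) * Δ θ a b with hbb
  have hb0 : ∀ θ, 0 ≤ bb θ := fun θ => smul_nonneg hΛ0.le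
    (Finset.sum_nonneg fun a _ => Finset.sum_nonneg fun b _ => star_mul_self_nonneg _)
  have hcΘ : (0 : ℝ) < Fintype.card Θ := by
    have : 0 < Fintype.card Θ := Fintype.card_pos
    exact_mod_cast this
  -- the moves
  set E : ↥𝓕 ⊕ Unit → B := fun z => Sum.elim (fun w : ↥𝓕 => (w : B)) (fun _ => e) z with hE
  set W : (↥𝓕 ⊕ Unit) × Fin 4 × Bool → Θ → unitary B := fun i _ =>
    if i.2.2 then U (E i.1) i.2.1 else star (U (E i.1) i.2.1) with hW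
  obtain ⟨e', he', hkill, hinv, -, hsum⟩ := lemE (Ω := Θ) (fun _ θ => θ) W
    (by
      rintro ⟨z, k, s⟩ θ
      refine ⟨⟨z, k, !s⟩, rfl, ?_⟩
      cases s
      · simp [hW]
      · simp [hW]) bb hb0 K hK1
  have hsum' := hsum (fun _ _ => rfl) (fun _ _ _ => rfl)
  have hx0 : ∀ θ, 0 ≤ 1 - e' θ := fun θ => sub_nonneg.2 (he' θ).2
  have hx1 : ∀ θ, 1 - e' θ ≤ 1 := fun θ => sub_le_self _ (he' θ).1
  have hxn : ∀ θ, ‖1 - e' θ‖ ≤ 1 := fun θ =>
    (CStarAlgebra.norm_le_one_iff_of_nonneg (1 - e' θ) (hx0 θ)).2 (hx1 θ)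
  have hxs : ∀ θ, star (1 - e' θ) = 1 - e' θ := fun θ => (IsSelfAdjoint.of_nonneg (hx0 θ)).star_eq
  have hΔx : ∀ θ a b, ‖Δ θ a b * (1 - e' θ)‖ ≤ ε / 2 := by
    intro θ a b
    have h1 := hkill θ (Real.sqrt Λ • Δ θ a b) 1 le_rfl (by
      rw [pow_one, star_smul, smul_mul_smul_comm, star_trivial, Real.mul_self_sqrt hΛ0.le]
      refine smul_le_smul_of_nonneg_left ?_ hΛ0.le
      refine le_trans ?_ (Finset.single_le_sum (f := fun a => ∑ b, star (Δ θ a b) * Δ θ a b)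
        (fun a _ => Finset.sum_nonneg fun b _ => star_mul_self_nonneg _) (Finset.mem_univ a))
      exact Finset.single_le_sum (f := fun b => star (Δ θ a b) * Δ θ a b)
        (fun b _ => star_mul_self_nonneg _) (Finset.mem_univ b))
    rw [smul_mul_assoc, norm_smul, Real.norm_of_nonneg (Real.sqrt_nonneg _), hΛs] at h1
    rw [div_mul_eq_mul_div, div_le_one hε] at h1
    linarith
  have hconj : ∀ (z : ↥𝓕 ⊕ Unit) (k : Fin 4) (θ : Θ),
      ‖(U (E z) k : B) * (1 - e' θ) * star (U (E z) k : B) - (1 - e' θ)‖ ≤ 1 / (K : ℝ) := by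
    intro z k θ
    have h1 := hinv (z, k, true) θ
    have h2 : W (z, k, true) θ = U (E z) k := by simp [hW]
    rw [h2] at h1
    have h3 : (U (E z) k : B) * (1 - e' θ) * star (U (E z) k : B) - (1 - e' θ)
        = -((U (E z) k : B) * e' θ * star (U (E z) k : B) - e' θ) := by
      have h4 : (U (E z) k : B) * star (U (E z) k : B) = 1 :=
        Unitary.mul_star_self_of_mem (U (E z) k).2
      rw [mul_sub, sub_mul, mul_one, h4]
      abel
    rw [h3, norm_neg]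
    exact h1
  refine ⟨Θ, hΘ, hΘn, fun θ => 1 - e' θ, fun θ a => v θ a * (1 - e' θ), fun θ => ⟨hx0 θ, hx1 θ⟩,
    ?_, ?_, ?_, ?_⟩
  · intro θ a b
    have h1 : star (v θ a * (1 - e' θ)) * (v θ b * (1 - e' θ))
        - (if a = b then (1 - e' θ) * q * (1 - e' θ) else 0)
        = (1 - e' θ) * (Δ θ a b * (1 - e' θ))
          + (1 - e' θ) * (if a = b then q' - q else 0) * (1 - e' θ) := by
      rw [star_mul, hxs]
      simp only [hΔ]
      split_ifs <;> noncomm_ring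
    rw [h1]
    refine (norm_add_le _ _).trans ?_
    have h2 : ‖(1 - e' θ) * (Δ θ a b * (1 - e' θ))‖ ≤ ε / 2 := by
      refine (norm_mul_le _ _).trans ?_
      calc ‖1 - e' θ‖ * ‖Δ θ a b * (1 - e' θ)‖ ≤ 1 * (ε / 2) :=
            mul_le_mul (hxn θ) (hΔx θ a b) (norm_nonneg _) zero_le_one
        _ = ε / 2 := one_mul _
    have h3 : ‖(if a = b then q' - q else 0 : B)‖ ≤ ε / 2 := by
      split_ifs
      · rw [norm_sub_rev]
        exact hu2
      · rw [norm_zero]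
        positivity
    have h4 : ‖(1 - e' θ) * (if a = b then q' - q else 0) * (1 - e' θ)‖ ≤ ε / 2 := by
      refine (norm_mul_le _ _).trans ?_
      have h5 : ‖(1 - e' θ) * (if a = b then q' - q else 0)‖ ≤ ε / 2 := by
        refine (norm_mul_le _ _).trans ?_
        calc ‖1 - e' θ‖ * ‖(if a = b then q' - q else 0 : B)‖ ≤ 1 * (ε / 2) :=
              mul_le_mul (hxn θ) h3 (norm_nonneg _) zero_le_one
          _ = ε / 2 := one_mul _
      calc ‖(1 - e' θ) * (if a = b then q' - q else 0)‖ * ‖1 - e' θ‖ ≤ (ε / 2) * 1 :=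
            mul_le_mul h5 (hxn θ) (norm_nonneg _) (by positivity)
        _ = ε / 2 := mul_one _
    linarith
  · intro θ w hw
    have h1 := SE_comm (1 - e' θ) w (U w) (c w) (hUc w) (hc w) (κ := 1 / (K : ℝ)) (by positivity)
      (fun k => hconj (Sum.inl ⟨w, hw⟩) k θ)
    refine h1.trans (le_trans ?_ hKε)
    refine mul_le_mul_of_nonneg_right ?_ (by positivity)
    have h2 : ‖w‖ ≤ ∑ w ∈ 𝓕, ‖w‖ :=
      Finset.single_le_sum (f := fun w => ‖w‖) (fun w _ => norm_nonneg w) hw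
    linarith
  · intro θ
    have h1 := SE_comm (1 - e' θ) e (U e) (c e) (hUc e) (hc e) (κ := 1 / (K : ℝ)) (by positivity)
      (fun k => hconj (Sum.inr ()) k θ)
    refine h1.trans (le_trans ?_ hKε)
    refine mul_le_mul_of_nonneg_right ?_ (by positivity)
    have h2 : ‖e‖ ≤ 1 := (CStarAlgebra.norm_le_one_iff_of_nonneg e he0).2 he1
    linarith
  · have h1 : ∑ θ, (1 - (1 - e' θ)) = ∑ θ, e' θ :=
      Finset.sum_congr rfl fun θ _ => sub_sub_cancel _ _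
    have h2 : ∑ θ, bb θ ≤ ((Fintype.card Θ : ℝ) * (Λ * ((m : ℝ) ^ 2 * δ'))) • (1 : B) := by
      have h3 : ∑ θ, bb θ = ((Fintype.card Θ : ℝ) * Λ) • ∑ a, ∑ b,
          ((Fintype.card Θ : ℝ)⁻¹ • ∑ θ, star (Δ θ a b) * Δ θ a b) := by
        simp only [hbb]
        rw [← Finset.smul_sum, Finset.sum_comm]
        simp only [← Finset.smul_sum]
        rw [smul_smul, mul_comm (Fintype.card Θ : ℝ) Λ, mul_assoc, mul_inv_cancel₀ hcΘ.ne', mul_one]
        congr 1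
        refine Finset.sum_congr rfl fun a _ => ?_
        exact Finset.sum_comm
      have h4 : ∑ a : Fin m, ∑ b : Fin m,
          ((Fintype.card Θ : ℝ)⁻¹ • ∑ θ, star (Δ θ a b) * Δ θ a b)
          ≤ ((m : ℝ) ^ 2 * δ') • (1 : B) := by
        calc ∑ a : Fin m, ∑ b : Fin m, ((Fintype.card Θ : ℝ)⁻¹ • ∑ θ, star (Δ θ a b) * Δ θ a b)
            ≤ ∑ a : Fin m, ∑ b : Fin m, δ' • (1 : B) :=
              Finset.sum_le_sum fun a _ => Finset.sum_le_sum fun b _ => hv a b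
          _ = ((m : ℝ) ^ 2 * δ') • (1 : B) := by
              simp only [Finset.sum_const, Finset.card_univ, Fintype.card_fin]
              rw [smul_smul, ← Nat.cast_smul_eq_nsmul ℝ, smul_smul]
              congr 1
              push_cast
              ring
      rw [h3]
      refine (smul_le_smul_of_nonneg_left h4 (by positivity)).trans (le_of_eq ?_)
      rw [smul_smul]
      congr 1
      ring
    have h3 : ‖∑ θ, bb θ‖ ≤ (Fintype.card Θ : ℝ) * (Λ * ((m : ℝ) ^ 2 * δ')) := by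
      refine (CStarAlgebra.norm_le_norm_of_nonneg_of_le
        (Finset.sum_nonneg fun θ _ => hb0 θ) h2).trans ?_
      rw [norm_smul, Real.norm_of_nonneg (by positivity)]
      calc (Fintype.card Θ : ℝ) * (Λ * ((m : ℝ) ^ 2 * δ')) * ‖(1 : B)‖
          ≤ (Fintype.card Θ : ℝ) * (Λ * ((m : ℝ) ^ 2 * δ')) * 1 :=
            mul_le_mul_of_nonneg_left SE_norm_one (by positivity)
        _ = _ := mul_one _
    show ‖(Fintype.card Θ : ℝ)⁻¹ • ∑ θ, (1 - (1 - e' θ))‖ ≤ ε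
    rw [h1, norm_smul, Real.norm_of_nonneg (by positivity)]
    calc (Fintype.card Θ : ℝ)⁻¹ * ‖∑ θ, e' θ‖
        ≤ (Fintype.card Θ : ℝ)⁻¹ * ((1 + (P : ℝ)) ^ K *
            ((Fintype.card Θ : ℝ) * (Λ * ((m : ℝ) ^ 2 * δ')))) :=
          mul_le_mul_of_nonneg_left (hsum'.trans
            (mul_le_mul_of_nonneg_left h3 (by positivity))) (by positivity)
      _ = (1 + (P : ℝ)) ^ K * Λ * (m : ℝ) ^ 2 * δ' := by
          field_simp
      _ ≤ D * δ' := by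
          refine mul_le_mul_of_nonneg_right ?_ hδ'0.le
          rw [hD]
          refine mul_le_mul_of_nonneg_left ?_ (by positivity)
          linarith
      _ = ε := by
          rw [hδ']
          field_simp

end Pool.MP263F
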