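import Mathlib
set_option autoImplicit false
set_option linter.unusedSectionVars false

/-! JOB Tr: real tracial functionals and their basic properties. -/

namespace Pool.MP263F
variable {B : Type} [CStarAlgebra B]

/-- real part of a tracial state -/
structure TrF (ρ : B →ₗ[ℝ] ℝ) : Prop where
  pos : ∀ x, 0 ≤ ρ (star x * x)
  star : ∀ x, ρ (star x) = ρ x
  tr : ∀ x y, ρ (x * y) = ρ (y * x)
  one : ρ 1 = 1

variable [PartialOrder B] [StarOrderedRing B]

theorem TrF.nonneg {ρ : B →ₗ[ℝ] ℝ} (h : TrF ρ) {x : B} (hx : 0 ≤ x) : 0 ≤ ρ x := by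
  obtain ⟨c, rfl⟩ := CStarAlgebra.nonneg_iff_eq_star_mul_self.mp hx
  exact h.pos c

theorem TrF.mono {ρ : B →ₗ[ℝ] ℝ} (h : TrF ρ) {x y : B} (hx : x ≤ y) : ρ x ≤ ρ y := by
  have := h.nonneg (sub_nonneg.mpr hx)
  rw [map_sub] at this
  linarith

/-- Cauchy–Schwarz: from `0 ≤ ρ ((P + t Q)* (P + t Q))` for all real `t` and `star`. -/
theorem TrF.cs {ρ : B →ₗ[ℝ] ℝ} (h : TrF ρ) (P Q : B) :
    ρ (Star.star P * Q) ^ 2 ≤ ρ (Star.star P * P) * ρ (Star.star Q * Q) := by
  have h1 : ρ (Star.star Q * P) = ρ (Star.star P * Q) := by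
    have := h.star (Star.star Q * P)
    rw [star_mul, star_star] at this
    exact this.symm
  have key : ∀ s : ℝ, 0 ≤ ρ (Star.star Q * Q) * (s * s) + (2 * ρ (Star.star P * Q)) * s +
      ρ (Star.star P * P) := by
    intro s
    have h2 := h.pos (P + s • Q)
    have h3 : Star.star (P + s • Q) * (P + s • Q) = Star.star P * P + s • (Star.star P * Q) +
        s • (Star.star Q * P) + (s * s) • (Star.star Q * Q) := by
      simp only [star_add, star_smul, star_trivial, mul_add, add_mul, smul_mul_assoc,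
        mul_smul_comm]
      module
    rw [h3] at h2
    simp only [map_add, map_smul, smul_eq_mul, h1] at h2
    linarith
  have h4 := discrim_le_zero key
  unfold discrim at h4
  nlinarith

/-- `|ρ x| ≤ ‖x‖`: Cauchy–Schwarz with `1`, and `star x * x ≤ ‖x‖^2 • 1`. -/
theorem TrF.abs_le {ρ : B →ₗ[ℝ] ℝ} (h : TrF ρ) (x : B) : |ρ x| ≤ ‖x‖ := by
  have h1 := h.cs 1 x
  have h2 : ρ (Star.star x * x) ≤ ‖x‖ ^ 2 := by
    have h3 : Star.star x * x ≤ algebraMap ℝ B (‖x‖ ^ 2) :=
      CStarAlgebra.star_mul_le_algebraMap_norm_sq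
    have h4 := h.mono h3
    rw [Algebra.algebraMap_eq_smul_one, map_smul, h.one, smul_eq_mul, mul_one] at h4
    exact h4
  simp only [star_one, one_mul, mul_one, h.one] at h1
  exact abs_le_of_sq_le_sq (by linarith) (norm_nonneg x)

/-- unitary conjugation invariance -/
theorem TrF.conj {ρ : B →ₗ[ℝ] ℝ} (h : TrF ρ) (u : unitary B) (x : B) :
    ρ ((u : B) * x * Star.star (u : B)) = ρ x := by
  rw [h.tr, ← mul_assoc, Unitary.star_mul_self_of_mem u.2, one_mul]

theorem TrF.conj' {ρ : B →ₗ[ℝ] ℝ} (h : TrF ρ) (u : unitary B) (x : B) :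
    ρ (Star.star (u : B) * x * (u : B)) = ρ x := by
  rw [h.tr, ← mul_assoc, Unitary.mul_star_self_of_mem u.2, one_mul]

end Pool.MP263F
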