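import Pool.Agent.Lib.MP_263cac_full.WalkDefs
set_option autoImplicit false

/-! JOB Walk1: algebraic facts on the walk. -/

namespace Pool.MP263F
variable {B : Type} [CStarAlgebra B]
variable {Λ₁ Λ₂ : Type} (r : Λ₁ → unitary B) (W : Λ₂ → unitary B)

/-- `T_j` depends only on `ω i`, `i < j` -/
theorem Tw_dep (ω ω' : ℕ → Λ₁ × Λ₂) (j : ℕ) (h : ∀ i, i < j → ω i = ω' i) :
    Tw r W ω j = Tw r W ω' j := by
  induction j with
  | zero => rfl
  | succ j ih =>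
    simp only [Tw]
    rw [ih fun i hi => h i (by omega), h j (by omega)]

/-- `V_j` depends only on `ω i`, `i < j`, and `(ω j).1` -/
theorem Vw_dep (ω ω' : ℕ → Λ₁ × Λ₂) (j : ℕ) (h : ∀ i, i < j → ω i = ω' i)
    (h' : (ω j).1 = (ω' j).1) : Vw r W ω j = Vw r W ω' j := by
  unfold Vw
  rw [Tw_dep r W ω ω' j h, h']

theorem Walk1_tail (ω ω' : ℕ → Λ₁ × Λ₂) (j n : ℕ)
    (h : ∀ i, j ≤ i → i < j + n → ω i = ω' i) :
    star (Tw r W ω j) * Tw r W ω (j + n) = star (Tw r W ω' j) * Tw r W ω' (j + n) := by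
  induction n with
  | zero => simp
  | succ n ih =>
    rw [← Nat.add_assoc]
    simp only [Tw]
    rw [← mul_assoc, ← mul_assoc, ih fun i h1 h2 => h i h1 (by omega), h (j + n) (by omega)
      (by omega)]
    simp only [mul_assoc]

/-- `U_j` depends only on `ω i`, `j < i < ℓ` (for `j < ℓ`) -/
theorem Uw_dep (ℓ : ℕ) (ω ω' : ℕ → Λ₁ × Λ₂) (j : ℕ) (hj : j < ℓ)
    (h : ∀ i, j < i → i < ℓ → ω i = ω' i) : Uw r W ℓ ω j = Uw r W ℓ ω' j := by
  unfold Uw
  obtain ⟨n, rfl⟩ : ∃ n, ℓ = j + 1 + n := ⟨ℓ - (j + 1), by omega⟩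
  exact Walk1_tail r W ω ω' (j + 1) n fun i h1 h2 => h i (by omega) h2

/-- `V_j W_j U_j = T_ℓ` -/
theorem VWU (ℓ : ℕ) (ω : ℕ → Λ₁ × Λ₂) (j : ℕ) (hj : j < ℓ) :
    Vw r W ω j * W (ω j).2 * Uw r W ℓ ω j = Tw r W ω ℓ := by
  unfold Uw Vw
  have : Tw r W ω (j + 1) = Tw r W ω j * r (ω j).1 * W (ω j).2 := rfl
  rw [this, ← mul_assoc, Unitary.mul_star_self, one_mul]

theorem Vw_rs (ω : ℕ → Λ₁ × Λ₂) (j : ℕ) (c : Λ₂) : Vw r W (rs j c ω) j = Vw r W ω j := by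
  apply Vw_dep
  · intro i hi
    unfold rs
    rw [Function.update_of_ne (by omega)]
  · unfold rs
    rw [Function.update_self]

theorem Uw_rs (ℓ : ℕ) (ω : ℕ → Λ₁ × Λ₂) (j : ℕ) (hj : j < ℓ) (c : Λ₂) :
    Uw r W ℓ (rs j c ω) j = Uw r W ℓ ω j := by
  apply Uw_dep r W ℓ _ _ j hj
  intro i hi _
  unfold rs
  rw [Function.update_of_ne (by omega)]

theorem extω_rsF [Nonempty Λ₁] [Nonempty Λ₂] {ℓ : ℕ} (ω : Fin ℓ → Λ₁ × Λ₂) (j : Fin ℓ) (c : Λ₂) :
    extω (rsF j c ω) = rs (j : ℕ) c (extω ω) := by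
  have hj : extω ω (j : ℕ) = ω j := by
    unfold extω
    rw [dif_pos j.2]
  funext i
  by_cases hi : i = j
  · subst hi
    unfold rs
    rw [Function.update_self, hj]
    unfold extω rsF
    rw [dif_pos j.2, Function.update_self]
  · unfold rs
    rw [Function.update_of_ne hi]
    unfold extω rsF
    split_ifs with h1
    · rw [Function.update_of_ne]
      intro h2
      exact hi (by rw [← h2])
    · rfl

theorem Dw_sa (c : Λ₂) (M : B) (hM : IsSelfAdjoint M) (j : ℕ) (ω : ℕ → Λ₁ × Λ₂) :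
    IsSelfAdjoint (Dw r W c M j ω) := by
  unfold Dw
  split_ifs
  · show star _ = _
    have hM' : star M = M := hM
    rw [star_mul, star_mul, star_star, hM', mul_assoc]
  · exact IsSelfAdjoint.zero B

theorem Dw_norm (c : Λ₂) (M : B) (hM : ‖M‖ ≤ 1) (j : ℕ) (ω : ℕ → Λ₁ × Λ₂) :
    ‖Dw r W c M j ω‖ ≤ 1 := by
  unfold Dw
  split_ifs
  · rw [← Unitary.coe_star, CStarRing.norm_mul_coe_unitary, CStarRing.norm_coe_unitary_mul]
    exact hM
  · simp

theorem Dw_dep (c : Λ₂) (M : B) (j : ℕ) (ω ω' : ℕ → Λ₁ × Λ₂) (h : ∀ i, i ≤ j → ω i = ω' i) :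
    Dw r W c M j ω = Dw r W c M j ω' := by
  unfold Dw
  rw [Vw_dep r W ω ω' j (fun i hi => h i hi.le) (by rw [h j le_rfl]), h j le_rfl]

/-- mean zero: `Σ_{(g,c')} 1_{c'=c} T_j r_g M r_g^* T_j^* = T_j (Σ_g r_g M r_g^*) T_j^* = 0` -/
theorem Dw_mean [Fintype Λ₁] [Fintype Λ₂] (c : Λ₂) (M : B)
    (hM : ∑ g : Λ₁, (r g : B) * M * star (r g : B) = 0) (j : ℕ) (ω : ℕ → Λ₁ × Λ₂) :
    ∑ d : Λ₁ × Λ₂, Dw r W c M j (Function.update ω j d) = 0 := by
  classical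
  have h1 : ∀ d : Λ₁ × Λ₂, Dw r W c M j (Function.update ω j d) =
      if d.2 = c then (Tw r W ω j : B) * ((r d.1 : B) * M * star (r d.1 : B)) *
        star (Tw r W ω j : B) else 0 := by
    intro d
    unfold Dw
    rw [Function.update_self]
    have h2 : Vw r W (Function.update ω j d) j = Tw r W ω j * r d.1 := by
      unfold Vw
      rw [Function.update_self, Tw_dep r W (Function.update ω j d) ω j fun i hi =>
        Function.update_of_ne (by omega) _ _]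
    rw [h2]
    split_ifs
    · simp only [Submonoid.coe_mul, star_mul, mul_assoc]
    · rfl
  simp only [h1]
  rw [Fintype.sum_prod_type]
  simp only [Finset.sum_ite_eq', Finset.mem_univ, if_true]
  rw [← Finset.sum_mul, ← Finset.mul_sum, hM, mul_zero, zero_mul]

end Pool.MP263F
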