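import Pool.Agent.Lib.MP_263cac_full.Walk1
set_option autoImplicit false

/-! JOB Walk2: the walk element `e'`.

Proof.  `Λ = Λ₁ × Λ₂`, `Ω = Fin ℓ → Λ`.  Apply `lemE` with `m`, index type
`I = (Fin ℓ × κA) ⊕ (Fin ℓ × Λ₂)`: move `(j, α)`: `π = id`, `u(ω) = V_j a_α V_j^*` (unitary), inverse move
`(j, α')` with `a_{α'} = star a_α`; move `(j, c)`: `π ω = rsF j c ω`, `u = 1`, inverse move at `π ω`:
`(j, (ω j).2)`.  `b ω = Σ_{c, μ} ((ε ℓ)⁻¹ • Z_{c,M_μ}(ω))^{2p}` with `p = m + 1`.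
(2) of `lemE` with `X = (εℓ)⁻¹ • Z` (self-adjoint, so `(X* X)^p = X^{2p} ≤ b`) gives `‖Z (1-e)‖ ≤ εℓ`.
(3) for `(j,α)`: `‖V_j a V_j^* e V_j a^* V_j^* - e‖ ≤ 1/m`, i.e. `‖a (V_j^* e V_j) - (V_j^* e V_j) a‖ ≤ 1/m`.
(4): fibres of `rsF j c` have at most `card Λ₂` elements, those of `id` one; `moment_bound` (with
`D = Dw r W c M`, `Dw_mean`, ...) gives `Σ_ω ρ(b ω) ≤ card Λ₂ · card κM · (εℓ)^{-2p} (card Λ)^ℓ 8^p (p!)² ℓ^p`,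
so `(card Λ)^{-ℓ} Σ_ω ρ(e ω) ≤ (1 + |Λ₂| ℓ(|κA| + |Λ₂|))^m |Λ₂||κM| ε^{-2p} 8^p (p!)² ℓ^{-p}
≤ C ℓ^{m-p} = C/ℓ`, with `C` independent of `ℓ`, `ρ`. -/

namespace Pool.MP263F
variable {B : Type} [CStarAlgebra B] [PartialOrder B] [StarOrderedRing B]

/-- index type of the moves -/
abbrev Walk2_I (ℓ : ℕ) (κA Λ₂ : Type) : Type := (Fin ℓ × κA) ⊕ (Fin ℓ × Λ₂)

/-- the substitution of a move -/
noncomputable def Walk2_pi {Λ₁ Λ₂ κA : Type} (ℓ : ℕ) :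
    Walk2_I ℓ κA Λ₂ → (Fin ℓ → Λ₁ × Λ₂) → (Fin ℓ → Λ₁ × Λ₂)
  | Sum.inl _, ω => ω
  | Sum.inr (j, c), ω => rsF j c ω

/-- the unitary of a move -/
noncomputable def Walk2_u {Λ₁ Λ₂ κA : Type} [Nonempty Λ₁] [Nonempty Λ₂] (r : Λ₁ → unitary B)
    (W : Λ₂ → unitary B) (a : κA → unitary B) (ℓ : ℕ) :
    Walk2_I ℓ κA Λ₂ → (Fin ℓ → Λ₁ × Λ₂) → unitary B
  | Sum.inl (j, α), ω => Vw r W (extω ω) j * a α * star (Vw r W (extω ω) j)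
  | Sum.inr _, _ => 1

theorem Walk2_rsF {Λ₁ Λ₂ : Type} {ℓ : ℕ} (j : Fin ℓ) (c : Λ₂) (ω : Fin ℓ → Λ₁ × Λ₂) :
    rsF j (ω j).2 (rsF j c ω) = ω := by
  unfold rsF
  rw [Function.update_idem]
  funext i
  by_cases hi : i = j
  · subst hi
    simp
  · rw [Function.update_of_ne hi]

theorem Walk2_inv {Λ₁ Λ₂ κA : Type} [Nonempty Λ₁] [Nonempty Λ₂] (r : Λ₁ → unitary B)
    (W : Λ₂ → unitary B) (a : κA → unitary B)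
    (ha : ∀ α, ∃ α', a α' = star (a α)) (ℓ : ℕ) (i : Walk2_I ℓ κA Λ₂) (ω : Fin ℓ → Λ₁ × Λ₂) :
    ∃ i', Walk2_pi ℓ i' (Walk2_pi ℓ i ω) = ω ∧
      Walk2_u r W a ℓ i' (Walk2_pi ℓ i ω) = star (Walk2_u r W a ℓ i ω) := by
  rcases i with ⟨j, α⟩ | ⟨j, c⟩
  · obtain ⟨α', hα'⟩ := ha α
    refine ⟨Sum.inl (j, α'), rfl, ?_⟩
    show Vw r W (extω ω) j * a α' * star (Vw r W (extω ω) j)
      = star (Vw r W (extω ω) j * a α * star (Vw r W (extω ω) j))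
    rw [hα', star_mul, star_mul, star_star, mul_assoc]
  · refine ⟨Sum.inr (j, (ω j).2), ?_, ?_⟩
    · show rsF j (ω j).2 (rsF j c ω) = ω
      exact Walk2_rsF j c ω
    · show (1 : unitary B) = star 1
      rw [star_one]

theorem Walk2_fib {Λ₁ Λ₂ κA : Type} [Fintype Λ₂] [Finite Λ₁] [Nonempty Λ₂] (ℓ : ℕ)
    (i : Walk2_I ℓ κA Λ₂) (ω' : Fin ℓ → Λ₁ × Λ₂) :
    Nat.card {ω : Fin ℓ → Λ₁ × Λ₂ // Walk2_pi ℓ i ω = ω'} ≤ Fintype.card Λ₂ := by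
  rw [← Nat.card_eq_fintype_card]
  rcases i with ⟨j, α⟩ | ⟨j, c⟩
  · have h1 : Nat.card {ω : Fin ℓ → Λ₁ × Λ₂ // Walk2_pi ℓ (Sum.inl (j, α) : Walk2_I ℓ κA Λ₂) ω = ω'}
        ≤ 1 := by
      rw [Finite.card_le_one_iff_subsingleton]
      refine ⟨fun x y => Subtype.ext ?_⟩
      have hx : x.1 = ω' := x.2
      have hy : y.1 = ω' := y.2
      rw [hx, hy]
    have h2 : 0 < Nat.card Λ₂ := Nat.card_pos
    omega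
  · refine Nat.card_le_card_of_injective (fun x => (x.1 j).2) ?_
    intro x y hxy
    have hxy' : (x.1 j).2 = (y.1 j).2 := hxy
    have hx : rsF j c x.1 = ω' := x.2
    have hy : rsF j c y.1 = ω' := y.2
    refine Subtype.ext ?_
    rw [← Walk2_rsF j c x.1, ← Walk2_rsF j c y.1, hx, hy, hxy']

/-- the element `b` -/
noncomputable def Walk2_b {Λ₁ Λ₂ κM : Type} [Fintype Λ₂] [Fintype κM] [Nonempty Λ₁] [Nonempty Λ₂]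
    (r : Λ₁ → unitary B) (W : Λ₂ → unitary B) (M : κM → B) (s : ℝ) (p ℓ : ℕ)
    (ω : Fin ℓ → Λ₁ × Λ₂) : B :=
  ∑ cμ : Λ₂ × κM, (s • Zw r W ℓ cμ.1 (M cμ.2) (extω ω)) ^ (2 * p)

theorem Walk2_Z_sa {Λ₁ Λ₂ : Type} (r : Λ₁ → unitary B) (W : Λ₂ → unitary B)
    (c : Λ₂) (M : B) (hM : IsSelfAdjoint M) (s : ℝ) (ℓ : ℕ) (ω : ℕ → Λ₁ × Λ₂) :
    IsSelfAdjoint (s • Zw r W ℓ c M ω) := by
  refine IsSelfAdjoint.smul (IsSelfAdjoint.all s) ?_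
  unfold Zw
  exact isSelfAdjoint_sum _ (fun j _ => Dw_sa r W c M hM j ω)

theorem Walk2_even {x : B} (hx : IsSelfAdjoint x) (p : ℕ) : 0 ≤ x ^ (2 * p) := by
  have h1 : x ^ (2 * p) = star (x ^ p) * x ^ p := by
    rw [star_pow, hx.star_eq, two_mul, pow_add]
  rw [h1]
  exact star_mul_self_nonneg _

theorem Walk2_sum {Λ₁ Λ₂ κM : Type} [Fintype Λ₁] [Fintype Λ₂] [Fintype κM] [Nonempty Λ₁]
    [Nonempty Λ₂] (r : Λ₁ → unitary B) (W : Λ₂ → unitary B) (M : κM → B)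
    (hM : ∀ μ, IsSelfAdjoint (M μ) ∧ ‖M μ‖ ≤ 1 ∧ ∑ g : Λ₁, (r g : B) * M μ * star (r g : B) = 0)
    (s : ℝ) (p ℓ : ℕ) (ρ : B →ₗ[ℝ] ℝ) (hρ : TrF ρ) :
    ∑ ω : Fin ℓ → Λ₁ × Λ₂, ρ (Walk2_b r W M s p ℓ ω)
      ≤ ((Fintype.card Λ₂ : ℝ) * (Fintype.card κM : ℝ)) * (s ^ (2 * p) *
        ((Fintype.card (Λ₁ × Λ₂) : ℝ) ^ ℓ * (8 ^ p * (p.factorial : ℝ) ^ 2 * (ℓ : ℝ) ^ p))) := by
  have h1 : ∀ ω : Fin ℓ → Λ₁ × Λ₂, ρ (Walk2_b r W M s p ℓ ω)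
      = ∑ cμ : Λ₂ × κM, s ^ (2 * p) * ρ ((Zw r W ℓ cμ.1 (M cμ.2) (extω ω)) ^ (2 * p)) := by
    intro ω
    unfold Walk2_b
    rw [map_sum]
    refine Finset.sum_congr rfl (fun cμ _ => ?_)
    rw [smul_pow, map_smul, smul_eq_mul]
  rw [Finset.sum_congr rfl (fun ω _ => h1 ω), Finset.sum_comm]
  have h2 : ∀ cμ : Λ₂ × κM, ∑ ω : Fin ℓ → Λ₁ × Λ₂,
      s ^ (2 * p) * ρ ((Zw r W ℓ cμ.1 (M cμ.2) (extω ω)) ^ (2 * p))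
      ≤ s ^ (2 * p) *
        ((Fintype.card (Λ₁ × Λ₂) : ℝ) ^ ℓ * (8 ^ p * (p.factorial : ℝ) ^ 2 * (ℓ : ℝ) ^ p)) := by
    intro cμ
    rw [← Finset.mul_sum]
    have h3 : 0 ≤ s ^ (2 * p) := by rw [pow_mul]; exact pow_nonneg (sq_nonneg s) p
    refine mul_le_mul_of_nonneg_left ?_ h3
    obtain ⟨a1, a2, a3⟩ := hM cμ.2
    exact moment_bound hρ (Dw r W cμ.1 (M cμ.2)) (fun j ω => Dw_sa r W cμ.1 (M cμ.2) a1 j ω)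
      (fun j ω => Dw_norm r W cμ.1 (M cμ.2) a2 j ω)
      (fun j ω ω' h => Dw_dep r W cμ.1 (M cμ.2) j ω ω' h)
      (fun j ω => Dw_mean r W cμ.1 (M cμ.2) a3 j ω) p ℓ
  refine (Finset.sum_le_sum (fun cμ _ => h2 cμ)).trans (le_of_eq ?_)
  rw [Finset.sum_const, Finset.card_univ, Fintype.card_prod, nsmul_eq_mul]
  push_cast
  ring

theorem Walk2_num (A c κ ε ℓ : ℝ) (m : ℕ) (N F : ℝ) (hA : 0 ≤ A) (hc : 0 ≤ c) (hκ : 0 ≤ κ)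
    (hε : 0 < ε) (hℓ : 1 ≤ ℓ) (hN : 0 < N) (hF : 0 ≤ F) :
    N⁻¹ * ((1 + c * (ℓ * A + ℓ * c)) ^ m * ((c * κ) * (((ε * ℓ)⁻¹) ^ (2 * (m + 1)) *
      (N * (8 ^ (m + 1) * F ^ 2 * ℓ ^ (m + 1))))))
      ≤ ((1 + c * (A + c)) ^ m * (c * κ) * ((ε⁻¹) ^ (2 * (m + 1)) * (8 ^ (m + 1) * F ^ 2))) / ℓ := by
  have hℓ0 : 0 < ℓ := by linarith
  have h1 : (1 + c * (ℓ * A + ℓ * c)) ^ m ≤ ℓ ^ m * (1 + c * (A + c)) ^ m := by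
    rw [← mul_pow]
    refine pow_le_pow_left₀ ?_ ?_ m
    · have : 0 ≤ c * (ℓ * A + ℓ * c) := mul_nonneg hc (add_nonneg (mul_nonneg hℓ0.le hA)
        (mul_nonneg hℓ0.le hc))
      linarith
    · have h2 : ℓ * (1 + c * (A + c)) = ℓ + c * (ℓ * A + ℓ * c) := by ring
      rw [h2]
      linarith
  have h3 : 0 ≤ (c * κ) * (((ε * ℓ)⁻¹) ^ (2 * (m + 1)) *
      (N * (8 ^ (m + 1) * F ^ 2 * ℓ ^ (m + 1)))) := by
    refine mul_nonneg (mul_nonneg hc hκ) (mul_nonneg (pow_nonneg (inv_nonneg.2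
      (mul_nonneg hε.le hℓ0.le)) _) (mul_nonneg hN.le (mul_nonneg (mul_nonneg (by positivity)
        (sq_nonneg _)) (pow_nonneg hℓ0.le _))))
  have h4 : N⁻¹ * ((1 + c * (ℓ * A + ℓ * c)) ^ m * ((c * κ) * (((ε * ℓ)⁻¹) ^ (2 * (m + 1)) *
      (N * (8 ^ (m + 1) * F ^ 2 * ℓ ^ (m + 1))))))
      ≤ N⁻¹ * ((ℓ ^ m * (1 + c * (A + c)) ^ m) * ((c * κ) * (((ε * ℓ)⁻¹) ^ (2 * (m + 1)) *
      (N * (8 ^ (m + 1) * F ^ 2 * ℓ ^ (m + 1)))))) :=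
    mul_le_mul_of_nonneg_left (mul_le_mul_of_nonneg_right h1 h3) (inv_nonneg.2 hN.le)
  refine h4.trans (le_of_eq ?_)
  have h5 : ((ε * ℓ)⁻¹) ^ (2 * (m + 1)) = (ε⁻¹) ^ (2 * (m + 1)) * (ℓ⁻¹) ^ (2 * (m + 1)) := by
    rw [mul_inv, mul_pow]
  have h6 : (ℓ⁻¹) ^ (2 * (m + 1)) = (ℓ⁻¹) ^ m * ℓ⁻¹ * (ℓ⁻¹) ^ (m + 1) := by
    rw [two_mul, pow_add, pow_succ]
  have h7 : (ℓ⁻¹) ^ m * ℓ ^ m = 1 := by rw [← mul_pow, inv_mul_cancel₀ hℓ0.ne', one_pow]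
  have h8 : (ℓ⁻¹) ^ (m + 1) * ℓ ^ (m + 1) = 1 := by
    rw [← mul_pow, inv_mul_cancel₀ hℓ0.ne', one_pow]
  have h9 : N⁻¹ * N = 1 := inv_mul_cancel₀ hN.ne'
  rw [h5, h6, div_eq_mul_inv]
  calc N⁻¹ * ((ℓ ^ m * (1 + c * (A + c)) ^ m) * ((c * κ) * ((ε⁻¹) ^ (2 * (m + 1)) *
        ((ℓ⁻¹) ^ m * ℓ⁻¹ * (ℓ⁻¹) ^ (m + 1)) * (N * (8 ^ (m + 1) * F ^ 2 * ℓ ^ (m + 1))))))
      = (N⁻¹ * N) * ((ℓ⁻¹) ^ m * ℓ ^ m) * ((ℓ⁻¹) ^ (m + 1) * ℓ ^ (m + 1)) *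
        ((1 + c * (A + c)) ^ m * (c * κ) * ((ε⁻¹) ^ (2 * (m + 1)) * (8 ^ (m + 1) * F ^ 2)) * ℓ⁻¹) := by
        ring
    _ = _ := by rw [h7, h8, h9]; ring

theorem Walk2_comm (V a : unitary B) (e : B) (δ : ℝ)
    (h : ‖((V * a * star V : unitary B) : B) * e * star ((V * a * star V : unitary B) : B) - e‖ ≤ δ) :
    ‖(a : B) * (star (V : B) * e * (V : B)) - (star (V : B) * e * (V : B)) * (a : B)‖ ≤ δ := by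
  have hV1 : star (V : B) * (V : B) = 1 := Unitary.coe_star_mul_self V
  have ha1 : star (a : B) * (a : B) = 1 := Unitary.coe_star_mul_self a
  have e1 : (a : B) * (star (V : B) * e * (V : B)) - (star (V : B) * e * (V : B)) * (a : B)
      = ((star V : unitary B) : B) * ((((V * a * star V : unitary B) : B) * e
        * star ((V * a * star V : unitary B) : B) - e) * ((V * a : unitary B) : B)) := by
    have e2 : ((V * a * star V : unitary B) : B) = (V : B) * (a : B) * star (V : B) := rfl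
    have e3 : ((star V : unitary B) : B) = star (V : B) := rfl
    have e4 : ((V * a : unitary B) : B) = (V : B) * (a : B) := rfl
    rw [e2, e3, e4, star_mul, star_mul, star_star]
    have e5 : star (V : B) * (((V : B) * (a : B) * star (V : B) * e
        * ((V : B) * (star (a : B) * star (V : B))) - e) * ((V : B) * (a : B)))
        = (star (V : B) * (V : B)) * ((a : B) * (star (V : B) * e * (V : B)))
          * (star (a : B) * ((star (V : B) * (V : B)) * (a : B)))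
          - (star (V : B) * e * (V : B)) * (a : B) := by
      noncomm_ring
    rw [e5, hV1, one_mul, one_mul, ha1, mul_one]
  rw [e1, CStarRing.norm_coe_unitary_mul, CStarRing.norm_mul_coe_unitary]
  exact h

theorem walk_element {Λ₁ Λ₂ κA κM : Type} [Fintype Λ₁] [Fintype Λ₂] [Fintype κA] [Fintype κM]
    [Nonempty Λ₁] [Nonempty Λ₂] (r : Λ₁ → unitary B) (W : Λ₂ → unitary B) (a : κA → unitary B)
    (ha : ∀ α, ∃ α', a α' = star (a α)) (M : κM → B)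
    (hM : ∀ μ, IsSelfAdjoint (M μ) ∧ ‖M μ‖ ≤ 1 ∧ ∑ g : Λ₁, (r g : B) * M μ * star (r g : B) = 0)
    (ε : ℝ) (hε : 0 < ε) (m : ℕ) (hm : 1 ≤ m) :
    ∃ C : ℝ, 0 ≤ C ∧ ∀ ℓ : ℕ, 1 ≤ ℓ → ∃ e : (Fin ℓ → Λ₁ × Λ₂) → B,
      (∀ ω, 0 ≤ e ω ∧ e ω ≤ 1) ∧
      (∀ ω c μ, ‖Zw r W ℓ c (M μ) (extω ω) * (1 - e ω)‖ ≤ ε * ℓ) ∧
      (∀ ω (j : Fin ℓ) α, ‖(a α : B) * (star (Vw r W (extω ω) j : B) * e ω * (Vw r W (extω ω) j : B))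
        - (star (Vw r W (extω ω) j : B) * e ω * (Vw r W (extω ω) j : B)) * (a α : B)‖
          ≤ 1 / (m : ℝ)) ∧
      (∀ ω (j : Fin ℓ) c, ‖e (rsF j c ω) - e ω‖ ≤ 1 / (m : ℝ)) ∧
      (∀ ρ : B →ₗ[ℝ] ℝ, TrF ρ →
        ((Fintype.card (Λ₁ × Λ₂) : ℝ) ^ ℓ)⁻¹ * ∑ ω, ρ (e ω) ≤ C / ℓ) := by
  set c : ℝ := (Fintype.card Λ₂ : ℝ) with hc
  set A : ℝ := (Fintype.card κA : ℝ) with hA
  set κ : ℝ := (Fintype.card κM : ℝ) with hκ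
  set F : ℝ := ((m + 1).factorial : ℝ) with hF
  have hc0 : 0 ≤ c := Nat.cast_nonneg _
  have hA0 : 0 ≤ A := Nat.cast_nonneg _
  have hκ0 : 0 ≤ κ := Nat.cast_nonneg _
  have hF0 : 0 ≤ F := Nat.cast_nonneg _
  refine ⟨(1 + c * (A + c)) ^ m * (c * κ) * ((ε⁻¹) ^ (2 * (m + 1)) * (8 ^ (m + 1) * F ^ 2)),
    ?_, ?_⟩
  · refine mul_nonneg (mul_nonneg (pow_nonneg ?_ m) (mul_nonneg hc0 hκ0)) (mul_nonneg
      (pow_nonneg (inv_nonneg.2 hε.le) _) (mul_nonneg (by norm_num) (sq_nonneg _)))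
    have : 0 ≤ c * (A + c) := mul_nonneg hc0 (add_nonneg hA0 hc0)
    linarith
  intro ℓ hℓ
  have hℓ1 : (1 : ℝ) ≤ (ℓ : ℝ) := by exact_mod_cast hℓ
  have hεℓ : 0 < ε * (ℓ : ℝ) := mul_pos hε (by linarith)
  have hsa : ∀ (ω : Fin ℓ → Λ₁ × Λ₂) (cμ : Λ₂ × κM),
      IsSelfAdjoint ((ε * (ℓ : ℝ))⁻¹ • Zw r W ℓ cμ.1 (M cμ.2) (extω ω)) :=
    fun ω cμ => Walk2_Z_sa r W cμ.1 (M cμ.2) (hM cμ.2).1 _ ℓ (extω ω)
  obtain ⟨e, he1, he2, he3, he4, -⟩ := lemE (Walk2_pi (Λ₁ := Λ₁) (Λ₂ := Λ₂) (κA := κA) ℓ)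
    (Walk2_u r W a ℓ) (Walk2_inv r W a ha ℓ) (Walk2_b r W M (ε * (ℓ : ℝ))⁻¹ (m + 1) ℓ)
    (fun ω => Finset.sum_nonneg (fun cμ _ => Walk2_even (hsa ω cμ) (m + 1))) m hm
  refine ⟨e, he1, ?_, ?_, ?_, ?_⟩
  · intro ω c' μ
    have h1 := he2 ω ((ε * (ℓ : ℝ))⁻¹ • Zw r W ℓ c' (M μ) (extω ω)) (m + 1) (by omega) (by
      rw [(hsa ω (c', μ)).star_eq, ← sq, ← pow_mul]
      exact Finset.single_le_sum
        (f := fun cμ : Λ₂ × κM => ((ε * (ℓ : ℝ))⁻¹ • Zw r W ℓ cμ.1 (M cμ.2) (extω ω)) ^ (2 * (m + 1)))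
        (fun cμ _ => Walk2_even (hsa ω cμ) (m + 1)) (Finset.mem_univ (c', μ)))
    rw [smul_mul_assoc, norm_smul, Real.norm_eq_abs, abs_of_nonneg (inv_nonneg.2 hεℓ.le),
      inv_mul_le_iff₀ hεℓ, mul_one] at h1
    exact h1
  · intro ω j α
    exact Walk2_comm (Vw r W (extω ω) j) (a α) (e ω) _ (he3 (Sum.inl (j, α)) ω)
  · intro ω j c'
    have h1 := he3 (Sum.inr (j, c')) ω
    have e1 : (Walk2_u r W a ℓ (Sum.inr (j, c')) ω : B) = 1 := rfl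
    have e2 : Walk2_pi ℓ (Sum.inr (j, c') : Walk2_I ℓ κA Λ₂) ω = rsF j c' ω := rfl
    rw [e1, e2, one_mul, star_one, mul_one] at h1
    exact h1
  · intro ρ hρ
    have hcpos : 1 ≤ Fintype.card Λ₂ := Fintype.card_pos
    have h1 := he4 (Fintype.card Λ₂) hcpos (fun i ω' => Walk2_fib ℓ i ω') ρ hρ
    have h2 := Walk2_sum r W M hM (ε * (ℓ : ℝ))⁻¹ (m + 1) ℓ ρ hρ
    have hI : (Fintype.card (Walk2_I ℓ κA Λ₂) : ℝ) = (ℓ : ℝ) * A + (ℓ : ℝ) * c := by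
      rw [Fintype.card_sum, Fintype.card_prod, Fintype.card_prod, Fintype.card_fin]
      push_cast
      rfl
    rw [hI] at h1
    have hN : (0 : ℝ) < (Fintype.card (Λ₁ × Λ₂) : ℝ) ^ ℓ := by
      refine pow_pos ?_ ℓ
      exact_mod_cast Fintype.card_pos
    have h3 : 0 ≤ (1 + c * ((ℓ : ℝ) * A + (ℓ : ℝ) * c)) ^ m := by
      refine pow_nonneg ?_ m
      have : 0 ≤ c * ((ℓ : ℝ) * A + (ℓ : ℝ) * c) := mul_nonneg hc0 (add_nonneg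
        (mul_nonneg (by linarith) hA0) (mul_nonneg (by linarith) hc0))
      linarith
    have h4 := mul_le_mul_of_nonneg_left (h1.trans (mul_le_mul_of_nonneg_left h2 h3))
      (inv_nonneg.2 hN.le)
    exact h4.trans (Walk2_num A c κ ε ℓ m _ F hA0 hc0 hκ0 hε hℓ1 hN hF0)

end Pool.MP263F
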