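import Pool.Agent.Lib.MP_263cac_full.Walk2
set_option autoImplicit false
set_option linter.unusedSectionVars false

/-! JOB Walk3: the walk family.

Proof.  Take `e'` from `walk_element` with `ε' , m, ℓ` to be chosen.  `Ω = Fin ℓ × (Fin ℓ → Λ₁ × Λ₂)`,
`V(j,ω) = V_j(ω)`, `U(j,ω) = U_j(ω)`,
`e(j,ω) = |Λ₂|⁻¹ Σ_c V_j^* e'(rsF j c ω) V_j`  (note `V_j(rs j c ω) = V_j(ω)`).
* commutators: from the third property at `rsF j c ω`.
* trace: `ρ(e(j,ω)) = |Λ₂|⁻¹ Σ_c ρ(e'(rsF j c ω))`, and `Σ_ω Σ_c ρ(e'(rsF j c ω)) = |Λ₂| Σ_ω ρ(e' ω)`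
  (the map `(ω,c) ↦ rsF j c ω` hits every word exactly `|Λ₂|` times), so the average is `≤ C/ℓ`.
* killing, for `c : Λ₂`, `μ : κM`: put `h_j(ω) = ψ_{V_j W_c U_j}(V_j M (1-e(j,ω)) V_j^*)`; it does not depend
  on `(ω j).2`, so `Σ_ω h_j(ω) = |Λ₂| Σ_{ω : (ω j).2 = c} h_j(ω)`.  If `(ω j).2 = c` then
  `V_j W_c U_j = T_ℓ` (`VWU`), and `‖V_j e(j,ω) V_j^* - e' ω‖ ≤ 1/m`, so
  `|h_j(ω) - ψ_T(V_j M V_j^* (1 - e' ω))| ≤ 1/m`.  Sum over `j`:
  `Σ_j 1_{(ω j).2=c} ψ_T(V_j M V_j^*(1-e')) = ψ_T(Z_{c,M}(1-e'))`, of modulus `≤ ε'ℓ`.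
  In total the average is `≤ |Λ₂| (ε' + 1/m)`. -/

namespace Pool.MP263F
variable {B : Type} [CStarAlgebra B] [PartialOrder B] [StarOrderedRing B]

section sums
variable {Λ₁ Λ₂ : Type} [Fintype Λ₁] [Fintype Λ₂]

theorem Walk3_rsF_self {ℓ : ℕ} (j : Fin ℓ) (c : Λ₂) (ω : Fin ℓ → Λ₁ × Λ₂) :
    rsF j c ω j = ((ω j).1, c) := by
  unfold rsF; rw [Function.update_self]

theorem Walk3_rsF_ne {ℓ : ℕ} {j k : Fin ℓ} (h : k ≠ j) (c : Λ₂) (ω : Fin ℓ → Λ₁ × Λ₂) :
    rsF j c ω k = ω k := by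
  unfold rsF; rw [Function.update_of_ne h]

theorem Walk3_rsF_rsF {ℓ : ℕ} (j : Fin ℓ) (c c' : Λ₂) (ω : Fin ℓ → Λ₁ × Λ₂) :
    rsF j c (rsF j c' ω) = rsF j c ω := by
  funext k
  by_cases h : k = j
  · subst h; rw [Walk3_rsF_self, Walk3_rsF_self, Walk3_rsF_self]
  · rw [Walk3_rsF_ne h, Walk3_rsF_ne h, Walk3_rsF_ne h]

theorem Walk3_rsF_id {ℓ : ℕ} (j : Fin ℓ) (ω : Fin ℓ → Λ₁ × Λ₂) : rsF j (ω j).2 ω = ω := by
  funext k
  by_cases h : k = j
  · subst h; rw [Walk3_rsF_self]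
  · rw [Walk3_rsF_ne h]

theorem Walk3_sum {E : Type*} [AddCommMonoid E] {ℓ : ℕ} (j : Fin ℓ)
    (f : (Fin ℓ → Λ₁ × Λ₂) → E) :
    ∑ c : Λ₂, ∑ ω, f (rsF j c ω) = Fintype.card Λ₂ • ∑ ω, f ω := by
  rw [Finset.sum_comm, ← Fintype.sum_prod_type' (f := fun ω c => f (rsF j c ω))]
  let φ : (Fin ℓ → Λ₁ × Λ₂) × Λ₂ → (Fin ℓ → Λ₁ × Λ₂) × Λ₂ := fun x =>
    (rsF j x.2 x.1, (x.1 j).2)
  have hφ : Function.Involutive φ := by
    rintro ⟨ω, c⟩
    simp only [φ, Walk3_rsF_rsF, Walk3_rsF_id, Walk3_rsF_self]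
  have h1 : ∑ x : (Fin ℓ → Λ₁ × Λ₂) × Λ₂, f (rsF j x.2 x.1) =
      ∑ x : (Fin ℓ → Λ₁ × Λ₂) × Λ₂, f x.1 := by
    rw [← Equiv.sum_comp hφ.toPerm (fun x => f (rsF j x.2 x.1))]
    refine Finset.sum_congr rfl fun x _ => ?_
    show f (rsF j (φ x).2 (φ x).1) = f x.1
    simp only [φ, Walk3_rsF_rsF, Walk3_rsF_id]
  rw [h1, Fintype.sum_prod_type]
  simp [Finset.sum_nsmul, Finset.sum_const, Finset.card_univ]

open Classical in
theorem Walk3_restrict {E : Type*} [AddCommMonoid E] {ℓ : ℕ} (j : Fin ℓ) (c : Λ₂)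
    (f : (Fin ℓ → Λ₁ × Λ₂) → E) (hf : ∀ c' ω, f (rsF j c' ω) = f ω) :
    ∑ ω, f ω = Fintype.card Λ₂ • ∑ ω, if (ω j).2 = c then f ω else 0 := by
  rw [← Walk3_sum j (fun ω => if (ω j).2 = c then f ω else 0)]
  simp only [hf, Walk3_rsF_self]
  rw [Finset.sum_comm]
  refine Finset.sum_congr rfl fun ω _ => ?_
  simp

end sums

theorem walk_family {Λ₁ Λ₂ κA κM : Type} [Fintype Λ₁] [Fintype Λ₂] [Fintype κA] [Fintype κM]
    [Nonempty Λ₁] [Nonempty Λ₂] (r : Λ₁ → unitary B) (W : Λ₂ → unitary B) (a : κA → unitary B)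
    (ha : ∀ α, ∃ α', a α' = star (a α)) (M : κM → B)
    (hM : ∀ μ, IsSelfAdjoint (M μ) ∧ ‖M μ‖ ≤ 1 ∧ ∑ g : Λ₁, (r g : B) * M μ * star (r g : B) = 0)
    (ε : ℝ) (hε : 0 < ε) :
    ∃ (Ω : Type) (_ : Fintype Ω) (_ : Nonempty Ω) (V U : Ω → unitary B) (e : Ω → B),
      (∀ ω, 0 ≤ e ω ∧ e ω ≤ 1) ∧
      (∀ ω α, ‖e ω * (a α : B) - (a α : B) * e ω‖ ≤ ε) ∧
      (∀ ρ : B →ₗ[ℝ] ℝ, TrF ρ → ρ ((Fintype.card Ω : ℝ)⁻¹ • ∑ ω, e ω) ≤ ε) ∧
      (∀ ψ : B → (B →ₗ[ℂ] ℂ), (∀ T ∈ unitary B, ∀ z, ‖ψ T z‖ ≤ ‖z‖) → ∀ c μ,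
        ‖(Fintype.card Ω : ℂ)⁻¹ * ∑ ω, ψ ((V ω : B) * (W c : B) * (U ω : B))
          ((V ω : B) * M μ * (1 - e ω) * star (V ω : B))‖ ≤ ε) := by
  classical
  set L : ℝ := (Fintype.card Λ₂ : ℝ) with hL
  have hL1 : 1 ≤ L := by
    rw [hL]; exact_mod_cast Fintype.card_pos
  have hL0 : 0 < L := by linarith
  -- constants
  obtain ⟨m, hm⟩ : ∃ m : ℕ, 2 * L / ε < m := exists_nat_gt _
  have hmpos : (0 : ℝ) < m := lt_trans (by positivity) hm
  have hm1 : 1 ≤ m := by exact_mod_cast hmpos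
  have hmL : L * (1 / (m : ℝ)) ≤ ε / 2 := by
    rw [div_lt_iff₀ hε] at hm
    rw [mul_one_div, div_le_div_iff₀ hmpos (by norm_num)]
    linarith
  have hme : 1 / (m : ℝ) ≤ ε := by
    have : 1 / (m : ℝ) ≤ L * (1 / (m : ℝ)) := by
      have h0 : 0 ≤ 1 / (m : ℝ) := by positivity
      nlinarith
    linarith
  set ε' : ℝ := ε / (2 * L) with hε'
  have hε'0 : 0 < ε' := by positivity
  obtain ⟨C, hC0, hC⟩ := walk_element r W a ha M hM ε' hε'0 m hm1
  obtain ⟨ℓ, hℓ⟩ : ∃ ℓ : ℕ, C / ε < ℓ := exists_nat_gt _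
  obtain ⟨ℓ, hℓ1, hℓC⟩ : ∃ ℓ : ℕ, 1 ≤ ℓ ∧ C / ℓ ≤ ε := by
    refine ⟨ℓ + 1, by omega, ?_⟩
    have h1 : (0 : ℝ) < ((ℓ + 1 : ℕ) : ℝ) := by positivity
    rw [div_le_iff₀ h1]
    rw [div_lt_iff₀ hε] at hℓ
    push_cast
    nlinarith
  obtain ⟨e', he01, heZ, hea, her, het⟩ := hC ℓ hℓ1
  have hℓ0 : (0 : ℝ) < ℓ := by exact_mod_cast hℓ1
  have : Nonempty (Fin ℓ) := ⟨⟨0, hℓ1⟩⟩
  -- the data
  let V : Fin ℓ × (Fin ℓ → Λ₁ × Λ₂) → unitary B := fun x => Vw r W (extω x.2) x.1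
  let U : Fin ℓ × (Fin ℓ → Λ₁ × Λ₂) → unitary B := fun x => Uw r W ℓ (extω x.2) x.1
  let e : Fin ℓ × (Fin ℓ → Λ₁ × Λ₂) → B := fun x =>
    L⁻¹ • ∑ c : Λ₂, star (Vw r W (extω x.2) x.1 : B) * e' (rsF x.1 c x.2) *
      (Vw r W (extω x.2) x.1 : B)
  have hVrs : ∀ (j : Fin ℓ) (c : Λ₂) ω, Vw r W (extω (rsF j c ω)) j = Vw r W (extω ω) j := by
    intro j c ω
    rw [extω_rsF, Vw_rs]
  have hUrs : ∀ (j : Fin ℓ) (c : Λ₂) ω,
      Uw r W ℓ (extω (rsF j c ω)) j = Uw r W ℓ (extω ω) j := by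
    intro j c ω
    rw [extω_rsF, Uw_rs r W ℓ _ _ j.2]
  have hers : ∀ (j : Fin ℓ) (c : Λ₂) ω, e (j, rsF j c ω) = e (j, ω) := by
    intro j c ω
    simp only [e, hVrs, Walk3_rsF_rsF]
  have hsmul1 : ∀ x : B, L⁻¹ • ∑ _c : Λ₂, x = x := by
    intro x
    rw [Finset.sum_const, Finset.card_univ, ← Nat.cast_smul_eq_nsmul ℝ, smul_smul, ← hL,
      inv_mul_cancel₀ hL0.ne', one_smul]
  -- norm of an average
  have havg : ∀ (f : Λ₂ → B) (δ : ℝ), (∀ c, ‖f c‖ ≤ δ) → ‖L⁻¹ • ∑ c, f c‖ ≤ δ := by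
    intro f δ hf
    rw [norm_smul, Real.norm_eq_abs, abs_of_pos (inv_pos.mpr hL0)]
    calc L⁻¹ * ‖∑ c, f c‖ ≤ L⁻¹ * ∑ c : Λ₂, δ := by
          apply mul_le_mul_of_nonneg_left _ (inv_pos.mpr hL0).le
          exact norm_sum_le_of_le _ fun c _ => hf c
      _ = δ := by
          rw [Finset.sum_const, Finset.card_univ, nsmul_eq_mul, ← hL, ← mul_assoc,
            inv_mul_cancel₀ hL0.ne', one_mul]
  have hVe : ∀ (j : Fin ℓ) ω, ‖(Vw r W (extω ω) j : B) * e (j, ω) *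
      star (Vw r W (extω ω) j : B) - e' ω‖ ≤ 1 / (m : ℝ) := by
    intro j ω
    have h1 : (Vw r W (extω ω) j : B) * e (j, ω) * star (Vw r W (extω ω) j : B) - e' ω =
        L⁻¹ • ∑ c : Λ₂, (e' (rsF j c ω) - e' ω) := by
      rw [Finset.sum_sub_distrib, smul_sub, hsmul1]
      congr 1
      simp only [e]
      rw [mul_smul_comm, smul_mul_assoc, Finset.mul_sum, Finset.sum_mul]
      congr 1
      refine Finset.sum_congr rfl fun c _ => ?_
      set v := Vw r W (extω ω) j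
      calc (v : B) * (star (v : B) * e' (rsF j c ω) * (v : B)) * star (v : B) =
          ((v : B) * star (v : B)) * e' (rsF j c ω) * ((v : B) * star (v : B)) := by
            simp only [mul_assoc]
        _ = e' (rsF j c ω) := by
            rw [Unitary.mul_star_self_of_mem v.2, one_mul, mul_one]
    rw [h1]
    exact havg _ _ fun c => her ω j c
  refine ⟨Fin ℓ × (Fin ℓ → Λ₁ × Λ₂), inferInstance, inferInstance, V, U, e, ?_, ?_, ?_, ?_⟩
  · rintro ⟨j, ω⟩
    constructor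
    · apply smul_nonneg (inv_pos.mpr hL0).le
      exact Finset.sum_nonneg fun c _ => star_left_conjugate_nonneg (he01 _).1 _
    · have h1 : (∑ c : Λ₂, star (Vw r W (extω ω) j : B) * e' (rsF j c ω) *
          (Vw r W (extω ω) j : B)) ≤ ∑ _c : Λ₂, (1 : B) := by
        refine Finset.sum_le_sum fun c _ => ?_
        have h2 := star_left_conjugate_le_conjugate (he01 (rsF j c ω)).2
          (Vw r W (extω ω) j : B)
        rwa [mul_one, Unitary.star_mul_self_of_mem (Vw r W (extω ω) j).2] at h2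
      have h3 := smul_le_smul_of_nonneg_left h1 (inv_pos.mpr hL0).le
      rwa [hsmul1] at h3
  · rintro ⟨j, ω⟩ α
    have h1 : e (j, ω) * (a α : B) - (a α : B) * e (j, ω) =
        L⁻¹ • ∑ c : Λ₂, -((a α : B) * (star (Vw r W (extω (rsF j c ω)) j : B) *
          e' (rsF j c ω) * (Vw r W (extω (rsF j c ω)) j : B)) -
          (star (Vw r W (extω (rsF j c ω)) j : B) * e' (rsF j c ω) *
            (Vw r W (extω (rsF j c ω)) j : B)) * (a α : B)) := by
      simp only [hVrs, neg_sub, Finset.sum_sub_distrib, smul_sub]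
      simp only [e, smul_mul_assoc, mul_smul_comm, Finset.sum_mul, Finset.mul_sum]
    rw [h1]
    refine (havg _ _ fun c => ?_).trans hme
    rw [norm_neg]
    exact hea (rsF j c ω) j α
  · intro ρ hρ
    have h1 : ∑ x : Fin ℓ × (Fin ℓ → Λ₁ × Λ₂), ρ (e x) = ℓ * ∑ ω, ρ (e' ω) := by
      rw [Fintype.sum_prod_type]
      have h2 : ∀ j : Fin ℓ, ∑ ω, ρ (e (j, ω)) = ∑ ω, ρ (e' ω) := by
        intro j
        have h3 : ∀ ω, ρ (e (j, ω)) = L⁻¹ * ∑ c : Λ₂, ρ (e' (rsF j c ω)) := by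
          intro ω
          simp only [e, map_smul, map_sum, smul_eq_mul, hρ.conj']
        simp only [h3]
        rw [← Finset.mul_sum, Finset.sum_comm, Walk3_sum j (fun ω => ρ (e' ω)), nsmul_eq_mul,
          ← hL, ← mul_assoc, inv_mul_cancel₀ hL0.ne', one_mul]
      simp only [h2]
      rw [Finset.sum_const, Finset.card_univ, Fintype.card_fin, nsmul_eq_mul]
    rw [map_smul, map_sum, h1, smul_eq_mul]
    refine le_trans (le_of_eq ?_) ((het ρ hρ).trans hℓC)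
    rw [Fintype.card_prod, Fintype.card_fin, Fintype.card_fun, Fintype.card_fin]
    push_cast
    have h4 : ((Fintype.card Λ₁ : ℝ) * (Fintype.card Λ₂ : ℝ)) ^ ℓ ≠ 0 := by
      have h5 : (0 : ℝ) < Fintype.card Λ₁ := by exact_mod_cast Fintype.card_pos
      positivity
    rw [Fintype.card_prod]
    push_cast
    field_simp
  · intro ψ hψ c μ
    set N : ℝ := (Fintype.card (Fin ℓ × (Fin ℓ → Λ₁ × Λ₂)) : ℝ) with hN
    have hNeq : N = ℓ * (Fintype.card (Fin ℓ → Λ₁ × Λ₂) : ℝ) := by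
      rw [hN, Fintype.card_prod, Fintype.card_fin]; push_cast; rfl
    have hN0 : 0 < N := by rw [hN]; exact_mod_cast Fintype.card_pos
    -- the key estimate
    have hkey : ‖∑ x : Fin ℓ × (Fin ℓ → Λ₁ × Λ₂), ψ ((V x : B) * (W c : B) * (U x : B))
          ((V x : B) * M μ * (1 - e x) * star (V x : B))‖ ≤ L * (N * (ε' + 1 / m)) := by
      rw [Fintype.sum_prod_type]
      have h1 : ∀ j : Fin ℓ, ∑ ω, ψ ((V (j, ω) : B) * (W c : B) * (U (j, ω) : B))
          ((V (j, ω) : B) * M μ * (1 - e (j, ω)) * star (V (j, ω) : B)) =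
          Fintype.card Λ₂ • ∑ ω, if (ω j).2 = c then
            ψ ((V (j, ω) : B) * (W c : B) * (U (j, ω) : B))
              ((V (j, ω) : B) * M μ * (1 - e (j, ω)) * star (V (j, ω) : B)) else 0 := by
        intro j
        apply Walk3_restrict j c (fun ω => ψ ((V (j, ω) : B) * (W c : B) * (U (j, ω) : B))
          ((V (j, ω) : B) * M μ * (1 - e (j, ω)) * star (V (j, ω) : B)))
        intro c' ω
        simp only [V, U, hVrs, hUrs, hers]
      simp only [h1]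
      rw [← Finset.smul_sum, Finset.sum_comm, nsmul_eq_mul, norm_mul, Complex.norm_natCast, ← hL]
      apply mul_le_mul_of_nonneg_left _ hL0.le
      have h2 : ∀ ω : Fin ℓ → Λ₁ × Λ₂, ‖∑ j : Fin ℓ, (if (ω j).2 = c then
            ψ ((V (j, ω) : B) * (W c : B) * (U (j, ω) : B))
              ((V (j, ω) : B) * M μ * (1 - e (j, ω)) * star (V (j, ω) : B)) else 0)‖ ≤
            ℓ * (ε' + 1 / m) := by
        intro ω
        set T : unitary B := Tw r W (extω ω) ℓ with hT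
        -- the sum is ψ T (something)
        have h3 : ∀ j : Fin ℓ, (if (ω j).2 = c then
            ψ ((V (j, ω) : B) * (W c : B) * (U (j, ω) : B))
              ((V (j, ω) : B) * M μ * (1 - e (j, ω)) * star (V (j, ω) : B)) else 0) =
            ψ (T : B) (if (ω j).2 = c then
              (V (j, ω) : B) * M μ * (1 - e (j, ω)) * star (V (j, ω) : B) else 0) := by
          intro j
          split_ifs with hj
          · have h4 := VWU r W ℓ (extω ω) j j.2
            have h5 : extω ω (j : ℕ) = ω j := by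
              unfold extω
              rw [dif_pos j.2]
            rw [h5, hj] at h4
            have h6 : (V (j, ω) : B) * (W c : B) * (U (j, ω) : B) = (T : B) := by
              rw [hT, ← h4]
              simp only [V, U, Submonoid.coe_mul]
            rw [h6]
          · rw [map_zero]
        simp only [h3]
        rw [← map_sum]
        refine (hψ T T.2 _).trans ?_
        have h7 : ∑ j : Fin ℓ, (if (ω j).2 = c then
              (V (j, ω) : B) * M μ * (1 - e (j, ω)) * star (V (j, ω) : B) else 0) =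
            Zw r W ℓ c (M μ) (extω ω) * (1 - e' ω) -
            ∑ j : Fin ℓ, (if (ω j).2 = c then (V (j, ω) : B) * M μ * star (V (j, ω) : B) *
              ((V (j, ω) : B) * e (j, ω) * star (V (j, ω) : B) - e' ω) else 0) := by
          have h8 : Zw r W ℓ c (M μ) (extω ω) = ∑ j : Fin ℓ, (if (ω j).2 = c then
              (V (j, ω) : B) * M μ * star (V (j, ω) : B) else 0) := by
            unfold Zw
            rw [Finset.sum_range]
            refine Finset.sum_congr rfl fun j _ => ?_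
            unfold Dw
            have h5 : extω ω (j : ℕ) = ω j := by
              unfold extω
              rw [dif_pos j.2]
            rw [h5]
          rw [h8, Finset.sum_mul, ← Finset.sum_sub_distrib]
          refine Finset.sum_congr rfl fun j _ => ?_
          split_ifs
          · set v := V (j, ω)
            set y := e (j, ω)
            set x := M μ
            set z := e' ω
            have hv : star (v : B) * (v : B) = 1 := Unitary.star_mul_self_of_mem v.2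
            have h9 : (v : B) * x * star (v : B) * ((v : B) * y * star (v : B)) =
                (v : B) * x * y * star (v : B) := by
              calc _ = (v : B) * x * (star (v : B) * (v : B)) * y * star (v : B) := by
                    simp only [mul_assoc]
                _ = _ := by rw [hv, mul_one]
            rw [mul_sub, mul_sub, mul_sub, h9, mul_one, mul_one, sub_mul]
            abel
          · simp
        rw [h7]
        have hVMV : ∀ j : Fin ℓ, ‖(V (j, ω) : B) * M μ * star (V (j, ω) : B)‖ ≤ 1 := by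
          intro j
          rw [← Unitary.coe_star, CStarRing.norm_mul_coe_unitary, CStarRing.norm_coe_unitary_mul]
          exact (hM μ).2.1
        have h10 : ‖∑ j : Fin ℓ, (if (ω j).2 = c then (V (j, ω) : B) * M μ *
            star (V (j, ω) : B) * ((V (j, ω) : B) * e (j, ω) * star (V (j, ω) : B) - e' ω)
            else 0)‖ ≤ ∑ _j : Fin ℓ, 1 / (m : ℝ) := by
          refine norm_sum_le_of_le _ fun j _ => ?_
          split_ifs
          · refine (norm_mul_le _ _).trans ?_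
            calc _ ≤ 1 * (1 / (m : ℝ)) :=
                  mul_le_mul (hVMV j) (hVe j ω) (norm_nonneg _) zero_le_one
              _ = _ := one_mul _
          · rw [norm_zero]; positivity
        rw [Finset.sum_const, Finset.card_univ, Fintype.card_fin, nsmul_eq_mul] at h10
        calc _ ≤ ‖Zw r W ℓ c (M μ) (extω ω) * (1 - e' ω)‖ + _ := norm_sub_le _ _
          _ ≤ ε' * ℓ + ℓ * (1 / (m : ℝ)) := add_le_add (heZ ω c μ) h10
          _ = ℓ * (ε' + 1 / m) := by ring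
      calc _ ≤ ∑ _ω : Fin ℓ → Λ₁ × Λ₂, (ℓ : ℝ) * (ε' + 1 / m) := norm_sum_le_of_le _ fun ω _ => h2 ω
        _ = N * (ε' + 1 / m) := by
          rw [Finset.sum_const, Finset.card_univ, nsmul_eq_mul, hNeq]; ring
    rw [norm_mul, norm_inv, Complex.norm_natCast, ← hN]
    calc N⁻¹ * _ ≤ N⁻¹ * (L * (N * (ε' + 1 / m))) :=
          mul_le_mul_of_nonneg_left hkey (inv_pos.mpr hN0).le
      _ = L * ε' + L * (1 / m) := by field_simp
      _ ≤ ε := by
          have : L * ε' = ε / 2 := by rw [hε']; field_simp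
          linarith

end Pool.MP263F
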