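import Pool.Agent.Lib.MP_263cac_full.Mom2
import Pool.Agent.Lib.MP_263cac_full.LemE
set_option autoImplicit false

/-! The random walk `T_0 = 1`, `T_{j+1} = T_j r_j W_j`, `V_j = T_j r_j`; letters `(Λ₁ × Λ₂)`. -/

namespace Pool.MP263F
variable {B : Type} [CStarAlgebra B]

section
variable {Λ₁ Λ₂ : Type} (r : Λ₁ → unitary B) (W : Λ₂ → unitary B)

/-- `T_j` -/
noncomputable def Tw (ω : ℕ → Λ₁ × Λ₂) : ℕ → unitary B
  | 0 => 1
  | (j + 1) => Tw ω j * r (ω j).1 * W (ω j).2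

/-- `V_j = T_j r_j` -/
noncomputable def Vw (ω : ℕ → Λ₁ × Λ₂) (j : ℕ) : unitary B := Tw r W ω j * r (ω j).1

/-- `U_j = T_{j+1}^* T_ℓ`, the product of the letters after `j` -/
noncomputable def Uw (ℓ : ℕ) (ω : ℕ → Λ₁ × Λ₂) (j : ℕ) : unitary B :=
  star (Tw r W ω (j + 1)) * Tw r W ω ℓ

open Classical in
/-- increment `1_{W_j = c} V_j M V_j^*` -/
noncomputable def Dw (c : Λ₂) (M : B) (j : ℕ) (ω : ℕ → Λ₁ × Λ₂) : B :=
  if (ω j).2 = c then (Vw r W ω j : B) * M * star (Vw r W ω j : B) else 0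

/-- `Z = Σ_{j<ℓ} 1_{W_j = c} V_j M V_j^*` -/
noncomputable def Zw (ℓ : ℕ) (c : Λ₂) (M : B) (ω : ℕ → Λ₁ × Λ₂) : B :=
  ∑ j ∈ Finset.range ℓ, Dw r W c M j ω

/-- resample the `W`-letter at position `j` of a sequence -/
def rs (j : ℕ) (c : Λ₂) (ω : ℕ → Λ₁ × Λ₂) : ℕ → Λ₁ × Λ₂ := Function.update ω j ((ω j).1, c)

/-- resample the `W`-letter at position `j` of a finite word -/
def rsF {ℓ : ℕ} (j : Fin ℓ) (c : Λ₂) (ω : Fin ℓ → Λ₁ × Λ₂) : Fin ℓ → Λ₁ × Λ₂ :=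
  Function.update ω j ((ω j).1, c)

end

end Pool.MP263F
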